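import Pool.Agent.Helper12.Circ.Defs

/-!
CIRC-FAN (b): uncolourable lists of size `6 d - 3` on the double fan (MP_4c807e_co).
-/

namespace Pool.Agent.Circ

open Finset

/-- The third part of the lists of the path vertices. -/
def fanX (e j : ℕ) : Finset ℕ := Ico (24 * (e + 1) + j * e) (24 * (e + 1) + j * e + (2 * e + 1))

/-- The list of the path vertex of the block of `(a, b)` with position `j` in the block. -/
def fanP (e a b j : ℕ) : Finset ℕ :=
  Ioo (a - (e + 1)) (a + (e + 1)) ∪ (Ioo (b - (e + 1)) (b + (e + 1)) ∪ fanX e j)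

/-- The lists. -/
def fanL (e : ℕ) (i : ℕ) : Finset ℕ :=
  if i = 0 then Ico (2 * (e + 1)) (8 * (e + 1))
  else if i = 1 then Ico (12 * (e + 1)) (18 * (e + 1))
  else fanP e (2 * (e + 1) + (i - 2) / (2 * (e + 1)) / (6 * (e + 1)))
    (12 * (e + 1) + (i - 2) / (2 * (e + 1)) % (6 * (e + 1))) ((i - 2) % (2 * (e + 1)))

theorem fanP_card (e a b j : ℕ) (ha : 2 * (e + 1) ≤ a) (ha' : a < 8 * (e + 1))
    (hb : 12 * (e + 1) ≤ b) (hb' : b < 18 * (e + 1)) : (fanP e a b j).card = 6 * e + 3 := by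
  unfold fanP fanX
  rw [card_union_of_disjoint, card_union_of_disjoint]
  · simp only [Nat.card_Ioo, Nat.card_Ico]
    omega
  · rw [disjoint_left]
    intro x hx hx'
    simp only [mem_Ioo, mem_Ico] at hx hx'
    have : 0 ≤ j * e := Nat.zero_le _
    omega
  · rw [disjoint_left]
    intro x hx hx'
    simp only [mem_Ioo, mem_Ico, mem_union] at hx hx'
    have : 0 ≤ j * e := Nat.zero_le _
    omega

theorem fanP_sub (e a b j : ℕ) (ha' : a < 8 * (e + 1)) (hb' : b < 18 * (e + 1))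
    (hj : j < 2 * (e + 1)) :
    fanP e a b j ⊆ range (30 * (e + 1) + 2 * (e + 1) ^ 2) := by
  intro x hx
  unfold fanP fanX at hx
  simp only [mem_Ioo, mem_Ico, mem_union] at hx
  rw [mem_range]
  have h1 : j * e ≤ (2 * (e + 1)) * e := Nat.mul_le_mul_right _ hj.le
  have h2 : (2 * (e + 1)) * e ≤ 2 * (e + 1) ^ 2 := by nlinarith
  omega

/-- CIRC-FAN (b): the lower bound. -/
theorem fan_lower (d : ℕ) (hd : 1 ≤ d) :
    ∃ N : ℕ, ∀ t : ℝ, t ≤ 6 - 3 / d → ¬ Choosable (fan N) t := by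
  obtain ⟨e, rfl⟩ : ∃ e, d = e + 1 := ⟨d - 1, by omega⟩
  refine ⟨36 * (e + 1) ^ 2 * (2 * (e + 1)), fun t ht hch => ?_⟩
  have hdiv1 : ∀ i : ℕ, i < 36 * (e + 1) ^ 2 * (2 * (e + 1)) + 2 → 2 ≤ i →
      (i - 2) / (2 * (e + 1)) / (6 * (e + 1)) < 6 * (e + 1) := by
    intro i hi h2
    rw [Nat.div_div_eq_div_mul, Nat.div_lt_iff_lt_mul (by positivity)]
    calc i - 2 < 36 * (e + 1) ^ 2 * (2 * (e + 1)) := by omega
      _ = 6 * (e + 1) * (2 * (e + 1) * (6 * (e + 1))) := by ring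
  have hcard : ∀ i : ℕ, i < 36 * (e + 1) ^ 2 * (2 * (e + 1)) + 2 → 6 * e + 3 ≤ (fanL e i).card := by
    intro i hi
    unfold fanL
    split_ifs with h0 h1
    · simp only [Nat.card_Ico]; omega
    · simp only [Nat.card_Ico]; omega
    · have h2 := hdiv1 i hi (by omega)
      have h3 : (i - 2) / (2 * (e + 1)) % (6 * (e + 1)) < 6 * (e + 1) := Nat.mod_lt _ (by positivity)
      rw [fanP_card _ _ _ _ (Nat.le_add_right _ _) (by omega) (Nat.le_add_right _ _) (by omega)]
  have hsub : ∀ i : ℕ, i < 36 * (e + 1) ^ 2 * (2 * (e + 1)) + 2 →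
      fanL e i ⊆ range (30 * (e + 1) + 2 * (e + 1) ^ 2) := by
    intro i hi
    unfold fanL
    split_ifs with h0 h1
    · intro x hx
      rw [mem_Ico] at hx
      rw [mem_range]
      omega
    · intro x hx
      rw [mem_Ico] at hx
      rw [mem_range]
      omega
    · have h2 := hdiv1 i hi (by omega)
      have h3 : (i - 2) / (2 * (e + 1)) % (6 * (e + 1)) < 6 * (e + 1) := Nat.mod_lt _ (by positivity)
      have h4 : (i - 2) % (2 * (e + 1)) < 2 * (e + 1) := Nat.mod_lt _ (by positivity)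
      apply fanP_sub <;> omega
  obtain ⟨c, ⟨hck, hcol⟩, hmem⟩ := hch (30 * (e + 1) + 2 * (e + 1) ^ 2) (e + 1) (by omega)
    (by omega) (fun v => fanL e v) (fun v => hsub v v.2) (fun v => by
      have h1 : t * ((e + 1 : ℕ) : ℝ) ≤ (6 - 3 / ((e + 1 : ℕ) : ℝ)) * ((e + 1 : ℕ) : ℝ) :=
        mul_le_mul_of_nonneg_right ht (by positivity)
      have h2 : (6 - 3 / ((e + 1 : ℕ) : ℝ)) * ((e + 1 : ℕ) : ℝ) = 6 * e + 3 := by
        have : ((e + 1 : ℕ) : ℝ) ≠ 0 := by positivity
        field_simp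
        push_cast
        ring
      have h3 : ((6 * e + 3 : ℕ) : ℝ) ≤ ((fanL e v).card : ℝ) := by
        exact_mod_cast hcard v v.2
      push_cast at h3 ⊢
      rw [h2] at h1
      push_cast at h1
      linarith)
  -- the colours of the two hubs
  have hN : 0 < 36 * (e + 1) ^ 2 * (2 * (e + 1)) := by positivity
  have m0 := hmem ⟨0, by omega⟩
  have m1 := hmem ⟨1, by omega⟩
  simp only [fanL, if_pos, mem_Ico] at m0
  simp only [fanL, one_ne_zero, if_false, if_true, mem_Ico] at m1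
  obtain ⟨a, ha⟩ : ∃ a, c ⟨0, by omega⟩ = 2 * (e + 1) + a := ⟨c ⟨0, by omega⟩ - 2 * (e + 1), by omega⟩
  obtain ⟨b, hb⟩ : ∃ b, c ⟨1, by omega⟩ = 12 * (e + 1) + b :=
    ⟨c ⟨1, by omega⟩ - 12 * (e + 1), by omega⟩
  have ha6 : a < 6 * (e + 1) := by omega
  have hb6 : b < 6 * (e + 1) := by omega
  -- the block
  have hp : a * (6 * (e + 1)) + b < 36 * (e + 1) ^ 2 := by
    have : a * (6 * (e + 1)) + b < (a + 1) * (6 * (e + 1)) := by nlinarith
    have h2 : (a + 1) * (6 * (e + 1)) ≤ (6 * (e + 1)) * (6 * (e + 1)) :=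
      Nat.mul_le_mul_right _ (by omega)
    nlinarith
  have hq : ∀ j, j < 2 * (e + 1) →
      (a * (6 * (e + 1)) + b) * (2 * (e + 1)) + j + 2 < 36 * (e + 1) ^ 2 * (2 * (e + 1)) + 2 := by
    intro j hj
    have : (a * (6 * (e + 1)) + b + 1) * (2 * (e + 1)) ≤ 36 * (e + 1) ^ 2 * (2 * (e + 1)) :=
      Nat.mul_le_mul_right _ hp
    nlinarith
  -- colours in the block lie in the third part
  have hX : ∀ (j : ℕ) (hj : j < 2 * (e + 1)),
      c ⟨(a * (6 * (e + 1)) + b) * (2 * (e + 1)) + j + 2, hq j hj⟩ ∈ fanX e j := by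
    intro j hj
    have hm := hmem ⟨(a * (6 * (e + 1)) + b) * (2 * (e + 1)) + j + 2, hq j hj⟩
    have e1 : ((a * (6 * (e + 1)) + b) * (2 * (e + 1)) + j + 2 - 2) / (2 * (e + 1)) =
        a * (6 * (e + 1)) + b := by
      rw [Nat.add_sub_cancel, add_comm, Nat.add_mul_div_right _ _ (by positivity),
        Nat.div_eq_of_lt hj, zero_add]
    have e2 : ((a * (6 * (e + 1)) + b) * (2 * (e + 1)) + j + 2 - 2) % (2 * (e + 1)) = j := by
      rw [Nat.add_sub_cancel, add_comm, Nat.add_mul_mod_self_right, Nat.mod_eq_of_lt hj]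
    have e3 : (a * (6 * (e + 1)) + b) / (6 * (e + 1)) = a := by
      rw [add_comm, Nat.add_mul_div_right _ _ (by positivity), Nat.div_eq_of_lt hb6, zero_add]
    have e4 : (a * (6 * (e + 1)) + b) % (6 * (e + 1)) = b := by
      rw [add_comm, Nat.add_mul_mod_self_right, Nat.mod_eq_of_lt hb6]
    simp only [fanL] at hm
    rw [if_neg (by omega), if_neg (by omega), e1, e2, e3, e4, fanP, mem_union, mem_union] at hm
    have c0 := (hcol ⟨0, by omega⟩ ⟨(a * (6 * (e + 1)) + b) * (2 * (e + 1)) + j + 2, hq j hj⟩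
      (Or.inl ⟨by simp, by simp⟩)).1
    have c1 := (hcol ⟨1, by omega⟩ ⟨(a * (6 * (e + 1)) + b) * (2 * (e + 1)) + j + 2, hq j hj⟩
      (Or.inl ⟨by simp, by simp⟩)).1
    rw [ha] at c0
    rw [hb] at c1
    rcases hm with hm | hm | hm
    · exfalso
      rw [mem_Ioo] at hm
      rw [le_abs] at c0
      push_cast at c0
      omega
    · exfalso
      rw [mem_Ioo] at hm
      rw [le_abs] at c1
      push_cast at c1
      omega
    · exact hm
  -- the colours climb
  have hclimb : ∀ (j : ℕ) (hj : j < 2 * (e + 1)), 24 * (e + 1) + j * (e + 1) ≤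
      c ⟨(a * (6 * (e + 1)) + b) * (2 * (e + 1)) + j + 2, hq j hj⟩ := by
    intro j
    induction j with
    | zero =>
      intro hj
      have := hX 0 hj
      rw [fanX, mem_Ico] at this
      simp only [zero_mul, add_zero] at this ⊢
      exact this.1
    | succ j ih =>
      intro hj
      have h1 := ih (by omega)
      have h2 := hX j (by omega)
      have h3 := hX (j + 1) hj
      have c2 := (hcol ⟨(a * (6 * (e + 1)) + b) * (2 * (e + 1)) + j + 2, hq j (by omega)⟩
        ⟨(a * (6 * (e + 1)) + b) * (2 * (e + 1)) + (j + 1) + 2, hq (j + 1) hj⟩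
        (Or.inr (Or.inr ⟨by simp, by simp, Or.inl (by simp only; ring)⟩))).1
      rw [fanX, mem_Ico] at h2 h3
      rw [le_abs] at c2
      have e5 : (j + 1) * e = j * e + e := by ring
      have e6 : (j + 1) * (e + 1) = j * (e + 1) + (e + 1) := by ring
      rw [e5] at h3
      rw [e6]
      push_cast at c2
      omega
  have f1 := hclimb (2 * e + 1) (by omega)
  have f2 := hX (2 * e + 1) (by omega)
  rw [fanX, mem_Ico] at f2
  have e7 : (2 * e + 1) * (e + 1) = (2 * e + 1) * e + (2 * e + 1) := by ring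
  rw [e7] at f1
  omega

end Pool.Agent.Circ
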