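import Mathlib

set_option autoImplicit false

/-!
MP_120218_co: numerical inequalities for the final choice of parameters.
-/

namespace Pool.Agent.Helper84.SP

/-- the integer parameter `K` -/
noncomputable def KK (b : ℝ) : ℕ := ⌈(2 : ℝ) ^ (21 / 10 * b)⌉₊

theorem KK_ge (b : ℝ) : (2 : ℝ) ^ (21 / 10 * b) ≤ KK b := Nat.le_ceil _

theorem one_le_KK (b : ℝ) : 1 ≤ KK b := by
  unfold KK
  exact Nat.one_le_iff_ne_zero.2 (Nat.ceil_pos.2 (by positivity)).ne'

theorem KK_le {b : ℝ} (hb : 0 ≤ b) : (KK b : ℝ) ≤ 2 * (2 : ℝ) ^ (21 / 10 * b) := by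
  have h1 : (KK b : ℝ) < (2 : ℝ) ^ (21 / 10 * b) + 1 := Nat.ceil_lt_add_one (by positivity)
  have h2 : (1 : ℝ) ≤ (2 : ℝ) ^ (21 / 10 * b) := Real.one_le_rpow (by norm_num) (by positivity)
  linarith

/-- the weight -/
noncomputable def WW (b : ℝ) : ℝ := 4096 * (KK b : ℝ) ^ 4 * (576 * (21 / 10 * b) ^ 2)

theorem WW_pos {b : ℝ} (hb : 0 < b) : 0 < WW b := by
  have h : (0 : ℝ) < KK b := by exact_mod_cast one_le_KK b
  unfold WW
  positivity

theorem WW_le {b : ℝ} (hb : 0 ≤ b) :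
    WW b ≤ 4096 * 16 * 576 * (441 / 100) * b ^ 2 * (2 : ℝ) ^ (84 / 10 * b) := by
  have h1 := KK_le hb
  have h2 : (KK b : ℝ) ^ 4 ≤ (2 * (2 : ℝ) ^ (21 / 10 * b)) ^ 4 :=
    pow_le_pow_left₀ (by positivity) h1 4
  have h3 : (2 * (2 : ℝ) ^ (21 / 10 * b)) ^ 4 = 16 * (2 : ℝ) ^ (84 / 10 * b) := by
    rw [mul_pow, ← Real.rpow_natCast ((2 : ℝ) ^ (21 / 10 * b)) 4, ← Real.rpow_mul (by norm_num)]
    norm_num
    congr 1
    ring
  rw [h3] at h2
  unfold WW
  calc 4096 * (KK b : ℝ) ^ 4 * (576 * (21 / 10 * b) ^ 2)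
      ≤ 4096 * (16 * (2 : ℝ) ^ (84 / 10 * b)) * (576 * (21 / 10 * b) ^ 2) := by
        apply mul_le_mul_of_nonneg_right _ (by positivity)
        exact mul_le_mul_of_nonneg_left h2 (by norm_num)
    _ = _ := by ring

theorem le_exp_sub_one (y : ℝ) : y ≤ Real.exp (y - 1) := by
  have := Real.add_one_le_exp (y - 1)
  linarith

theorem num1 {b : ℝ} (hb : 0 < b) : 50 * b * WW b ≤ Real.exp (6 * b + 30) := by
  have h1 := WW_le hb.le
  have h2 : b ^ 3 ≤ 4913 * Real.exp (3 / 17 * b - 3) := by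
    have h3 := le_exp_sub_one (b / 17)
    have h4 : (b / 17) ^ 3 ≤ Real.exp (b / 17 - 1) ^ 3 := pow_le_pow_left₀ (by positivity) h3 3
    have h5 : Real.exp (b / 17 - 1) ^ 3 = Real.exp (3 / 17 * b - 3) := by
      rw [← Real.exp_nat_mul]
      congr 1
      push_cast
      ring
    rw [h5] at h4
    have h6 : (b / 17) ^ 3 = b ^ 3 / 4913 := by ring
    rw [h6, div_le_iff₀ (by norm_num)] at h4
    linarith
  have h3 : (2 : ℝ) ^ (84 / 10 * b) ≤ Real.exp (582288 / 100000 * b) := by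
    rw [Real.rpow_def_of_pos (by norm_num)]
    apply Real.exp_le_exp.2
    have := Real.log_two_lt_d9
    nlinarith
  have h4 : (41 * 10 ^ 12 : ℝ) ≤ Real.exp 33 := by
    have h5 : Real.exp 33 = Real.exp 1 ^ 33 := by
      rw [← Real.exp_nat_mul]
      norm_num
    rw [h5]
    have h6 : (2.718 : ℝ) ^ 33 ≤ Real.exp 1 ^ 33 := by
      apply pow_le_pow_left₀ (by norm_num)
      have := Real.exp_one_gt_d9
      linarith
    refine le_trans ?_ h6
    norm_num
  calc 50 * b * WW b ≤ 50 * b * (4096 * 16 * 576 * (441 / 100) * b ^ 2 *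
        (2 : ℝ) ^ (84 / 10 * b)) := mul_le_mul_of_nonneg_left h1 (by positivity)
    _ = 50 * 4096 * 16 * 576 * (441 / 100) * (b ^ 3 * (2 : ℝ) ^ (84 / 10 * b)) := by ring
    _ ≤ 50 * 4096 * 16 * 576 * (441 / 100) * (4913 * Real.exp (3 / 17 * b - 3) *
        Real.exp (582288 / 100000 * b)) := by
        apply mul_le_mul_of_nonneg_left _ (by norm_num)
        exact mul_le_mul h2 h3 (by positivity) (by positivity)
    _ = 50 * 4096 * 16 * 576 * (441 / 100) * 4913 *
        Real.exp ((3 / 17 + 582288 / 100000) * b - 3) := by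
        rw [mul_assoc 4913, ← Real.exp_add]
        have : 3 / 17 * b - 3 + 582288 / 100000 * b = (3 / 17 + 582288 / 100000) * b - 3 := by
          ring
        rw [this]
        ring
    _ ≤ (41 * 10 ^ 12) * Real.exp (6 * b - 3) := by
        apply mul_le_mul
        · norm_num
        · apply Real.exp_le_exp.2
          nlinarith
        · positivity
        · positivity
    _ ≤ Real.exp 33 * Real.exp (6 * b - 3) := mul_le_mul_of_nonneg_right h4 (by positivity)
    _ = _ := by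
        rw [← Real.exp_add]
        congr 1
        ring

theorem num2 {b : ℝ} (hb : 0 < b) : 21 * WW b ≤ (2 : ℝ) ^ (9 * b + 34) := by
  have h1 := WW_le hb.le
  have h2 : b ^ 2 ≤ 4 * (2 : ℝ) ^ (6 / 10 * b) := by
    have h3 := le_exp_sub_one (2 / 10 * b)
    have h4 : (2 / 10 * b) ^ 2 ≤ Real.exp (2 / 10 * b - 1) ^ 2 :=
      pow_le_pow_left₀ (by positivity) h3 2
    have h5 : Real.exp (2 / 10 * b - 1) ^ 2 = Real.exp (4 / 10 * b) * Real.exp (-2) := by
      rw [← Real.exp_nat_mul, ← Real.exp_add]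
      congr 1
      push_cast
      ring
    have h6 : Real.exp (4 / 10 * b) ≤ (2 : ℝ) ^ (6 / 10 * b) := by
      rw [Real.rpow_def_of_pos (by norm_num)]
      apply Real.exp_le_exp.2
      have := Real.log_two_gt_d9
      nlinarith
    have h7 : Real.exp (-2) ≤ 4 / 25 := by
      have h8 : Real.exp (-2) = (Real.exp 1)⁻¹ ^ 2 := by
        rw [← Real.exp_neg, ← Real.exp_nat_mul]
        norm_num
      rw [h8]
      have h9 : (Real.exp 1)⁻¹ ≤ (5 / 2 : ℝ)⁻¹ := by
        apply inv_anti₀ (by norm_num)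
        have := Real.exp_one_gt_d9
        linarith
      have h10 := pow_le_pow_left₀ (inv_nonneg.2 (Real.exp_pos 1).le) h9 2
      refine h10.trans ?_
      norm_num
    rw [h5] at h4
    have h8 : Real.exp (4 / 10 * b) * Real.exp (-2) ≤ (2 : ℝ) ^ (6 / 10 * b) * (4 / 25) :=
      mul_le_mul h6 h7 (by positivity) (by positivity)
    nlinarith
  calc 21 * WW b ≤ 21 * (4096 * 16 * 576 * (441 / 100) * b ^ 2 * (2 : ℝ) ^ (84 / 10 * b)) :=
        mul_le_mul_of_nonneg_left h1 (by norm_num)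
    _ = (21 * 4096 * 16 * 576 * (441 / 100)) * (b ^ 2 * (2 : ℝ) ^ (84 / 10 * b)) := by ring
    _ ≤ (21 * 4096 * 16 * 576 * (441 / 100)) * (4 * (2 : ℝ) ^ (6 / 10 * b) *
        (2 : ℝ) ^ (84 / 10 * b)) := by
        apply mul_le_mul_of_nonneg_left _ (by norm_num)
        exact mul_le_mul_of_nonneg_right h2 (by positivity)
    _ = (21 * 4096 * 16 * 576 * (441 / 100) * 4) * (2 : ℝ) ^ (9 * b) := by
        rw [mul_assoc 4, ← Real.rpow_add (by norm_num)]
        have : 6 / 10 * b + 84 / 10 * b = 9 * b := by ring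
        rw [this]
        ring
    _ ≤ (2 : ℝ) ^ (34 : ℝ) * (2 : ℝ) ^ (9 * b) := by
        apply mul_le_mul_of_nonneg_right _ (by positivity)
        norm_num
    _ = _ := by
        rw [← Real.rpow_add (by norm_num)]
        congr 1
        ring

end Pool.Agent.Helper84.SP
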