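import Pool.Agent.Helper84.SPMain
import Pool.Agent.Helper84.SPNum

set_option autoImplicit false

/-!
MP_120218_co: iterated sums and products, and the final statements.
-/

open Finset

namespace Pool.Agent.Helper84.SP

section Iterate

variable {ι G : Type*} [AddCommGroup G] [DecidableEq G]

/-- iterated sums of `α y`, `y ∈ A` -/
def it (α : ι → G) (A : Finset ι) : ℕ → Finset G
  | 0 => {0}
  | j + 1 => sset α (it α A j) A

theorem it_nonempty {α : ι → G} {A : Finset ι} (hA : A.Nonempty) (j : ℕ) :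
    (it α A j).Nonempty := by
  induction j with
  | zero => exact singleton_nonempty _
  | succ j ih =>
    obtain ⟨x, hx⟩ := ih
    obtain ⟨y, hy⟩ := hA
    exact ⟨_, mem_sset hx hy⟩

theorem sset_card_ge {α : ι → G} {X : Finset G} {D : Finset ι} (hD : D.Nonempty) :
    X.card ≤ (sset α X D).card := by
  obtain ⟨y, hy⟩ := hD
  apply card_le_card_of_injOn (fun x => x + α y)
  · intro x hx
    exact mem_sset hx hy
  · intro a _ b _ h
    exact add_right_cancel h

theorem it_mono {α : ι → G} {A : Finset ι} (hA : A.Nonempty) {i j : ℕ} (hij : i ≤ j) :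
    (it α A i).card ≤ (it α A j).card :=
  monotone_nat_of_le_succ (f := fun j => (it α A j).card) (fun _ => sset_card_ge hA) hij

theorem it_card_ge {α : ι → G} {A : Finset ι} (hA : A.Nonempty) (hinj : Set.InjOn α A) {h : ℕ}
    (hh : 1 ≤ h) : A.card ≤ (it α A h).card := by
  refine le_trans ?_ (it_mono (α := α) hA hh)
  apply card_le_card_of_injOn (fun y => (0 : G) + α y)
  · intro y hy
    exact mem_sset (mem_singleton_self (0 : G)) hy
  · intro a ha b hb h
    exact hinj ha hb (add_left_cancel h)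

theorem I_le {α : ι → G} {X : Finset G} {D : Finset ι} (hX : X.Nonempty) (hD : D.Nonempty) :
    I α X D ≤ Real.log (sset α X D).card - Real.log X.card := by
  have hXp : (0 : ℝ) < X.card := by exact_mod_cast card_pos.2 hX
  have hDp : (0 : ℝ) < D.card := by exact_mod_cast card_pos.2 hD
  unfold I
  rw [div_le_iff₀ (by positivity)]
  refine (J_le hX hD).trans (le_of_eq ?_)
  ring

theorem it_pigeon {α : ι → G} {A : Finset ι} (hA : A.Nonempty) {h : ℕ} (hh : 1 ≤ h) {b : ℝ}
    (hlt : Real.log (it α A h).card ≤ b * Real.log A.card) :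
    ∃ X : Finset G, X.Nonempty ∧ Real.log X.card ≤ b * Real.log A.card ∧
      I α X A ≤ b / h * Real.log A.card := by
  have hhp : (0 : ℝ) < h := by exact_mod_cast hh
  have hsum : ∑ j ∈ range h, (Real.log (it α A (j + 1)).card - Real.log (it α A j).card) =
      Real.log (it α A h).card - Real.log (it α A 0).card :=
    sum_range_sub (fun j => Real.log (it α A j).card) h
  have h0 : Real.log (it α A 0).card = 0 := by simp [it]
  have h2 : ∑ j ∈ range h, (Real.log (it α A (j + 1)).card - Real.log (it α A j).card) ≤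
      ∑ j ∈ range h, (b / h * Real.log A.card) := by
    rw [hsum, h0, sum_const, card_range, nsmul_eq_mul, sub_zero]
    refine hlt.trans (le_of_eq ?_)
    field_simp
  obtain ⟨j, hj, hle⟩ := exists_le_of_sum_le (nonempty_range_iff.2 (by omega)) h2
  refine ⟨it α A j, it_nonempty hA j, ?_, ?_⟩
  · refine le_trans ?_ hlt
    apply Real.log_le_log
    · exact_mod_cast card_pos.2 (it_nonempty hA j)
    · exact_mod_cast it_mono hA (mem_range.1 hj).le
  · exact (I_le (it_nonempty hA j) hA).trans hle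

end Iterate

/-! ### The case of positive integers -/

theorem side_b {b : ℝ} (hb : 1 ≤ b) :
    Side 1 (21 / 10 * b) (1 / (21 / 10 * b)) (WW b) (KK b) where
  hR := by linarith
  hK := one_le_KK b
  hRK := by
    have h1 := KK_ge b
    have h2 : Real.log ((2 : ℝ) ^ (21 / 10 * b)) ≤ Real.log (KK b) :=
      Real.log_le_log (by positivity) h1
    rwa [Real.log_rpow (by norm_num)] at h2
  hlam := by positivity
  hg := by field_simp
  hw := by
    unfold WW
    apply le_of_eq
    ring

theorem ns_le (K : ℕ) (D : Finset ℕ) : ns K D ≤ 2 * K + 1 := by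
  unfold ns
  exact (card_filter_le _ _).trans (le_of_eq (card_range _))

/-- the bound for `log |A|` -/
noncomputable def LL (b : ℝ) : ℝ := 525 / 4 * (576 * (21 / 10 * b) ^ 2 * (2 * KK b + 1))

theorem LL_nonneg (b : ℝ) : 0 ≤ LL b := by
  unfold LL
  positivity

theorem pos_case {A : Finset ℕ} (hA : A.Nonempty) (hpos : ∀ y ∈ A, 0 < y) {h k : ℕ} {b c : ℝ}
    (hb : 1 ≤ b) (hc : 1 ≤ c) (hh : Real.exp (6 * b + 30) = h) (hk : Real.exp (6 * c + 30) = k)
    (h1 : Real.log (it al A h).card ≤ b * Real.log A.card)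
    (h2 : Real.log (it be A k).card ≤ c * Real.log A.card) : Real.log A.card ≤ LL b := by
  have hhp : (0 : ℝ) < h := by rw [← hh]; exact Real.exp_pos _
  have hkp : (0 : ℝ) < k := by rw [← hk]; exact Real.exp_pos _
  obtain ⟨X, hX, hX1, hX2⟩ := it_pigeon hA (by exact_mod_cast hhp) h1
  obtain ⟨Z, hZ, hZ1, hZ2⟩ := it_pigeon hA (by exact_mod_cast hkp) h2
  have hmain := main (side_b hb) (side_b hc) A.card A rfl hA hpos X hX Z hZ
  have hl : 0 ≤ Real.log A.card := Real.log_natCast_nonneg _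
  have hb0 : 0 < b := by linarith
  have hc0 : 0 < c := by linarith
  have e1 : 1 / (21 / 10 * b) * Real.log X.card ≤ 10 / 21 * Real.log A.card := by
    calc 1 / (21 / 10 * b) * Real.log X.card ≤ 1 / (21 / 10 * b) * (b * Real.log A.card) :=
          mul_le_mul_of_nonneg_left hX1 (by positivity)
      _ = _ := by field_simp
  have e2 : 1 / (21 / 10 * c) * Real.log Z.card ≤ 10 / 21 * Real.log A.card := by
    calc 1 / (21 / 10 * c) * Real.log Z.card ≤ 1 / (21 / 10 * c) * (c * Real.log A.card) :=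
          mul_le_mul_of_nonneg_left hZ1 (by positivity)
      _ = _ := by field_simp
  have e3 : (1 : ℝ) * (576 * (21 / 10 * b) ^ 2) * ns (KK b) A ≤
      576 * (21 / 10 * b) ^ 2 * (2 * KK b + 1) := by
    rw [one_mul]
    apply mul_le_mul_of_nonneg_left _ (by positivity)
    exact_mod_cast ns_le (KK b) A
  have e4 : WW b * I al X A ≤ 1 / 50 * Real.log A.card := by
    have hW := WW_pos hb0
    have h3 := num1 hb0
    rw [hh] at h3
    calc WW b * I al X A ≤ WW b * (b / h * Real.log A.card) :=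
          mul_le_mul_of_nonneg_left hX2 hW.le
      _ = (50 * b * WW b) / h * (1 / 50 * Real.log A.card) := by ring
      _ ≤ 1 * (1 / 50 * Real.log A.card) := by
          apply mul_le_mul_of_nonneg_right _ (by positivity)
          rwa [div_le_one hhp]
      _ = _ := one_mul _
  have e5 : WW c * I be Z A ≤ 1 / 50 * Real.log A.card := by
    have hW := WW_pos hc0
    have h3 := num1 hc0
    rw [hk] at h3
    calc WW c * I be Z A ≤ WW c * (c / k * Real.log A.card) :=
          mul_le_mul_of_nonneg_left hZ2 hW.le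
      _ = (50 * c * WW c) / k * (1 / 50 * Real.log A.card) := by ring
      _ ≤ 1 * (1 / 50 * Real.log A.card) := by
          apply mul_le_mul_of_nonneg_right _ (by positivity)
          rwa [div_le_one hkp]
      _ = _ := one_mul _
  unfold LL
  linarith

/-! ### Properties of `al` and `be` -/

theorem be_mul {x y : ℕ} (hx : x ≠ 0) (hy : y ≠ 0) : be (x * y) = be x + be y := by
  unfold be
  ext p
  simp [Nat.factorization_mul hx hy]

theorem be_one : be 1 = 0 := by
  unfold be
  ext p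
  simp

theorem be_inj {x y : ℕ} (hx : x ≠ 0) (hy : y ≠ 0) (h : be x = be y) : x = y := by
  apply Nat.eq_of_factorization_eq hx hy
  intro p
  have h1 := DFunLike.congr_fun h p
  unfold be at h1
  simp only [Finsupp.mapRange_apply] at h1
  exact_mod_cast h1

/-- the positive half, or the negated negative half, of a set without zero -/
theorem signed (A : Finset ℤ) (h0 : (0 : ℤ) ∉ A) : ∃ (A' : Finset ℕ) (e : ℤ),
    (∀ y ∈ A', 0 < y) ∧ (e = 1 ∨ e = -1) ∧ (∀ y ∈ A', e * (y : ℤ) ∈ A) ∧
      A.card ≤ 2 * A'.card := by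
  have hcard : A.card = (A.filter (fun x => 0 < x)).card + (A.filter (fun x => ¬ 0 < x)).card :=
    (card_filter_add_card_filter_not (s := A) (fun x => 0 < x)).symm
  by_cases hc : (A.filter (fun x => ¬ 0 < x)).card ≤ (A.filter (fun x => 0 < x)).card
  · refine ⟨(A.filter (fun x => 0 < x)).image Int.natAbs, 1, ?_, Or.inl rfl, ?_, ?_⟩
    · intro y hy
      obtain ⟨x, hx, rfl⟩ := mem_image.1 hy
      have := (mem_filter.1 hx).2
      omega
    · intro y hy
      obtain ⟨x, hx, rfl⟩ := mem_image.1 hy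
      obtain ⟨hx1, hx2⟩ := mem_filter.1 hx
      have h1 : (1 : ℤ) * ((Int.natAbs x : ℕ) : ℤ) = x := by omega
      rwa [h1]
    · rw [card_image_of_injOn]
      · omega
      · intro x hx y hy hxy
        have h1 := (mem_filter.1 hx).2
        have h2 := (mem_filter.1 hy).2
        omega
  · refine ⟨(A.filter (fun x => ¬ 0 < x)).image Int.natAbs, -1, ?_, Or.inr rfl, ?_, ?_⟩
    · intro y hy
      obtain ⟨x, hx, rfl⟩ := mem_image.1 hy
      obtain ⟨hx1, hx2⟩ := mem_filter.1 hx
      have hx3 : x ≠ 0 := fun h => h0 (h ▸ hx1)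
      omega
    · intro y hy
      obtain ⟨x, hx, rfl⟩ := mem_image.1 hy
      obtain ⟨hx1, hx2⟩ := mem_filter.1 hx
      have h1 : (-1 : ℤ) * ((Int.natAbs x : ℕ) : ℤ) = x := by omega
      rwa [h1]
    · rw [card_image_of_injOn]
      · omega
      · intro x hx y hy hxy
        have h1 := (mem_filter.1 hx).2
        have h2 := (mem_filter.1 hy).2
        omega

/-- the `h`-fold sumset -/
def hsum (A : Finset ℤ) (h : ℕ) : Finset ℤ :=
  (Fintype.piFinset (fun _ : Fin h => A)).image (fun f : Fin h → ℤ => ∑ i, f i)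

/-- the `k`-fold product set -/
def kprod (A : Finset ℤ) (k : ℕ) : Finset ℤ :=
  (Fintype.piFinset (fun _ : Fin k => A)).image (fun f : Fin k → ℤ => ∏ i, f i)

theorem hsum_succ {A : Finset ℤ} {h : ℕ} {s y : ℤ} (hs : s ∈ hsum A h) (hy : y ∈ A) :
    s + y ∈ hsum A (h + 1) := by
  unfold hsum at hs ⊢
  obtain ⟨f, hf, rfl⟩ := mem_image.1 hs
  rw [Fintype.mem_piFinset] at hf
  refine mem_image.2 ⟨Fin.cons y f, ?_, ?_⟩
  · rw [Fintype.mem_piFinset]
    intro i
    refine Fin.cases ?_ (fun j => ?_) i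
    · simpa using hy
    · simpa using hf j
  · rw [Fin.sum_univ_succ]
    simp [add_comm]

theorem kprod_succ {A : Finset ℤ} {h : ℕ} {s y : ℤ} (hs : s ∈ kprod A h) (hy : y ∈ A) :
    s * y ∈ kprod A (h + 1) := by
  unfold kprod at hs ⊢
  obtain ⟨f, hf, rfl⟩ := mem_image.1 hs
  rw [Fintype.mem_piFinset] at hf
  refine mem_image.2 ⟨Fin.cons y f, ?_, ?_⟩
  · rw [Fintype.mem_piFinset]
    intro i
    refine Fin.cases ?_ (fun j => ?_) i
    · simpa using hy
    · simpa using hf j
  · rw [Fin.prod_univ_succ]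
    simp [mul_comm]

theorem it_al_subset {A : Finset ℤ} {A' : Finset ℕ} {e : ℤ}
    (hA : ∀ y ∈ A', e * (y : ℤ) ∈ A) (h : ℕ) : ∀ s ∈ it al A' h, e * s ∈ hsum A h := by
  induction h with
  | zero =>
    intro s hs
    have hs' : s = 0 := mem_singleton.1 hs
    subst hs'
    unfold hsum
    refine mem_image.2 ⟨fun i => i.elim0, ?_, ?_⟩
    · rw [Fintype.mem_piFinset]
      intro i
      exact i.elim0
    · simp
  | succ h ih =>
    intro s hs
    unfold it sset at hs
    obtain ⟨z, hz, rfl⟩ := mem_image.1 hs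
    obtain ⟨hz1, hz2⟩ := mem_product.1 hz
    have h1 := hsum_succ (ih _ hz1) (hA _ hz2)
    have h2 : e * (z.1 + al z.2) = e * z.1 + e * (z.2 : ℤ) := by
      unfold al
      ring
    rw [h2]
    exact h1

theorem it_be_subset {A : Finset ℤ} {A' : Finset ℕ} {e : ℤ}
    (hpos : ∀ y ∈ A', 0 < y) (hA : ∀ y ∈ A', e * (y : ℤ) ∈ A) (k : ℕ) :
    ∀ s ∈ it be A' k, ∃ n : ℕ, 0 < n ∧ be n = s ∧ e ^ k * (n : ℤ) ∈ kprod A k := by
  induction k with
  | zero =>
    intro s hs
    have hs' : s = 0 := mem_singleton.1 hs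
    subst hs'
    refine ⟨1, one_pos, be_one, ?_⟩
    unfold kprod
    refine mem_image.2 ⟨fun i => i.elim0, ?_, ?_⟩
    · rw [Fintype.mem_piFinset]
      intro i
      exact i.elim0
    · simp
  | succ k ih =>
    intro s hs
    unfold it sset at hs
    obtain ⟨z, hz, rfl⟩ := mem_image.1 hs
    obtain ⟨hz1, hz2⟩ := mem_product.1 hz
    obtain ⟨n, hn, hn1, hn2⟩ := ih _ hz1
    have hz3 := hpos _ hz2
    refine ⟨n * z.2, Nat.mul_pos hn hz3, ?_, ?_⟩
    · rw [be_mul hn.ne' hz3.ne', hn1]
    · have h1 := kprod_succ hn2 (hA _ hz2)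
      have h2 : e ^ (k + 1) * ((n * z.2 : ℕ) : ℤ) = e ^ k * (n : ℤ) * (e * (z.2 : ℤ)) := by
        push_cast
        ring
      rw [h2]
      exact h1

theorem it_al_card {A : Finset ℤ} {A' : Finset ℕ} {e : ℤ} (he : e = 1 ∨ e = -1)
    (hA : ∀ y ∈ A', e * (y : ℤ) ∈ A) (h : ℕ) : (it al A' h).card ≤ (hsum A h).card := by
  apply card_le_card_of_injOn (fun s => e * s)
  · intro s hs
    exact it_al_subset hA h s hs
  · intro a _ b _ hab
    have he0 : e ≠ 0 := by
      rcases he with rfl | rfl <;> norm_num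
    exact mul_left_cancel₀ he0 hab

theorem it_be_card {A : Finset ℤ} {A' : Finset ℕ} {e : ℤ} (he : e = 1 ∨ e = -1)
    (hpos : ∀ y ∈ A', 0 < y) (hA : ∀ y ∈ A', e * (y : ℤ) ∈ A) (k : ℕ) :
    (it be A' k).card ≤ (kprod A k).card := by
  have h1 : it be A' k ⊆ (kprod A k).image (fun z : ℤ => be z.natAbs) := by
    intro s hs
    obtain ⟨n, hn, hn1, hn2⟩ := it_be_subset hpos hA k s hs
    refine mem_image.2 ⟨_, hn2, ?_⟩
    have h2 : (e ^ k * (n : ℤ)).natAbs = n := by
      rw [Int.natAbs_mul, Int.natAbs_pow, Int.natAbs_natCast]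
      have : e.natAbs = 1 := by
        rcases he with rfl | rfl <;> rfl
      rw [this, one_pow, one_mul]
    simp only [h2]
    exact hn1
  exact (card_le_card h1).trans card_image_le

/-! ### First statement -/

/-- the exponent -/
noncomputable def bb (n : ℕ) : ℝ := Real.log n / 6 - 5

/-- the constant -/
noncomputable def CC (n : ℕ) : ℝ := (4 * Real.exp (LL (bb n))) ^ (-(max 1 (bb n)))

theorem four_le (n : ℕ) : (4 : ℝ) ≤ 4 * Real.exp (LL (bb n)) := by
  have h1 : (1 : ℝ) ≤ Real.exp (LL (bb n)) := Real.one_le_exp (LL_nonneg _)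
  linarith

theorem CC_pos (n : ℕ) : 0 < CC n := by
  unfold CC
  positivity

theorem exp_bb {n : ℕ} (hn : 1 ≤ n) : Real.exp (6 * bb n + 30) = n := by
  unfold bb
  have h1 : 6 * (Real.log n / 6 - 5) + 30 = Real.log n := by ring
  rw [h1, Real.exp_log (by exact_mod_cast hn)]

/-- if `M ≥ N / 4`, then `C N ^ c ≤ M ^ c` for the exponent `c = max 1 b` -/
theorem CC_quarter {n : ℕ} {N M : ℝ} (hN : 0 < N) (hM : N / 4 ≤ M) :
    CC n * N ^ (max 1 (bb n)) ≤ M ^ (max 1 (bb n)) := by
  have hc : 0 ≤ max 1 (bb n) := le_trans zero_le_one (le_max_left _ _)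
  have h4 := four_le n
  have h1 : CC n ≤ (4 : ℝ) ^ (-(max 1 (bb n))) := by
    unfold CC
    rw [Real.rpow_neg (by positivity), Real.rpow_neg (by norm_num)]
    apply inv_anti₀ (by positivity)
    exact Real.rpow_le_rpow (by norm_num) h4 hc
  calc CC n * N ^ (max 1 (bb n)) ≤ (4 : ℝ) ^ (-(max 1 (bb n))) * N ^ (max 1 (bb n)) :=
        mul_le_mul_of_nonneg_right h1 (by positivity)
    _ = (N / 4) ^ (max 1 (bb n)) := by
        rw [Real.rpow_neg (by norm_num), Real.div_rpow hN.le (by norm_num)]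
        field_simp
    _ ≤ M ^ (max 1 (bb n)) := Real.rpow_le_rpow (by positivity) hM hc

/-- if `N` is small, the bound is trivial -/
theorem CC_small {n : ℕ} {N : ℝ} (hN : 0 ≤ N) (h : N ≤ 4 * Real.exp (LL (bb n))) :
    CC n * N ^ (max 1 (bb n)) ≤ 1 := by
  have hc : 0 ≤ max 1 (bb n) := le_trans zero_le_one (le_max_left _ _)
  have h4 := four_le n
  have hpos : 0 < (4 * Real.exp (LL (bb n))) ^ (max 1 (bb n)) := by positivity
  unfold CC
  rw [Real.rpow_neg (by positivity), inv_mul_le_iff₀ hpos, mul_one]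
  exact Real.rpow_le_rpow hN h hc

theorem card_hsum_pos {A : Finset ℤ} (hA : A.Nonempty) (h : ℕ) : 0 < (hsum A h).card := by
  unfold hsum
  apply card_pos.2
  apply Nonempty.image
  rw [Fintype.piFinset_nonempty]
  exact fun _ => hA

theorem card_kprod_pos {A : Finset ℤ} (hA : A.Nonempty) (h : ℕ) : 0 < (kprod A h).card := by
  unfold kprod
  apply card_pos.2
  apply Nonempty.image
  rw [Fintype.piFinset_nonempty]
  exact fun _ => hA

theorem growth : ∃ C : ℕ → ℝ, (∀ n, 0 < C n) ∧ ∀ A : Finset ℤ, A.Nonempty →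
    (∀ h : ℕ, 1 ≤ h → C h * (A.card : ℝ) ^ (max 1 (Real.log h / 6 - 5)) ≤ ((hsum A h).card : ℝ)) ∨
    (∀ k : ℕ, 1 ≤ k → C k * (A.card : ℝ) ^ (max 1 (Real.log k / 6 - 5)) ≤
      ((kprod A k).card : ℝ)) := by
  refine ⟨CC, CC_pos, ?_⟩
  intro A hA
  by_contra hcon
  push Not at hcon
  obtain ⟨⟨h, hh, h1⟩, ⟨k, hk, h2⟩⟩ := hcon
  change _ < CC h * (A.card : ℝ) ^ (max 1 (bb h)) at h1
  change _ < CC k * (A.card : ℝ) ^ (max 1 (bb k)) at h2
  have hp1 : (1 : ℝ) ≤ ((hsum A h).card : ℝ) := by exact_mod_cast card_hsum_pos hA h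
  have hp2 : (1 : ℝ) ≤ ((kprod A k).card : ℝ) := by exact_mod_cast card_kprod_pos hA k
  have hbig : 4 * Real.exp (LL (bb h)) < A.card := by
    by_contra hle
    push Not at hle
    have := CC_small (n := h) (Nat.cast_nonneg _) hle
    linarith
  have hN4 : (4 : ℝ) < A.card := lt_of_le_of_lt (four_le h) hbig
  have hN4' : 4 < A.card := by exact_mod_cast hN4
  have h0 : (0 : ℤ) ∉ A.erase 0 := by simp
  obtain ⟨A', e, hpos, he, hA', hcard⟩ := signed (A.erase 0) h0
  have hcard1 : A.card ≤ (A.erase 0).card + 1 := by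
    have := pred_card_le_card_erase (s := A) (a := (0 : ℤ))
    omega
  have hcard2 : A.card ≤ 4 * A'.card := by omega
  have hcard3 : (A.card : ℝ) / 4 ≤ A'.card := by
    have : (A.card : ℝ) ≤ 4 * A'.card := by exact_mod_cast hcard2
    linarith
  have hA'ne : A'.Nonempty := card_pos.1 (by omega)
  have hA'' : ∀ y ∈ A', e * (y : ℤ) ∈ A := fun y hy => (mem_erase.1 (hA' y hy)).2
  have hA'pos : (0 : ℝ) < A'.card := by exact_mod_cast card_pos.2 hA'ne
  have hNpos : (0 : ℝ) < A.card := by linarith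
  have q1 := CC_quarter (n := h) hNpos hcard3
  have q2 := CC_quarter (n := k) hNpos hcard3
  have t1 : ((it al A' h).card : ℝ) ≤ (hsum A h).card := by
    exact_mod_cast it_al_card he hA'' h
  have t2 : ((it be A' k).card : ℝ) ≤ (kprod A k).card := by
    exact_mod_cast it_be_card he hpos hA'' k
  have s1 : (A'.card : ℝ) ≤ (it al A' h).card := by
    have : Set.InjOn al A' := by
      intro x _ y _ hxy
      unfold al at hxy
      exact_mod_cast hxy
    exact_mod_cast it_card_ge hA'ne this hh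
  have s2 : (A'.card : ℝ) ≤ (it be A' k).card := by
    have : Set.InjOn be A' := by
      intro x hx y hy hxy
      exact be_inj (hpos x hx).ne' (hpos y hy).ne' hxy
    exact_mod_cast it_card_ge hA'ne this hk
  have u1 : ((it al A' h).card : ℝ) < (A'.card : ℝ) ^ (max 1 (bb h)) := by linarith
  have u2 : ((it be A' k).card : ℝ) < (A'.card : ℝ) ^ (max 1 (bb k)) := by linarith
  have b1 : 1 < bb h := by
    by_contra hb
    push Not at hb
    rw [max_eq_left hb, Real.rpow_one] at u1
    linarith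
  have b2 : 1 < bb k := by
    by_contra hb
    push Not at hb
    rw [max_eq_left hb, Real.rpow_one] at u2
    linarith
  rw [max_eq_right b1.le] at u1
  rw [max_eq_right b2.le] at u2
  have hi1 : (0 : ℝ) < (it al A' h).card := by linarith
  have hi2 : (0 : ℝ) < (it be A' k).card := by linarith
  have l1 : Real.log (it al A' h).card ≤ bb h * Real.log A'.card := by
    have := Real.log_le_log hi1 u1.le
    rwa [Real.log_rpow hA'pos] at this
  have l2 : Real.log (it be A' k).card ≤ bb k * Real.log A'.card := by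
    have := Real.log_le_log hi2 u2.le
    rwa [Real.log_rpow hA'pos] at this
  have hfin := pos_case hA'ne hpos b1.le b2.le (exp_bb hh) (exp_bb hk) l1 l2
  have hfin2 : (A'.card : ℝ) ≤ Real.exp (LL (bb h)) := by
    rw [← Real.exp_log hA'pos]
    exact Real.exp_le_exp.2 hfin
  linarith

/-! ### Second statement -/

/-- the constant of the two-set inequality -/
noncomputable def DD (b : ℝ) : ℝ :=
  Real.exp (-(Real.log 2 + (Real.log 2 + 576 * (21 / 10 * b) ^ 2 * (2 * KK b + 1)) / WW b))

open scoped Pointwise in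
theorem two_sets (b : ℝ) (hb : 1 ≤ b) : ∃ c : ℝ, 0 < c ∧ ∀ A X Z : Finset ℤ, A.Nonempty →
    X.Nonempty → Z.Nonempty → (0 : ℤ) ∉ A → (0 : ℤ) ∉ Z →
    (X.card : ℝ) ≤ (A.card : ℝ) ^ b → (Z.card : ℝ) ≤ (A.card : ℝ) ^ b →
    c * X.card * Z.card * (A.card : ℝ) ^ ((2 : ℝ) ^ (-(9 * b + 34))) ≤
      ((X + A).card : ℝ) * ((Z * A).card : ℝ) := by
  refine ⟨DD b, Real.exp_pos _, ?_⟩
  intro A X Z hA hX hZ hA0 hZ0 hXb hZb
  have hb0 : 0 < b := by linarith
  obtain ⟨A', e, hpos, he, hA', hcard⟩ := signed A hA0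
  obtain ⟨Z', e', hposZ, he', hZ', hcardZ⟩ := signed Z hZ0
  have hAp := card_pos.2 hA
  have hXp := card_pos.2 hX
  have hZp := card_pos.2 hZ
  have hA'ne : A'.Nonempty := card_pos.1 (by omega)
  have hZ'ne : Z'.Nonempty := card_pos.1 (by omega)
  have he0 : e ≠ 0 := by
    rcases he with rfl | rfl <;> norm_num
  have hee : e * e = 1 := by
    rcases he with rfl | rfl <;> norm_num
  obtain ⟨X', hX'⟩ : ∃ X' : Finset ℤ, X' = X.image (fun x => e * x) := ⟨_, rfl⟩
  have hX'card : X'.card = X.card := by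
    rw [hX']
    apply card_image_of_injOn
    intro a _ b _ hab
    exact mul_left_cancel₀ he0 hab
  have hX'ne : X'.Nonempty := by
    rw [hX']
    exact hX.image _
  obtain ⟨Z'', hZ''⟩ : ∃ Z'' : Finset (ℕ →₀ ℤ), Z'' = Z'.image be := ⟨_, rfl⟩
  have hZ''card : Z''.card = Z'.card := by
    rw [hZ'']
    apply card_image_of_injOn
    intro x hx y hy hxy
    exact be_inj (hposZ x hx).ne' (hposZ y hy).ne' hxy
  have hZ''ne : Z''.Nonempty := by
    rw [hZ'']
    exact hZ'ne.image _
  have s1 : (sset al X' A').card ≤ (X + A).card := by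
    apply card_le_card_of_injOn (fun s => e * s)
    · intro s hs
      unfold sset at hs
      obtain ⟨z, hz, rfl⟩ := mem_image.1 hs
      obtain ⟨hz1, hz2⟩ := mem_product.1 hz
      rw [hX'] at hz1
      obtain ⟨x, hx, hx2⟩ := mem_image.1 hz1
      have h1 : e * (z.1 + al z.2) = x + e * (z.2 : ℤ) := by
        rw [← hx2]
        unfold al
        have : e * (e * x + (z.2 : ℤ)) = (e * e) * x + e * (z.2 : ℤ) := by ring
        rw [this, hee, one_mul]
      simp only [h1]
      exact add_mem_add hx (hA' _ hz2)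
    · intro a _ b _ hab
      exact mul_left_cancel₀ he0 hab
  have s2 : (sset be Z'' A').card ≤ (Z * A).card := by
    have h1 : sset be Z'' A' ⊆ (Z * A).image (fun z : ℤ => be z.natAbs) := by
      intro s hs
      unfold sset at hs
      obtain ⟨z, hz, rfl⟩ := mem_image.1 hs
      obtain ⟨hz1, hz2⟩ := mem_product.1 hz
      rw [hZ''] at hz1
      obtain ⟨x, hx, hx2⟩ := mem_image.1 hz1
      refine mem_image.2 ⟨_, mul_mem_mul (hZ' _ hx) (hA' _ hz2), ?_⟩
      have h2 : (e' * (x : ℤ) * (e * (z.2 : ℤ))).natAbs = x * z.2 := by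
        rw [Int.natAbs_mul, Int.natAbs_mul, Int.natAbs_mul, Int.natAbs_natCast,
          Int.natAbs_natCast]
        have h3 : e.natAbs = 1 := by
          rcases he with rfl | rfl <;> rfl
        have h4 : e'.natAbs = 1 := by
          rcases he' with rfl | rfl <;> rfl
        rw [h3, h4, one_mul, one_mul]
      simp only [h2]
      rw [be_mul (hposZ _ hx).ne' (hpos _ hz2).ne', hx2]
    exact (card_le_card h1).trans card_image_le
  have hmain := main (side_b hb) (side_b hb) A'.card A' rfl hA'ne hpos X' hX'ne Z'' hZ''ne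
  have hi1 := I_le (α := al) hX'ne hA'ne
  have hi2 := I_le (α := be) hZ''ne hA'ne
  rw [hX'card] at hmain hi1
  rw [hZ''card] at hmain hi2
  have pA : (0 : ℝ) < A.card := by exact_mod_cast hAp
  have pX : (0 : ℝ) < X.card := by exact_mod_cast hXp
  have pZ : (0 : ℝ) < Z.card := by exact_mod_cast hZp
  have pA' : (0 : ℝ) < A'.card := by exact_mod_cast card_pos.2 hA'ne
  have pZ' : (0 : ℝ) < Z'.card := by exact_mod_cast card_pos.2 hZ'ne
  have hZle : Z'.card ≤ Z.card := by
    rw [← hZ''card]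
    have h1 : Z'' ⊆ Z.image (fun z : ℤ => be z.natAbs) := by
      intro s hs
      rw [hZ''] at hs
      obtain ⟨x, hx, rfl⟩ := mem_image.1 hs
      refine mem_image.2 ⟨_, hZ' _ hx, ?_⟩
      have h2 : (e' * (x : ℤ)).natAbs = x := by
        rw [Int.natAbs_mul, Int.natAbs_natCast]
        have h4 : e'.natAbs = 1 := by
          rcases he' with rfl | rfl <;> rfl
        rw [h4, one_mul]
      simp only [h2]
    exact (card_le_card h1).trans card_image_le
  obtain ⟨a, ha⟩ : ∃ a, a = Real.log A.card := ⟨_, rfl⟩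
  obtain ⟨x, hx⟩ : ∃ x, x = Real.log X.card := ⟨_, rfl⟩
  obtain ⟨z, hz⟩ : ∃ z, z = Real.log Z.card := ⟨_, rfl⟩
  obtain ⟨a', ha'⟩ : ∃ a', a' = Real.log A'.card := ⟨_, rfl⟩
  obtain ⟨z', hz'⟩ : ∃ z', z' = Real.log Z'.card := ⟨_, rfl⟩
  have l1 : x ≤ b * a := by
    rw [hx, ha, ← Real.log_rpow pA]
    exact Real.log_le_log pX hXb
  have l2 : z ≤ b * a := by
    rw [hz, ha, ← Real.log_rpow pA]
    exact Real.log_le_log pZ hZb
  have l3 : z' ≤ z := by
    rw [hz, hz']
    exact Real.log_le_log pZ' (by exact_mod_cast hZle)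
  have l4 : a ≤ a' + Real.log 2 := by
    rw [ha, ha', add_comm, ← Real.log_mul (by norm_num) pA'.ne']
    exact Real.log_le_log pA (by exact_mod_cast hcard)
  have l5 : z ≤ z' + Real.log 2 := by
    rw [hz, hz', add_comm, ← Real.log_mul (by norm_num) pZ'.ne']
    exact Real.log_le_log pZ (by exact_mod_cast hcardZ)
  have l6 : 0 ≤ a := by
    rw [ha]
    exact Real.log_natCast_nonneg _
  have pS1 : (0 : ℝ) < (sset al X' A').card := by
    exact_mod_cast (card_pos.2 hX'ne).trans_le (sset_card_ge hA'ne)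
  have pS2 : (0 : ℝ) < (sset be Z'' A').card := by
    exact_mod_cast (card_pos.2 hZ''ne).trans_le (sset_card_ge hA'ne)
  have pT1 : (0 : ℝ) < (X + A).card := lt_of_lt_of_le pS1 (by exact_mod_cast s1)
  have pT2 : (0 : ℝ) < (Z * A).card := lt_of_lt_of_le pS2 (by exact_mod_cast s2)
  have t1 : Real.log (sset al X' A').card ≤ Real.log (X + A).card :=
    Real.log_le_log pS1 (by exact_mod_cast s1)
  have t2 : Real.log (sset be Z'' A').card ≤ Real.log (Z * A).card :=
    Real.log_le_log pS2 (by exact_mod_cast s2)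
  rw [← ha', ← hx, ← hz'] at hmain
  rw [← hx] at hi1
  rw [← hz'] at hi2
  have hW := WW_pos hb0
  have e1 : 1 / (21 / 10 * b) * x ≤ 10 / 21 * a := by
    calc 1 / (21 / 10 * b) * x ≤ 1 / (21 / 10 * b) * (b * a) :=
          mul_le_mul_of_nonneg_left l1 (by positivity)
      _ = _ := by field_simp
  have e2 : 1 / (21 / 10 * b) * z' ≤ 10 / 21 * a := by
    calc 1 / (21 / 10 * b) * z' ≤ 1 / (21 / 10 * b) * (b * a) :=
          mul_le_mul_of_nonneg_left (l3.trans l2) (by positivity)
      _ = _ := by field_simp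
  have e3 : (1 : ℝ) * (576 * (21 / 10 * b) ^ 2) * ns (KK b) A' ≤
      576 * (21 / 10 * b) ^ 2 * (2 * KK b + 1) := by
    rw [one_mul]
    apply mul_le_mul_of_nonneg_left _ (by positivity)
    exact_mod_cast ns_le (KK b) A'
  obtain ⟨T, hT⟩ : ∃ T, T = 576 * (21 / 10 * b) ^ 2 * (2 * (KK b : ℝ) + 1) := ⟨_, rfl⟩
  rw [← hT] at e3
  have e4 : WW b * I al X' A' + WW b * I be Z'' A' ≤
      WW b * (Real.log (X + A).card - x + (Real.log (Z * A).card - z')) := by
    rw [← mul_add]
    apply mul_le_mul_of_nonneg_left _ hW.le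
    linarith
  have e5 : 1 / 21 * a - Real.log 2 - T ≤
      WW b * (Real.log (X + A).card - x + (Real.log (Z * A).card - z')) := by
    linarith
  have e6 : (1 / 21 * a - Real.log 2 - T) / WW b ≤
      Real.log (X + A).card - x + (Real.log (Z * A).card - z') := by
    rw [div_le_iff₀ hW]
    linarith
  have e7 : (1 / 21 * a - Real.log 2 - T) / WW b =
      1 / (21 * WW b) * a - (Real.log 2 + T) / WW b := by
    field_simp
    ring
  have e8 : (2 : ℝ) ^ (-(9 * b + 34)) * a ≤ 1 / (21 * WW b) * a := by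
    apply mul_le_mul_of_nonneg_right _ l6
    rw [Real.rpow_neg (by norm_num), one_div]
    exact inv_anti₀ (by positivity) (num2 hb0)
  have e9 : -(Real.log 2 + (Real.log 2 + T) / WW b) + x + z + (2 : ℝ) ^ (-(9 * b + 34)) * a ≤
      Real.log (X + A).card + Real.log (Z * A).card := by
    linarith
  have e10 := Real.exp_le_exp.2 e9
  rw [Real.exp_add, Real.exp_add, Real.exp_add, Real.exp_add, Real.exp_log pT1,
    Real.exp_log pT2, hx, hz, Real.exp_log pX, Real.exp_log pZ, hT] at e10
  unfold DD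
  refine le_trans (le_of_eq ?_) e10
  congr 1
  rw [ha, mul_comm ((2 : ℝ) ^ (-(9 * b + 34))), Real.rpow_def_of_pos pA]

end Pool.Agent.Helper84.SP
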