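import Pool.Agent.Helper21.LR.Stmts2

/-!
MP_6358c9_nt (Laurent-Roy), module LR-PURE: pure dimension.
-/

open MvPolynomial Pool.Agent.Helper21.LR TensorProduct

namespace Pool.Agent.Helper84.LRPure

/-- injective integral extensions preserve the Krull dimension -/
theorem dim_eq {R S : Type*} [CommRing R] [CommRing S] [Algebra R S] [Algebra.IsIntegral R S]
    (hinj : Function.Injective (algebraMap R S)) : ringKrullDim S = ringKrullDim R := by
  apply le_antisymm
  · refine Order.krullDim_le_of_strictMono (PrimeSpectrum.comap (algebraMap R S)) ?_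
    intro P Q hPQ
    exact Ideal.IsIntegral.comap_lt_comap hPQ
  · unfold ringKrullDim Order.krullDim
    refine iSup_le fun l => ?_
    have hker : (⊥ : Ideal S).comap (algebraMap R S) ≤ l.head.asIdeal := by
      intro x hx
      rw [Ideal.mem_comap, Ideal.mem_bot] at hx
      have : x = 0 := hinj (by rw [hx, map_zero])
      rw [this]
      exact Ideal.zero_mem _
    obtain ⟨Q, -, hQ, hQc⟩ := Ideal.exists_ideal_over_prime_of_isIntegral (S := S)
      l.head.asIdeal ⊥ hker
    have : Q.LiesOver l.head.asIdeal := ⟨hQc.symm⟩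
    obtain ⟨L, hL, -, -⟩ := Ideal.exists_ltSeries_of_hasGoingUp l Q
    have := le_iSup (fun L : LTSeries (PrimeSpectrum S) => ((L.length : ℕ∞) : WithBot ℕ∞)) L
    rw [hL] at this
    exact this

/-- torsion-freeness is preserved by flat base change to a domain -/
theorem smul_inj {R₀ B C : Type*} [CommRing R₀] [IsDomain R₀] [CommRing B] [IsDomain B]
    [Algebra R₀ B] (hB : Function.Injective (algebraMap R₀ B)) [CommRing C] [IsDomain C]
    [Algebra R₀ C] [Module.Flat R₀ C] (h : C) (hh : h ≠ 0) (t : B ⊗[R₀] C)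
    (ht : ((1 : B) ⊗ₜ[R₀] h) * t = 0) : t = 0 := by
  have hinj : Function.Injective (algebraMap R₀ (FractionRing B)) := by
    rw [IsScalarTower.algebraMap_eq R₀ B (FractionRing B)]
    exact (IsFractionRing.injective B (FractionRing B)).comp hB
  have : FaithfulSMul R₀ (FractionRing B) := (faithfulSMul_iff_algebraMap_injective _ _).mpr hinj
  let := FractionRing.liftAlgebra R₀ (FractionRing B)
  have := FractionRing.isScalarTower_liftAlgebra R₀ (FractionRing B)
  have : Module.Flat R₀ (FractionRing R₀) := IsLocalization.flat _ (nonZeroDivisors R₀)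
  have : Module.Flat R₀ (FractionRing B) := Module.Flat.trans R₀ (FractionRing R₀) (FractionRing B)
  let f : B →ₗ[R₀] FractionRing B := (IsScalarTower.toAlgHom R₀ B (FractionRing B)).toLinearMap
  have hf : Function.Injective f := IsFractionRing.injective B (FractionRing B)
  let g : C →ₗ[R₀] C := LinearMap.mulLeft R₀ h
  have hg : Function.Injective g := by
    intro x y hxy
    exact mul_left_cancel₀ hh hxy
  have h1 : Function.Injective (LinearMap.rTensor C f) :=
    Module.Flat.rTensor_preserves_injective_linearMap f hf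
  have h2 : Function.Injective (LinearMap.lTensor (FractionRing B) g) :=
    Module.Flat.lTensor_preserves_injective_linearMap g hg
  have h3 : LinearMap.lTensor (FractionRing B) g (LinearMap.rTensor C f t) =
      LinearMap.rTensor C f (((1 : B) ⊗ₜ[R₀] h) * t) := by
    induction t with
    | zero => simp
    | add x y hx hy =>
      have : ∀ z : B ⊗[R₀] C, LinearMap.lTensor (FractionRing B) g (LinearMap.rTensor C f z) =
        LinearMap.rTensor C f (((1 : B) ⊗ₜ[R₀] h) * z) := by
        intro z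
        induction z with
        | zero => simp
        | add x y hx hy => rw [map_add, map_add, mul_add, map_add, hx, hy]
        | tmul x y => simp [g]
      exact this _
    | tmul x y => simp [g]
  rw [ht, map_zero] at h3
  apply h1
  apply h2
  rw [h3, map_zero, map_zero]

theorem exists_lift {R₀ B C D : Type*} [CommRing R₀] [CommRing B] [Algebra R₀ B] [CommRing C]
    [Algebra R₀ C] [CommRing D] (f : B →+* D) (g : C →+* D)
    (hfg : ∀ x : R₀, f (algebraMap R₀ B x) = g (algebraMap R₀ C x)) :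
    ∃ Λ : B ⊗[R₀] C →+* D, (∀ b, Λ (b ⊗ₜ 1) = f b) ∧ (∀ c, Λ (1 ⊗ₜ c) = g c) := by
  let : Algebra R₀ D := (f.comp (algebraMap R₀ B)).toAlgebra
  let f' : B →ₐ[R₀] D := { f with commutes' := fun _ => rfl }
  let g' : C →ₐ[R₀] D := { g with commutes' := fun x => (hfg x).symm }
  refine ⟨(Algebra.TensorProduct.productMap f' g').toRingHom, fun b => ?_, fun c => ?_⟩
  · change Algebra.TensorProduct.productMap f' g' (b ⊗ₜ 1) = f b
    rw [Algebra.TensorProduct.productMap_apply_tmul, map_one, mul_one]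
    rfl
  · change Algebra.TensorProduct.productMap f' g' (1 ⊗ₜ c) = g c
    rw [Algebra.TensorProduct.productMap_apply_tmul, map_one, one_mul]
    rfl

/-- the tensor product, packaged -/
theorem exists_T {R₀ B C : Type} [CommRing R₀] [IsDomain R₀] [CommRing B] [IsDomain B]
    (i : R₀ →+* B) (hi : Function.Injective i) [CommRing C] [IsDomain C] (j : R₀ →+* C)
    (hj : @Module.Flat R₀ C _ _ j.toAlgebra.toModule) :
    ∃ (T : Type) (_ : CommRing T) (incL : B →+* T) (incR : C →+* T),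
      (∀ x, incL (i x) = incR (j x)) ∧ (∀ h, h ≠ 0 → ∀ t, incR h * t = 0 → t = 0) ∧
      (∀ (D : Type) [CommRing D] (f : B →+* D) (g : C →+* D), (∀ x, f (i x) = g (j x)) →
        ∃ Λ : T →+* D, (∀ b, Λ (incL b) = f b) ∧ (∀ c, Λ (incR c) = g c)) := by
  let : Algebra R₀ B := i.toAlgebra
  let : Algebra R₀ C := j.toAlgebra
  refine ⟨B ⊗[R₀] C, inferInstance, Algebra.TensorProduct.includeLeftRingHom,
    (Algebra.TensorProduct.includeRight : C →ₐ[R₀] B ⊗[R₀] C).toRingHom, ?_, ?_, ?_⟩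
  · intro x
    change (algebraMap R₀ B x) ⊗ₜ[R₀] (1 : C) = (1 : B) ⊗ₜ[R₀] (algebraMap R₀ C x)
    rw [Algebra.algebraMap_eq_smul_one, Algebra.algebraMap_eq_smul_one, TensorProduct.smul_tmul]
  · intro h hh t ht
    exact smul_inj hi h hh t ht
  · intro D _ f g hfg
    exact exists_lift f g hfg

/-- clearing denominators -/
theorem clear {σ : Type*} (q : MvPolynomial σ ℚ) : ∃ (n : ℤ) (Q : MvPolynomial σ ℤ), n ≠ 0 ∧
    MvPolynomial.map (algebraMap ℤ ℚ) Q = C (n : ℚ) * q := by
  induction q using MvPolynomial.induction_on with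
  | C a =>
    refine ⟨a.den, C a.num, by exact_mod_cast a.den_nz, ?_⟩
    rw [map_C, ← C_mul]
    congr 1
    push_cast
    rw [mul_comm]
    exact (Rat.mul_den_eq_num a).symm
  | add p q hp hq =>
    obtain ⟨n, P, hn, hP⟩ := hp
    obtain ⟨k, Q, hk, hQ⟩ := hq
    refine ⟨n * k, C k * P + C n * Q, mul_ne_zero hn hk, ?_⟩
    rw [map_add, map_mul, map_mul, hP, hQ, map_C, map_C]
    push_cast
    rw [C_mul]
    simp only [eq_intCast]
    ring
  | mul_X p i hp =>
    obtain ⟨n, P, hn, hP⟩ := hp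
    refine ⟨n, P * X i, hn, ?_⟩
    rw [map_mul, hP, map_X]
    ring


/-- the linear forms `y_i`, over a commutative ring -/
noncomputable def Y {m r : ℕ} (K : Type*) [CommRing K] (w : Fin r → Fin m → ℤ) (i : Fin r) :
    MvPolynomial (Fin m) K := ∑ j, C ((w i j : ℤ) : K) * X j

/-- relations with rational coefficients -/
noncomputable def Iq {m : ℕ} (ξ : Fin m → ℂ) : Ideal (MvPolynomial (Fin m) ℚ) :=
  RingHom.ker (aeval ξ : MvPolynomial (Fin m) ℚ →ₐ[ℚ] ℂ)

/-- the ideal of `ℂ[x]` generated by the relations with rational coefficients -/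
noncomputable def Jc {m : ℕ} (ξ : Fin m → ℂ) : Ideal (MvPolynomial (Fin m) ℂ) :=
  (Iq ξ).map (MvPolynomial.map (algebraMap ℚ ℂ))

instance {m : ℕ} (ξ : Fin m → ℂ) : (Iq ξ).IsPrime := RingHom.ker_isPrime _

theorem mem_Iq {m : ℕ} (ξ : Fin m → ℂ) (q : MvPolynomial (Fin m) ℚ) :
    q ∈ Iq ξ ↔ aeval ξ q = 0 := Iff.rfl

theorem map_Y {m r : ℕ} (w : Fin r → Fin m → ℤ) (i : Fin r) :
    MvPolynomial.map (algebraMap ℚ ℂ) (Y ℚ w i) = Y ℂ w i := by
  unfold Y
  rw [map_sum]
  refine Finset.sum_congr rfl fun j _ => ?_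
  rw [map_mul, map_C, map_X]
  simp

theorem square {m r : ℕ} (w : Fin r → Fin m → ℤ) (q : MvPolynomial (Fin r) ℚ) :
    MvPolynomial.map (algebraMap ℚ ℂ) (aeval (Y ℚ w) q) =
      aeval (Y ℂ w) (MvPolynomial.map (algebraMap ℚ ℂ) q) := by
  have : ((MvPolynomial.map (algebraMap ℚ ℂ)).comp
      (aeval (Y ℚ w) : MvPolynomial (Fin r) ℚ →ₐ[ℚ] _).toRingHom) =
      (aeval (Y ℂ w) : MvPolynomial (Fin r) ℂ →ₐ[ℂ] _).toRingHom.comp
        (MvPolynomial.map (algebraMap ℚ ℂ)) := by
    apply MvPolynomial.ringHom_ext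
    · intro a
      simp
    · intro i
      simp [map_Y]
  exact congrArg (fun f => f q) this

theorem aeval_Y {m r : ℕ} (ξ : Fin m → ℂ) (w : Fin r → Fin m → ℤ) (q : MvPolynomial (Fin r) ℚ) :
    aeval ξ (aeval (Y ℚ w) q) = aeval (fun i : Fin r => ∑ j, (w i j : ℂ) * ξ j) q := by
  have h1 : ((aeval ξ : MvPolynomial (Fin m) ℚ →ₐ[ℚ] ℂ).comp (aeval (Y ℚ w))) =
      aeval (fun i : Fin r => ∑ j, (w i j : ℂ) * ξ j) := by
    apply MvPolynomial.algHom_ext
    intro i
    simp [Y]
  exact congrArg (fun f => f q) h1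

theorem zl {m : ℕ} (ξ : Fin m → ℂ) : {x | OnV ξ x} = zeroLocus ℂ (Jc ξ) := by
  ext x
  rw [Set.mem_ofPred_eq, mem_zeroLocus_iff]
  constructor
  · intro h
    have hle : Jc ξ ≤ RingHom.ker (aeval x : MvPolynomial (Fin m) ℂ →ₐ[ℂ] ℂ) := by
      unfold Jc
      rw [Ideal.map_le_iff_le_comap]
      intro q hq
      rw [mem_Iq] at hq
      rw [Ideal.mem_comap, RingHom.mem_ker]
      obtain ⟨n, Q, hn, hQ⟩ := clear q
      have h1 : ∀ y : Fin m → ℂ, aeval y Q = (n : ℂ) * aeval y q := by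
        intro y
        have := congrArg (fun p => aeval y p) hQ
        simp only [map_mul, aeval_C] at this
        rw [aeval_map_algebraMap] at this
        rw [this]
        simp
      have h2 : aeval x Q = 0 := h Q (by rw [h1, hq, mul_zero])
      rw [h1] at h2
      have h3 : aeval x q = 0 := by
        rcases mul_eq_zero.mp h2 with h4 | h4
        · exact absurd (by exact_mod_cast h4) hn
        · exact h4
      have h5 : (aeval x : MvPolynomial (Fin m) ℂ →ₐ[ℂ] ℂ) (MvPolynomial.map (algebraMap ℚ ℂ) q) = 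
        aeval x q := by rw [aeval_map_algebraMap]
      exact h5.trans h3
    intro p hp
    exact hle hp
  · intro h Q hQ
    have h1 : MvPolynomial.map (algebraMap ℤ ℚ) Q ∈ Iq ξ := by
      rw [mem_Iq, aeval_map_algebraMap]
      exact hQ
    have h2 := h _ (Ideal.mem_map_of_mem (MvPolynomial.map (algebraMap ℚ ℂ)) h1)
    rw [aeval_map_algebraMap, aeval_map_algebraMap] at h2
    exact h2

theorem vi {m : ℕ} (ξ : Fin m → ℂ) : vanishingIdeal ℂ {x | OnV ξ x} = (Jc ξ).radical := by
  rw [zl, vanishingIdeal_zeroLocus_eq_radical]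

attribute [local instance] MvPolynomial.algebraMvPolynomial

theorem flat (r : ℕ) : Module.Flat (MvPolynomial (Fin r) ℚ) (MvPolynomial (Fin r) ℂ) :=
  Module.Flat.isBaseChange ℚ (MvPolynomial (Fin r) ℚ) ℂ (MvPolynomial (Fin r) ℂ)
    (Algebra.IsPushout.out (R := ℚ) (S := MvPolynomial (Fin r) ℚ) (R' := ℂ)
      (S' := MvPolynomial (Fin r) ℂ))

/-- torsion-freeness of `ℂ[x] / J` over `ℂ[y]` -/
theorem tf {m r : ℕ} (ξ : Fin m → ℂ) (w : Fin r → Fin m → ℤ)
    (halg : AlgebraicIndependent ℚ (fun i : Fin r => ∑ j, (w i j : ℂ) * ξ j))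
    (h : MvPolynomial (Fin r) ℂ) (hh : h ≠ 0) (s : MvPolynomial (Fin m) ℂ)
    (hs : aeval (Y ℂ w) h * s ∈ Jc ξ) : s ∈ Jc ξ := by
  let mkI := Ideal.Quotient.mk (Iq ξ)
  let αq : MvPolynomial (Fin r) ℚ →+* MvPolynomial (Fin m) ℚ :=
    (aeval (Y ℚ w) : MvPolynomial (Fin r) ℚ →ₐ[ℚ] _).toRingHom
  let αc : MvPolynomial (Fin r) ℂ →+* MvPolynomial (Fin m) ℂ :=
    (aeval (Y ℂ w) : MvPolynomial (Fin r) ℂ →ₐ[ℂ] _).toRingHom
  let mp : MvPolynomial (Fin m) ℚ →+* MvPolynomial (Fin m) ℂ := MvPolynomial.map (algebraMap ℚ ℂ)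
  have hB : Function.Injective (mkI.comp αq) := by
    rw [injective_iff_map_eq_zero]
    intro q hq
    have h1 : αq q ∈ Iq ξ := Ideal.Quotient.eq_zero_iff_mem.mp hq
    rw [mem_Iq] at h1
    have h2 : aeval ξ (αq q) = aeval (fun i : Fin r => ∑ j, (w i j : ℂ) * ξ j) q := aeval_Y ξ w q
    rw [h2] at h1
    exact (injective_iff_map_eq_zero _).mp halg q h1
  obtain ⟨T, _, incL, incR, hcomm, hreg, hlift⟩ := exists_T (mkI.comp αq) hB
    (MvPolynomial.map (algebraMap ℚ ℂ) : MvPolynomial (Fin r) ℚ →+* MvPolynomial (Fin r) ℂ)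
    (flat r)
  let φ1 : MvPolynomial (Fin m) ℂ →+* T := eval₂Hom (incR.comp C) (fun j => incL (mkI (X j)))
  have ha : ∀ q, φ1 (mp q) = incL (mkI q) := by
    intro q
    have : φ1.comp mp = incL.comp mkI := by
      apply MvPolynomial.ringHom_ext
      · intro a
        have : ((φ1.comp mp).comp C : ℚ →+* T) = (incL.comp mkI).comp C := Subsingleton.elim _ _
        exact congrArg (fun f => f a) this
      · intro i
        simp [φ1, mp]
    exact congrArg (fun f => f q) this
  have hb : ∀ h, φ1 (αc h) = incR h := by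
    intro h
    have : φ1.comp αc = incR := by
      apply MvPolynomial.ringHom_ext
      · intro a
        simp [φ1, αc]
      · intro i
        have h1 : (φ1.comp αc) (X i) = φ1 (Y ℂ w i) := by simp [αc]
        rw [h1, ← map_Y]
        have h2 := ha (Y ℚ w i)
        change φ1 (MvPolynomial.map (algebraMap ℚ ℂ) (Y ℚ w i)) = _ at h2
        rw [h2]
        have h3 : mkI (Y ℚ w i) = (mkI.comp αq) (X i) := by
          change _ = mkI ((aeval (Y ℚ w)) (X i))
          rw [aeval_X]
        rw [h3, hcomm, map_X]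
    exact congrArg (fun f => f h) this
  have hc : ∀ a ∈ Jc ξ, φ1 a = 0 := by
    have : Jc ξ ≤ RingHom.ker φ1 := by
      unfold Jc
      rw [Ideal.map_le_iff_le_comap]
      intro q hq
      rw [Ideal.mem_comap, RingHom.mem_ker]
      have := ha q
      change φ1 (MvPolynomial.map (algebraMap ℚ ℂ) q) = _ at this
      rw [this]
      have h2 : mkI q = 0 := Ideal.Quotient.eq_zero_iff_mem.mpr hq
      rw [h2, map_zero]
    intro a ha
    exact this ha
  obtain ⟨Λ, hΛ1, hΛ2⟩ := hlift (MvPolynomial (Fin m) ℂ ⧸ Jc ξ)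
    (Ideal.Quotient.lift (Iq ξ) ((Ideal.Quotient.mk (Jc ξ)).comp mp) (by
      intro a ha
      exact Ideal.Quotient.eq_zero_iff_mem.mpr (Ideal.mem_map_of_mem _ ha)))
    ((Ideal.Quotient.mk (Jc ξ)).comp αc) (by
      intro x
      change (Ideal.Quotient.mk (Jc ξ)) (MvPolynomial.map (algebraMap ℚ ℂ) (aeval (Y ℚ w) x)) =
        (Ideal.Quotient.mk (Jc ξ)) (aeval (Y ℂ w) (MvPolynomial.map (algebraMap ℚ ℂ) x))
      rw [square])
  have he : ∀ a, Λ (φ1 a) = Ideal.Quotient.mk (Jc ξ) a := by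
    intro a
    have : Λ.comp φ1 = Ideal.Quotient.mk (Jc ξ) := by
      apply MvPolynomial.ringHom_ext
      · intro c
        have h1 : (Λ.comp φ1) (C c) = Λ (incR (C c)) := by
          simp only [φ1, RingHom.comp_apply, eval₂Hom_C]
        rw [h1, hΛ2]
        simp [αc]
      · intro i
        have h1 : (Λ.comp φ1) (X i) = Λ (incL (mkI (X i))) := by
          simp only [φ1, RingHom.comp_apply, eval₂Hom_X']
        rw [h1, hΛ1]
        change Ideal.Quotient.mk (Jc ξ) (MvPolynomial.map (algebraMap ℚ ℂ) (X i)) = _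
        rw [map_X]
    exact congrArg (fun f => f a) this
  have h1 : φ1 (αc h * s) = 0 := hc _ hs
  rw [map_mul, hb] at h1
  have h2 : φ1 s = 0 := hreg h hh (φ1 s) h1
  have h3 := he s
  rw [h2, map_zero] at h3
  exact Ideal.Quotient.eq_zero_iff_mem.mp h3.symm

theorem pure (hN : SNoether) : SPure := by
  intro m r ξ F hV
  obtain ⟨hδ, w, halg, hrel⟩ := hN m r ξ F hV _ rfl
  set δ := F.degreeOf (0, 0) with hδdef
  refine ⟨⟨ξ, fun Q hQ => hQ⟩, ?_⟩
  intro P hP
  rw [vi, Ideal.radical_minimalPrimes] at hP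
  have hPp : P.IsPrime := hP.1.1
  have hJP : Jc ξ ≤ P := hP.1.2
  let αc : MvPolynomial (Fin r) ℂ →+* MvPolynomial (Fin m) ℂ :=
    (aeval (Y ℂ w) : MvPolynomial (Fin r) ℂ →ₐ[ℂ] _).toRingHom
  let : Algebra (MvPolynomial (Fin r) ℂ) (MvPolynomial (Fin m) ℂ ⧸ P) :=
    ((Ideal.Quotient.mk P).comp αc).toAlgebra
  have hmap : ∀ h, algebraMap (MvPolynomial (Fin r) ℂ) (MvPolynomial (Fin m) ℂ ⧸ P) h =
    Ideal.Quotient.mk P (aeval (Y ℂ w) h) := fun h => rfl
  have hinj : Function.Injective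
      (algebraMap (MvPolynomial (Fin r) ℂ) (MvPolynomial (Fin m) ℂ ⧸ P)) := by
    rw [injective_iff_map_eq_zero]
    intro h hh
    rw [hmap] at hh
    have h1 : aeval (Y ℂ w) h ∈ P := Ideal.Quotient.eq_zero_iff_mem.mp hh
    by_contra hne
    obtain ⟨y, hy, hxy⟩ := Ideal.exists_mul_mem_of_mem_minimalPrimes hP h1
    exact hy (tf ξ w halg h hne y hxy)
  have hX : ∀ j, IsIntegral (MvPolynomial (Fin r) ℂ) (Ideal.Quotient.mk P (X j)) := by
    intro j
    obtain ⟨c, -, hc⟩ := hrel (Pi.single j 1)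
    have hsum : (∑ k, ((Pi.single j 1 : Fin m → ℤ) k : ℂ) * ξ k) = ξ j := by
      rw [Finset.sum_eq_single j]
      · simp
      · intro b _ hb
        simp [Pi.single_eq_of_ne hb]
      · intro h
        exact absurd (Finset.mem_univ j) h
    rw [hsum] at hc
    let p : Polynomial (MvPolynomial (Fin r) ℂ) := ∑ i : Fin δ,
      Polynomial.C (MvPolynomial.map (algebraMap ℚ ℂ) (c i)) * Polynomial.X ^ (δ - 1 - (i : ℕ))
    have hp : p.degree < δ := by
      rw [← Polynomial.mem_degreeLT]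
      refine Submodule.sum_mem _ fun i _ => ?_
      rw [Polynomial.mem_degreeLT]
      refine lt_of_le_of_lt (Polynomial.degree_C_mul_X_pow_le _ _) ?_
      have : δ - 1 - (i : ℕ) < δ := by omega
      exact_mod_cast this
    refine ⟨Polynomial.X ^ δ + p, Polynomial.monic_X_pow_add hp, ?_⟩
    have hq : (X j ^ δ + ∑ i : Fin δ, aeval (Y ℚ w) (c i) * X j ^ (δ - 1 - (i : ℕ)) :
        MvPolynomial (Fin m) ℚ) ∈ Iq ξ := by
      rw [mem_Iq, map_add, map_pow, aeval_X, map_sum, ← hc]
      congr 1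
      refine Finset.sum_congr rfl fun i _ => ?_
      rw [map_mul, map_pow, aeval_X]
      congr 1
      exact aeval_Y ξ w (c i)
    have hq2 := hJP (Ideal.mem_map_of_mem (MvPolynomial.map (algebraMap ℚ ℂ)) hq)
    rw [← Ideal.Quotient.eq_zero_iff_mem] at hq2
    rw [← hq2]
    simp only [p, Polynomial.eval₂_add, Polynomial.eval₂_pow, Polynomial.eval₂_X,
      Polynomial.eval₂_finsetSum, Polynomial.eval₂_mul, Polynomial.eval₂_C, map_add, map_pow,
      map_sum, map_mul, map_X, square, hmap]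
  have : Algebra.IsIntegral (MvPolynomial (Fin r) ℂ) (MvPolynomial (Fin m) ℂ ⧸ P) := by
    constructor
    intro a
    obtain ⟨a, rfl⟩ := Ideal.Quotient.mk_surjective a
    induction a using MvPolynomial.induction_on with
    | C c =>
      have : Ideal.Quotient.mk P (C c) =
          algebraMap (MvPolynomial (Fin r) ℂ) (MvPolynomial (Fin m) ℂ ⧸ P) (C c) := by
        rw [hmap, aeval_C]
        rfl
      rw [this]
      exact isIntegral_algebraMap
    | add p q hp hq =>
      rw [map_add]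
      exact hp.add hq
    | mul_X p i hp =>
      rw [map_mul]
      exact hp.mul (hX i)
  rw [dim_eq hinj, MvPolynomial.ringKrullDim_of_isNoetherianRing, ringKrullDim_eq_zero_of_field]
  simp

end Pool.Agent.Helper84.LRPure
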