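import Pool.Agent.Helper47.RR.B3

/-!
# Function fields of genus zero and of genus one over an algebraically closed field
-/

set_option autoImplicit false

namespace Pool.Agent.Helper84.RRE

open Pool.Agent.Helper16 Pool.Agent.Helper45.FF Pool.Agent.Helper47.RR IntermediateField

variable {k L : Type} [Field k] [Field L] [Algebra k L]

/-- A function field has a place. -/
theorem exists_place (hN : IsFunctionField k L) : Nonempty (Place k L) := by
  obtain ⟨x, hx⟩ : ∃ x : L, Transcendental k x := by
    by_contra h
    push Not at h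
    have h1 : Algebra.IsAlgebraic k L := ⟨fun x => by
      have := h x
      rwa [Transcendental, not_not] at this⟩
    have h2 := hN.2
    have h3 : Algebra.trdeg k L = 0 := trdeg_eq_zero
    rw [h3] at h2
    exact zero_ne_one h2
  obtain ⟨S, hS, hsum, hpos⟩ := hN.zeros x hx
  rcases S.eq_empty_or_nonempty with h | ⟨v, hv⟩
  · rw [h] at hsum
    simp only [Finset.sum_empty] at hsum
    have : (0:ℤ) < (Module.finrank k⟮x⟯ L : ℤ) := by exact_mod_cast hpos
    omega
  · exact ⟨v⟩

/-- Over an algebraically closed field the algebraic elements are the constants. -/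
theorem transcendental_of_not_const [IsAlgClosed k] {f : L} (hf : ∀ c : k, algebraMap k L c ≠ f) :
    Transcendental k f := by
  intro h
  have h1 : IsIntegral k f := h.isIntegral
  have : FiniteDimensional k k⟮f⟯ := adjoin.finiteDimensional h1
  obtain ⟨c, hc⟩ := (IsAlgClosed.algebraMap_bijective_of_isIntegral (k := k) (K := k⟮f⟯)).2
    (⟨f, mem_adjoin_simple_self k f⟩)
  exact hf c (congrArg Subtype.val hc)

/-- The degree of `L` over `k(f)` is at most the degree of any effective divisor bounding the poles
of `f`. -/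
theorem finrank_adjoin_le [IsAlgClosed k] (hN : IsFunctionField k L) {f : L}
    (hf : Transcendental k f) {D : Dv k L} (hD : f ∈ Lsp D) (hD0 : ∀ v, 0 ≤ D v) :
    (Module.finrank k⟮f⟯ L : ℤ) ≤ degD D := by
  obtain ⟨S, hS, hsum, -⟩ := hN.zeros f⁻¹ (transcendental_inv hf)
  rw [finrank_inv] at hsum
  rw [← hsum]
  have hf0 : f ≠ 0 := transcendental_ne_zero hf
  have h1 : ∀ v ∈ S, v.ord f⁻¹ * (v.deg : ℤ) ≤ D v ∧ 0 < v.ord f⁻¹ := by
    intro v hv
    rw [deg_eq_one hN v, Nat.cast_one, mul_one]
    rw [hS, ← v.ord_pos_iff (inv_ne_zero hf0)] at hv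
    refine ⟨?_, hv⟩
    rw [v.ord_inv, Place.ord, neg_neg]
    have h2 := (mem_Lsp D f).1 hD v
    have h3 : v.val f ≠ 0 := by
      rw [Ne, v.val.zero_iff]
      exact hf0
    have h4 := (WithZero.log_le_log h3 WithZero.exp_ne_zero).2 h2
    rwa [WithZero.log_exp] at h4
  have hsub : S ⊆ D.support := by
    intro v hv
    rw [Finsupp.mem_support_iff]
    have h2 := h1 v hv
    rw [deg_eq_one hN v, Nat.cast_one, mul_one] at h2
    omega
  unfold degD Finsupp.sum
  calc ∑ v ∈ S, v.ord f⁻¹ * (v.deg : ℤ) ≤ ∑ v ∈ S, D v := Finset.sum_le_sum fun v hv => (h1 v hv).1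
    _ ≤ ∑ v ∈ D.support, D v :=
        Finset.sum_le_sum_of_subset_of_nonneg hsub fun v _ _ => hD0 v

/-- A function field with a nonconstant function having at most one simple pole is rational. -/
theorem adjoin_eq_top [IsAlgClosed k] (hN : IsFunctionField k L) {f : L}
    (hf : ∀ c : k, algebraMap k L c ≠ f) {v : Place k L} (hD : f ∈ Lsp (Finsupp.single v 1 : Dv k L)) :
    k⟮f⟯ = ⊤ := by
  have htr := transcendental_of_not_const hf
  obtain ⟨S, -, -, hpos⟩ := hN.zeros f htr
  have h1 := finrank_adjoin_le hN htr hD (by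
    intro w
    classical
    rw [Finsupp.single_apply]
    split_ifs <;> norm_num)
  rw [degD_single] at h1
  rw [← IntermediateField.finrank_eq_one_iff_eq_top]
  omega

/-- If every element of a subspace is a constant, then its dimension is at most one. -/
theorem finrank_le_one_of_const (V : Submodule k L) (h : ∀ f ∈ V, ∃ c : k, algebraMap k L c = f) :
    Module.finrank k V ≤ 1 := by
  have h1 : V ≤ Submodule.span k {(1:L)} := by
    intro f hf
    obtain ⟨c, hc⟩ := h f hf
    rw [Submodule.mem_span_singleton]
    exact ⟨c, by rw [← hc, Algebra.algebraMap_eq_smul_one]⟩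
  calc Module.finrank k V ≤ Module.finrank k (Submodule.span k {(1:L)}) :=
        Submodule.finrank_mono h1
    _ = 1 := finrank_span_singleton one_ne_zero

/-- A function field of genus zero is rational. -/
theorem genus_zero [IsAlgClosed k] (hN : IsFunctionField k L) (hg : genus k L = 0) :
    ∃ x : L, Transcendental k x ∧ k⟮x⟯ = ⊤ := by
  obtain ⟨v⟩ := exists_a_place hN
  have h1 := ell_eq_of_large hN (Finsupp.single v 1 : Dv k L) (by rw [degD_single, hg]; norm_num)
  rw [degD_single, hg] at h1
  by_contra hcon
  push Not at hcon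
  have h3 : Module.finrank k (Lsp (Finsupp.single v 1 : Dv k L)) ≤ 1 := by
    apply finrank_le_one_of_const
    intro f hf
    by_contra hc
    push Not at hc
    exact hcon f (transcendental_of_not_const hc) (adjoin_eq_top hN hc hf)
  unfold ell at h1
  omega

/-- In genus one, `dim L(D) = deg D` for divisors of positive degree. -/
theorem genus_one_ell [IsAlgClosed k] (hN : IsFunctionField k L) (hg : genus k L = 1) {D : Dv k L}
    (hD : 1 ≤ degD D) : ell D = degD D := by
  rw [ell_eq_of_large hN D (by rw [hg]; omega), hg]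
  ring

/-- In genus one every divisor of degree one is linearly equivalent to a unique place. -/
theorem genus_one_exists_place [IsAlgClosed k] (hN : IsFunctionField k L) (hg : genus k L = 1)
    {D : Dv k L} (hD : degD D = 1) :
    ∃! v : Place k L, ∃ f : L, f ≠ 0 ∧ D + prin hN f = Finsupp.single v 1 := by
  have h1 : Module.finrank k (Lsp D) = 1 := by
    have := genus_one_ell hN hg (D := D) (by omega)
    unfold ell at this
    omega
  obtain ⟨⟨f, hf⟩, hf0, hspan⟩ := finrank_eq_one_iff'.1 h1
  have hf0' : f ≠ 0 := fun h => hf0 (Subtype.ext h)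
  have hE : 0 ≤ D + prin hN f := (mem_Lsp_iff_prin hN D hf0').1 hf
  have hdE : degD (D + prin hN f) = 1 := by rw [degD_add, degD_prin, hD, add_zero]
  obtain ⟨v, hv⟩ : ∃ v, D + prin hN f = Finsupp.single v 1 := by
    have h2 : ∃ v, 0 < (D + prin hN f) v := by
      by_contra hcon
      push Not at hcon
      have h3 : D + prin hN f = 0 := by
        ext w
        exact le_antisymm (hcon w) (hE w)
      rw [h3, degD_zero] at hdE
      exact zero_ne_one hdE
    obtain ⟨v, hv⟩ := h2
    refine ⟨v, (eq_of_le_of_degD ?_ ?_).symm⟩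
    · intro w
      classical
      rw [Finsupp.single_apply]
      split_ifs with h
      · rw [← h]
        omega
      · exact hE w
    · rw [hdE, degD_single]
  refine ⟨v, ⟨f, hf0', hv⟩, ?_⟩
  rintro w ⟨g, hg0, hw⟩
  have hgm : g ∈ Lsp D := by
    rw [mem_Lsp_iff_prin hN D hg0, hw]
    intro u
    classical
    rw [Finsupp.single_apply]
    split_ifs <;> simp
  obtain ⟨c, hc⟩ := hspan ⟨g, hgm⟩
  have hc' : g = algebraMap k L c * f := by
    have h5 : c • f = g := congrArg Subtype.val hc
    rw [← h5]
    exact Algebra.smul_def c f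
  have hc0 : c ≠ 0 := by
    rintro rfl
    rw [map_zero, zero_mul] at hc'
    exact hg0 hc'
  have h4 : prin hN g = prin hN f := by
    ext u
    rw [prin_apply, prin_apply, hc', u.ord_mul (by simpa using hc0) hf0', u.ord_algebraMap,
      zero_add]
  rw [h4, hv] at hw
  have := Finsupp.single_left_injective (one_ne_zero) hw
  exact this.symm

end Pool.Agent.Helper84.RRE
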