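import Mathlib

set_option autoImplicit false

open Set Filter Topology

namespace Pool.Agent.Helper84.Glue

/-- The topology on `X` glued from the charts `φ i : Y → X`. -/
@[reducible]
def topo {ι Y X : Type*} [TopologicalSpace Y] (φ : ι → Y → X) : TopologicalSpace X :=
  ⨆ i, TopologicalSpace.coinduced (φ i) inferInstance

/-- Compatibility conditions for charts. -/
structure IsAtlas {ι Y X : Type*} [TopologicalSpace Y] (φ : ι → Y → X) : Prop where
  inj : ∀ i, Function.Injective (φ i)
  surj : ∀ x, ∃ i y, φ i y = x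
  glue : ∀ i j y y', φ i y = φ j y' →
    ∃ g : Y → Y, ContinuousAt g y ∧ g y = y' ∧ ∀ᶠ u in 𝓝 y, φ i u = φ j (g u)

section

variable {ι Y X : Type*} [TopologicalSpace Y] {φ : ι → Y → X}

lemma isOpen_iff {U : Set X} : IsOpen[topo φ] U ↔ ∀ i, IsOpen (φ i ⁻¹' U) := by
  unfold topo
  rw [isOpen_iSup_iff]
  exact forall_congr' fun i => isOpen_coinduced

lemma continuous_chart (i : ι) : @Continuous _ _ _ (topo φ) (φ i) := by
  let _ := topo φ
  rw [continuous_def]
  intro s hs
  exact isOpen_iff.mp hs i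

lemma continuous_dom {Z : Type*} [TopologicalSpace Z] {f : X → Z}
    (hf : ∀ i, Continuous (fun y => f (φ i y))) : @Continuous _ _ (topo φ) _ f := by
  let _ := topo φ
  rw [continuous_def]
  intro s hs
  rw [isOpen_iff]
  intro i
  exact (hf i).isOpen_preimage s hs

lemma isOpenMap_chart (h : IsAtlas φ) (i : ι) : @IsOpenMap _ _ _ (topo φ) (φ i) := by
  let _ := topo φ
  intro O hO
  rw [isOpen_iff]
  intro j
  rw [isOpen_iff_mem_nhds]
  intro y hy
  obtain ⟨y', hy', hyy'⟩ := hy
  obtain ⟨g, hg1, hg2, hg3⟩ := h.glue j i y y' hyy'.symm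
  have h1 : ∀ᶠ u in 𝓝 y, g u ∈ O := hg1 (by rw [hg2]; exact hO.mem_nhds hy')
  filter_upwards [h1, hg3] with u hu1 hu2
  exact ⟨g u, hu1, hu2.symm⟩

lemma isOpenEmbedding_chart (h : IsAtlas φ) (i : ι) :
    @IsOpenEmbedding _ _ _ (topo φ) (φ i) := by
  let _ := topo φ
  exact IsOpenEmbedding.of_continuous_injective_isOpenMap (continuous_chart i) (h.inj i)
    (isOpenMap_chart h i)

/-- A self-homeomorphism of the glued space given in the charts. -/
lemma exists_homeo (h : IsAtlas φ) (σ : Equiv.Perm ι) (θ : ι → (Y ≃ₜ Y))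
    (hσ : ∀ i j y y', φ i y = φ j y' ↔ φ (σ i) (θ i y) = φ (σ j) (θ j y')) :
    ∃ H : @Homeomorph X X (topo φ) (topo φ), ∀ i y, H (φ i y) = φ (σ i) (θ i y) := by
  let _ := topo φ
  choose I P hIP using h.surj
  have hσ' : ∀ i j y y', φ i y = φ j y' ↔
      φ (σ.symm i) ((θ (σ.symm i)).symm y) = φ (σ.symm j) ((θ (σ.symm j)).symm y') := by
    intro i j y y'
    rw [hσ (σ.symm i) (σ.symm j)]
    simp
  set F : X → X := fun x => φ (σ (I x)) (θ (I x) (P x)) with hF
  set G : X → X := fun x => φ (σ.symm (I x)) ((θ (σ.symm (I x))).symm (P x)) with hG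
  have hFφ : ∀ i y, F (φ i y) = φ (σ i) (θ i y) := fun i y => (hσ _ _ _ _).mp (hIP (φ i y))
  have hGφ : ∀ i y, G (φ i y) = φ (σ.symm i) ((θ (σ.symm i)).symm y) :=
    fun i y => (hσ' _ _ _ _).mp (hIP (φ i y))
  have hFc : Continuous F := continuous_dom fun i => by
    simp only [hFφ]
    exact (continuous_chart (σ i)).comp (θ i).continuous
  have hGc : Continuous G := continuous_dom fun i => by
    simp only [hGφ]
    exact (continuous_chart (σ.symm i)).comp (θ (σ.symm i)).symm.continuous
  refine ⟨{ toFun := F, invFun := G, left_inv := ?_, right_inv := ?_,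
            continuous_toFun := hFc, continuous_invFun := hGc }, hFφ⟩
  · intro x
    obtain ⟨i, y, rfl⟩ := h.surj x
    rw [hFφ, hGφ]
    simp
  · intro x
    obtain ⟨i, y, rfl⟩ := h.surj x
    rw [hGφ, hFφ]
    simp

end

/-- A local homeomorphism from a normed space gives neighbourhoods homeomorphic to the space. -/
lemma exists_open_homeo {E M : Type*} [NormedAddCommGroup E] [NormedSpace ℝ E]
    [TopologicalSpace M] {f : E → M} (hf : IsLocalHomeomorph f) (a : E) :
    ∃ U : Set M, IsOpen U ∧ f a ∈ U ∧ Nonempty (U ≃ₜ E) := by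
  obtain ⟨e, hae, rfl⟩ := hf a
  obtain ⟨r, hr, hball⟩ := Metric.isOpen_iff.mp e.open_source a hae
  set b : OpenPartialHomeomorph E E := OpenPartialHomeomorph.univBall a r with hb
  have hbs : b.source = univ := by simp [hb]
  have hbt : b.target = Metric.ball a r := by
    simp [hb, OpenPartialHomeomorph.univBall_target a hr]
  set c := b.trans e with hc
  have hcs : c.source = univ := by
    ext x
    simp only [hc, OpenPartialHomeomorph.trans_source, hbs, univ_inter, mem_preimage, mem_univ,
      iff_true]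
    apply hball
    rw [← hbt]
    exact b.map_source (by rw [hbs]; trivial)
  refine ⟨c.target, c.open_target, ?_, ⟨?_⟩⟩
  · have h1 : c (b.symm a) ∈ c.target := c.map_source (by rw [hcs]; trivial)
    have h2 : c (b.symm a) = e a := by
      simp only [hc, OpenPartialHomeomorph.coe_trans, Function.comp]
      rw [b.right_inv]
      rw [hbt]
      exact Metric.mem_ball_self hr
    rwa [h2] at h1
  · exact (c.toHomeomorphSourceTarget.symm).trans
      ((Homeomorph.setCongr hcs).trans (Homeomorph.Set.univ E))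

lemma isLocalHomeomorph_prodMap {A B C D : Type*} [TopologicalSpace A] [TopologicalSpace B]
    [TopologicalSpace C] [TopologicalSpace D] {f : A → B} {g : C → D}
    (hf : IsLocalHomeomorph f) (hg : IsLocalHomeomorph g) :
    IsLocalHomeomorph (Prod.map f g) := by
  intro x
  obtain ⟨e, he, rfl⟩ := hf x.1
  obtain ⟨e', he', rfl⟩ := hg x.2
  exact ⟨e.prod e', ⟨he, he'⟩, rfl⟩

lemma isLocalHomeomorph_piMap {J : Type*} [Finite J] {A B : J → Type*}
    [∀ j, TopologicalSpace (A j)] [∀ j, TopologicalSpace (B j)] {f : ∀ j, A j → B j}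
    (hf : ∀ j, IsLocalHomeomorph (f j)) :
    IsLocalHomeomorph (fun (x : ∀ j, A j) j => f j (x j)) := by
  intro x
  choose e he hfe using fun j => hf j (x j)
  refine ⟨OpenPartialHomeomorph.pi e, ?_, ?_⟩
  · show x ∈ pi univ fun j => (e j).source
    intro j _
    exact he j
  · funext y j
    show f j (y j) = e j (y j)
    rw [hfe]

end Pool.Agent.Helper84.Glue
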