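import Pool.Agent.Helper84.BRDMain
import Pool.Agent.Helper39.BR.Main

/-!
The strong form of Marshall's conjecture for `log ψ' = G₁ + i G₂ + u`, with `Re (z Gⱼ'(z))` of
bounded `L¹` means on circles and `u` with values in a strip of width `π`.
-/

set_option autoImplicit false

open Complex MeasureTheory Metric Set Filter Topology

namespace Pool.Agent.Helper84.BRD

theorem lift_continuousAt_zero {f : ℂ → ℂ} {l : ℂ} {s : ℝ} (hs : 1 < s)
    (hf : DifferentiableOn ℂ f {z : ℂ | 1 < ‖z‖})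
    (hl : Tendsto f (Bornology.cobounded ℂ) (𝓝 l)) :
    ContinuousAt (lift f l s) 0 :=
  (differentiableOn_lift hs hf hl).continuousOn.continuousAt
    (isOpen_ball.mem_nhds (mem_ball_self (by linarith)))

/-- the density attached to `G` on the circle of radius `s` -/
noncomputable def dens (G : ℂ → ℂ) (s : ℝ) (x : ℂ) : ℝ := (-(x * deriv (lift G 0 s) x)).re

theorem dens_continuousOn {G : ℂ → ℂ} {s : ℝ} (hs : 1 < s)
    (hG : DifferentiableOn ℂ G {z : ℂ | 1 < ‖z‖})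
    (hG0 : Tendsto G (Bornology.cobounded ℂ) (𝓝 0)) :
    ContinuousOn (dens G s) (sphere (0:ℂ) 1) := by
  have h1 : DifferentiableOn ℂ (deriv (lift G 0 s)) (ball 0 s) :=
    (differentiableOn_lift hs hG hG0).deriv isOpen_ball
  have h2 : DifferentiableOn ℂ (fun x => -(x * deriv (lift G 0 s) x)) (ball 0 s) :=
    (differentiableOn_id.mul h1).neg
  apply Complex.continuous_re.comp_continuousOn
  exact h2.continuousOn.mono (sphere_subset_closedBall.trans (closedBall_subset_ball hs))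

theorem dens_int {G : ℂ → ℂ} {s B : ℝ} (hs : 1 < s)
    (hG : DifferentiableOn ℂ G {z : ℂ | 1 < ‖z‖})
    (hB : ∫ θ in (0:ℝ)..(2 * Real.pi), |(((s:ℂ) * Complex.exp ((θ:ℂ) * I)) *
      deriv G ((s:ℂ) * Complex.exp ((θ:ℂ) * I))).re| ≤ B) :
    ∫ θ in (0:ℝ)..(2 * Real.pi), |dens G s (circleMap 0 1 θ)| ≤ B := by
  set f : ℝ → ℝ := fun θ => |(((s:ℂ) * Complex.exp ((θ:ℂ) * I)) *
      deriv G ((s:ℂ) * Complex.exp ((θ:ℂ) * I))).re| with hf
  have h1 : ∀ θ : ℝ, |dens G s (circleMap 0 1 θ)| = f (-θ) := by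
    intro θ
    have h2 : circleMap 0 1 θ = Complex.exp ((θ:ℂ) * I) := by
      simp [circleMap]
    have h3 : ‖circleMap 0 1 θ‖ = 1 := by simp
    have h4 : circleMap 0 1 θ ≠ 0 := by
      intro h
      rw [h] at h3
      simp at h3
    have h5 := deriv_lift (l := 0) hs hG h4 (by rw [h3]; exact hs)
    have h6 : (s:ℂ) / circleMap 0 1 θ = (s:ℂ) * Complex.exp (((-θ : ℝ) : ℂ) * I) := by
      rw [h2, div_eq_mul_inv, ← Complex.exp_neg]
      congr 2
      push_cast
      ring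
    rw [dens, h5, neg_neg, h6]
  have hper : Function.Periodic f (2 * Real.pi) := by
    intro θ
    rw [hf]
    simp only
    have : Complex.exp (((θ + 2 * Real.pi : ℝ) : ℂ) * I) = Complex.exp ((θ:ℂ) * I) := by
      push_cast
      rw [add_mul, Complex.exp_periodic]
    rw [this]
  have h7 : ∫ θ in (0:ℝ)..(2 * Real.pi), |dens G s (circleMap 0 1 θ)| =
      ∫ θ in (0:ℝ)..(2 * Real.pi), f (-θ) := by
    congr 1
    ext θ
    exact h1 θ
  rw [h7, intervalIntegral.integral_comp_neg]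
  have h8 := hper.intervalIntegral_add_eq (-(2 * Real.pi)) 0
  have h9 : -(2 * Real.pi) + 2 * Real.pi = 0 := by ring
  rw [h9, zero_add] at h8
  rw [neg_zero, h8]
  exact hB

theorem lift_eq_pot {G : ℂ → ℂ} {s : ℝ} (hs : 1 < s)
    (hG : DifferentiableOn ℂ G {z : ℂ | 1 < ‖z‖})
    (hG0 : Tendsto G (Bornology.cobounded ℂ) (𝓝 0)) {ζ : ℂ} (hζ : ζ ∈ ball (0:ℂ) 1) :
    lift G 0 s ζ = pot (dens G s) ζ :=
  (pot_eq hs (differentiableOn_lift hs hG hG0) (lift_zero G 0 s) hζ).symm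

theorem exists_measure {G₁ G₂ : ℂ → ℂ} {s K : ℝ} (hs : 1 < s)
    (hG₁ : DifferentiableOn ℂ G₁ {z : ℂ | 1 < ‖z‖})
    (hG₂ : DifferentiableOn ℂ G₂ {z : ℂ | 1 < ‖z‖})
    (h₁ : Tendsto G₁ (Bornology.cobounded ℂ) (𝓝 0))
    (h₂ : Tendsto G₂ (Bornology.cobounded ℂ) (𝓝 0))
    (hB₁ : ∫ θ in (0:ℝ)..(2 * Real.pi), |(((s:ℂ) * Complex.exp ((θ:ℂ) * I)) *
      deriv G₁ ((s:ℂ) * Complex.exp ((θ:ℂ) * I))).re| ≤ 2 * Real.pi * K)
    (hB₂ : ∫ θ in (0:ℝ)..(2 * Real.pi), |(((s:ℂ) * Complex.exp ((θ:ℂ) * I)) *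
      deriv G₂ ((s:ℂ) * Complex.exp ((θ:ℂ) * I))).re| ≤ 2 * Real.pi * K) :
    ∃ (m : Measure ℂ) (g : ℂ → ℂ), IsFiniteMeasure m ∧ m.real univ ≤ 4 * K ∧
      (∀ᵐ x ∂m, ‖x‖ = 1) ∧ AEStronglyMeasurable g m ∧ (∀ᵐ x ∂m, ‖g x‖ ≤ 1) ∧
      ∀ ζ ∈ ball (0:ℂ) 1, lift G₁ 0 s ζ + I * lift G₂ 0 s ζ =
        ∫ x, g x * Complex.log (1 - x * ζ) ∂m := by
  have hc₁ := dens_continuousOn hs hG₁ h₁
  have hc₂ := dens_continuousOn hs hG₂ h₂
  set Q : ℂ → ℂ := fun x => ((2 * dens G₁ s x : ℝ) : ℂ) + I * ((2 * dens G₂ s x : ℝ) : ℂ) with hQ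
  have hQc : ContinuousOn Q (sphere (0:ℂ) 1) := by
    apply ContinuousOn.add
    · exact Complex.continuous_ofReal.comp_continuousOn (hc₁.const_mul 2)
    · apply ContinuousOn.const_mul
      exact Complex.continuous_ofReal.comp_continuousOn (hc₂.const_mul 2)
  obtain ⟨m, g, hfin, hmass, hcirc, hgm, hg1, heq⟩ := cpot_eq_integral hQc
  refine ⟨m, g, hfin, ?_, hcirc, hgm, hg1, ?_⟩
  · rw [hmass]
    have hpi := Real.pi_pos
    have i₁ : IntervalIntegrable (fun θ => |dens G₁ s (circleMap 0 1 θ)|) volume 0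
        (2 * Real.pi) := by
      apply Continuous.intervalIntegrable
      exact (hc₁.comp_continuous (continuous_circleMap 0 1) (fun θ => by simp)).abs
    have i₂ : IntervalIntegrable (fun θ => |dens G₂ s (circleMap 0 1 θ)|) volume 0
        (2 * Real.pi) := by
      apply Continuous.intervalIntegrable
      exact (hc₂.comp_continuous (continuous_circleMap 0 1) (fun θ => by simp)).abs
    have i₃ : IntervalIntegrable (fun θ => ‖Q (circleMap 0 1 θ)‖) volume 0
        (2 * Real.pi) := by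
      apply Continuous.intervalIntegrable
      exact (hQc.comp_continuous (continuous_circleMap 0 1) (fun θ => by simp)).norm
    have hle : ∫ θ in (0:ℝ)..(2 * Real.pi), ‖Q (circleMap 0 1 θ)‖ ≤
        ∫ θ in (0:ℝ)..(2 * Real.pi), (2 * |dens G₁ s (circleMap 0 1 θ)| +
          2 * |dens G₂ s (circleMap 0 1 θ)|) := by
      apply intervalIntegral.integral_mono_on (by positivity) i₃
        ((i₁.const_mul 2).add (i₂.const_mul 2))
      intro θ _
      rw [hQ]
      refine (norm_add_le _ _).trans ?_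
      rw [norm_mul, Complex.norm_I, one_mul, Complex.norm_real, Complex.norm_real,
        Real.norm_eq_abs, Real.norm_eq_abs, abs_mul, abs_mul, abs_two]
    rw [intervalIntegral.integral_add (i₁.const_mul 2) (i₂.const_mul 2),
      intervalIntegral.integral_const_mul, intervalIntegral.integral_const_mul] at hle
    have k₁ := dens_int hs hG₁ hB₁
    have k₂ := dens_int hs hG₂ hB₂
    have hle2 : ∫ θ in (0:ℝ)..(2 * Real.pi), ‖Q (circleMap 0 1 θ)‖ ≤ 2 * Real.pi * (4 * K) := by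
      linarith
    calc (2 * Real.pi)⁻¹ * ∫ θ in (0:ℝ)..(2 * Real.pi), ‖Q (circleMap 0 1 θ)‖
        ≤ (2 * Real.pi)⁻¹ * (2 * Real.pi * (4 * K)) := by gcongr
      _ = 4 * K := by field_simp
  · intro ζ hζ
    rw [← heq ζ hζ, lift_eq_pot hs hG₁ h₁ hζ, lift_eq_pot hs hG₂ h₂ hζ]
    have hζ1 : ‖ζ‖ < 1 := by simpa using hζ
    have hlog : ContinuousOn (fun x : ℂ => Complex.log (1 - x⁻¹ * ζ)) (sphere (0:ℂ) |1|) := by
      have hx0 : ∀ x ∈ sphere (0:ℂ) |1|, ‖x‖ = 1 := by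
        intro x hx
        simpa using hx
      apply ContinuousOn.clog
      · apply ContinuousOn.sub continuousOn_const
        apply ContinuousOn.mul _ continuousOn_const
        apply ContinuousOn.inv₀ continuousOn_id
        intro x hx h
        have h' : x = 0 := h
        have := hx0 x hx
        rw [h'] at this
        simp at this
      · intro x hx
        exact slit (hx0 x hx) hζ1
    rw [abs_one] at hlog
    have c₁ : CircleIntegrable (fun x => Complex.log (1 - x⁻¹ * ζ) *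
        ((2 * dens G₁ s x : ℝ) : ℂ)) 0 1 := by
      apply ContinuousOn.circleIntegrable zero_le_one
      apply hlog.mul
      exact Complex.continuous_ofReal.comp_continuousOn (hc₁.const_mul 2)
    have c₂ : CircleIntegrable (fun x => I • (Complex.log (1 - x⁻¹ * ζ) *
        ((2 * dens G₂ s x : ℝ) : ℂ))) 0 1 := by
      apply ContinuousOn.circleIntegrable zero_le_one
      apply ContinuousOn.fun_const_smul
      apply hlog.mul
      exact Complex.continuous_ofReal.comp_continuousOn (hc₂.const_mul 2)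
    have e1 := Real.circleAverage_add c₁ c₂
    have e2 := Real.circleAverage_fun_smul (a := I) (c := (0:ℂ)) (R := 1)
      (f := fun x => Complex.log (1 - x⁻¹ * ζ) * ((2 * dens G₂ s x : ℝ) : ℂ))
    rw [e2] at e1
    simp only [smul_eq_mul] at e1
    unfold pot
    rw [← e1]
    apply Real.circleAverage_congr_sphere
    intro x _
    simp only [hQ, Pi.add_apply]
    ring

/-- The strong form of Marshall's conjecture, with a uniform constant and in the full range
`0 < a < 1`, when `log ψ' = G₁ + i G₂ + u`, where `Re (z Gⱼ'(z))` has `L¹` means at most `K` on all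
circles and `u` has values in a strip of width `π`. -/
theorem classical (K a : ℝ) (ha0 : 0 < a) (ha1 : a < 1) :
    ∃ C : ℝ, ∀ R : ℝ, 1 < R → ∀ ψ h : ℂ → ℂ,
      DifferentiableOn ℂ ψ {z : ℂ | 1 < ‖z‖} →
      Set.InjOn ψ {z : ℂ | 1 < ‖z‖} →
      (∃ b : ℂ, Filter.Tendsto (fun z => ψ z - z) (Bornology.cobounded ℂ) (nhds b)) →
      DifferentiableOn ℂ h {z : ℂ | 1 < ‖z‖} →
      (∀ z : ℂ, 1 < ‖z‖ → Complex.exp (h z) = deriv ψ z) →
      Filter.Tendsto h (Bornology.cobounded ℂ) (nhds 0) →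
      ∀ G₁ G₂ u : ℂ → ℂ,
      DifferentiableOn ℂ G₁ {z : ℂ | 1 < ‖z‖} →
      DifferentiableOn ℂ G₂ {z : ℂ | 1 < ‖z‖} →
      DifferentiableOn ℂ u {z : ℂ | 1 < ‖z‖} →
      Filter.Tendsto G₁ (Bornology.cobounded ℂ) (nhds 0) →
      Filter.Tendsto G₂ (Bornology.cobounded ℂ) (nhds 0) →
      (∀ r : ℝ, 1 < r → ∫ θ in (0:ℝ)..(2 * Real.pi), |(((r:ℂ) * Complex.exp ((θ:ℂ) * I)) *
        deriv G₁ ((r:ℂ) * Complex.exp ((θ:ℂ) * I))).re| ≤ 2 * Real.pi * K) →
      (∀ r : ℝ, 1 < r → ∫ θ in (0:ℝ)..(2 * Real.pi), |(((r:ℂ) * Complex.exp ((θ:ℂ) * I)) *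
        deriv G₂ ((r:ℂ) * Complex.exp ((θ:ℂ) * I))).re| ≤ 2 * Real.pi * K) →
      (∃ e : ℂ, ‖e‖ = 1 ∧ ∃ s : ℝ, ∀ z : ℂ, 1 < ‖z‖ → |(e * u z).im - s| ≤ Real.pi / 2) →
      (∀ z : ℂ, 1 < ‖z‖ → h z = G₁ z + I * G₂ z + u z) →
      (1 / (2 * Real.pi)) * ∫ θ in (0:ℝ)..(2 * Real.pi),
        Real.exp (a * ‖h ((R : ℂ) * Complex.exp ((θ : ℂ) * I))‖ ^ 2
          / Real.log (R ^ 2 / (R ^ 2 - 1))) ≤ C := by
  obtain ⟨C, hC⟩ := Pool.Agent.Helper39.BR.partB (4 * K) a ha0 ha1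
  refine ⟨1 / (2 * Real.pi) * C, ?_⟩
  intro R hR ψ h hψ hinj hb hh hexp hh0 G₁ G₂ u hG₁ hG₂ hu h₁ h₂ hB₁ hB₂ hstrip heq
  have hR0 : 0 < R := by linarith
  have hext : ∀ᶠ z : ℂ in Bornology.cobounded ℂ, 1 < ‖z‖ :=
    tendsto_norm_cobounded_atTop.eventually_gt_atTop 1
  have hu0 : Tendsto u (Bornology.cobounded ℂ) (𝓝 0) := by
    have h1 : Tendsto (fun z : ℂ => h z - (G₁ z + I * G₂ z)) (Bornology.cobounded ℂ) (𝓝 0) := by
      have := hh0.sub (h₁.add (h₂.const_mul I))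
      simpa using this
    apply h1.congr'
    filter_upwards [hext] with z hz
    rw [heq z hz]
    ring
  have hρ0 : 0 < R⁻¹ := inv_pos.mpr hR0
  have hρ1 : R⁻¹ < 1 := inv_lt_one_of_one_lt₀ hR
  have key : ∀ s : ℝ, 1 < s → ∫ θ in (0:ℝ)..(2 * Real.pi),
      Real.exp (a * ‖lift h 0 s (circleMap 0 R⁻¹ θ)‖ ^ 2 / Real.log (1 / (1 - R⁻¹ ^ 2))) ≤ C := by
    intro s hs
    obtain ⟨m, g, hfin, hmass, hcirc, hgm, hg1, hmeq⟩ :=
      exists_measure hs hG₁ hG₂ h₁ h₂ (hB₁ s hs) (hB₂ s hs)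
    obtain ⟨e, he, t, ht⟩ := hstrip
    apply hC R⁻¹ hρ0 hρ1 m g (lift u 0 s) (lift h 0 s)
    refine ⟨hfin, hmass, hcirc, hgm, hg1,
      (differentiableOn_lift hs hu hu0).mono (ball_subset_ball hs.le), ⟨e, he, t, ?_⟩,
      (differentiableOn_lift hs hh hh0).mono (ball_subset_ball hs.le), ?_, ?_⟩
    · intro ζ hζ
      have hζ1 : ‖ζ‖ < 1 := by simpa using hζ
      by_cases h0 : ζ = 0
      · subst h0
        have h1 : Tendsto (fun z : ℂ => |(e * u z).im - t|) (Bornology.cobounded ℂ)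
            (𝓝 (|(e * 0).im - t|)) := by
          apply Tendsto.abs
          apply Tendsto.sub_const
          exact (Complex.continuous_im.tendsto _).comp (hu0.const_mul e)
        rw [lift_zero]
        apply le_of_tendsto h1
        filter_upwards [hext] with z hz
        exact ht z hz
      · rw [lift_ne _ _ _ h0]
        exact ht _ (norm_div_gt hs h0 (hζ1.trans hs))
    · intro ζ hζ
      have hζ1 : ‖ζ‖ < 1 := by simpa using hζ
      rw [← hmeq ζ hζ]
      by_cases h0 : ζ = 0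
      · subst h0
        simp [lift_zero]
      · rw [lift_ne _ _ _ h0, lift_ne _ _ _ h0, lift_ne _ _ _ h0, lift_ne _ _ _ h0]
        exact heq _ (norm_div_gt hs h0 (hζ1.trans hs))
    · intro ζ hζ
      have hζ1 : ‖ζ‖ < 1 := by simpa using hζ
      by_cases h0 : ζ = 0
      · subst h0
        simp [lift_zero]
      · rw [lift_ne _ _ _ h0]
        have hz := norm_div_gt hs h0 (hζ1.trans hs)
        refine (Pool.Agent.Helper39.Area.goluzin_ext hψ hinj hb hh hexp hh0 hz).trans ?_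
        have hζ0 : 0 < ‖ζ‖ := norm_pos_iff.2 h0
        have hzn : ‖(s:ℂ) / ζ‖ = s / ‖ζ‖ := by
          rw [norm_div, Complex.norm_real, Real.norm_of_nonneg (by linarith)]
        rw [hzn] at hz ⊢
        have h3 : 0 < (s / ‖ζ‖) ^ 2 - 1 := by nlinarith
        apply Real.log_le_log (by positivity)
        rw [div_le_div_iff₀ h3 (by nlinarith)]
        have h4 : ‖ζ‖ * (s / ‖ζ‖) = s := by field_simp
        have h5 : ‖ζ‖ ^ 2 * (s / ‖ζ‖) ^ 2 = s ^ 2 := by rw [← mul_pow, h4]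
        nlinarith
  -- the limit `s → 1`
  have hcont : Continuous (fun s : ℝ => ∫ θ in (0:ℝ)..(2 * Real.pi),
      Real.exp (a * ‖h (((max s 1 : ℝ) : ℂ) / circleMap 0 R⁻¹ θ)‖ ^ 2 /
        Real.log (1 / (1 - R⁻¹ ^ 2)))) := by
    apply intervalIntegral.continuous_parametric_intervalIntegral_of_continuous'
    have h1 : Continuous (fun p : ℝ × ℝ => h (((max p.1 1 : ℝ) : ℂ) / circleMap 0 R⁻¹ p.2)) := by
      apply hh.continuousOn.comp_continuous
      · apply Continuous.div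
        · exact Complex.continuous_ofReal.comp (continuous_fst.max continuous_const)
        · exact (continuous_circleMap 0 R⁻¹).comp continuous_snd
        · intro p h
          have h2 : ‖circleMap 0 R⁻¹ p.2‖ = R⁻¹ := by
            simp [abs_of_pos hR0]
          rw [h, norm_zero] at h2
          linarith
      · intro p
        have h2 : ‖circleMap 0 R⁻¹ p.2‖ = R⁻¹ := by
          simp [abs_of_pos hR0]
        simp only [mem_ofPred_eq]
        rw [norm_div, h2, Complex.norm_real, Real.norm_of_nonneg (by positivity), div_inv_eq_mul]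
        have h3 : (1:ℝ) ≤ max p.1 1 := le_max_right _ _
        nlinarith
    change Continuous (fun p : ℝ × ℝ => Real.exp (a * ‖h (((max p.1 1 : ℝ) : ℂ) /
      circleMap 0 R⁻¹ p.2)‖ ^ 2 / Real.log (1 / (1 - R⁻¹ ^ 2))))
    exact Real.continuous_exp.comp (((h1.norm.pow 2).const_mul a).div_const _)
  have hlim : ∫ θ in (0:ℝ)..(2 * Real.pi),
      Real.exp (a * ‖h (((max (1:ℝ) 1 : ℝ) : ℂ) / circleMap 0 R⁻¹ θ)‖ ^ 2 /
        Real.log (1 / (1 - R⁻¹ ^ 2))) ≤ C := by
    apply le_of_tendsto ((hcont.tendsto 1).mono_left (nhdsWithin_le_nhds (s := Ioi 1)))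
    filter_upwards [self_mem_nhdsWithin] with s hs
    have hs' : 1 < s := hs
    refine le_trans (le_of_eq ?_) (key s hs')
    congr 1
    ext θ
    have h2 : circleMap 0 R⁻¹ θ ≠ 0 := by
      intro h3
      have h4 : ‖circleMap 0 R⁻¹ θ‖ = R⁻¹ := by
        simp [abs_of_pos hR0]
      rw [h3, norm_zero] at h4
      linarith
    rw [lift_ne _ _ _ h2, max_eq_left hs'.le]
  rw [Pool.Agent.Helper39.Area.integral_transfer h a R hR]
  have h6 : ∫ θ in (0:ℝ)..(2 * Real.pi),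
        Real.exp (a * ‖Pool.Agent.Helper39.Area.toDisc 0 h
          (((R⁻¹ : ℝ) : ℂ) * Complex.exp ((θ : ℂ) * I))‖ ^ 2 / Real.log (1 / (1 - (R⁻¹) ^ 2))) ≤ C := by
    refine le_trans (le_of_eq ?_) hlim
    congr 1
    ext θ
    have h2 : ((R⁻¹ : ℝ) : ℂ) * Complex.exp ((θ : ℂ) * I) ≠ 0 := by
      apply mul_ne_zero
      · exact_mod_cast hρ0.ne'
      · exact Complex.exp_ne_zero _
    rw [Pool.Agent.Helper39.Area.toDisc, if_neg h2, max_self, circleMap, zero_add,
      Complex.ofReal_one]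
    simp only [one_div]
  gcongr

end Pool.Agent.Helper84.BRD
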