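import Mathlib

/-!
Schwarz type formula on the unit circle and the logarithmic potential of the real part of an
analytic function.
-/

set_option autoImplicit false

open Complex MeasureTheory Metric Set Filter Topology

namespace Pool.Agent.Helper84.BRD

/-- Schwarz formula without the imaginary constant. -/
theorem schwarz {A : ℂ → ℂ} {s : ℝ} (hs : 1 < s) (hA : DifferentiableOn ℂ A (ball 0 s)) {ζ : ℂ}
    (hζ : ζ ∈ ball (0:ℂ) 1) :
    Real.circleAverage (fun x => (2 * ζ / (x - ζ)) * ((A x).re : ℂ)) 0 1 = A ζ - A 0 := by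
  have hsub : closedBall (0:ℂ) 1 ⊆ ball 0 s := closedBall_subset_ball hs
  have hAd : DiffContOnCl ℂ A (ball (0:ℂ) |1|) := by
    rw [abs_one]
    apply DifferentiableOn.diffContOnCl
    rw [closure_ball (0:ℂ) one_ne_zero]
    exact hA.mono hsub
  have hζ1 : ‖ζ‖ < 1 := by simpa using hζ
  have hζ' : ζ ∈ ball (0:ℂ) |1| := by simpa using hζ1
  have hAc : ContinuousOn A (sphere 0 1) :=
    (hA.continuousOn).mono (sphere_subset_closedBall.trans hsub)
  have hne : ∀ x ∈ sphere (0:ℂ) 1, x - ζ ≠ 0 := by
    intro x hx h
    rw [sub_eq_zero] at h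
    rw [h] at hx
    simp only [mem_sphere_iff_norm, sub_zero] at hx
    linarith
  have h1 : Real.circleAverage (fun x => ((x - 0) / (x - ζ)) • A x) 0 1 = A ζ :=
    hAd.circleAverage_smul_div hζ'
  have h2 : Real.circleAverage (fun x => A x / (1 - x * (starRingEnd ℂ) ζ)) 0 1 = A 0 := by
    have hd : DiffContOnCl ℂ (fun x => A x / (1 - x * (starRingEnd ℂ) ζ)) (ball (0:ℂ) |1|) := by
      rw [abs_one]
      apply DifferentiableOn.diffContOnCl
      rw [closure_ball (0:ℂ) one_ne_zero]
      apply (hA.mono hsub).div
      · fun_prop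
      · intro x hx h
        have h3 : x * (starRingEnd ℂ) ζ = 1 := by
          rw [sub_eq_zero] at h
          exact h.symm
        have h4 : ‖x‖ * ‖ζ‖ = 1 := by
          have := congrArg norm h3
          rw [norm_mul, RCLike.norm_conj, norm_one] at this
          exact this
        have h5 : ‖x‖ ≤ 1 := by simpa using hx
        nlinarith [norm_nonneg ζ, norm_nonneg x]
    have := hd.circleAverage
    rw [this]
    simp
  have h3 : Real.circleAverage A 0 1 = A 0 := hAd.circleAverage
  have ci1 : CircleIntegrable (fun x => ((x - 0) / (x - ζ)) • A x) 0 1 := by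
    apply ContinuousOn.circleIntegrable zero_le_one
    apply ContinuousOn.fun_smul _ hAc
    exact ContinuousOn.div (by fun_prop) (by fun_prop) hne
  have ci2 : CircleIntegrable (fun x => A x / (1 - x * (starRingEnd ℂ) ζ)) 0 1 := by
    apply ContinuousOn.circleIntegrable zero_le_one
    apply hAc.div (by fun_prop)
    intro x hx h
    have h3 : x * (starRingEnd ℂ) ζ = 1 := by
      rw [sub_eq_zero] at h
      exact h.symm
    have h4 : ‖x‖ * ‖ζ‖ = 1 := by
      have := congrArg norm h3
      rw [norm_mul, RCLike.norm_conj, norm_one] at this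
      exact this
    have h5 : ‖x‖ = 1 := by simpa using hx
    rw [h5] at h4
    linarith
  have ci3 : CircleIntegrable A 0 1 := hAc.circleIntegrable zero_le_one
  -- conjugates
  have h2' : Real.circleAverage (fun x => (x / (x - ζ)) * (starRingEnd ℂ) (A x)) 0 1
      = (starRingEnd ℂ) (A 0) := by
    have := (Complex.conjCLE : ℂ →L[ℝ] ℂ).circleAverage_comp_comm ci2
    rw [h2] at this
    rw [show (starRingEnd ℂ) (A 0) = (Complex.conjCLE : ℂ →L[ℝ] ℂ) (A 0) from rfl, ← this]
    apply Real.circleAverage_congr_sphere
    intro x hx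
    have hx1 : ‖x‖ = 1 := by simpa using hx
    have hx0 : x ≠ 0 := by
      intro h
      rw [h] at hx1
      simp at hx1
    have hxx : (starRingEnd ℂ) x = x⁻¹ := by
      rw [Complex.inv_def, Complex.normSq_eq_norm_sq, hx1]
      simp
    have hne' := hne x (by simpa using hx)
    simp only [Function.comp_apply]
    change _ = (starRingEnd ℂ) (A x / (1 - x * (starRingEnd ℂ) ζ))
    rw [map_div₀, map_sub, map_mul, map_one, Complex.conj_conj, hxx]
    have : 1 - x⁻¹ * ζ = (x - ζ) / x := by field_simp
    rw [this]
    field_simp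
  have h3' : Real.circleAverage (fun x => (starRingEnd ℂ) (A x)) 0 1 = (starRingEnd ℂ) (A 0) := by
    have := (Complex.conjCLE : ℂ →L[ℝ] ℂ).circleAverage_comp_comm ci3
    rw [h3] at this
    exact this
  have ci2' : CircleIntegrable (fun x => (x / (x - ζ)) * (starRingEnd ℂ) (A x)) 0 1 := by
    apply ContinuousOn.circleIntegrable zero_le_one
    apply ContinuousOn.mul
    · exact ContinuousOn.div (by fun_prop) (by fun_prop) hne
    · exact Complex.continuous_conj.comp_continuousOn hAc
  have ci3' : CircleIntegrable (fun x => (starRingEnd ℂ) (A x)) 0 1 := by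
    apply ContinuousOn.circleIntegrable zero_le_one
    exact Complex.continuous_conj.comp_continuousOn hAc
  have key : Real.circleAverage (fun x => (2 * ζ / (x - ζ)) * ((A x).re : ℂ)) 0 1
      = Real.circleAverage (fun x => ((((x - 0) / (x - ζ)) • A x) +
          (x / (x - ζ)) * (starRingEnd ℂ) (A x)) - (A x + (starRingEnd ℂ) (A x))) 0 1 := by
    apply Real.circleAverage_congr_sphere
    intro x hx
    have hne' := hne x (by simpa using hx)
    have hre : ((A x).re : ℂ) = (A x + (starRingEnd ℂ) (A x)) / 2 := by
      rw [Complex.add_conj]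
      push_cast
      ring
    simp only [smul_eq_mul, sub_zero]
    rw [hre]
    field_simp
    ring
  have e1 := Real.circleAverage_sub (ci1.add ci2') (ci3.add ci3')
  rw [Real.circleAverage_add ci1 ci2', Real.circleAverage_add ci3 ci3', h1, h2', h3, h3'] at e1
  rw [key]
  refine Eq.trans e1 ?_
  ring

end Pool.Agent.Helper84.BRD
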