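import Pool.Agent.Helper84.BRDMeas

/-!
Functions on the exterior of the unit disc pulled back to a disc of radius `s > 1`.
-/

set_option autoImplicit false

open Complex MeasureTheory Metric Set Filter Topology

namespace Pool.Agent.Helper84.BRD

/-- pull back of a function on the exterior of the unit disc by `ζ ↦ s / ζ` -/
noncomputable def lift (f : ℂ → ℂ) (l : ℂ) (s : ℝ) (ζ : ℂ) : ℂ := if ζ = 0 then l else f (s / ζ)

theorem lift_zero (f : ℂ → ℂ) (l : ℂ) (s : ℝ) : lift f l s 0 = l := if_pos rfl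

theorem lift_ne (f : ℂ → ℂ) (l : ℂ) (s : ℝ) {ζ : ℂ} (h : ζ ≠ 0) : lift f l s ζ = f (s / ζ) :=
  if_neg h

theorem norm_div_gt {s : ℝ} (hs : 1 < s) {ζ : ℂ} (h0 : ζ ≠ 0) (h : ‖ζ‖ < s) :
    1 < ‖(s : ℂ) / ζ‖ := by
  rw [norm_div, Complex.norm_real, Real.norm_of_nonneg (by linarith),
    lt_div_iff₀ (norm_pos_iff.2 h0), one_mul]
  exact h

theorem isOpen_ext : IsOpen {z : ℂ | 1 < ‖z‖} := isOpen_lt continuous_const continuous_norm

theorem differentiableOn_lift {f : ℂ → ℂ} {l : ℂ} {s : ℝ} (hs : 1 < s)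
    (hf : DifferentiableOn ℂ f {z : ℂ | 1 < ‖z‖})
    (hl : Tendsto f (Bornology.cobounded ℂ) (𝓝 l)) :
    DifferentiableOn ℂ (lift f l s) (ball 0 s) := by
  have hs0 : (0:ℝ) < s := by linarith
  have h0 : (0:ℂ) ∈ ball (0:ℂ) s := mem_ball_self hs0
  rw [← Complex.differentiableOn_compl_singleton_and_continuousAt_iff (isOpen_ball.mem_nhds h0)]
  constructor
  · intro ζ hζ
    have hζ0 : ζ ≠ 0 := hζ.2
    have hζs : ‖ζ‖ < s := by simpa using hζ.1
    have h1 : DifferentiableAt ℂ f ((s:ℂ) / ζ) :=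
      (hf _ (norm_div_gt hs hζ0 hζs)).differentiableAt
        (isOpen_ext.mem_nhds (norm_div_gt hs hζ0 hζs))
    have h2 : DifferentiableAt ℂ (fun ζ : ℂ => (s:ℂ) / ζ) ζ :=
      (differentiableAt_const _).div differentiableAt_id hζ0
    have h3 : DifferentiableAt ℂ (fun ζ : ℂ => f ((s:ℂ) / ζ)) ζ := h1.comp ζ h2
    apply DifferentiableAt.differentiableWithinAt
    apply h3.congr_of_eventuallyEq
    filter_upwards [isOpen_ne.mem_nhds hζ0] with y hy
    exact lift_ne f l s hy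
  · rw [ContinuousAt, lift_zero]
    have h1 : Tendsto (fun ζ : ℂ => (s:ℂ) / ζ) (𝓝[≠] 0) (Bornology.cobounded ℂ) := by
      rw [← tendsto_norm_atTop_iff_cobounded]
      have h2 : Tendsto (fun ζ : ℂ => ‖ζ⁻¹‖) (𝓝[≠] 0) atTop :=
        tendsto_norm_atTop_iff_cobounded.2 Filter.tendsto_inv₀_nhdsNE_zero
      have h3 := h2.const_mul_atTop hs0
      apply h3.congr'
      filter_upwards with y
      rw [norm_div, Complex.norm_real, Real.norm_of_nonneg hs0.le, norm_inv, div_eq_mul_inv]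
    have h2 : Tendsto (lift f l s) (𝓝[≠] 0) (𝓝 l) := by
      apply (hl.comp h1).congr'
      filter_upwards [self_mem_nhdsWithin] with y hy
      exact (lift_ne f l s hy).symm
    rw [← nhdsNE_sup_pure (0:ℂ)]
    apply Tendsto.sup h2
    rw [tendsto_pure_left]
    intro t ht
    rw [lift_zero]
    exact mem_of_mem_nhds ht

theorem deriv_lift {f : ℂ → ℂ} {l : ℂ} {s : ℝ} (hs : 1 < s)
    (hf : DifferentiableOn ℂ f {z : ℂ | 1 < ‖z‖}) {ζ : ℂ} (hζ0 : ζ ≠ 0) (hζs : ‖ζ‖ < s) :
    ζ * deriv (lift f l s) ζ = - (((s:ℂ) / ζ) * deriv f ((s:ℂ) / ζ)) := by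
  have h1 : HasDerivAt f (deriv f ((s:ℂ) / ζ)) ((s:ℂ) / ζ) :=
    ((hf _ (norm_div_gt hs hζ0 hζs)).differentiableAt
      (isOpen_ext.mem_nhds (norm_div_gt hs hζ0 hζs))).hasDerivAt
  have h2 : HasDerivAt (fun ζ : ℂ => (s:ℂ) / ζ) (-(s:ℂ) / ζ ^ 2) ζ := by
    have := (hasDerivAt_inv hζ0).const_mul (s:ℂ)
    refine (this.congr_deriv ?_).congr_of_eventuallyEq ?_
    · ring
    · filter_upwards with y
      rw [div_eq_mul_inv]
  have h3 : HasDerivAt (fun ζ : ℂ => f ((s:ℂ) / ζ)) (deriv f ((s:ℂ) / ζ) * (-(s:ℂ) / ζ ^ 2)) ζ :=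
    h1.comp ζ h2
  have h4 : HasDerivAt (lift f l s) (deriv f ((s:ℂ) / ζ) * (-(s:ℂ) / ζ ^ 2)) ζ := by
    apply h3.congr_of_eventuallyEq
    filter_upwards [isOpen_ne.mem_nhds hζ0] with y hy
    exact lift_ne f l s hy
  rw [h4.deriv]
  field_simp

/-- An analytic function vanishing at the origin is the logarithmic potential of the density
`-2 Re (x F' x)`. -/
theorem pot_eq {F : ℂ → ℂ} {s : ℝ} (hs : 1 < s) (hF : DifferentiableOn ℂ F (ball 0 s))
    (hF0 : F 0 = 0) {ζ : ℂ} (hζ : ζ ∈ ball (0:ℂ) 1) :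
    pot (fun x => (-(x * deriv F x)).re) ζ = F ζ := by
  set A : ℂ → ℂ := fun x => -(x * deriv F x) with hA
  have hsub : ball (0:ℂ) 1 ⊆ ball 0 s := ball_subset_ball hs.le
  have hAd : DifferentiableOn ℂ A (ball 0 s) := by
    have h1 : DifferentiableOn ℂ (deriv F) (ball 0 s) := hF.deriv isOpen_ball
    exact (differentiableOn_id.mul h1).neg
  have hqc : ContinuousOn (fun x => (A x).re) (sphere (0:ℂ) 1) := by
    apply Complex.continuous_re.comp_continuousOn
    exact hAd.continuousOn.mono (sphere_subset_closedBall.trans (closedBall_subset_ball hs))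
  set Φ : ℂ → ℂ := fun y => F y - pot (fun x => (A x).re) y with hΦ
  have hder : ∀ y ∈ ball (0:ℂ) 1, HasDerivAt Φ
      (deriv F y - Real.circleAverage (fun x => -(1 / (x - y)) * ((2 * (A x).re : ℝ) : ℂ)) 0 1)
      y := by
    intro y hy
    have h1 := hasDerivAt_pot hqc hy
    have h2 : HasDerivAt F (deriv F y) y :=
      ((hF y (hsub hy)).differentiableAt (isOpen_ball.mem_nhds (hsub hy))).hasDerivAt
    exact h2.sub h1
  have hA0 : A 0 = 0 := by
    rw [hA]
    simp
  have hder0 : ∀ y ∈ ball (0:ℂ) 1, y ≠ 0 → HasDerivAt Φ 0 y := by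
    intro y hy hy0
    refine (hder y hy).congr_deriv ?_
    have h4 := schwarz hs hAd hy
    have hy1 : ‖y‖ < 1 := by simpa using hy
    have h5 : Real.circleAverage (fun x => -(1 / (x - y)) * ((2 * (A x).re : ℝ) : ℂ)) 0 1
        = -(1 / y) * (A y - A 0) := by
      rw [← h4]
      have h6 := Real.circleAverage_fun_smul (a := -(1 / y)) (c := (0:ℂ)) (R := 1)
        (f := fun x => (2 * y / (x - y)) * ((A x).re : ℂ))
      simp only [smul_eq_mul] at h6
      rw [← h6]
      apply Real.circleAverage_congr_sphere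
      intro x hx
      have hne' : x - y ≠ 0 := by
        intro h
        rw [sub_eq_zero] at h
        rw [h] at hx
        simp only [abs_one, mem_sphere_iff_norm, sub_zero] at hx
        linarith
      push_cast
      field_simp
    rw [h5, hA0, hA]
    simp only
    field_simp
    ring
  have hΦd : DifferentiableOn ℂ Φ (ball 0 1) := fun y hy =>
    (hder y hy).differentiableAt.differentiableWithinAt
  have h0mem : (0:ℂ) ∈ ball (0:ℂ) 1 := mem_ball_self one_pos
  have hd0 : deriv Φ 0 = 0 := by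
    have hc : ContinuousAt (deriv Φ) 0 :=
      ((hΦd.deriv isOpen_ball) 0 h0mem).continuousWithinAt.continuousAt
        (isOpen_ball.mem_nhds h0mem)
    have t1 : Tendsto (deriv Φ) (𝓝[≠] 0) (𝓝 (deriv Φ 0)) :=
      hc.tendsto.mono_left nhdsWithin_le_nhds
    have t2 : Tendsto (deriv Φ) (𝓝[≠] 0) (𝓝 0) := by
      apply tendsto_const_nhds.congr'
      filter_upwards [self_mem_nhdsWithin, mem_nhdsWithin_of_mem_nhds
        (isOpen_ball.mem_nhds h0mem)] with y hy1 hy2
      exact (hder0 y hy2 hy1).deriv.symm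
    exact tendsto_nhds_unique t1 t2
  have hall : ∀ y ∈ ball (0:ℂ) 1, HasDerivAt Φ 0 y := by
    intro y hy
    by_cases hy0 : y = 0
    · have h1 := (hder y hy).differentiableAt.hasDerivAt
      rw [hy0] at h1 ⊢
      rwa [hd0] at h1
    · exact hder0 y hy hy0
  have hconst : Φ ζ = Φ 0 := by
    apply Convex.is_const_of_fderivWithin_eq_zero (𝕜 := ℂ) (convex_ball (0:ℂ) 1) hΦd _ hζ h0mem
    intro x hx
    rw [fderivWithin_of_isOpen isOpen_ball hx]
    have := (hall x hx).hasFDerivAt.fderiv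
    rw [this]
    ext
    simp
  have hΦ0 : Φ 0 = 0 := by
    simp only [hΦ, hF0, pot_zero]
    simp
  rw [hΦ0] at hconst
  simp only [hΦ] at hconst
  exact (sub_eq_zero.1 hconst).symm

end Pool.Agent.Helper84.BRD
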