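import Pool.Agent.Helper84.BRDPot

/-!
The logarithmic potential of a continuous complex density on the unit circle as an integral
against a finite measure.
-/

set_option autoImplicit false

open Complex MeasureTheory Metric Set Filter Topology

namespace Pool.Agent.Helper84.BRD

theorem cpot_eq_integral {Q : ℂ → ℂ} (hQ : ContinuousOn Q (sphere (0:ℂ) 1)) :
    ∃ (m : Measure ℂ) (g : ℂ → ℂ), IsFiniteMeasure m ∧
      m.real univ = (2 * Real.pi)⁻¹ * ∫ θ in (0:ℝ)..(2 * Real.pi), ‖Q (circleMap 0 1 θ)‖ ∧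
      (∀ᵐ x ∂m, ‖x‖ = 1) ∧ AEStronglyMeasurable g m ∧ (∀ᵐ x ∂m, ‖g x‖ ≤ 1) ∧
      ∀ ζ ∈ ball (0:ℂ) 1, Real.circleAverage (fun x => Complex.log (1 - x⁻¹ * ζ) * Q x) 0 1 =
        ∫ x, g x * Complex.log (1 - x * ζ) ∂m := by
  classical
  have hpi : (0:ℝ) < 2 * Real.pi := by positivity
  set φ : ℝ → ℂ := fun θ => (circleMap 0 1 θ)⁻¹ with hφ
  have hnc : ∀ θ : ℝ, ‖circleMap 0 1 θ‖ = 1 := by
    intro θ
    simp
  have hcm : ∀ θ : ℝ, circleMap 0 1 θ ≠ 0 := by
    intro θ h
    have := hnc θ
    rw [h] at this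
    simp at this
  have hφc : Continuous φ := (continuous_circleMap 0 1).inv₀ hcm
  have hφn : ∀ θ, ‖φ θ‖ = 1 := by
    intro θ
    rw [hφ]
    simp only [norm_inv, hnc, inv_one]
  have hqc : Continuous (fun θ : ℝ => Q (circleMap 0 1 θ)) := by
    apply hQ.comp_continuous (continuous_circleMap 0 1)
    intro θ
    simp
  set d : ℝ → NNReal := fun θ => Real.toNNReal ((2 * Real.pi)⁻¹ * ‖Q (circleMap 0 1 θ)‖) with hd
  have hdc : Continuous d := by
    rw [hd]
    exact continuous_real_toNNReal.comp (hqc.norm.const_mul _)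
  have hdv : ∀ θ, (d θ : ℝ) = (2 * Real.pi)⁻¹ * ‖Q (circleMap 0 1 θ)‖ := by
    intro θ
    rw [hd]
    exact Real.coe_toNNReal _ (by positivity)
  set ν : Measure ℝ := (volume.restrict (Ioc 0 (2 * Real.pi))).withDensity (fun θ => (d θ : ENNReal))
    with hν
  set S : Set ℂ := sphere (0:ℂ) 1 with hS
  have hSm : MeasurableSet S := isClosed_sphere.measurableSet
  have hQi : ContinuousOn (fun x : ℂ => Q x⁻¹) S := by
    apply hQ.comp
    · apply ContinuousOn.inv₀ continuousOn_id
      intro x hx h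
      have h' : x = 0 := h
      rw [h'] at hx
      simp [hS] at hx
    · intro x hx
      have : ‖x‖ = 1 := by simpa [hS] using hx
      rw [mem_sphere_zero_iff_norm, norm_inv, this, inv_one]
  set p : ℂ → ℂ := S.piecewise (fun x : ℂ => Q x⁻¹) (fun _ => 0) with hp
  have hpm : Measurable p := hQi.measurable_piecewise continuousOn_const hSm
  set g : ℂ → ℂ := fun x => p x / (‖p x‖ : ℂ) with hg
  have hgm : Measurable g := by
    apply hpm.div
    exact Complex.measurable_ofReal.comp hpm.norm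
  have hgn : ∀ x, ‖g x‖ ≤ 1 := by
    intro x
    rw [hg]
    simp only [norm_div, Complex.norm_real, norm_norm]
    exact div_self_le_one _
  have hpφ : ∀ θ, p (φ θ) = Q (circleMap 0 1 θ) := by
    intro θ
    rw [hp, piecewise_eq_of_mem _ _ _ (by simp [hS, hφn])]
    simp [hφ]
  have hgφ : ∀ θ, g (φ θ) * ((‖Q (circleMap 0 1 θ)‖ : ℝ) : ℂ) = Q (circleMap 0 1 θ) := by
    intro θ
    rw [hg]
    simp only
    rw [hpφ]
    by_cases h2 : Q (circleMap 0 1 θ) = 0
    · rw [h2]
      simp
    · have h3 : ((‖Q (circleMap 0 1 θ)‖ : ℝ) : ℂ) ≠ 0 := by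
        exact_mod_cast norm_ne_zero_iff.2 h2
      field_simp
  have hint : ∀ (f : ℝ → ℂ), ∫ θ, f θ ∂ν = ∫ θ in (0:ℝ)..(2 * Real.pi), (d θ : ℂ) * f θ := by
    intro f
    rw [hν, integral_withDensity_eq_integral_smul hdc.measurable, intervalIntegral.integral_of_le
      hpi.le]
    rfl
  have hfin : IsFiniteMeasure ν := by
    rw [hν]
    apply isFiniteMeasure_withDensity
    have h1 : IntegrableOn (fun θ => (d θ : ℝ)) (Ioc 0 (2 * Real.pi)) := by
      have h2 : Continuous (fun θ => (d θ : ℝ)) := NNReal.continuous_coe.comp hdc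
      exact (h2.integrableOn_Icc).mono_set Ioc_subset_Icc_self
    have h3 := h1.lintegral_lt_top
    simp only [ENNReal.ofReal_coe_nnreal] at h3
    exact h3.ne
  refine ⟨ν.map φ, g, Measure.isFiniteMeasure_map ν φ, ?_, ?_, hgm.aestronglyMeasurable,
    Filter.Eventually.of_forall hgn, ?_⟩
  · rw [Measure.real, Measure.map_apply hφc.measurable MeasurableSet.univ, preimage_univ]
    have h1 : ν.real univ = ∫ θ in (0:ℝ)..(2 * Real.pi), (d θ : ℝ) := by
      have h2 := hint (fun _ => 1)
      simp only [integral_const, mul_one] at h2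
      have h3 : ((ν.real univ : ℝ) : ℂ) = ((∫ θ in (0:ℝ)..(2 * Real.pi), (d θ : ℝ) : ℝ) : ℂ) := by
        rw [← intervalIntegral.integral_ofReal]
        rw [← h2]
        simp
      exact_mod_cast h3
    change ν.real univ = _
    rw [h1, ← intervalIntegral.integral_const_mul]
    congr 1
    ext θ
    exact hdv θ
  · rw [ae_map_iff hφc.aemeasurable]
    · exact Filter.Eventually.of_forall hφn
    · exact measurableSet_eq_fun measurable_norm measurable_const
  · intro ζ hζ
    rw [integral_map hφc.aemeasurable]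
    · rw [hint]
      rw [Real.circleAverage_def, Complex.real_smul,
        ← intervalIntegral.integral_const_mul]
      congr 1
      ext θ
      have h1 := hgφ θ
      have h2 : ((d θ : ℝ) : ℂ) = (2 * (Real.pi : ℂ))⁻¹ * ((‖Q (circleMap 0 1 θ)‖ : ℝ) : ℂ) := by
        rw [hdv]
        push_cast
        rfl
      have h3 : (d θ : ℂ) = ((d θ : ℝ) : ℂ) := rfl
      rw [h3, h2]
      have h4 : (circleMap 0 1 θ)⁻¹ = φ θ := rfl
      rw [h4]
      push_cast at h1 ⊢
      linear_combination (-(2 * (Real.pi : ℂ))⁻¹ * Complex.log (1 - φ θ * ζ)) * h1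
    · apply Measurable.aestronglyMeasurable
      apply hgm.mul
      exact Complex.measurable_log.comp (measurable_const.sub (measurable_id.mul_const _))

end Pool.Agent.Helper84.BRD
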