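import Pool.Agent.Helper84.BRDKernel

/-!
The logarithmic potential of a continuous density on the unit circle and its derivative.
-/

set_option autoImplicit false

open Complex MeasureTheory Metric Set Filter Topology

namespace Pool.Agent.Helper84.BRD

/-- logarithmic potential of the density `2 q` on the unit circle -/
noncomputable def pot (q : ℂ → ℝ) (ζ : ℂ) : ℂ :=
  Real.circleAverage (fun x => Complex.log (1 - x⁻¹ * ζ) * ((2 * q x : ℝ) : ℂ)) 0 1

theorem slit {x ζ : ℂ} (hx : ‖x‖ = 1) (hζ : ‖ζ‖ < 1) : 1 - x⁻¹ * ζ ∈ slitPlane := by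
  left
  have h1 : ‖x⁻¹ * ζ‖ < 1 := by
    rw [norm_mul, norm_inv, hx]
    simpa using hζ
  have h2 := Complex.abs_re_le_norm (x⁻¹ * ζ)
  have h3 := abs_le.1 (h2.trans h1.le)
  have h4 : (x⁻¹ * ζ).re < 1 := (le_abs_self _).trans_lt (h2.trans_lt h1)
  rw [Complex.sub_re, Complex.one_re]
  linarith

theorem hasDerivAt_pot {q : ℂ → ℝ} (hq : ContinuousOn q (sphere (0:ℂ) 1)) {ζ : ℂ}
    (hζ : ζ ∈ ball (0:ℂ) 1) :
    HasDerivAt (pot q)
      (Real.circleAverage (fun x => -(1 / (x - ζ)) * ((2 * q x : ℝ) : ℂ)) 0 1) ζ := by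
  have hζ1 : ‖ζ‖ < 1 := by simpa using hζ
  set d : ℝ := (1 - ‖ζ‖) / 2 with hd
  have hd0 : 0 < d := by rw [hd]; linarith
  have hball : ∀ y ∈ ball ζ d, ‖y‖ < 1 := by
    intro y hy
    have h1 : ‖y - ζ‖ < d := by simpa [dist_eq_norm] using hy
    have h2 : ‖y‖ ≤ ‖y - ζ‖ + ‖ζ‖ := by
      calc ‖y‖ = ‖(y - ζ) + ζ‖ := by ring_nf
        _ ≤ _ := norm_add_le _ _
    linarith
  have hnc : ∀ θ : ℝ, ‖circleMap 0 1 θ‖ = 1 := by
    intro θ
    simp
  have hqc : Continuous (fun θ : ℝ => q (circleMap 0 1 θ)) := by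
    apply hq.comp_continuous (continuous_circleMap 0 1)
    intro θ
    simp
  obtain ⟨B, hB⟩ : ∃ B, ∀ x ∈ sphere (0:ℂ) 1, ‖q x‖ ≤ B :=
    (isCompact_sphere (0:ℂ) 1).exists_bound_of_continuousOn hq
  have hnz : ∀ (θ : ℝ), ∀ y ∈ ball ζ d, d ≤ ‖circleMap 0 1 θ - y‖ := by
    intro θ y hy
    have h1 : ‖y - ζ‖ < d := by simpa [dist_eq_norm] using hy
    have h2 : ‖y‖ ≤ ‖y - ζ‖ + ‖ζ‖ := by
      calc ‖y‖ = ‖(y - ζ) + ζ‖ := by ring_nf
        _ ≤ _ := norm_add_le _ _
    have h3 : ‖circleMap 0 1 θ‖ - ‖y‖ ≤ ‖circleMap 0 1 θ - y‖ := norm_sub_norm_le _ _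
    rw [hnc] at h3
    linarith
  have hcm : ∀ θ : ℝ, circleMap 0 1 θ ≠ 0 := by
    intro θ h
    have := hnc θ
    rw [h] at this
    simp at this
  have hcinv : Continuous (fun θ : ℝ => (circleMap 0 1 θ)⁻¹) :=
    (continuous_circleMap 0 1).inv₀ hcm
  have hqc2 : Continuous (fun θ : ℝ => ((2 * q (circleMap 0 1 θ) : ℝ) : ℂ)) :=
    Complex.continuous_ofReal.comp (hqc.const_mul 2)
  unfold pot
  simp only [Real.circleAverage_def]
  apply HasDerivAt.const_smul
  refine (intervalIntegral.hasDerivAt_integral_of_dominated_loc_of_deriv_le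
    (F' := fun y θ => -(1 / (circleMap 0 1 θ - y)) * ((2 * q (circleMap 0 1 θ) : ℝ) : ℂ))
    (bound := fun _ => (1 / d) * (2 * B))
    (ball_mem_nhds ζ hd0) ?meas1 ?int ?meas2 ?bound ?intb ?diff).2
  case meas1 =>
    filter_upwards [ball_mem_nhds ζ hd0] with y hy
    apply Continuous.aestronglyMeasurable
    apply Continuous.mul
    · apply Continuous.clog
      · fun_prop
      · intro θ
        exact slit (hnc θ) (hball y hy)
    · exact hqc2
  case int =>
    apply Continuous.intervalIntegrable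
    apply Continuous.mul
    · apply Continuous.clog
      · fun_prop
      · intro θ
        exact slit (hnc θ) hζ1
    · exact hqc2
  case meas2 =>
    apply Continuous.aestronglyMeasurable
    apply Continuous.mul
    · apply Continuous.neg
      apply Continuous.div continuous_const (by fun_prop)
      intro θ h
      have := hnz θ ζ (mem_ball_self hd0)
      rw [h, norm_zero] at this
      linarith
    · exact hqc2
  case bound =>
    filter_upwards with θ _ y hy
    rw [norm_mul, norm_neg, norm_div, norm_one, Complex.norm_real, norm_mul, Real.norm_ofNat]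
    gcongr
    · exact hnz θ y hy
    · exact hB _ (by simp)
  case intb => exact intervalIntegrable_const
  case diff =>
    filter_upwards with θ _ y hy
    apply HasDerivAt.mul_const
    have h1 : HasDerivAt (fun y : ℂ => 1 - (circleMap 0 1 θ)⁻¹ * y) (-(circleMap 0 1 θ)⁻¹) y := by
      have := ((hasDerivAt_id y).const_mul (circleMap 0 1 θ)⁻¹).const_sub 1
      simpa using this
    have h2 := h1.clog (slit (hnc θ) (hball y hy))
    refine h2.congr_deriv ?_
    have h3 : circleMap 0 1 θ - y ≠ 0 := by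
      intro h
      have := hnz θ y hy
      rw [h, norm_zero] at this
      linarith
    have h4 := hcm θ
    have h5 : 1 - (circleMap 0 1 θ)⁻¹ * y = (circleMap 0 1 θ - y) / circleMap 0 1 θ := by
      field_simp
    rw [h5]
    field_simp

theorem pot_zero (q : ℂ → ℝ) : pot q 0 = 0 := by
  unfold pot
  simp [Real.circleAverage_def]

end Pool.Agent.Helper84.BRD
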