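import Mathlib

/-!
CIRC-TORUS: the energy lemma on the discrete torus (MP_4c807e_co).
-/

namespace Pool.Agent.Circ

open Finset

/-- The discrete Green function on the cycle of length `M`. -/
noncomputable def tBeta (M : ℕ) (t : ZMod M) : ℝ := (t.val : ℝ) * ((t.val : ℝ) - M) / 2

theorem tBeta_val_succ (M : ℕ) [NeZero M] (t : ZMod M) :
    (t + 1).val = if t.val + 1 < M then t.val + 1 else 0 := by
  have hlt := ZMod.val_lt t
  rw [ZMod.val_add, ZMod.val_one_eq_one_mod, Nat.add_mod_mod]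
  split_ifs with h
  · exact Nat.mod_eq_of_lt h
  · have : t.val + 1 = M := by omega
    rw [this, Nat.mod_self]

theorem tBeta_succ (M : ℕ) [NeZero M] (t : ZMod M) :
    tBeta M (t + 1) = ((t.val : ℝ) + 1) * ((t.val : ℝ) + 1 - M) / 2 := by
  unfold tBeta
  rw [tBeta_val_succ]
  split_ifs with h
  · push_cast; ring
  · have hlt := ZMod.val_lt t
    have : t.val + 1 = M := by omega
    have h2 : (t.val : ℝ) + 1 = M := by exact_mod_cast this
    rw [h2]; simp

theorem tBeta_lap (M : ℕ) [NeZero M] (t : ZMod M) :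
    tBeta M (t + 1) + tBeta M (t - 1) - 2 * tBeta M t = 1 - (if t = 0 then (M : ℝ) else 0) := by
  obtain ⟨u, rfl⟩ : ∃ u : ZMod M, t = u + 1 := ⟨t - 1, by ring⟩
  have hlt := ZMod.val_lt u
  rw [tBeta_succ M (u + 1), tBeta_succ M u, add_sub_cancel_right]
  have hz : (u + 1 = 0) ↔ ¬ (u.val + 1 < M) := by
    rw [← ZMod.val_eq_zero, tBeta_val_succ]
    split_ifs with h
    · simp [h]
    · simp [h]
  have hv := tBeta_val_succ M u
  unfold tBeta
  by_cases h : u.val + 1 < M
  · rw [if_pos h] at hv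
    rw [if_neg (by rw [hz]; simpa using h), hv]
    push_cast; ring
  · rw [if_neg h] at hv
    rw [if_pos (hz.2 h), hv]
    have h1 : u.val + 1 = M := by omega
    have h2 : (M : ℝ) = (u.val : ℝ) + 1 := by exact_mod_cast h1.symm
    rw [h2]; push_cast; ring

/-- Second differences with step `h` are controlled by second differences with step `1`. -/
theorem second_diff_le {M : ℕ} (φ : ZMod M → ℝ) (t : ZMod M) (c : ℝ) (h : ℕ)
    (hc : ∀ i : ℤ, |i| < h → φ (t + i + 1) + φ (t + i - 1) - 2 * φ (t + i) ≤ c) :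
    φ (t + h) + φ (t - h) - 2 * φ t ≤ c * (h : ℝ) ^ 2 := by
  have key : ∀ h : ℕ, (∀ i : ℤ, |i| < (h : ℤ) + 1 →
      φ (t + i + 1) + φ (t + i - 1) - 2 * φ (t + i) ≤ c) →
      (φ (t + h + 1) - φ (t + h)) + (φ (t - h - 1) - φ (t - h)) ≤ c * (2 * h + 1) := by
    intro h
    induction h with
    | zero =>
      intro hc
      have := hc 0 (by norm_num)
      simp only [Int.cast_zero, add_zero] at this
      simp only [Nat.cast_zero, add_zero, sub_zero, mul_zero, zero_add, mul_one]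
      linarith
    | succ h ih =>
      intro hc
      have h1 := ih (fun i hi => hc i (by push_cast; linarith))
      have h2 := hc (h + 1) (by rw [abs_of_nonneg (by positivity)]; push_cast; linarith)
      have h3 := hc (-(h + 1)) (by
        rw [abs_neg, abs_of_nonneg (by positivity)]; push_cast; linarith)
      have e1 : t + ((h + 1 : ℤ) : ZMod M) + 1 = t + ((h + 1 : ℕ) : ZMod M) + 1 := by
        push_cast; ring
      have e2 : t + ((h + 1 : ℤ) : ZMod M) - 1 = t + (h : ZMod M) := by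
        push_cast; ring
      have e3 : t + ((h + 1 : ℤ) : ZMod M) = t + ((h + 1 : ℕ) : ZMod M) := by
        push_cast; ring
      have e4 : t + ((-(h + 1) : ℤ) : ZMod M) + 1 = t - (h : ZMod M) := by
        push_cast; ring
      have e5 : t + ((-(h + 1) : ℤ) : ZMod M) - 1 = t - ((h + 1 : ℕ) : ZMod M) - 1 := by
        push_cast; ring
      have e6 : t + ((-(h + 1) : ℤ) : ZMod M) = t - ((h + 1 : ℕ) : ZMod M) := by
        push_cast; ring
      rw [e1, e2, e3] at h2
      rw [e4, e5, e6] at h3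
      have e7 : t + (h : ZMod M) + 1 = t + ((h + 1 : ℕ) : ZMod M) := by push_cast; ring
      have e8 : t - (h : ZMod M) - 1 = t - ((h + 1 : ℕ) : ZMod M) := by push_cast; ring
      rw [e7, e8] at h1
      have : c * (2 * ((h + 1 : ℕ) : ℝ) + 1) = c * (2 * h + 1) + c + c := by push_cast; ring
      rw [this]
      linarith
  induction h with
  | zero =>
    simp
    linarith
  | succ h ih =>
    have h1 := ih (fun i hi => hc i (by push_cast; linarith))
    have h2 := key h (fun i hi => hc i (by push_cast; exact hi))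
    have e7 : t + (h : ZMod M) + 1 = t + ((h + 1 : ℕ) : ZMod M) := by push_cast; ring
    have e8 : t - (h : ZMod M) - 1 = t - ((h + 1 : ℕ) : ZMod M) := by push_cast; ring
    rw [e7, e8] at h2
    have : c * (((h + 1 : ℕ) : ℝ)) ^ 2 = c * (h : ℝ) ^ 2 + c * (2 * h + 1) := by push_cast; ring
    rw [this]
    linarith

/-- The same with an integer step. -/
theorem second_diff_le_int {M : ℕ} (φ : ZMod M → ℝ) (t : ZMod M) (c : ℝ) (h : ℤ)
    (hc : ∀ i : ℤ, |i| < |h| → φ (t + i + 1) + φ (t + i - 1) - 2 * φ (t + i) ≤ c) :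
    φ (t + h) + φ (t - h) - 2 * φ t ≤ c * (h : ℝ) ^ 2 := by
  rcases Int.natAbs_eq h with e | e
  · have := second_diff_le φ t c h.natAbs (fun i hi => hc i (by
      rw [Int.abs_eq_natAbs h]; exact hi))
    rw [e]
    push_cast
    simpa using this
  · have := second_diff_le φ t c h.natAbs (fun i hi => hc i (by
      rw [Int.abs_eq_natAbs h]; exact hi))
    rw [e]
    simp only [Int.cast_neg, Int.cast_natCast, sub_neg_eq_add, neg_sq]
    rw [← sub_eq_add_neg]
    linarith

/-- The potential of a set `A`. -/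
noncomputable def tPhi (M : ℕ) (A : Finset (ZMod M)) (t : ZMod M) : ℝ :=
  (A.card : ℝ)⁻¹ * ∑ y ∈ A, tBeta M (t - y)

theorem tPhi_lap (M : ℕ) [NeZero M] (A : Finset (ZMod M)) (t : ZMod M) :
    tPhi M A (t + 1) + tPhi M A (t - 1) - 2 * tPhi M A t =
      (A.card : ℝ)⁻¹ * ((A.card : ℝ) - if t ∈ A then (M : ℝ) else 0) := by
  unfold tPhi
  have h : ∑ y ∈ A, tBeta M (t + 1 - y) + ∑ y ∈ A, tBeta M (t - 1 - y)
      - 2 * ∑ y ∈ A, tBeta M (t - y) = (A.card : ℝ) - if t ∈ A then (M : ℝ) else 0 := by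
    rw [mul_sum, ← sum_add_distrib, ← sum_sub_distrib]
    have : ∀ y ∈ A, tBeta M (t + 1 - y) + tBeta M (t - 1 - y) - 2 * tBeta M (t - y)
        = 1 - if t = y then (M : ℝ) else 0 := by
      intro y _
      have := tBeta_lap M (t - y)
      rw [show t + 1 - y = t - y + 1 by ring, show t - 1 - y = t - y - 1 by ring, this]
      simp only [sub_eq_zero]
    rw [sum_congr rfl this, sum_sub_distrib, sum_const, nsmul_eq_mul, mul_one, sum_ite_eq]
  rw [← h]; ring

theorem tPhi_lap_le (M : ℕ) [NeZero M] (A : Finset (ZMod M)) (t : ZMod M) :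
    tPhi M A (t + 1) + tPhi M A (t - 1) - 2 * tPhi M A t ≤ 1 := by
  rw [tPhi_lap]
  rcases A.eq_empty_or_nonempty with rfl | hA
  · simp
  · have hc : (0 : ℝ) < A.card := by exact_mod_cast hA.card_pos
    rw [inv_mul_le_iff₀ hc]
    split_ifs
    · have : (0 : ℝ) ≤ M := by positivity
      linarith
    · linarith

/-- CIRC-TORUS. -/
theorem torus {V ι : Type*} [Fintype V] [Fintype ι] (b : ι → V → ℤ) (r : ι → ℝ)
    (hr : ∀ e, 0 ≤ r e) (α : ι → ℝ) (hα : ∀ e, 0 ≤ α e) (z : ι → V → ℤ)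
    (hz : ∀ e, α e * ∑ f, r f * (∑ v, (b f v : ℝ) * z e v) ^ 2
      < r e * (∑ v, (b e v : ℝ) * z e v) ^ 2)
    (H : ℕ) (hH : ∀ e, |∑ v, b e v * z e v| ≤ H)
    (M : ℕ) [NeZero M] (A : ι → Finset (ZMod M)) (hA : ∀ e, ((A e).card : ℝ) ≤ α e * M) :
    ∃ x : V → ZMod M, ∀ e, ∃ j : ℤ, |j| ≤ H ∧
      (∑ v, (b e v : ZMod M) * x v) + (j : ZMod M) ∉ A e := by
  classical
  have hMpos : (0 : ℝ) < M := by exact_mod_cast Nat.pos_of_ne_zero (NeZero.ne M)
  obtain ⟨x, hx⟩ := Finite.exists_min (fun x : V → ZMod M =>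
    ∑ f, r f * tPhi M (A f) (∑ v, (b f v : ZMod M) * x v))
  refine ⟨x, fun e => ?_⟩
  by_contra hcon
  push Not at hcon
  -- compare with the two moves
  have h1 := hx (fun v => x v + (z e v : ZMod M))
  have h2 := hx (fun v => x v - (z e v : ZMod M))
  have s1 : ∀ f, ∑ v, (b f v : ZMod M) * (x v + (z e v : ZMod M)) =
      (∑ v, (b f v : ZMod M) * x v) + ((∑ v, b f v * z e v : ℤ) : ZMod M) := by
    intro f
    push_cast
    rw [← sum_add_distrib]
    exact sum_congr rfl fun v _ => by ring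
  have s2 : ∀ f, ∑ v, (b f v : ZMod M) * (x v - (z e v : ZMod M)) =
      (∑ v, (b f v : ZMod M) * x v) - ((∑ v, b f v * z e v : ℤ) : ZMod M) := by
    intro f
    push_cast
    rw [← sum_sub_distrib]
    exact sum_congr rfl fun v _ => by ring
  simp only [s1] at h1
  simp only [s2] at h2
  have hmem : ∀ j : ℤ, |j| ≤ H → (∑ v, (b e v : ZMod M) * x v) + (j : ZMod M) ∈ A e := hcon
  have hAe : (A e).Nonempty := ⟨_, hmem 0 (by simp)⟩
  have hcard : (0 : ℝ) < (A e).card := by exact_mod_cast hAe.card_pos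
  have hαe : 0 < α e := by
    by_contra h
    have h0 : α e = 0 := le_antisymm (not_lt.1 h) (hα e)
    have := hA e
    rw [h0, zero_mul] at this
    linarith
  -- bounds on second differences
  have hD : ∀ f, tPhi M (A f) ((∑ v, (b f v : ZMod M) * x v) + ((∑ v, b f v * z e v : ℤ) : ZMod M))
      + tPhi M (A f) ((∑ v, (b f v : ZMod M) * x v) - ((∑ v, b f v * z e v : ℤ) : ZMod M))
      - 2 * tPhi M (A f) (∑ v, (b f v : ZMod M) * x v) ≤ 1 * ((∑ v, b f v * z e v : ℤ) : ℝ) ^ 2 := by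
    intro f
    exact second_diff_le_int _ _ _ _ (fun i _ => tPhi_lap_le M (A f) _)
  have hDe : tPhi M (A e) ((∑ v, (b e v : ZMod M) * x v) + ((∑ v, b e v * z e v : ℤ) : ZMod M))
      + tPhi M (A e) ((∑ v, (b e v : ZMod M) * x v) - ((∑ v, b e v * z e v : ℤ) : ZMod M))
      - 2 * tPhi M (A e) (∑ v, (b e v : ZMod M) * x v)
      ≤ (1 - M / (A e).card) * ((∑ v, b e v * z e v : ℤ) : ℝ) ^ 2 := by
    refine second_diff_le_int _ _ _ _ (fun i hi => ?_)
    rw [tPhi_lap, if_pos (hmem i (le_trans hi.le (hH e)))]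
    apply le_of_eq
    field_simp
  -- sum up
  have hsum : 0 ≤ ∑ f, r f * (tPhi M (A f) ((∑ v, (b f v : ZMod M) * x v) + ((∑ v, b f v * z e v : ℤ) : ZMod M))
      + tPhi M (A f) ((∑ v, (b f v : ZMod M) * x v) - ((∑ v, b f v * z e v : ℤ) : ZMod M))
      - 2 * tPhi M (A f) (∑ v, (b f v : ZMod M) * x v)) := by
    have : ∑ f, r f * (tPhi M (A f) ((∑ v, (b f v : ZMod M) * x v) + ((∑ v, b f v * z e v : ℤ) : ZMod M))
      + tPhi M (A f) ((∑ v, (b f v : ZMod M) * x v) - ((∑ v, b f v * z e v : ℤ) : ZMod M))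
      - 2 * tPhi M (A f) (∑ v, (b f v : ZMod M) * x v))
      = (∑ f, r f * tPhi M (A f) ((∑ v, (b f v : ZMod M) * x v) + ((∑ v, b f v * z e v : ℤ) : ZMod M)))
      + (∑ f, r f * tPhi M (A f) ((∑ v, (b f v : ZMod M) * x v) - ((∑ v, b f v * z e v : ℤ) : ZMod M)))
      - 2 * ∑ f, r f * tPhi M (A f) (∑ v, (b f v : ZMod M) * x v) := by
      rw [mul_sum, ← sum_add_distrib, ← sum_sub_distrib]
      exact sum_congr rfl fun f _ => by ring
    rw [this]
    linarith
  have hle : ∑ f, r f * (tPhi M (A f) ((∑ v, (b f v : ZMod M) * x v) + ((∑ v, b f v * z e v : ℤ) : ZMod M))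
      + tPhi M (A f) ((∑ v, (b f v : ZMod M) * x v) - ((∑ v, b f v * z e v : ℤ) : ZMod M))
      - 2 * tPhi M (A f) (∑ v, (b f v : ZMod M) * x v))
      ≤ ∑ f, (r f * ((∑ v, b f v * z e v : ℤ) : ℝ) ^ 2 -
        if f = e then r e * (M / (A e).card) * ((∑ v, b e v * z e v : ℤ) : ℝ) ^ 2 else 0) := by
    refine sum_le_sum fun f _ => ?_
    split_ifs with hfe
    · subst hfe
      have := mul_le_mul_of_nonneg_left hDe (hr f)
      linarith
    · have := mul_le_mul_of_nonneg_left (hD f) (hr f)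
      linarith
  rw [sum_sub_distrib, sum_ite_eq' univ e, if_pos (mem_univ e)] at hle
  have hcast : ∀ f, ((∑ v, b f v * z e v : ℤ) : ℝ) = ∑ v, (b f v : ℝ) * z e v := by
    intro f; push_cast; rfl
  simp only [hcast] at hle
  have hz' := hz e
  -- M / |A e| ≥ 1 / α e
  have hq : 1 ≤ α e * (M / (A e).card) := by
    rw [← mul_div_assoc, le_div_iff₀ hcard, one_mul]
    exact hA e
  have hpos : 0 ≤ r e * (∑ v, (b e v : ℝ) * z e v) ^ 2 := mul_nonneg (hr e) (sq_nonneg _)
  have h3 : r e * (M / (A e).card) * (∑ v, (b e v : ℝ) * z e v) ^ 2 ≤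
      ∑ f, r f * (∑ v, (b f v : ℝ) * z e v) ^ 2 := by linarith [hsum, hle]
  have h4 := mul_le_mul_of_nonneg_left h3 hαe.le
  have h5 : r e * (∑ v, (b e v : ℝ) * z e v) ^ 2 ≤
      α e * (r e * (M / (A e).card) * (∑ v, (b e v : ℝ) * z e v) ^ 2) := by
    have := mul_le_mul_of_nonneg_right hq hpos
    linarith
  linarith

end Pool.Agent.Circ
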