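import Pool.Agent.Helper96.Defs

/-!
# Characterisation of the CSP of the template by Horn closure
-/

set_option autoImplicit false
set_option linter.unusedSimpArgs false

namespace Pool.Agent.Helper84.CspClosure

open Pool.Agent.Helper96 Pool.Agent.Helper96.TD

/-! ### lists and chains -/

lemma chain_fwd {R : ℕ → ℕ → Prop} {P : ℕ → Prop} (hs : ∀ x y, R x y → P x → P y) :
    ∀ (p : List ℕ), p.IsChain R → (∀ x ∈ p.head?, P x) → ∀ x ∈ p, P x
  | [], _, _, x, hx => absurd hx List.not_mem_nil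
  | [a], _, hd, x, hx => by
    simp only [List.mem_cons, List.not_mem_nil, or_false] at hx
    subst hx
    exact hd _ rfl
  | a :: b :: l, h, hd, x, hx => by
    rw [List.isChain_cons_cons] at h
    rw [List.mem_cons] at hx
    rcases hx with rfl | hx
    · exact hd _ rfl
    · refine chain_fwd hs (b :: l) h.2 ?_ x hx
      intro y hy
      simp only [List.head?_cons, Option.mem_def, Option.some.injEq] at hy
      subst hy
      exact hs _ _ h.1 (hd _ rfl)

lemma chain_bwd {R : ℕ → ℕ → Prop} {P : ℕ → Prop} (hs : ∀ x y, R x y → P y → P x) :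
    ∀ (p : List ℕ), p.IsChain R → (∀ x ∈ p.getLast?, P x) → ∀ x ∈ p, P x
  | [], _, _, x, hx => absurd hx List.not_mem_nil
  | [a], _, hd, x, hx => by
    simp only [List.mem_cons, List.not_mem_nil, or_false] at hx
    subst hx
    exact hd _ rfl
  | a :: b :: l, h, hd, x, hx => by
    rw [List.isChain_cons_cons] at h
    have h1 : ∀ x ∈ (b :: l), P x := chain_bwd hs (b :: l) h.2 (by
      intro y hy
      apply hd
      rw [List.getLast?_cons_cons]
      exact hy)
    rw [List.mem_cons] at hx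
    rcases hx with rfl | hx
    · exact hs _ _ h.1 (h1 b List.mem_cons_self)
    · exact h1 x hx

lemma chain_succ {R : ℕ → ℕ → Prop} : ∀ (p : List ℕ), p.IsChain R →
    ∀ x ∈ p, x ∈ p.getLast? ∨ ∃ y ∈ p, R x y
  | [], _, x, hx => absurd hx List.not_mem_nil
  | [a], _, x, hx => by
    simp only [List.mem_cons, List.not_mem_nil, or_false] at hx
    subst hx
    exact Or.inl rfl
  | a :: b :: l, h, x, hx => by
    rw [List.isChain_cons_cons] at h
    rw [List.mem_cons] at hx
    rcases hx with rfl | hx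
    · exact Or.inr ⟨b, by simp, h.1⟩
    · rcases chain_succ (b :: l) h.2 x hx with h1 | ⟨y, hy, h1⟩
      · left
        rw [List.getLast?_cons_cons]
        exact h1
      · exact Or.inr ⟨y, List.mem_cons_of_mem _ hy, h1⟩

lemma chain_pred {R : ℕ → ℕ → Prop} : ∀ (p : List ℕ), p.IsChain R →
    ∀ x ∈ p, x ∈ p.head? ∨ ∃ y ∈ p, R y x
  | [], _, x, hx => absurd hx List.not_mem_nil
  | [a], _, x, hx => by
    simp only [List.mem_cons, List.not_mem_nil, or_false] at hx
    subst hx
    exact Or.inl rfl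
  | a :: b :: l, h, x, hx => by
    rw [List.isChain_cons_cons] at h
    rw [List.mem_cons] at hx
    rcases hx with rfl | hx
    · exact Or.inl rfl
    · right
      rcases chain_pred (b :: l) h.2 x hx with h1 | ⟨y, hy, h1⟩
      · simp only [List.head?_cons, Option.mem_def, Option.some.injEq] at h1
        subst h1
        exact ⟨a, List.mem_cons_self, h.1⟩
      · exact ⟨y, List.mem_cons_of_mem _ hy, h1⟩

/-! ### basic facts about derivations -/

/-- all facts in the domain -/
def Bd (n : ℕ) (X : Set Fact) : Prop := ∀ f ∈ X, f.2.1 < n ∧ f.2.2 < n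

lemma der_lt {R : List Rule} {n : ℕ} {X : Set Fact} (hX : Bd n X) {f : Fact} (h : Der R n X f) :
    f.2.1 < n ∧ f.2.2 < n := by
  induction h with
  | base h => exact hX _ h
  | rule _ σ hσ _ _ => exact ⟨hσ _, hσ _⟩

lemma der_mono {R : List Rule} {n : ℕ} {X Y : Set Fact} (hXY : X ⊆ Y) {f : Fact}
    (h : Der R n X f) : Der R n Y f := by
  induction h with
  | base h => exact Der.base (hXY h)
  | rule hr σ hσ _ ih => exact Der.rule hr σ hσ ih

lemma der_sub {R : List Rule} {n : ℕ} {X Y : Set Fact} (hXY : ∀ f ∈ X, Der R n Y f) {f : Fact}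
    (h : Der R n X f) : Der R n Y f := by
  induction h with
  | base h => exact hXY _ h
  | rule hr σ hσ _ ih => exact Der.rule hr σ hσ ih

/-- assignment with three values -/
def s3 (x y z : ℕ) : ℕ → ℕ
  | 0 => x
  | 1 => y
  | _ => z

lemma s3_lt {n x y z : ℕ} (hx : x < n) (hy : y < n) (hz : z < n) (v : ℕ) : s3 x y z v < n := by
  match v with
  | 0 => exact hx
  | 1 => exact hy
  | _ + 2 => exact hz

lemma mem_rules_base {D : TD} {ρ : Rule} (h : ρ ∈ baseRules) : ρ ∈ D.rules := by
  unfold rules coreRules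
  simp only [List.mem_append]
  exact Or.inl (Or.inl (Or.inl (Or.inl h)))

lemma mem_rules_cong1 {D : TD} {r : ℕ} (h : r < D.M) :
    (([(r, 0, 1), (eEQ, 0, 2)], (r, 2, 1)) : Rule) ∈ D.rules := by
  unfold rules eqRules
  simp only [List.mem_append, List.mem_flatMap, List.mem_range]
  exact Or.inr (Or.inr ⟨r, h, by simp⟩)

lemma mem_rules_cong2 {D : TD} {r : ℕ} (h : r < D.M) :
    (([(r, 0, 1), (eEQ, 1, 2)], (r, 0, 2)) : Rule) ∈ D.rules := by
  unfold rules eqRules
  simp only [List.mem_append, List.mem_flatMap, List.mem_range]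
  exact Or.inr (Or.inr ⟨r, h, by simp⟩)

section basic

variable {D : TD} {n : ℕ} {X : Set Fact}

lemma eq_refl {x : ℕ} (hx : x < n) : Der D.rules n X (eEQ, x, x) := by
  have hr : (([], (eEQ, 0, 0)) : Rule) ∈ D.rules := by
    unfold rules eqRules
    simp
  exact Der.rule hr (s3 x x x) (s3_lt hx hx hx) (fun a ha => absurd ha List.not_mem_nil)

lemma eq_symm (hX : Bd n X) {x y : ℕ} (h : Der D.rules n X (eEQ, x, y)) :
    Der D.rules n X (eEQ, y, x) := by
  have hr : (([(eEQ, 0, 1)], (eEQ, 1, 0)) : Rule) ∈ D.rules := by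
    unfold rules eqRules
    simp
  have hl := der_lt hX h
  refine Der.rule hr (s3 x y y) (s3_lt hl.1 hl.2 hl.2) (fun a ha => ?_)
  simp only [List.mem_cons, List.not_mem_nil, or_false] at ha
  subst ha
  exact h

lemma congL (hX : Bd n X) {r x y z : ℕ} (hr : r < D.M) (h : Der D.rules n X (r, x, y))
    (h' : Der D.rules n X (eEQ, x, z)) : Der D.rules n X (r, z, y) := by
  have hl := der_lt hX h
  have hl' := der_lt hX h'
  refine Der.rule (mem_rules_cong1 hr) (s3 x y z) (s3_lt hl.1 hl.2 hl'.2) (fun a ha => ?_)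
  simp only [List.mem_cons, List.not_mem_nil, or_false] at ha
  rcases ha with rfl | rfl
  · exact h
  · exact h'

lemma congR (hX : Bd n X) {r x y z : ℕ} (hr : r < D.M) (h : Der D.rules n X (r, x, y))
    (h' : Der D.rules n X (eEQ, y, z)) : Der D.rules n X (r, x, z) := by
  have hl := der_lt hX h
  have hl' := der_lt hX h'
  refine Der.rule (mem_rules_cong2 hr) (s3 x y z) (s3_lt hl.1 hl.2 hl'.2) (fun a ha => ?_)
  simp only [List.mem_cons, List.not_mem_nil, or_false] at ha
  rcases ha with rfl | rfl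
  · exact h
  · exact h'

lemma lt_M (r : ℕ) (hr : r < 12) : r < D.M := by
  unfold M
  omega

lemma eq_trans (hX : Bd n X) {x y z : ℕ} (h : Der D.rules n X (eEQ, x, y))
    (h' : Der D.rules n X (eEQ, y, z)) : Der D.rules n X (eEQ, x, z) :=
  congR hX (lt_M _ (by decide)) h h'

/-- application of a base rule with one body atom -/
lemma ap1 {a c : Fact} (hr : (([a], c) : Rule) ∈ baseRules) (x y z : ℕ) (hx : x < n) (hy : y < n)
    (hz : z < n) (h : Der D.rules n X (inst (s3 x y z) a)) :
    Der D.rules n X (inst (s3 x y z) c) := by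
  refine Der.rule (mem_rules_base hr) (s3 x y z) (s3_lt hx hy hz) (fun a ha => ?_)
  simp only [List.mem_cons, List.not_mem_nil, or_false] at ha
  subst ha
  exact h

/-- application of a base rule with two body atoms -/
lemma ap2 {a b c : Fact} (hr : (([a, b], c) : Rule) ∈ baseRules) (x y z : ℕ) (hx : x < n)
    (hy : y < n) (hz : z < n) (h : Der D.rules n X (inst (s3 x y z) a))
    (h' : Der D.rules n X (inst (s3 x y z) b)) :
    Der D.rules n X (inst (s3 x y z) c) := by
  refine Der.rule (mem_rules_base hr) (s3 x y z) (s3_lt hx hy hz) (fun a ha => ?_)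
  simp only [List.mem_cons, List.not_mem_nil, or_false] at ha
  rcases ha with rfl | rfl
  · exact h
  · exact h'

lemma S_fun (hX : Bd n X) {x y z : ℕ} (h : Der D.rules n X (eS, x, y))
    (h' : Der D.rules n X (eS, x, z)) : Der D.rules n X (eEQ, y, z) :=
  ap2 (a := (eS, 0, 1)) (b := (eS, 0, 2)) (c := (eEQ, 1, 2)) (by decide) x y z (der_lt hX h).1
    (der_lt hX h).2 (der_lt hX h').2 h h'

lemma S_inj (hX : Bd n X) {x y z : ℕ} (h : Der D.rules n X (eS, x, z))
    (h' : Der D.rules n X (eS, y, z)) : Der D.rules n X (eEQ, x, y) :=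
  ap2 (a := (eS, 0, 2)) (b := (eS, 1, 2)) (c := (eEQ, 0, 1)) (by decide) x y z (der_lt hX h).1
    (der_lt hX h').1 (der_lt hX h').2 h h'

lemma S_F (hX : Bd n X) {x y : ℕ} (h : Der D.rules n X (eS, x, y))
    (h' : Der D.rules n X (eF, y, y)) : Der D.rules n X (eBOT, x, x) :=
  ap2 (a := (eS, 0, 1)) (b := (eF, 1, 1)) (c := (eBOT, 0, 0)) (by decide) x y y (der_lt hX h).1
    (der_lt hX h).2 (der_lt hX h').2 h h'

lemma S_E (hX : Bd n X) {x y : ℕ} (h : Der D.rules n X (eS, x, y))
    (h' : Der D.rules n X (eE, x, x)) : Der D.rules n X (eBOT, x, x) :=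
  ap2 (a := (eS, 0, 1)) (b := (eE, 0, 0)) (c := (eBOT, 0, 0)) (by decide) x y y (der_lt hX h).1
    (der_lt hX h).2 (der_lt hX h).2 h h'

lemma F_I (hX : Bd n X) {x : ℕ} (h : Der D.rules n X (eF, x, x)) : Der D.rules n X (eI, x, x) :=
  ap1 (a := (eF, 0, 0)) (c := (eI, 0, 0)) (by decide) x x x (der_lt hX h).1
    (der_lt hX h).2 (der_lt hX h).2 h

lemma I_S (hX : Bd n X) {x y z : ℕ} (h : Der D.rules n X (eI, x, y))
    (h' : Der D.rules n X (eS, y, z)) : Der D.rules n X (eI, x, z) :=
  ap2 (a := (eI, 0, 1)) (b := (eS, 1, 2)) (c := (eI, 0, 2)) (by decide) x y z (der_lt hX h).1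
    (der_lt hX h).2 (der_lt hX h').2 h h'

lemma I_inj (hX : Bd n X) {x y z : ℕ} (h : Der D.rules n X (eI, x, z))
    (h' : Der D.rules n X (eI, y, z)) : Der D.rules n X (eEQ, x, y) :=
  ap2 (a := (eI, 0, 2)) (b := (eI, 1, 2)) (c := (eEQ, 0, 1)) (by decide) x y z (der_lt hX h).1
    (der_lt hX h').1 (der_lt hX h').2 h h'

lemma On_S (hX : Bd n X) {x y : ℕ} (h : Der D.rules n X (eOn, x, x))
    (h' : Der D.rules n X (eS, x, y)) : Der D.rules n X (eOn, y, y) :=
  ap2 (a := (eOn, 0, 0)) (b := (eS, 0, 1)) (c := (eOn, 1, 1)) (by decide) x y y (der_lt hX h').1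
    (der_lt hX h').2 (der_lt hX h').2 h h'

lemma On_S' (hX : Bd n X) {x y : ℕ} (h : Der D.rules n X (eOn, y, y))
    (h' : Der D.rules n X (eS, x, y)) : Der D.rules n X (eOn, x, x) :=
  ap2 (a := (eOn, 1, 1)) (b := (eS, 0, 1)) (c := (eOn, 0, 0)) (by decide) x y y (der_lt hX h').1
    (der_lt hX h').2 (der_lt hX h').2 h h'

end basic

lemma bd_facts {k n : ℕ} (B : BinStr k (Fin n)) : Bd n (facts B) := by
  rintro f ⟨r, x, y, _, rfl⟩
  exact ⟨x.2, y.2⟩

lemma bd_union {n : ℕ} {X Y : Set Fact} (hX : Bd n X) (hY : Bd n Y) : Bd n (X ∪ Y) := by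
  rintro f (h | h)
  · exact hX f h
  · exact hY f h

lemma path_lt {D : TD} {n : ℕ} {X : Set Fact} (hX : Bd n X) {p : List ℕ}
    (hp : IsOnPath (fun f => Der D.rules n X f) p) : ∀ x ∈ p, x < n :=
  chain_fwd (P := fun x => x < n) (fun _ _ h _ => (der_lt hX h).2) p hp.chain (fun x hx => (der_lt hX (hp.first x hx)).1)

lemma path_on {D : TD} {n : ℕ} {X : Set Fact} (hX : Bd n X) {p : List ℕ}
    (hp : IsOnPath (fun f => Der D.rules n X f) p) : ∀ x ∈ p, Der D.rules n X (eOn, x, x) :=
  chain_fwd (fun _ _ h h' => On_S hX h' h) p hp.chain hp.on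

lemma bd_yFacts {n : ℕ} {p : List ℕ} (hp : ∀ x ∈ p, x < n) (β : ℕ → Bool) :
    Bd n (yFacts p β) := by
  rintro f ⟨x, hx, rfl⟩
  exact ⟨hp x hx, hp x hx⟩

/-! ### first direction -/

/-- truth of a fact in a structure along a map -/
def Tr {k n m : ℕ} (C : BinStr k (Fin m)) (h : Fin n → Fin m) (f : Fact) : Prop :=
  ∃ (hx : f.2.1 < n) (hy : f.2.2 < n), holds C f.1 (h ⟨f.2.1, hx⟩) (h ⟨f.2.2, hy⟩)

lemma tr_of_der {D : TD} {n m : ℕ} {C : BinStr D.K (Fin m)} (hC : D.Model C) (h : Fin n → Fin m)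
    {X : Set Fact} (hX : ∀ f ∈ X, Tr C h f) {f : Fact} (hf : Der D.rules n X f) : Tr C h f := by
  induction hf with
  | base hf => exact hX _ hf
  | @rule ρ hr σ hσ hb ih =>
    refine ⟨hσ _, hσ _, ?_⟩
    set τ : ℕ → Fin m := fun v => h ⟨σ v, hσ v⟩ with hτ
    have hbody : ∀ a ∈ ρ.1, holds C a.1 (τ a.2.1) (τ a.2.2) := by
      intro a ha
      obtain ⟨h1, h2, h3⟩ := ih a ha
      exact h3
    show holds C ρ.2.1 (τ ρ.2.2.1) (τ ρ.2.2.2)
    unfold rules at hr
    rw [List.mem_append] at hr
    rcases hr with hr | hr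
    · exact hC.1 ρ hr τ hbody
    · unfold eqRules at hr
      simp only [List.mem_append, List.mem_cons, List.not_mem_nil, or_false, List.mem_flatMap] at hr
      rcases hr with (rfl | rfl) | ⟨r, _, rfl | rfl⟩
      · rfl
      · have h1 : τ 0 = τ 1 := hbody (eEQ, 0, 1) (by simp)
        exact h1.symm
      · have h1 := hbody (r, 0, 1) (by simp)
        have h2 : τ 0 = τ 2 := hbody (eEQ, 0, 2) (by simp)
        simp only at h1 ⊢
        rw [← h2]
        exact h1
      · have h1 := hbody (r, 0, 1) (by simp)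
        have h2 : τ 1 = τ 2 := hbody (eEQ, 1, 2) (by simp)
        simp only at h1 ⊢
        rw [← h2]
        exact h1

theorem closure_of_hom (D : TD) (_hD : D.WF) {n m : ℕ} (B : BinStr D.K (Fin n))
    (C : BinStr D.K (Fin m)) (hC : D.Model C) (h : Fin n → Fin m) (hh : IsHom B C h) :
    (∀ x y, ¬ Der D.rules n (facts B) (eBOT, x, y)) ∧
    ∃ β : ℕ → Bool, ∀ p, IsOnPath (fun f => Der D.rules n (facts B) f) p →
      ∀ x y, ¬ Der D.rules n (facts B ∪ yFacts p β) (eBOT, x, y) := by
  classical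
  have hfacts : ∀ f ∈ facts B, Tr C h f := by
    rintro f ⟨r, x, y, hr, rfl⟩
    exact ⟨x.2, y.2, r.2, hh r x y hr⟩
  refine ⟨fun x y hxy => (tr_of_der hC h hfacts hxy).2.2, ?_⟩
  refine ⟨fun x => decide (Tr C h (eY 1, x, x)), ?_⟩
  intro p hp x y hxy
  have hX := bd_facts B
  have hlt := path_lt hX hp
  -- no escape on the path
  have hSL : ∀ z ∈ p, ¬ Tr C h (eSL, z, z) := by
    refine chain_fwd (P := fun z => ¬ Tr C h (eSL, z, z)) ?_ p hp.chain ?_
    rotate_left
    · intro z hz hSLz
      obtain ⟨h1, h2, h3⟩ := hSLz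
      obtain ⟨h4, h5, h6⟩ := tr_of_der hC h hfacts (hp.first z hz)
      exact hC.1 ([(eSL, 0, 0), (eF, 0, 0)], (eBOT, 0, 0)) (by
        unfold coreRules; simp only [List.mem_append]
        exact Or.inl (Or.inl (Or.inl (by decide)))) (fun _ => h ⟨z, h1⟩) (by
          intro a ha
          simp only [List.mem_cons, List.not_mem_nil, or_false] at ha
          rcases ha with rfl | rfl
          · exact h3
          · exact h6)
    · intro u v huv hu hv
      apply hu
      obtain ⟨h1, h2, h3⟩ := hv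
      obtain ⟨h4, h5, h6⟩ := tr_of_der hC h hfacts huv
      refine ⟨h4, h4, ?_⟩
      exact hC.1 ([(eSL, 1, 1), (eS, 0, 1)], (eSL, 0, 0)) (by
        unfold coreRules; simp only [List.mem_append]
        exact Or.inl (Or.inl (Or.inl (by decide))))
        (fun w => if w = 0 then h ⟨u, h4⟩ else h ⟨v, h1⟩) (by
          intro a ha
          simp only [List.mem_cons, List.not_mem_nil, or_false] at ha
          rcases ha with rfl | rfl
          · exact h3
          · exact h6)
  have hSR : ∀ z ∈ p, ¬ Tr C h (eSR, z, z) := by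
    refine chain_bwd (P := fun z => ¬ Tr C h (eSR, z, z)) ?_ p hp.chain ?_
    rotate_left
    · intro z hz hSLz
      obtain ⟨h1, h2, h3⟩ := hSLz
      obtain ⟨h4, h5, h6⟩ := tr_of_der hC h hfacts (hp.last z hz)
      exact hC.1 ([(eSR, 0, 0), (eE, 0, 0)], (eBOT, 0, 0)) (by
        unfold coreRules; simp only [List.mem_append]
        exact Or.inl (Or.inl (Or.inl (by decide)))) (fun _ => h ⟨z, h1⟩) (by
          intro a ha
          simp only [List.mem_cons, List.not_mem_nil, or_false] at ha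
          rcases ha with rfl | rfl
          · exact h3
          · exact h6)
    · intro u v huv hu hv
      apply hu
      obtain ⟨h1, h2, h3⟩ := hv
      obtain ⟨h4, h5, h6⟩ := tr_of_der hC h hfacts huv
      refine ⟨h5, h5, ?_⟩
      exact hC.1 ([(eSR, 0, 0), (eS, 0, 1)], (eSR, 1, 1)) (by
        unfold coreRules; simp only [List.mem_append]
        exact Or.inl (Or.inl (Or.inl (by decide))))
        (fun w => if w = 0 then h ⟨u, h1⟩ else h ⟨v, h5⟩) (by
          intro a ha
          simp only [List.mem_cons, List.not_mem_nil, or_false] at ha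
          rcases ha with rfl | rfl
          · exact h3
          · exact h6)
  have hY : ∀ f ∈ facts B ∪ yFacts p (fun x => decide (Tr C h (eY 1, x, x))), Tr C h f := by
    rintro f (hf | ⟨z, hz, rfl⟩)
    · exact hfacts f hf
    · show Tr C h (eY (bif decide (Tr C h (eY 1, z, z)) then 1 else 0), z, z)
      by_cases hz1 : Tr C h (eY 1, z, z)
      · rw [decide_eq_true hz1]
        exact hz1
      · rw [decide_eq_false hz1]
        obtain ⟨h1, h2, h3⟩ := tr_of_der hC h hfacts (path_on hX hp z hz)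
        rcases hC.2 _ h3 with h4 | h4 | h4 | h4
        · exact ⟨h1, h2, h4⟩
        · exact absurd ⟨h1, h2, h4⟩ hz1
        · exact absurd ⟨h1, h2, h4⟩ (hSL z hz)
        · exact absurd ⟨h1, h2, h4⟩ (hSR z hz)
  exact (tr_of_der hC h hY hxy).2.2

/-! ### second direction: the quotient model -/

lemma head_lt_ga {G : GA} (hG : G.Closed) (e : ℕ → ℕ) (N : ℕ) (he : ∀ z < G.m, e z < N) :
    ∀ ρ ∈ gaRules G e, ρ.2.1 < N := by
  intro ρ hρ
  unfold gaRules at hρ
  simp only [List.mem_append, List.mem_flatMap, List.mem_map, List.mem_range] at hρ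
  rcases hρ with ⟨b, hb, c, hc, rfl⟩ | ⟨a, ha, b, hb, c, hc, d, hd, rfl⟩
  · exact he _ (hG.1 b hb c hc)
  · exact he _ (hG.2 a ha b hb c hc d hd)

lemma head_lt {D : TD} (hD : D.WF) : ∀ ρ ∈ D.coreRules, ρ.2.1 < D.M := by
  intro ρ hρ
  unfold coreRules at hρ
  simp only [List.mem_append] at hρ
  rcases hρ with ((hρ | hρ) | hρ) | hρ
  · have h1 : ∀ ρ ∈ baseRules, ρ.2.1 < 12 := by decide
    exact lt_M _ (h1 ρ hρ)
  · unfold dataRules at hρ
    simp only [List.mem_append, List.mem_flatMap, List.mem_map, List.mem_cons, List.not_mem_nil,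
      or_false, List.mem_range, List.mem_filter] at hρ
    have h1 := hD.z0_lt
    rcases hρ with ((rfl | ⟨a, ha, c, hc, rfl⟩) | ⟨z, hz, rfl⟩) | ⟨z, hz, rfl⟩
    · simp only [eZ, M]; omega
    · have h2 := hD.iniV_lt a ha c hc
      simp only [eV, M]; omega
    · cases D.onZ z
      · exact lt_M eOff (by decide)
      · exact lt_M eOn (by decide)
    · exact lt_M eBOT (by decide)
  · exact head_lt_ga hD.closedZ _ _ (fun z hz => by simp only [eZ, M]; omega) ρ hρ
  · exact head_lt_ga hD.closedV _ _ (fun z hz => by simp only [eV, M]; omega) ρ hρ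

/-- a consistent closed set of facts gives a finite model -/
lemma model_of_closed {D : TD} (hD : D.WF) {n : ℕ} (B : BinStr D.K (Fin n)) (J : Fact → Prop)
    (hJB : ∀ f ∈ facts B, J f)
    (hJ : ∀ ρ ∈ D.rules, ∀ σ : ℕ → ℕ, (∀ v, σ v < n) → (∀ a ∈ ρ.1, J (inst σ a)) →
      J (inst σ ρ.2))
    (hbot : ∀ x y, ¬ J (eBOT, x, y))
    (hdis : ∀ x, x < n → J (eOn, x, x) → J (eY 0, x, x) ∨ J (eY 1, x, x) ∨ J (eSL, x, x) ∨
      J (eSR, x, x)) :
    ∃ (m : ℕ) (C : BinStr D.K (Fin m)), D.Model C ∧ ∃ h, IsHom B C h := by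
  classical
  have hrefl : ∀ x, x < n → J (eEQ, x, x) := by
    intro x hx
    have hr : (([], (eEQ, 0, 0)) : Rule) ∈ D.rules := by
      unfold rules eqRules
      simp
    exact hJ _ hr (s3 x x x) (s3_lt hx hx hx) (fun a ha => absurd ha List.not_mem_nil)
  have hsymm : ∀ x y, x < n → y < n → J (eEQ, x, y) → J (eEQ, y, x) := by
    intro x y hx hy h
    have hr : (([(eEQ, 0, 1)], (eEQ, 1, 0)) : Rule) ∈ D.rules := by
      unfold rules eqRules
      simp
    refine hJ _ hr (s3 x y y) (s3_lt hx hy hy) (fun a ha => ?_)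
    simp only [List.mem_cons, List.not_mem_nil, or_false] at ha
    subst ha
    exact h
  have hL : ∀ r x y z, r < D.M → x < n → y < n → z < n → J (r, x, y) → J (eEQ, x, z) →
      J (r, z, y) := by
    intro r x y z hr hx hy hz h h'
    refine hJ _ (mem_rules_cong1 hr) (s3 x y z) (s3_lt hx hy hz) (fun a ha => ?_)
    simp only [List.mem_cons, List.not_mem_nil, or_false] at ha
    rcases ha with rfl | rfl
    · exact h
    · exact h'
  have hR : ∀ r x y z, r < D.M → x < n → y < n → z < n → J (r, x, y) → J (eEQ, y, z) →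
      J (r, x, z) := by
    intro r x y z hr hx hy hz h h'
    refine hJ _ (mem_rules_cong2 hr) (s3 x y z) (s3_lt hx hy hz) (fun a ha => ?_)
    simp only [List.mem_cons, List.not_mem_nil, or_false] at ha
    rcases ha with rfl | rfl
    · exact h
    · exact h'
  let st : Setoid (Fin n) :=
    { r := fun x y => J (eEQ, x.1, y.1)
      iseqv :=
        { refl := fun x => hrefl _ x.2
          symm := fun {x y} h => hsymm _ _ x.2 y.2 h
          trans := fun {x y z} h h' => hR _ _ _ _ (lt_M _ (by decide)) x.2 y.2 z.2 h h' } }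
  -- the quotient structure
  let C' : BinStr D.K (Quotient st) := ⟨fun r a b => J (r.1 + 2, a.out.1, b.out.1)⟩
  have hC' : D.Model C' := by
    have hout : ∀ (r : ℕ) (a b : Quotient st), J (r, a.out.1, b.out.1) → r < D.M → holds C' r a b := by
      intro r a b h hr
      match r with
      | 0 =>
        have h1 : (⟦a.out⟧ : Quotient st) = ⟦b.out⟧ := Quotient.sound h
        rw [Quotient.out_eq, Quotient.out_eq] at h1
        exact h1
      | 1 => exact absurd h (hbot _ _)
      | r + 2 => exact ⟨by unfold K; omega, h⟩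
    have hin : ∀ (r : ℕ) (a b : Quotient st), holds C' r a b → J (r, a.out.1, b.out.1) := by
      intro r a b h
      match r with
      | 0 =>
        have h1 : a = b := h
        rw [h1]
        exact hrefl _ b.out.2
      | 1 => exact absurd h id
      | r + 2 =>
        obtain ⟨_, h1⟩ := h
        exact h1
    refine ⟨?_, ?_⟩
    · intro ρ hρ σ hb
      have hmem : ρ ∈ D.rules := by
        unfold rules
        exact List.mem_append_left _ hρ
      have h1 := hJ ρ hmem (fun v => (σ v).out.1) (fun v => (σ v).out.2) (fun a ha =>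
        hin _ _ _ (hb a ha))
      exact hout _ _ _ h1 (head_lt hD ρ hρ)
    · intro a ha
      rcases hdis _ a.out.2 (hin _ _ _ ha) with h | h | h | h
      · exact Or.inl (hout _ _ _ h (lt_M _ (by decide)))
      · exact Or.inr (Or.inl (hout _ _ _ h (lt_M _ (by decide))))
      · exact Or.inr (Or.inr (Or.inl (hout _ _ _ h (lt_M _ (by decide)))))
      · exact Or.inr (Or.inr (Or.inr (hout _ _ _ h (lt_M _ (by decide)))))
  have hhom : IsHom B C' (fun x => (⟦x⟧ : Quotient st)) := by
    intro r x y hr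
    show J (r.1 + 2, (⟦x⟧ : Quotient st).out.1, (⟦y⟧ : Quotient st).out.1)
    have hx : J (eEQ, (⟦x⟧ : Quotient st).out.1, x.1) := Quotient.exact (Quotient.out_eq (⟦x⟧ : Quotient st))
    have hy : J (eEQ, (⟦y⟧ : Quotient st).out.1, y.1) := Quotient.exact (Quotient.out_eq (⟦y⟧ : Quotient st))
    have hrM : r.1 + 2 < D.M := by
      have h1 := r.2
      unfold K at h1
      omega
    have h1 : J (r.1 + 2, x.1, y.1) := hJB _ ⟨r, x, y, hr, rfl⟩
    exact hR _ _ _ _ hrM (Fin.is_lt _) y.2 (Fin.is_lt _)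
      (hL _ _ _ _ hrM x.2 y.2 (Fin.is_lt _) h1 (hsymm _ _ (Fin.is_lt _) x.2 hx))
      (hsymm _ _ (Fin.is_lt _) y.2 hy)
  -- transport to `Fin m`
  let e : Quotient st ≃ Fin (Fintype.card (Quotient st)) := Fintype.equivFin _
  refine ⟨Fintype.card (Quotient st), ⟨fun r a b => C'.rel r (e.symm a) (e.symm b)⟩, ?_,
    fun x => e ⟦x⟧, ?_⟩
  · have hh : ∀ (r : ℕ) (a b : Fin (Fintype.card (Quotient st))),
        holds (⟨fun r a b => C'.rel r (e.symm a) (e.symm b)⟩ : BinStr D.K _) r a b ↔
          holds C' r (e.symm a) (e.symm b) := by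
      intro r a b
      match r with
      | 0 => exact e.symm.injective.eq_iff.symm
      | 1 => exact Iff.rfl
      | r + 2 => exact Iff.rfl
    refine ⟨?_, ?_⟩
    · intro ρ hρ σ hb
      rw [hh]
      exact hC'.1 ρ hρ (fun v => e.symm (σ v)) (fun a ha => (hh _ _ _).mp (hb a ha))
    · intro x hx
      rw [hh] at hx
      rw [hh, hh, hh, hh]
      exact hC'.2 _ hx
  · intro r x y hr
    show C'.rel r (e.symm (e ⟦x⟧)) (e.symm (e ⟦y⟧))
    rw [e.symm_apply_apply, e.symm_apply_apply]
    exact hhom r x y hr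

/-! ### classification of the rules -/

/-- relation numbers of certificate facts and cells of the verifier -/
def NR (D : TD) (r : ℕ) : Prop :=
  r = 10 ∨ r = 11 ∨ (12 + D.nl ≤ r ∧ r < 12 + D.nl + D.GV.m)

/-- rules without certificate, verifier and escape atoms in the body -/
def Rigid (D : TD) (ρ : Rule) : Prop := ∀ a ∈ ρ.1, ¬ NR D a.1 ∧ a.1 ≠ eSL ∧ a.1 ≠ eSR

/-- special rules: all body atoms that are not rigid have first variable `v0` or `v1`, where
`v0` and `v1` are connected, and the head is nonrigid with first variable connected -/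
inductive Special (D : TD) : Rule → Prop
  | r16 (a c : ℕ) (hc : c < 2) (hz : D.iniV a c < D.GV.m) : a < D.nl → Special D ([(eI, 0, 1), (eY c, 1, 1), (eLet a, 1, 1)], (D.eV (D.iniV a c), 0, 1))
  | r18 (z : ℕ) : Special D ([(D.eV z, 0, 1), (eE, 0, 0), (eF, 1, 1)], (eBOT, 0, 0))
  | r19 (b c z : ℕ) (hz : z < D.GV.m) : Special D ([(D.eV b, 0, 1), (D.eV c, 0, 2), (eF, 1, 1), (eS, 1, 2), (eS, 0, 3)], (D.eV z, 3, 1))
  | r20 (a b c d z : ℕ) (hz : z < D.GV.m) : Special D ([(D.eV a, 0, 1), (D.eV b, 0, 2), (D.eV c, 0, 3), (D.eV d, 4, 1), (eS, 1, 2), (eS, 2, 3), (eS, 0, 4)], (D.eV z, 4, 2))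
  | c1 (r : ℕ) : Special D ([(r, 0, 1), (eEQ, 0, 2)], (r, 2, 1))
  | c2 (r : ℕ) : Special D ([(r, 0, 1), (eEQ, 1, 2)], (r, 0, 2))

lemma rigid_atom {D : TD} {r : ℕ}
    (h : r < 6 ∨ r = 8 ∨ r = 9 ∨ (12 ≤ r ∧ r < 12 + D.nl) ∨ 12 + D.nl + D.GV.m ≤ r) :
    ¬ NR D r ∧ r ≠ eSL ∧ r ≠ eSR := by
  unfold NR eSL eSR
  omega

lemma rules_cases {D : TD} (hD : D.WF) {ρ : Rule} (hρ : ρ ∈ D.rules) : Rigid D ρ ∨ Special D ρ ∨
    ρ = ([(eSL, 1, 1), (eS, 0, 1)], (eSL, 0, 0)) ∨ ρ = ([(eSL, 0, 0), (eF, 0, 0)], (eBOT, 0, 0)) ∨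
    ρ = ([(eSR, 0, 0), (eS, 0, 1)], (eSR, 1, 1)) ∨ ρ = ([(eSR, 0, 0), (eE, 0, 0)], (eBOT, 0, 0)) := by
  unfold rules coreRules at hρ
  simp only [List.mem_append] at hρ
  rcases hρ with (((hρ | hρ) | hρ) | hρ) | hρ
  · -- base
    unfold baseRules at hρ
    simp only [List.mem_cons, List.not_mem_nil, or_false] at hρ
    rcases hρ with rfl | rfl | rfl | rfl | rfl | rfl | rfl | rfl | rfl | rfl | rfl | rfl | rfl | rfl
    all_goals first
      | exact Or.inr (Or.inr (Or.inl rfl))
      | exact Or.inr (Or.inr (Or.inr (Or.inl rfl)))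
      | exact Or.inr (Or.inr (Or.inr (Or.inr (Or.inl rfl))))
      | exact Or.inr (Or.inr (Or.inr (Or.inr (Or.inr rfl))))
      | (left
         intro a ha
         simp only [List.mem_cons, List.not_mem_nil, or_false] at ha
         apply rigid_atom
         rcases ha with rfl | rfl <;> simp [eS, eF, eE, eI, eEQ, eBOT, eOn, eOff])
  · unfold dataRules at hρ
    simp only [List.mem_append, List.mem_flatMap, List.mem_map, List.mem_cons, List.not_mem_nil,
      or_false, List.mem_range, List.mem_filter] at hρ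
    rcases hρ with ((rfl | ⟨a, ha, c, hc, rfl⟩) | ⟨z, hz, rfl⟩) | ⟨z, hz, rfl⟩
    · left
      intro a ha
      simp only [List.mem_cons, List.not_mem_nil, or_false] at ha
      subst ha
      exact rigid_atom (Or.inl (by decide))
    · exact Or.inr (Or.inl (Special.r16 a c hc (hD.iniV_lt a ha c hc) ha))
    · left
      intro a ha
      simp only [List.mem_cons, List.not_mem_nil, or_false] at ha
      apply rigid_atom
      rcases ha with rfl | rfl | rfl
      · simp only [eZ]; omega
      · simp [eS, eF, eE, eI, eEQ, eBOT, eOn, eOff]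
      · simp [eS, eF, eE, eI, eEQ, eBOT, eOn, eOff]
    · exact Or.inr (Or.inl (Special.r18 z))
  · left
    unfold gaRules at hρ
    simp only [List.mem_append, List.mem_flatMap, List.mem_map, List.mem_range] at hρ
    intro x hx
    apply rigid_atom
    rcases hρ with ⟨b, hb, c, hc, rfl⟩ | ⟨a, ha, b, hb, c, hc, d, hd, rfl⟩
    · simp only [List.mem_cons, List.not_mem_nil, or_false] at hx
      rcases hx with rfl | rfl | rfl | rfl | rfl
      · simp only [eZ]; omega
      · simp only [eZ]; omega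
      · simp [eS, eF, eE, eI, eEQ, eBOT, eOn, eOff]
      · simp [eS, eF, eE, eI, eEQ, eBOT, eOn, eOff]
      · simp [eS, eF, eE, eI, eEQ, eBOT, eOn, eOff]
    · simp only [List.mem_cons, List.not_mem_nil, or_false] at hx
      rcases hx with rfl | rfl | rfl | rfl | rfl | rfl | rfl
      · simp only [eZ]; omega
      · simp only [eZ]; omega
      · simp only [eZ]; omega
      · simp only [eZ]; omega
      · simp [eS, eF, eE, eI, eEQ, eBOT, eOn, eOff]
      · simp [eS, eF, eE, eI, eEQ, eBOT, eOn, eOff]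
      · simp [eS, eF, eE, eI, eEQ, eBOT, eOn, eOff]
  · right; left
    unfold gaRules at hρ
    simp only [List.mem_append, List.mem_flatMap, List.mem_map, List.mem_range] at hρ
    rcases hρ with ⟨b, hb, c, hc, rfl⟩ | ⟨a, ha, b, hb, c, hc, d, hd, rfl⟩
    · exact Special.r19 b c _ (hD.closedV.1 b hb c hc)
    · exact Special.r20 a b c d _ (hD.closedV.2 a ha b hb c hc d hd)
  · unfold eqRules at hρ
    simp only [List.mem_append, List.mem_cons, List.not_mem_nil, or_false, List.mem_flatMap] at hρ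
    rcases hρ with (rfl | rfl) | ⟨r, _, rfl | rfl⟩
    · left
      intro a ha
      exact absurd ha List.not_mem_nil
    · left
      intro a ha
      simp only [List.mem_cons, List.not_mem_nil, or_false] at ha
      subst ha
      exact rigid_atom (Or.inl (by decide))
    · exact Or.inr (Or.inl (Special.c1 r))
    · exact Or.inr (Or.inl (Special.c2 r))

/-! ### classes, chosen paths and locality -/

section main

variable {D : TD} {n : ℕ} (B : BinStr D.K (Fin n))

/-- derivable facts -/
abbrev XX (f : Fact) : Prop := Der D.rules n (facts B) f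

/-- links: successor or equality -/
def Lk (x y : ℕ) : Prop := XX B (eS, x, y) ∨ XX B (eEQ, x, y)

/-- classes -/
def cl (t : ℕ) : Set ℕ := {s | Relation.EqvGen (Lk B) s t}

lemma cl_eq_of_eqvGen {x y : ℕ} (h : Relation.EqvGen (Lk B) x y) : cl B x = cl B y := by
  ext s
  exact ⟨fun h' => Relation.EqvGen.trans _ _ _ h' h,
    fun h' => Relation.EqvGen.trans _ _ _ h' (Relation.EqvGen.symm _ _ h)⟩

lemma eqvGen_of_cl_eq {x y : ℕ} (h : cl B x = cl B y) : Relation.EqvGen (Lk B) x y := by
  have : x ∈ cl B x := Relation.EqvGen.refl _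
  rw [h] at this
  exact this

lemma cl_S {x y : ℕ} (h : XX B (eS, x, y)) : cl B x = cl B y :=
  cl_eq_of_eqvGen B (Relation.EqvGen.rel _ _ (Or.inl h))

lemma cl_EQ {x y : ℕ} (h : XX B (eEQ, x, y)) : cl B x = cl B y :=
  cl_eq_of_eqvGen B (Relation.EqvGen.rel _ _ (Or.inr h))

/-- a set closed under links in both directions contains classes -/
lemma closed_class {P : ℕ → Prop} (hP : ∀ x y, Lk B x y → (P x ↔ P y)) {x y : ℕ}
    (h : cl B x = cl B y) : P x ↔ P y := by
  have h' := eqvGen_of_cl_eq B h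
  clear h
  induction h' with
  | rel x y h => exact hP x y h
  | refl x => exact Iff.rfl
  | symm x y _ ih => exact ih.symm
  | trans x y z _ _ ih1 ih2 => exact ih1.trans ih2

/-- a path is a full class modulo equality -/
lemma path_class (hbot : ∀ x y, ¬ XX B (eBOT, x, y)) {p : List ℕ}
    (hp : IsOnPath (fun f => XX B f) p) {a : ℕ} (ha : p.head? = some a) {x : ℕ}
    (hx : cl B x = cl B a) : ∃ y ∈ p, XX B (eEQ, x, y) := by
  have hX := bd_facts B
  have hlt := path_lt hX hp
  refine (closed_class B (P := fun x => ∃ y ∈ p, XX B (eEQ, x, y)) ?_ hx).mpr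
    ⟨a, List.mem_of_mem_head? ha, eq_refl (hlt a (List.mem_of_mem_head? ha))⟩
  rintro u v (huv | huv)
  · constructor
    · rintro ⟨y, hy, hyu⟩
      have h1 : XX B (eS, y, v) := congL hX (lt_M _ (by decide)) huv hyu
      rcases chain_succ p hp.chain y hy with h2 | ⟨z, hz, h2⟩
      · exact absurd (S_E hX h1 (hp.last y h2)) (hbot _ _)
      · exact ⟨z, hz, S_fun hX h1 h2⟩
    · rintro ⟨y, hy, hyv⟩
      have h1 : XX B (eS, u, y) := congR hX (lt_M _ (by decide)) huv hyv
      rcases chain_pred p hp.chain y hy with h2 | ⟨z, hz, h2⟩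
      · exact absurd (S_F hX h1 (hp.first y h2)) (hbot _ _)
      · exact ⟨z, hz, S_inj hX h1 h2⟩
  · constructor
    · rintro ⟨y, hy, hyu⟩
      exact ⟨y, hy, eq_trans hX (eq_symm hX huv) hyu⟩
    · rintro ⟨y, hy, hyv⟩
      exact ⟨y, hy, eq_trans hX huv hyv⟩

lemma path_cl {p : List ℕ} (hp : IsOnPath (fun f => XX B f) p) {a : ℕ} (ha : p.head? = some a) :
    ∀ x ∈ p, cl B x = cl B a := by
  refine chain_fwd (P := fun x => cl B x = cl B a) ?_ p hp.chain ?_
  · intro x y h h'
    rw [← cl_S B h]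
    exact h'
  · intro x hx
    rw [ha] at hx
    cases hx
    rfl

lemma path_I {p : List ℕ} (hp : IsOnPath (fun f => XX B f) p) {a : ℕ} (ha : p.head? = some a) :
    ∀ x ∈ p, XX B (eI, a, x) := by
  have hX := bd_facts B
  refine chain_fwd (P := fun x => XX B (eI, a, x)) ?_ p hp.chain ?_
  · intro x y h h'
    exact I_S hX h' h
  · intro x hx
    have h1 := hp.first x hx
    rw [ha] at hx
    cases hx
    exact F_I hX h1

/-- admissible choices for a class -/
def Q (s : Set ℕ) (q : List ℕ × (ℕ → Bool)) : Prop :=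
  IsOnPath (fun f => XX B f) q.1 ∧ (∃ a, q.1.head? = some a ∧ cl B a = s) ∧
    ∀ x y, ¬ Der D.rules n (facts B ∪ yFacts q.1 q.2) (eBOT, x, y)

open Classical in
/-- the choice for a class -/
noncomputable def G (s : Set ℕ) : List ℕ × (ℕ → Bool) :=
  if h : ∃ q, Q B s q then h.choose else ([], fun _ => false)

lemma G_spec {s : Set ℕ} (h : ∃ q, Q B s q) : Q B s (G B s) := by
  unfold G
  rw [dif_pos h]
  exact h.choose_spec

/-- the facts with the certificate of a class -/
def YS (s : Set ℕ) : Set Fact := facts B ∪ yFacts (G B s).1 (G B s).2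

/-- the derivable facts with the certificate of a class -/
def DS (s : Set ℕ) (f : Fact) : Prop := Der D.rules n (YS B s) f

lemma DS_of_XX {s : Set ℕ} {f : Fact} (h : XX B f) : DS B s f :=
  der_mono Set.subset_union_left h

lemma DS_none {s : Set ℕ} (h : ¬ ∃ q, Q B s q) {f : Fact} (hf : DS B s f) : XX B f := by
  refine der_mono ?_ hf
  unfold YS G
  rw [dif_neg h]
  rintro g (hg | ⟨x, hx, _⟩)
  · exact hg
  · exact absurd hx List.not_mem_nil

lemma noBot (hbot : ∀ x y, ¬ XX B (eBOT, x, y)) (s : Set ℕ) (x y : ℕ) : ¬ DS B s (eBOT, x, y) := by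
  intro h
  by_cases hs : ∃ q, Q B s q
  · exact (G_spec B hs).2.2 x y h
  · exact hbot x y (DS_none B hs h)

lemma not_NR_lt {r : ℕ} (h : r < 10) : ¬ NR D r := by
  unfold NR
  omega

lemma NR_eV {z : ℕ} (hz : z < D.GV.m) : NR D (D.eV z) := by
  unfold NR eV
  omega

lemma eV_ne (z : ℕ) : D.eV z ≠ eSL ∧ D.eV z ≠ eSR := by
  unfold eV eSL eSR
  omega

lemma bd_YS (s : Set ℕ) : Bd n (YS B s) := by
  by_cases hs : ∃ q, Q B s q
  · exact bd_union (bd_facts B) (bd_yFacts (path_lt (bd_facts B) (G_spec B hs).1) _)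
  · unfold YS G
    rw [dif_neg hs]
    exact bd_union (bd_facts B) (bd_yFacts (fun x hx => absurd hx List.not_mem_nil) _)

/-- locality -/
lemma locality (hD : D.WF) (hbot : ∀ x y, ¬ XX B (eBOT, x, y)) {s : Set ℕ} {f : Fact} (h : DS B s f) :
    XX B f ∨ (NR D f.1 ∧ cl B f.2.1 = s) := by
  by_cases hs : ∃ q, Q B s q
  swap
  · exact Or.inl (DS_none B hs h)
  obtain ⟨hp, ⟨a, ha, has⟩, hnb⟩ := G_spec B hs
  have hX := bd_facts B
  unfold DS at h
  induction h with
  | base h =>
    rcases h with h | ⟨x, hx, rfl⟩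
    · exact Or.inl (Der.base h)
    · right
      refine ⟨?_, ?_⟩
      · cases (G B s).2 x
        · exact Or.inl rfl
        · exact Or.inr (Or.inl rfl)
      · rw [← has]
        exact path_cl B hp ha x hx
  | @rule ρ hr σ hσ hb ih =>
    by_cases hall : ∀ a ∈ ρ.1, XX B (inst σ a)
    · exact Or.inl (Der.rule hr σ hσ hall)
    · right
      push Not at hall
      obtain ⟨b, hbρ, hbX⟩ := hall
      have hb1 : NR D b.1 ∧ cl B (σ b.2.1) = s := (ih b hbρ).resolve_left hbX
      have hrig : ∀ c ∈ ρ.1, ¬ NR D c.1 → XX B (inst σ c) := fun c hc hn =>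
        (ih c hc).resolve_right (fun h => hn h.1)
      rcases rules_cases hD hr with h | h | rfl | rfl | rfl | rfl
      · exact absurd hb1.1 (h b hbρ).1
      · cases h with
        | r16 a' c hc hz ha' =>
          have hI : XX B (eI, σ 0, σ 1) := hrig (eI, 0, 1) (by simp) (not_NR_lt (by decide))
          simp only [List.mem_cons, List.not_mem_nil, or_false] at hbρ
          have h1 : cl B (σ 1) = s := by
            rcases hbρ with rfl | rfl | rfl
            · exact absurd hb1.1 (not_NR_lt (by decide))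
            · exact hb1.2
            · exact hb1.2
          refine ⟨NR_eV hz, ?_⟩
          show cl B (σ 0) = s
          obtain ⟨y, hy, hy'⟩ := path_class B hbot hp ha (h1.trans has.symm)
          have h2 : XX B (eI, a, σ 1) :=
            congR hX (lt_M _ (by decide)) (path_I B hp ha y hy) (eq_symm hX hy')
          rw [cl_EQ B (I_inj hX hI h2)]
          exact has
        | r18 z => exact absurd (Der.rule hr σ hσ hb) (hnb _ _)
        | r19 b' c z hz =>
          have hS : XX B (eS, σ 0, σ 3) := hrig (eS, 0, 3) (by simp) (not_NR_lt (by decide))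
          simp only [List.mem_cons, List.not_mem_nil, or_false] at hbρ
          refine ⟨NR_eV hz, ?_⟩
          show cl B (σ 3) = s
          rw [← cl_S B hS]
          rcases hbρ with rfl | rfl | rfl | rfl | rfl
          · exact hb1.2
          · exact hb1.2
          · exact absurd hb1.1 (not_NR_lt (by decide))
          · exact absurd hb1.1 (not_NR_lt (by decide))
          · exact absurd hb1.1 (not_NR_lt (by decide))
        | r20 a' b' c d z hz =>
          have hS : XX B (eS, σ 0, σ 4) := hrig (eS, 0, 4) (by simp) (not_NR_lt (by decide))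
          simp only [List.mem_cons, List.not_mem_nil, or_false] at hbρ
          refine ⟨NR_eV hz, ?_⟩
          show cl B (σ 4) = s
          rcases hbρ with rfl | rfl | rfl | rfl | rfl | rfl | rfl
          · rw [← cl_S B hS]; exact hb1.2
          · rw [← cl_S B hS]; exact hb1.2
          · rw [← cl_S B hS]; exact hb1.2
          · exact hb1.2
          · exact absurd hb1.1 (not_NR_lt (by decide))
          · exact absurd hb1.1 (not_NR_lt (by decide))
          · exact absurd hb1.1 (not_NR_lt (by decide))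
        | c1 r =>
          have hE : XX B (eEQ, σ 0, σ 2) := hrig (eEQ, 0, 2) (by simp) (not_NR_lt (by decide))
          simp only [List.mem_cons, List.not_mem_nil, or_false] at hbρ
          rcases hbρ with rfl | rfl
          · refine ⟨hb1.1, ?_⟩
            show cl B (σ 2) = s
            rw [← cl_EQ B hE]
            exact hb1.2
          · exact absurd hb1.1 (not_NR_lt (by decide))
        | c2 r =>
          simp only [List.mem_cons, List.not_mem_nil, or_false] at hbρ
          rcases hbρ with rfl | rfl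
          · exact ⟨hb1.1, hb1.2⟩
          · exact absurd hb1.1 (not_NR_lt (by decide))
      all_goals
        exfalso
        simp only [List.mem_cons, List.not_mem_nil, or_false] at hbρ
        rcases hbρ with rfl | rfl
        · exact absurd hb1.1 (not_NR_lt (by decide))
        · exact absurd hb1.1 (not_NR_lt (by decide))

/-- the closed set of facts -/
def J (f : Fact) : Prop :=
  DS B (cl B f.2.1) f ∨
  (f.1 = eSL ∧ XX B (eEQ, f.2.1, f.2.2) ∧ ∀ z, cl B z = cl B f.2.1 → ¬ XX B (eF, z, z)) ∨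
  (f.1 = eSR ∧ XX B (eEQ, f.2.1, f.2.2) ∧ ∀ z, cl B z = cl B f.2.1 → ¬ XX B (eE, z, z))

lemma J_of_XX {f : Fact} (h : XX B f) : J B f := Or.inl (DS_of_XX B h)

lemma J_of_DS (hD : D.WF) (hbot : ∀ x y, ¬ XX B (eBOT, x, y)) {s : Set ℕ} {f : Fact} (h : DS B s f) :
    J B f := by
  rcases locality B hD hbot h with h1 | ⟨_, h1⟩
  · exact J_of_XX B h1
  · left
    rw [h1]
    exact h

lemma J_rigid (hD : D.WF) (hbot : ∀ x y, ¬ XX B (eBOT, x, y)) {f : Fact} (h : J B f) (h1 : ¬ NR D f.1)
    (h2 : f.1 ≠ eSL) (h3 : f.1 ≠ eSR) : XX B f := by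
  rcases h with h | h | h
  · exact (locality B hD hbot h).resolve_right (fun h => h1 h.1)
  · exact absurd h.1 h2
  · exact absurd h.1 h3

lemma J_low (hD : D.WF) (hbot : ∀ x y, ¬ XX B (eBOT, x, y)) {f : Fact} (h : J B f) (h1 : f.1 < 6 ∨ f.1 = 8) :
    XX B f := by
  apply J_rigid B hD hbot h
  · unfold NR
    omega
  · unfold eSL
    omega
  · unfold eSR
    omega

lemma J_DS {f : Fact} (h : J B f) (h2 : f.1 ≠ eSL) (h3 : f.1 ≠ eSR) : DS B (cl B f.2.1) f := by
  rcases h with h | h | h
  · exact h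
  · exact absurd h.1 h2
  · exact absurd h.1 h3

lemma NR_ne {r : ℕ} (h : NR D r) : r ≠ eSL ∧ r ≠ eSR := by
  unfold NR at h
  unfold eSL eSR
  omega

lemma J_closed (hD : D.WF) (hbot : ∀ x y, ¬ XX B (eBOT, x, y)) : ∀ ρ ∈ D.rules, ∀ σ : ℕ → ℕ,
    (∀ v, σ v < n) → (∀ a ∈ ρ.1, J B (inst σ a)) → J B (inst σ ρ.2) := by
  intro ρ hr σ hσ hb
  have hX := bd_facts B
  rcases rules_cases hD hr with h | h | rfl | rfl | rfl | rfl
  · apply J_of_XX
    refine Der.rule hr σ hσ (fun a ha => ?_)
    obtain ⟨h1, h2, h3⟩ := h a ha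
    exact J_rigid B hD hbot (hb a ha) h1 h2 h3
  · cases h with
    | r16 a' c hc hz ha' =>
      apply J_of_DS B hD hbot (s := cl B (σ 1))
      refine Der.rule hr σ hσ (fun a ha => ?_)
      simp only [List.mem_cons, List.not_mem_nil, or_false] at ha
      rcases ha with rfl | rfl | rfl
      · exact DS_of_XX B (J_low B hD hbot (hb _ (by simp)) (by simp [inst, eS, eF, eE, eI, eEQ, eOn]))
      · exact J_DS B (hb (eY c, 1, 1) (by simp)) (by simp only [inst, eY, eSL]; omega)
          (by simp only [inst, eY, eSR]; omega)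
      · exact J_DS B (hb (eLet a', 1, 1) (by simp)) (by simp only [inst, eLet, eSL]; omega)
          (by simp only [inst, eLet, eSR]; omega)
    | r18 z =>
      apply J_of_DS B hD hbot (s := cl B (σ 0))
      refine Der.rule hr σ hσ (fun a ha => ?_)
      simp only [List.mem_cons, List.not_mem_nil, or_false] at ha
      rcases ha with rfl | rfl | rfl
      · exact J_DS B (hb (D.eV z, 0, 1) (by simp)) (eV_ne z).1 (eV_ne z).2
      · exact DS_of_XX B (J_low B hD hbot (hb _ (by simp)) (by simp [inst, eS, eF, eE, eI, eEQ, eOn]))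
      · exact DS_of_XX B (J_low B hD hbot (hb _ (by simp)) (by simp [inst, eS, eF, eE, eI, eEQ, eOn]))
    | r19 b' c z hz =>
      apply J_of_DS B hD hbot (s := cl B (σ 0))
      refine Der.rule hr σ hσ (fun a ha => ?_)
      simp only [List.mem_cons, List.not_mem_nil, or_false] at ha
      rcases ha with rfl | rfl | rfl | rfl | rfl
      · exact J_DS B (hb (D.eV b', 0, 1) (by simp)) (eV_ne _).1 (eV_ne _).2
      · exact J_DS B (hb (D.eV c, 0, 2) (by simp)) (eV_ne _).1 (eV_ne _).2
      · exact DS_of_XX B (J_low B hD hbot (hb _ (by simp)) (by simp [inst, eS, eF, eE, eI, eEQ, eOn]))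
      · exact DS_of_XX B (J_low B hD hbot (hb _ (by simp)) (by simp [inst, eS, eF, eE, eI, eEQ, eOn]))
      · exact DS_of_XX B (J_low B hD hbot (hb _ (by simp)) (by simp [inst, eS, eF, eE, eI, eEQ, eOn]))
    | r20 a' b' c d z hz =>
      apply J_of_DS B hD hbot (s := cl B (σ 0))
      refine Der.rule hr σ hσ (fun a ha => ?_)
      simp only [List.mem_cons, List.not_mem_nil, or_false] at ha
      have hS : XX B (eS, σ 0, σ 4) :=
        J_low B hD hbot (hb (eS, 0, 4) (by simp)) (by simp [inst, eS, eF, eE, eI, eEQ, eOn])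
      rcases ha with rfl | rfl | rfl | rfl | rfl | rfl | rfl
      · exact J_DS B (hb (D.eV a', 0, 1) (by simp)) (eV_ne _).1 (eV_ne _).2
      · exact J_DS B (hb (D.eV b', 0, 2) (by simp)) (eV_ne _).1 (eV_ne _).2
      · exact J_DS B (hb (D.eV c, 0, 3) (by simp)) (eV_ne _).1 (eV_ne _).2
      · rw [cl_S B hS]
        exact J_DS B (hb (D.eV d, 4, 1) (by simp)) (eV_ne _).1 (eV_ne _).2
      · exact DS_of_XX B (J_low B hD hbot (hb _ (by simp)) (by simp [inst, eS, eF, eE, eI, eEQ, eOn]))
      · exact DS_of_XX B (J_low B hD hbot (hb _ (by simp)) (by simp [inst, eS, eF, eE, eI, eEQ, eOn]))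
      · exact DS_of_XX B (J_low B hD hbot (hb _ (by simp)) (by simp [inst, eS, eF, eE, eI, eEQ, eOn]))
    | c1 r =>
      have hE : XX B (eEQ, σ 0, σ 2) :=
        J_low B hD hbot (hb (eEQ, 0, 2) (by simp)) (by simp [inst, eS, eF, eE, eI, eEQ, eOn])
      rcases hb (r, 0, 1) (by simp) with h1 | ⟨h1, h2, h3⟩ | ⟨h1, h2, h3⟩
      · apply J_of_DS B hD hbot (s := cl B (σ 0))
        refine Der.rule hr σ hσ (fun a ha => ?_)
        simp only [List.mem_cons, List.not_mem_nil, or_false] at ha
        rcases ha with rfl | rfl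
        · exact h1
        · exact DS_of_XX B hE
      · right; left
        refine ⟨h1, eq_trans hX (eq_symm hX hE) h2, ?_⟩
        show ∀ z, cl B z = cl B (σ 2) → ¬ XX B (eF, z, z)
        rw [← cl_EQ B hE]
        exact h3
      · right; right
        refine ⟨h1, eq_trans hX (eq_symm hX hE) h2, ?_⟩
        show ∀ z, cl B z = cl B (σ 2) → ¬ XX B (eE, z, z)
        rw [← cl_EQ B hE]
        exact h3
    | c2 r =>
      have hE : XX B (eEQ, σ 1, σ 2) :=
        J_low B hD hbot (hb (eEQ, 1, 2) (by simp)) (by simp [inst, eS, eF, eE, eI, eEQ, eOn])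
      rcases hb (r, 0, 1) (by simp) with h1 | ⟨h1, h2, h3⟩ | ⟨h1, h2, h3⟩
      · apply J_of_DS B hD hbot (s := cl B (σ 0))
        refine Der.rule hr σ hσ (fun a ha => ?_)
        simp only [List.mem_cons, List.not_mem_nil, or_false] at ha
        rcases ha with rfl | rfl
        · exact h1
        · exact DS_of_XX B hE
      · right; left
        exact ⟨h1, eq_trans hX h2 hE, h3⟩
      · right; right
        exact ⟨h1, eq_trans hX h2 hE, h3⟩
  · -- escape to the left propagates
    have hS : XX B (eS, σ 0, σ 1) :=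
      J_low B hD hbot (hb (eS, 0, 1) (by simp)) (by simp [inst, eS, eF, eE, eI, eEQ, eOn])
    rcases hb (eSL, 1, 1) (by simp) with h1 | ⟨h1, h2, h3⟩ | ⟨h1, h2, h3⟩
    · have h2 : XX B (eSL, σ 1, σ 1) :=
        (locality B hD hbot h1).resolve_right (fun h => (NR_ne h.1).1 rfl)
      apply J_of_XX
      refine Der.rule hr σ hσ (fun a ha => ?_)
      simp only [List.mem_cons, List.not_mem_nil, or_false] at ha
      rcases ha with rfl | rfl
      · exact h2
      · exact hS
    · right; left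
      refine ⟨rfl, eq_refl (hσ 0), ?_⟩
      show ∀ z, cl B z = cl B (σ 0) → ¬ XX B (eF, z, z)
      rw [cl_S B hS]
      exact h3
    · exact absurd h1 (by simp [inst, eSL, eSR])
  · have hF : XX B (eF, σ 0, σ 0) :=
      J_low B hD hbot (hb (eF, 0, 0) (by simp)) (by simp [inst, eS, eF, eE, eI, eEQ, eOn])
    rcases hb (eSL, 0, 0) (by simp) with h1 | ⟨h1, h2, h3⟩ | ⟨h1, h2, h3⟩
    · have h2 : XX B (eSL, σ 0, σ 0) :=
        (locality B hD hbot h1).resolve_right (fun h => (NR_ne h.1).1 rfl)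
      apply J_of_XX
      refine Der.rule hr σ hσ (fun a ha => ?_)
      simp only [List.mem_cons, List.not_mem_nil, or_false] at ha
      rcases ha with rfl | rfl
      · exact h2
      · exact hF
    · exact absurd hF (h3 _ rfl)
    · exact absurd h1 (by simp [inst, eSL, eSR])
  · have hS : XX B (eS, σ 0, σ 1) :=
      J_low B hD hbot (hb (eS, 0, 1) (by simp)) (by simp [inst, eS, eF, eE, eI, eEQ, eOn])
    rcases hb (eSR, 0, 0) (by simp) with h1 | ⟨h1, h2, h3⟩ | ⟨h1, h2, h3⟩
    · have h2 : XX B (eSR, σ 0, σ 0) :=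
        (locality B hD hbot h1).resolve_right (fun h => (NR_ne h.1).2 rfl)
      apply J_of_XX
      refine Der.rule hr σ hσ (fun a ha => ?_)
      simp only [List.mem_cons, List.not_mem_nil, or_false] at ha
      rcases ha with rfl | rfl
      · exact h2
      · exact hS
    · exact absurd h1 (by simp [inst, eSL, eSR])
    · right; right
      refine ⟨rfl, eq_refl (hσ 1), ?_⟩
      show ∀ z, cl B z = cl B (σ 1) → ¬ XX B (eE, z, z)
      rw [← cl_S B hS]
      exact h3
  · have hF : XX B (eE, σ 0, σ 0) :=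
      J_low B hD hbot (hb (eE, 0, 0) (by simp)) (by simp [inst, eS, eF, eE, eI, eEQ, eOn])
    rcases hb (eSR, 0, 0) (by simp) with h1 | ⟨h1, h2, h3⟩ | ⟨h1, h2, h3⟩
    · have h2 : XX B (eSR, σ 0, σ 0) :=
        (locality B hD hbot h1).resolve_right (fun h => (NR_ne h.1).2 rfl)
      apply J_of_XX
      refine Der.rule hr σ hσ (fun a ha => ?_)
      simp only [List.mem_cons, List.not_mem_nil, or_false] at ha
      rcases ha with rfl | rfl
      · exact h2
      · exact hF
    · exact absurd h1 (by simp [inst, eSL, eSR])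
    · exact absurd hF (h3 _ rfl)

/-- in a class with a first element every element is reached from it -/
lemma reach (hbot : ∀ x y, ¬ XX B (eBOT, x, y)) {a : ℕ} (ha : XX B (eF, a, a)) {x : ℕ}
    (hx : cl B x = cl B a) :
    ∃ z, Relation.ReflTransGen (fun x y => XX B (eS, x, y)) a z ∧ XX B (eEQ, x, z) := by
  have hX := bd_facts B
  refine (closed_class B (P := fun x => ∃ z, Relation.ReflTransGen (fun x y => XX B (eS, x, y)) a z ∧
    XX B (eEQ, x, z)) ?_ hx).mpr ⟨a, Relation.ReflTransGen.refl, eq_refl (der_lt hX ha).1⟩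
  rintro u v (huv | huv)
  · constructor
    · rintro ⟨z, hz, hzu⟩
      have h1 : XX B (eS, z, v) := congL hX (lt_M _ (by decide)) huv hzu
      exact ⟨v, hz.tail h1, eq_refl (der_lt hX huv).2⟩
    · rintro ⟨z, hz, hzv⟩
      have h1 : XX B (eS, u, z) := congR hX (lt_M _ (by decide)) huv hzv
      rcases Relation.ReflTransGen.cases_tail hz with h2 | ⟨w, hw, h2⟩
      · subst h2
        exact absurd (S_F hX h1 ha) (hbot _ _)
      · exact ⟨w, hw, S_inj hX h1 h2⟩
  · constructor
    · rintro ⟨z, hz, hzu⟩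
      exact ⟨z, hz, eq_trans hX (eq_symm hX huv) hzu⟩
    · rintro ⟨z, hz, hzv⟩
      exact ⟨z, hz, eq_trans hX huv hzv⟩

lemma on_class {x y : ℕ} (h : cl B x = cl B y) (hx : XX B (eOn, x, x)) : XX B (eOn, y, y) := by
  have hX := bd_facts B
  refine (closed_class B (P := fun x => XX B (eOn, x, x)) ?_ h).mp hx
  rintro u v (huv | huv)
  · exact ⟨fun h => On_S hX h huv, fun h => On_S' hX h huv⟩
  · exact ⟨fun h => congL hX (lt_M _ (by decide)) (congR hX (lt_M _ (by decide)) h huv) huv,
      fun h => congL hX (lt_M _ (by decide)) (congR hX (lt_M _ (by decide)) h (eq_symm hX huv))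
        (eq_symm hX huv)⟩

end main

theorem hom_of_closure (D : TD) (hD : D.WF) {n : ℕ} (B : BinStr D.K (Fin n))
    (hbot : ∀ x y, ¬ Der D.rules n (facts B) (eBOT, x, y))
    (hp : ∀ a, Der D.rules n (facts B) (eF, a, a) → Der D.rules n (facts B) (eOn, a, a) →
      (∃ p, IsOnPath (fun f => Der D.rules n (facts B) f) p ∧ p.head? = some a) →
      ∃ p, IsOnPath (fun f => Der D.rules n (facts B) f) p ∧ p.head? = some a ∧
        ∃ β : ℕ → Bool, ∀ x y, ¬ Der D.rules n (facts B ∪ yFacts p β) (eBOT, x, y)) :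
    ∃ (m : ℕ) (C : BinStr D.K (Fin m)), D.Model C ∧ ∃ h, IsHom B C h := by
  have hX := bd_facts B
  refine model_of_closed hD B (J B) (fun f hf => J_of_XX B (Der.base hf)) (J_closed B hD hbot) ?_ ?_
  · rintro x y (h | ⟨h, _⟩ | ⟨h, _⟩)
    · exact noBot B hbot _ _ _ h
    · exact absurd h (by simp [eBOT, eSL, eSR])
    · exact absurd h (by simp [eBOT, eSL, eSR])
  · intro x hx hon
    have hon' : XX B (eOn, x, x) :=
      J_low B hD hbot hon (by simp [inst, eS, eF, eE, eI, eEQ, eOn])
    by_cases hF : ∀ z, cl B z = cl B x → ¬ XX B (eF, z, z)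
    · exact Or.inr (Or.inr (Or.inl (Or.inr (Or.inl ⟨rfl, eq_refl hx, hF⟩))))
    by_cases hE : ∀ z, cl B z = cl B x → ¬ XX B (eE, z, z)
    · exact Or.inr (Or.inr (Or.inr (Or.inr (Or.inr ⟨rfl, eq_refl hx, hE⟩))))
    push Not at hF hE
    obtain ⟨a, hax, ha⟩ := hF
    obtain ⟨b, hbx, hb⟩ := hE
    -- a path
    obtain ⟨z, hz, hbz⟩ := reach B hbot ha (hbx.trans hax.symm)
    have hz' : XX B (eE, z, z) :=
      congL hX (lt_M _ (by decide)) (congR hX (lt_M _ (by decide)) hb hbz) hbz
    obtain ⟨l, hl1, hl2⟩ := List.exists_isChain_cons_of_relationReflTransGen hz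
    have hpath : IsOnPath (fun f => XX B f) (a :: l) := by
      refine ⟨by simp, hl1, ?_, ?_, ?_⟩
      · intro y hy
        simp only [List.head?_cons, Option.mem_def, Option.some.injEq] at hy
        subst hy
        exact ha
      · intro y hy
        rw [List.getLast?_eq_getLast_of_ne_nil (by simp), Option.mem_def, Option.some.injEq, hl2] at hy
        subst hy
        exact hz'
      · intro y hy
        simp only [List.head?_cons, Option.mem_def, Option.some.injEq] at hy
        subst hy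
        exact on_class B hax.symm hon'
    obtain ⟨p, hp1, hp2, β, hp3⟩ := hp a ha (on_class B hax.symm hon') ⟨_, hpath, rfl⟩
    have hQ : ∃ q, Q B (cl B x) q := ⟨(p, β), hp1, ⟨a, hp2, hax⟩, hp3⟩
    obtain ⟨hq1, ⟨a', ha', hax'⟩, hq3⟩ := G_spec B hQ
    obtain ⟨y, hy, hxy⟩ := path_class B hbot hq1 ha' hax'.symm
    have hYS := bd_YS B (cl B x)
    have hfact : DS B (cl B x) (eY (bif (G B (cl B x)).2 y then 1 else 0), y, y) :=
      Der.base (Or.inr ⟨y, hy, rfl⟩)
    have hyx : DS B (cl B x) (eEQ, y, x) := DS_of_XX B (eq_symm hX hxy)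
    have hlt : eY (bif (G B (cl B x)).2 y then 1 else 0) < D.M := by
      cases (G B (cl B x)).2 y
      · exact lt_M 10 (by decide)
      · exact lt_M 11 (by decide)
    have h1 : DS B (cl B x) (eY (bif (G B (cl B x)).2 y then 1 else 0), x, x) :=
      congL hYS hlt (congR hYS hlt hfact hyx) hyx
    cases hβ : (G B (cl B x)).2 y
    · rw [hβ] at h1
      exact Or.inl (Or.inl h1)
    · rw [hβ] at h1
      exact Or.inr (Or.inl (Or.inl h1))

end Pool.Agent.Helper84.CspClosure
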