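import Pool.Agent.Helper96.Defs

/-!
# The finitely bounded template made of all finite models
-/

set_option autoImplicit false

namespace Pool.Agent.Helper84.CspTemplate

open Pool.Agent.Helper96 Pool.Agent.Helper96.TD

/-- pull back a structure along a map -/
def pull {k : ℕ} {A B : Type} (S : BinStr k A) (f : B → A) : BinStr k B :=
  ⟨fun r x y => S.rel r (f x) (f y)⟩

lemma isEmb_pull {k : ℕ} {A B : Type} (S : BinStr k A) (f : B → A) (hf : Function.Injective f) :
    IsEmb (pull S f) S f := ⟨hf, fun _ _ _ => Iff.rfl⟩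

lemma holds_emb {k : ℕ} {A B : Type} {S : BinStr k A} {S' : BinStr k B} {h : B → A}
    (hh : IsEmb S' S h) (r : ℕ) (x y : B) : holds S' r x y ↔ holds S r (h x) (h y) := by
  match r with
  | 0 => exact hh.1.eq_iff.symm
  | 1 => exact Iff.rfl
  | r + 2 =>
    constructor
    · rintro ⟨h1, h2⟩
      exact ⟨h1, (hh.2 _ _ _).mp h2⟩
    · rintro ⟨h1, h2⟩
      exact ⟨h1, (hh.2 _ _ _).mpr h2⟩

lemma model_emb {D : TD} {A B : Type} {S : BinStr D.K A} {S' : BinStr D.K B} {h : B → A}
    (hh : IsEmb S' S h) (hS : D.Model S) : D.Model S' := by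
  refine ⟨?_, ?_⟩
  · intro ρ hρ σ hb
    rw [holds_emb hh]
    apply hS.1 ρ hρ (fun v => h (σ v))
    intro a ha
    rw [← holds_emb hh]
    exact hb a ha
  · intro x hx
    rw [holds_emb hh] at hx
    have := hS.2 (h x) hx
    rwa [← holds_emb hh, ← holds_emb hh, ← holds_emb hh, ← holds_emb hh] at this

lemma emb_comp {k : ℕ} {A B C : Type} {S : BinStr k A} {S' : BinStr k B} {S'' : BinStr k C}
    {h : A → B} {h' : B → C} (hh : IsEmb S S' h) (hh' : IsEmb S' S'' h') :
    IsEmb S S'' (fun x => h' (h x)) :=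
  ⟨fun _ _ hxy => hh.1 (hh'.1 hxy), fun r x y => (hh.2 r x y).trans (hh'.2 r _ _)⟩

lemma emb_isHom {k : ℕ} {A B : Type} {S : BinStr k A} {S' : BinStr k B} {h : A → B}
    (hh : IsEmb S S' h) : IsHom S S' h := fun r x y hr => (hh.2 r x y).mp hr

/-- connected rules -/
def Conn (ρ : Rule) : Prop :=
  ∃ v0 : ℕ, ∀ (ι : Type) (comp : ℕ → ι), (∀ a ∈ ρ.1, comp a.2.1 = comp a.2.2) →
    (∀ a ∈ ρ.1, comp a.2.1 = comp v0) ∧ comp ρ.2.2.1 = comp v0 ∧ comp ρ.2.2.2 = comp v0

/-! ### disjoint unions -/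

/-- disjoint union of structures -/
def sigmaStr {k : ℕ} {ι : Type} {X : ι → Type} (S : ∀ i, BinStr k (X i)) : BinStr k (Σ i, X i) :=
  ⟨fun r x y => ∃ h : y.1 = x.1, (S x.1).rel r x.2 (h ▸ y.2)⟩

lemma isEmb_sigma {k : ℕ} {ι : Type} {X : ι → Type} (S : ∀ i, BinStr k (X i)) (i : ι) :
    IsEmb (S i) (sigmaStr S) (fun x => ⟨i, x⟩) := by
  refine ⟨sigma_mk_injective, ?_⟩
  intro r x y
  constructor
  · intro h
    exact ⟨rfl, h⟩
  · rintro ⟨h1, h2⟩
    exact h2

lemma holds_sigma_comp {k : ℕ} {ι : Type} {X : ι → Type} (S : ∀ i, BinStr k (X i)) (r : ℕ)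
    (x y : Σ i, X i) (h : holds (sigmaStr S) r x y) : x.1 = y.1 := by
  match r with
  | 0 =>
    have h' : x = y := h
    rw [h']
  | 1 => exact absurd h id
  | r + 2 =>
    obtain ⟨_, ⟨h2, _⟩⟩ := h
    exact h2.symm

lemma model_sigma {D : TD} (hconn : ∀ ρ ∈ D.coreRules, Conn ρ) {ι : Type} {X : ι → Type}
    (S : ∀ i, BinStr D.K (X i)) (hS : ∀ i, D.Model (S i)) : D.Model (sigmaStr S) := by
  classical
  refine ⟨?_, ?_⟩
  · intro ρ hρ σ hb
    obtain ⟨v0, hv0⟩ := hconn ρ hρ
    obtain ⟨h1, h2, h3⟩ := hv0 ι (fun v => (σ v).1) (fun a ha => holds_sigma_comp S _ _ _ (hb a ha))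
    set i := (σ v0).1 with hi
    -- the assignment in the component
    let τ : ℕ → X i := fun v => if h : (σ v).1 = i then h ▸ (σ v).2 else (σ v0).2
    have hτ : ∀ v, (σ v).1 = i → σ v = ⟨i, τ v⟩ := by
      intro v hv
      simp only [τ, hv, dite_true]
      generalize σ v = z at hv
      obtain ⟨j, z⟩ := z
      simp only at hv
      subst hv
      rfl
    rw [hτ _ h2, hτ _ h3, ← holds_emb (isEmb_sigma S i)]
    apply (hS i).1 ρ hρ τ
    intro a ha
    rw [holds_emb (isEmb_sigma S i), ← hτ _ (h1 a ha), ← hτ _ ?_]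
    · exact hb a ha
    · rw [← holds_sigma_comp S _ _ _ (hb a ha)]
      exact h1 a ha
  · rintro ⟨i, x⟩ hx
    rw [← holds_emb (isEmb_sigma S i)] at hx
    have := (hS i).2 x hx
    rwa [holds_emb (isEmb_sigma S i), holds_emb (isEmb_sigma S i), holds_emb (isEmb_sigma S i),
      holds_emb (isEmb_sigma S i)] at this

/-! ### all core rules are connected -/

lemma conn_ga (G : GA) (e : ℕ → ℕ) : ∀ ρ ∈ gaRules G e, Conn ρ := by
  intro ρ hρ
  unfold gaRules at hρ
  rw [List.mem_append] at hρ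
  rcases hρ with hρ | hρ
  · simp only [List.mem_flatMap, List.mem_map] at hρ
    obtain ⟨b, _, c, _, rfl⟩ := hρ
    refine ⟨0, fun ι comp h => ?_⟩
    simp only [List.mem_cons, List.not_mem_nil, or_false, forall_eq_or_imp, forall_eq] at h ⊢
    grind
  · simp only [List.mem_flatMap, List.mem_map] at hρ
    obtain ⟨a, _, b, _, c, _, d, _, rfl⟩ := hρ
    refine ⟨0, fun ι comp h => ?_⟩
    simp only [List.mem_cons, List.not_mem_nil, or_false, forall_eq_or_imp, forall_eq] at h ⊢
    grind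

lemma conn_base : ∀ ρ ∈ baseRules, Conn ρ := by
  intro ρ hρ
  unfold baseRules at hρ
  simp only [List.mem_cons, List.not_mem_nil, or_false] at hρ
  rcases hρ with rfl | rfl | rfl | rfl | rfl | rfl | rfl | rfl | rfl | rfl | rfl | rfl | rfl | rfl
  all_goals
    refine ⟨0, fun ι comp h => ?_⟩
    simp only [List.mem_cons, List.not_mem_nil, or_false, forall_eq_or_imp, forall_eq] at h ⊢
    grind

lemma conn_data (D : TD) : ∀ ρ ∈ D.dataRules, Conn ρ := by
  intro ρ hρ
  unfold dataRules at hρ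
  simp only [List.mem_append, List.mem_flatMap, List.mem_map, List.mem_cons, List.not_mem_nil,
    or_false] at hρ
  rcases hρ with ((rfl | ⟨a, _, c, _, rfl⟩) | ⟨z, _, rfl⟩) | ⟨z, _, rfl⟩
  all_goals
    refine ⟨0, fun ι comp h => ?_⟩
    simp only [List.mem_cons, List.not_mem_nil, or_false, forall_eq_or_imp, forall_eq] at h ⊢
    grind

lemma conn_core (D : TD) : ∀ ρ ∈ D.coreRules, Conn ρ := by
  intro ρ hρ
  unfold coreRules at hρ
  simp only [List.mem_append] at hρ
  rcases hρ with ((hρ | hρ) | hρ) | hρ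
  · exact conn_base ρ hρ
  · exact conn_data D ρ hρ
  · exact conn_ga _ _ ρ hρ
  · exact conn_ga _ _ ρ hρ

/-! ### the template -/

/-- index type: all finite models -/
abbrev Ix (D : TD) : Type := {X : Σ m : ℕ, BinStr D.K (Fin m) // D.Model X.2}

/-- the universe -/
abbrev Univ (D : TD) : Type := Σ i : Ix D, Fin i.1.1

/-- the template -/
def tmpl (D : TD) : BinStr D.K (Univ D) := sigmaStr (X := fun i : Ix D => Fin i.1.1) (fun i => i.1.2)

lemma model_tmpl (D : TD) : D.Model (tmpl D) := model_sigma (conn_core D) _ (fun i => i.2)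

/-- structures as functions -/
def strEquiv (k : ℕ) (A : Type) : BinStr k A ≃ (Fin k → A → A → Prop) where
  toFun S := S.rel
  invFun R := ⟨R⟩
  left_inv _ := rfl
  right_inv _ := rfl

instance finite_str (k m : ℕ) : Finite (BinStr k (Fin m)) := by
  classical
  exact Finite.of_equiv _ (strEquiv k (Fin m)).symm

instance countable_univ (D : TD) : Countable (Univ D) := by
  have : Countable (Σ m : ℕ, BinStr D.K (Fin m)) := inferInstance
  infer_instance

/-- variables of a rule -/
def vars (ρ : Rule) : List ℕ := (ρ.1.flatMap fun a => [a.2.1, a.2.2]) ++ [ρ.2.2.1, ρ.2.2.2]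

lemma exists_bound (D : TD) : ∃ N : ℕ, 1 ≤ N ∧ ∀ ρ ∈ D.coreRules, (vars ρ).length ≤ N := by
  obtain ⟨N, hN⟩ := ((List.finite_toSet D.coreRules).image (fun ρ => (vars ρ).length)).bddAbove
  refine ⟨N + 1, by omega, fun ρ hρ => ?_⟩
  have := hN ⟨ρ, hρ, rfl⟩
  simp only at this
  omega

/-- a finite subset of a structure as a structure on `Fin m` -/
lemma exists_sub {A : Type} (I : Finset A) : ∃ f : Fin I.card → A, Function.Injective f ∧
    ∀ x, x ∈ I ↔ ∃ j, f j = x := by
  refine ⟨fun j => (I.equivFin.symm j).1, ?_, ?_⟩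
  · intro a b h
    exact I.equivFin.symm.injective (Subtype.ext h)
  · intro x
    constructor
    · intro hx
      exact ⟨I.equivFin ⟨x, hx⟩, by simp⟩
    · rintro ⟨j, rfl⟩
      exact (I.equivFin.symm j).2

/-- a non-model contains a small non-model -/
lemma exists_small {D : TD} {N : ℕ} (hN1 : 1 ≤ N) (hN : ∀ ρ ∈ D.coreRules, (vars ρ).length ≤ N)
    {A : Type} (S : BinStr D.K A) (hS : ¬ D.Model S) :
    ∃ m ≤ N, ∃ X : BinStr D.K (Fin m), ¬ D.Model X ∧ ∃ h, IsEmb X S h := by
  classical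
  by_cases hc : ∀ ρ ∈ D.coreRules, holdsRule S ρ
  · -- the disjunctive rule fails
    have h2 : ¬ ∀ x, holds S eOn x x → holds S (eY 0) x x ∨ holds S (eY 1) x x ∨
        holds S eSL x x ∨ holds S eSR x x := fun h => hS ⟨hc, h⟩
    push Not at h2
    obtain ⟨x, h3, h4⟩ := h2
    have hinj : Function.Injective (fun _ : Fin 1 => x) := fun a b _ => Subsingleton.elim a b
    refine ⟨1, hN1, pull S (fun _ => x), ?_, ⟨fun _ => x, isEmb_pull S _ hinj⟩⟩
    intro hM
    have h5 := hM.2 0 ((holds_emb (isEmb_pull S _ hinj) _ _ _).mpr h3)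
    rw [holds_emb (isEmb_pull S _ hinj), holds_emb (isEmb_pull S _ hinj),
      holds_emb (isEmb_pull S _ hinj), holds_emb (isEmb_pull S _ hinj)] at h5
    tauto
  · push Not at hc
    obtain ⟨ρ, hρ, hfail⟩ := hc
    unfold holdsRule at hfail
    push Not at hfail
    obtain ⟨σ, hb, hh⟩ := hfail
    obtain ⟨f, hf, hI⟩ := exists_sub (((vars ρ).map σ).toFinset)
    have hmem : ∀ v ∈ vars ρ, ∃ j, f j = σ v := by
      intro v hv
      rw [← hI, List.mem_toFinset]
      exact List.mem_map_of_mem hv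
    have hne : (0 : ℕ) < (((vars ρ).map σ).toFinset).card := by
      rw [Finset.card_pos]
      refine ⟨σ ρ.2.2.1, ?_⟩
      rw [List.mem_toFinset]
      apply List.mem_map_of_mem
      simp [vars]
    refine ⟨_, ?_, pull S f, ?_, ⟨f, isEmb_pull S f hf⟩⟩
    · refine (List.toFinset_card_le _).trans ?_
      rw [List.length_map]
      exact hN ρ hρ
    · intro hM
      let τ : ℕ → Fin (((vars ρ).map σ).toFinset).card := fun v =>
        if h : v ∈ vars ρ then (hmem v h).choose else ⟨0, hne⟩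
      have hτ : ∀ v ∈ vars ρ, f (τ v) = σ v := by
        intro v hv
        simp only [τ, hv, dite_true]
        exact (hmem v hv).choose_spec
      have h1 := hM.1 ρ hρ τ (by
        intro a ha
        rw [holds_emb (isEmb_pull S f hf), hτ, hτ]
        · exact hb a ha
        · unfold vars
          rw [List.mem_append]
          left
          rw [List.mem_flatMap]
          exact ⟨a, ha, by simp⟩
        · unfold vars
          rw [List.mem_append]
          left
          rw [List.mem_flatMap]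
          exact ⟨a, ha, by simp⟩)
      rw [holds_emb (isEmb_pull S f hf), hτ _ (by simp [vars]), hτ _ (by simp [vars])] at h1
      exact hh h1

lemma age (D : TD) {n : ℕ} (B : BinStr D.K (Fin n)) :
    (∃ h, IsEmb B (tmpl D) h) ↔ D.Model B := by
  constructor
  · rintro ⟨h, hh⟩
    exact model_emb hh (model_tmpl D)
  · intro hB
    exact ⟨_, isEmb_sigma (X := fun i : Ix D => Fin i.1.1) (fun i => i.1.2) ⟨⟨n, B⟩, hB⟩⟩

theorem finitelyBounded (D : TD) : FinitelyBounded (tmpl D) := by
  obtain ⟨N, hN1, hN⟩ := exists_bound D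
  refine ⟨{X | X.1 ≤ N ∧ ¬ D.Model X.2}, ?_, ?_⟩
  · have h1 : {X : Σ n : ℕ, BinStr D.K (Fin n) | X.1 ≤ N ∧ ¬ D.Model X.2} ⊆
        Set.range (fun Y : Σ n : Fin (N + 1), BinStr D.K (Fin n) => (⟨Y.1.1, Y.2⟩ : Σ n : ℕ, BinStr D.K (Fin n))) := by
      rintro ⟨m, X⟩ ⟨hm, _⟩
      exact ⟨⟨⟨m, Nat.lt_succ_of_le hm⟩, X⟩, rfl⟩
    exact (Set.finite_range _).subset h1
  · intro n B
    rw [age]
    constructor
    · intro hB X hX
      rintro ⟨h, hh⟩
      exact hX.2 (model_emb hh hB)
    · intro h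
      by_contra hB
      obtain ⟨m, hm, X, hX, hemb⟩ := exists_small hN1 hN B hB
      exact h ⟨m, X⟩ ⟨hm, hX⟩ hemb

theorem hom_iff (D : TD) (n : ℕ) (B : BinStr D.K (Fin n)) : (∃ h, IsHom B (tmpl D) h) ↔
    ∃ (m : ℕ) (C : BinStr D.K (Fin m)), D.Model C ∧ ∃ h, IsHom B C h := by
  classical
  constructor
  · rintro ⟨h, hh⟩
    obtain ⟨f, hf, hI⟩ := exists_sub (Finset.univ.image h)
    have hmem : ∀ x, ∃ j, f j = h x := by
      intro x
      rw [← hI]
      exact Finset.mem_image_of_mem _ (Finset.mem_univ _)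
    choose g hg using hmem
    refine ⟨_, pull (tmpl D) f, model_emb (isEmb_pull _ f hf) (model_tmpl D), g, ?_⟩
    intro r x y hr
    show (tmpl D).rel r (f (g x)) (f (g y))
    rw [hg, hg]
    exact hh r x y hr
  · rintro ⟨m, C, hC, h, hh⟩
    obtain ⟨h', hh'⟩ := (age D C).mpr hC
    exact ⟨fun x => h' (h x), fun r x y hr => emb_isHom hh' r _ _ (hh r x y hr)⟩

/-! ### transport to the natural numbers -/

/-- the structure with empty relations is a model -/
lemma model_empty (D : TD) (A : Type) : D.Model (⟨fun _ _ _ => False⟩ : BinStr D.K A) := by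
  refine ⟨?_, ?_⟩
  · intro ρ hρ σ hb
    exfalso
    -- every core rule has a body atom which is a relation atom
    have key : ∃ a ∈ ρ.1, 2 ≤ a.1 := by
      unfold coreRules at hρ
      simp only [List.mem_append] at hρ
      rcases hρ with ((hρ | hρ) | hρ) | hρ
      · revert ρ
        unfold baseRules
        simp only [List.mem_cons, List.not_mem_nil, or_false]
        intro ρ hb hρ
        rcases hρ with rfl | rfl | rfl | rfl | rfl | rfl | rfl | rfl | rfl | rfl | rfl | rfl | rfl | rfl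
        all_goals exact ⟨_, List.mem_cons_self, by decide⟩
      · unfold dataRules at hρ
        simp only [List.mem_append, List.mem_flatMap, List.mem_map, List.mem_cons,
          List.not_mem_nil, or_false] at hρ
        rcases hρ with ((rfl | ⟨a, _, c, _, rfl⟩) | ⟨z, _, rfl⟩) | ⟨z, _, rfl⟩
        · exact ⟨_, List.mem_cons_self, by decide⟩
        · exact ⟨_, List.mem_cons_self, by decide⟩
        · exact ⟨_, List.mem_cons_self, by unfold eZ; omega⟩
        · exact ⟨_, List.mem_cons_self, by unfold eV; omega⟩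
      · unfold gaRules at hρ
        simp only [List.mem_append, List.mem_flatMap, List.mem_map] at hρ
        rcases hρ with ⟨b, _, c, _, rfl⟩ | ⟨a, _, b, _, c, _, d, _, rfl⟩
        · exact ⟨_, List.mem_cons_self, by simp only [eZ]; omega⟩
        · exact ⟨_, List.mem_cons_self, by simp only [eZ]; omega⟩
      · unfold gaRules at hρ
        simp only [List.mem_append, List.mem_flatMap, List.mem_map] at hρ
        rcases hρ with ⟨b, _, c, _, rfl⟩ | ⟨a, _, b, _, c, _, d, _, rfl⟩
        · exact ⟨_, List.mem_cons_self, by simp only [eV]; omega⟩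
        · exact ⟨_, List.mem_cons_self, by simp only [eV]; omega⟩
    obtain ⟨a, ha, ha2⟩ := key
    obtain ⟨r, hr⟩ : ∃ r, a.1 = r + 2 := ⟨a.1 - 2, by omega⟩
    have := hb a ha
    rw [hr] at this
    obtain ⟨_, h⟩ := this
    exact h
  · intro x hx
    obtain ⟨_, h⟩ := hx
    exact h.elim

instance infinite_univ (D : TD) : Infinite (Univ D) := by
  apply Infinite.of_injective (fun m : ℕ => (⟨⟨⟨m + 1, ⟨fun _ _ _ => False⟩⟩, model_empty D _⟩, 0⟩ : Univ D))
  intro a b h
  have h1 := congrArg (fun x : Univ D => x.1.1.1) h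
  simpa using h1

/-- the finitely bounded template whose CSP asks for a homomorphism into a finite model -/
theorem exists_template (D : TD) (_hD : D.WF) : ∃ A : BinStr D.K ℕ, FinitelyBounded A ∧
    ∀ (n : ℕ) (B : BinStr D.K (Fin n)), (∃ h, IsHom B A h) ↔
      ∃ (m : ℕ) (C : BinStr D.K (Fin m)), D.Model C ∧ ∃ h, IsHom B C h := by
  classical
  obtain ⟨hden⟩ := nonempty_denumerable (Univ D)
  let e : ℕ ≃ Univ D := (@Denumerable.eqv (Univ D) hden).symm
  have hemb : ∀ (n : ℕ) (B : BinStr D.K (Fin n)),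
      (∃ h, IsEmb B (pull (tmpl D) e) h) ↔ ∃ h, IsEmb B (tmpl D) h := by
    intro n B
    constructor
    · rintro ⟨h, hh⟩
      exact ⟨_, emb_comp hh (isEmb_pull _ _ e.injective)⟩
    · rintro ⟨h, hh⟩
      refine ⟨fun x => e.symm (h x), ⟨fun x y hxy => hh.1 (e.symm.injective hxy), ?_⟩⟩
      intro r x y
      show _ ↔ (tmpl D).rel r (e (e.symm (h x))) (e (e.symm (h y)))
      rw [e.apply_symm_apply, e.apply_symm_apply]
      exact hh.2 r x y
  refine ⟨pull (tmpl D) e, ?_, ?_⟩
  · obtain ⟨F, hF, hF'⟩ := finitelyBounded D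
    refine ⟨F, hF, fun n B => ?_⟩
    rw [hemb]
    exact hF' n B
  · intro n B
    rw [← hom_iff]
    constructor
    · rintro ⟨h, hh⟩
      exact ⟨fun x => e (h x), fun r x y hr => hh r x y hr⟩
    · rintro ⟨h, hh⟩
      refine ⟨fun x => e.symm (h x), fun r x y hr => ?_⟩
      show (tmpl D).rel r (e (e.symm (h x))) (e (e.symm (h y)))
      rw [e.apply_symm_apply, e.apply_symm_apply]
      exact hh r x y hr

end Pool.Agent.Helper84.CspTemplate
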