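import Pool.Agent.Helper28.JM.Defs

/-!
The intervals of a planar distributive lattice isomorphic to the `3 × 3` grid are the `3 × 3` blocks
of the region of its coordinates.
-/

set_option autoImplicit false

namespace Pool.Agent.Helper84.JMGrid

open Pool.Agent.Helper28.JM

set_option linter.unusedSectionVars false
variable {L : Type*} [DistribLattice L] [BoundedOrder L] [Finite L] {c : L → Pt}

theorem le_iff (hc : Function.Injective c) (hsup : ∀ a b, c (a ⊔ b) = c a ⊔ c b) (a b : L) :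
    c a ≤ c b ↔ a ≤ b := by
  rw [← sup_eq_right, ← hsup, ← sup_eq_right (a := a)]
  exact ⟨fun h => hc h, fun h => congrArg c h⟩

/-- Two incomparable points of the plane. -/
theorem incomp {P Q : Pt} (h1 : ¬ P ≤ Q) (h2 : ¬ Q ≤ P) :
    (P.1 < Q.1 ∧ Q.2 < P.2) ∨ (Q.1 < P.1 ∧ P.2 < Q.2) := by
  rw [Prod.le_def] at h1 h2
  push Not at h1 h2
  by_cases h : P.1 ≤ Q.1
  · have h3 := h1 h
    left
    refine ⟨?_, h3⟩
    by_contra h4
    have h5 := h2 (by omega)
    omega
  · right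
    refine ⟨by omega, ?_⟩
    exact h2 (by omega)

/-- Three pairwise incomparable points of the plane span a rectangle with at least nine points. -/
theorem exists_extreme {S : Set Pt} {P Q R : Pt} (hP : P ∈ S) (hQ : Q ∈ S) (hR : R ∈ S)
    (h1 : ¬ P ≤ Q) (h2 : ¬ Q ≤ P) (h3 : ¬ P ≤ R) (h4 : ¬ R ≤ P) (h5 : ¬ Q ≤ R) (h6 : ¬ R ≤ Q) :
    ∃ A ∈ S, ∃ B ∈ S, A.1 + 2 ≤ B.1 ∧ B.2 + 2 ≤ A.2 := by
  rcases incomp h1 h2 with a | a <;> rcases incomp h3 h4 with b | b <;>
    rcases incomp h5 h6 with d | d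
  · exact ⟨P, hP, R, hR, by omega, by omega⟩
  · exact ⟨P, hP, Q, hQ, by omega, by omega⟩
  · omega
  · exact ⟨R, hR, Q, hQ, by omega, by omega⟩
  · exact ⟨Q, hQ, R, hR, by omega, by omega⟩
  · omega
  · exact ⟨Q, hQ, P, hP, by omega, by omega⟩
  · exact ⟨R, hR, P, hP, by omega, by omega⟩

theorem grid_mem_iff (hc : Function.Injective c) (hsup : ∀ a b, c (a ⊔ b) = c a ⊔ c b)
    (hR : Reg (Set.range c) (c ⊥) (c ⊤)) (x y : L) :
    (x, y) ∈ gridIntervals L ↔ Blk (Set.range c) (c x) ∧ c y = c x + (2, 2) := by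
  classical
  have hle := le_iff hc hsup
  constructor
  · rintro ⟨e⟩
    change Set.Icc x y ≃o Fin 3 × Fin 3 at e
    have hcard : Nat.card (Set.Icc x y) = 9 := by
      rw [Nat.card_congr e.toEquiv]
      simp
    set S : Set Pt := c '' Set.Icc x y with hS
    have hSc : S.ncard = 9 := by
      rw [hS, Set.ncard_image_of_injective _ hc, ← Nat.card_coe_set_eq, hcard]
    have hz : ∀ a b : Fin 3 × Fin 3, ¬ a ≤ b → ¬ c (e.symm a : L) ≤ c (e.symm b : L) := by
      intro a b hab h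
      rw [hle] at h
      apply hab
      have h1 : e.symm a ≤ e.symm b := h
      rwa [e.symm.le_iff_le] at h1
    have hm : ∀ a : Fin 3 × Fin 3, c (e.symm a : L) ∈ S := fun a => ⟨_, (e.symm a).2, rfl⟩
    obtain ⟨A, hA, B, hB, h1, h2⟩ := exists_extreme (hm (0, 2)) (hm (1, 1)) (hm (2, 0))
      (hz _ _ (by decide)) (hz _ _ (by decide)) (hz _ _ (by decide)) (hz _ _ (by decide))
      (hz _ _ (by decide)) (hz _ _ (by decide))
    obtain ⟨a, ha, rfl⟩ := hA
    obtain ⟨b, hb, rfl⟩ := hB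
    have hxa : c x ≤ c a := (hle _ _).2 ha.1
    have hxb : c x ≤ c b := (hle _ _).2 hb.1
    have hay : c a ≤ c y := (hle _ _).2 ha.2
    have hby : c b ≤ c y := (hle _ _).2 hb.2
    rw [Prod.le_def] at hxa hxb hay hby
    set R : Finset Pt := Finset.Icc ((c a).1, (c b).2) ((c b).1, (c a).2) with hRdef
    have hsub : (R : Set Pt) ⊆ S := by
      rintro ⟨s, t⟩ hst
      rw [hRdef, Finset.coe_Icc, Set.mem_Icc, Prod.le_def, Prod.le_def] at hst
      obtain ⟨z, hz'⟩ := hR.rect (c a).1 (c b).1 (c b).2 (c a).2 s t ⟨a, rfl⟩ ⟨b, rfl⟩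
        hst.1.1 hst.2.1 hst.1.2 hst.2.2
      refine ⟨z, ⟨?_, ?_⟩, hz'⟩
      · rw [← hle, hz', Prod.le_def]
        exact ⟨hxa.1.trans hst.1.1, hxb.2.trans hst.1.2⟩
      · rw [← hle, hz', Prod.le_def]
        exact ⟨hst.2.1.trans hby.1, hst.2.2.trans hay.2⟩
    have hSfin : S.Finite := Set.toFinite _
    have hRc : R.card = ((c b).1 + 1 - (c a).1).toNat * ((c a).2 + 1 - (c b).2).toNat := by
      rw [hRdef, Finset.card_Icc_prod]
      simp
    have hRle : R.card ≤ 9 := by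
      rw [← hSc, ← Set.ncard_coe_finset]
      exact Set.ncard_le_ncard hsub hSfin
    have h3 : 3 ≤ ((c b).1 + 1 - (c a).1).toNat := by omega
    have h4 : 3 ≤ ((c a).2 + 1 - (c b).2).toNat := by omega
    rw [hRc] at hRle
    have h5 : ((c b).1 + 1 - (c a).1).toNat = 3 := by nlinarith
    have h6 : ((c a).2 + 1 - (c b).2).toNat = 3 := by nlinarith
    have h7 : (c b).1 = (c a).1 + 2 := by omega
    have h8 : (c a).2 = (c b).2 + 2 := by omega
    have hReq : (R : Set Pt) = S := by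
      apply Set.eq_of_subset_of_ncard_le hsub _ hSfin
      rw [hSc, Set.ncard_coe_finset, hRc, h5, h6]
    have hxy : x ≤ y := ha.1.trans ha.2
    have hx : c x ∈ (R : Set Pt) := by
      rw [hReq]
      exact ⟨x, ⟨le_refl _, hxy⟩, rfl⟩
    have hy : c y ∈ (R : Set Pt) := by
      rw [hReq]
      exact ⟨y, ⟨hxy, le_refl _⟩, rfl⟩
    rw [hRdef, Finset.coe_Icc, Set.mem_Icc, Prod.le_def, Prod.le_def] at hx hy
    simp only at hx hy
    have e1 : (c x).1 = (c a).1 := by omega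
    have e2 : (c x).2 = (c b).2 := by omega
    have e3 : (c y).1 = (c b).1 := by omega
    have e4 : (c y).2 = (c a).2 := by omega
    refine ⟨⟨⟨a, ?_⟩, ⟨b, ?_⟩⟩, ?_⟩
    · exact Prod.ext e1.symm (by rw [h8, e2])
    · exact Prod.ext (by rw [h7, e1]) e2.symm
    · refine Prod.ext ?_ ?_
      · rw [Prod.fst_add]
        omega
      · rw [Prod.snd_add]
        omega
  · rintro ⟨⟨h1, h2⟩, h3⟩
    have hy1 : (c y).1 = (c x).1 + 2 := by rw [h3, Prod.fst_add]
    have hy2 : (c y).2 = (c x).2 + 2 := by rw [h3, Prod.snd_add]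
    have hex : ∀ p : Fin 3 × Fin 3, ∃ z : Set.Icc x y,
        c (z : L) = ((c x).1 + (p.1 : ℕ), (c x).2 + (p.2 : ℕ)) := by
      rintro ⟨i, j⟩
      have hi : ((i : ℕ) : ℤ) ≤ 2 := by
        have := i.2
        omega
      have hj : ((j : ℕ) : ℤ) ≤ 2 := by
        have := j.2
        omega
      obtain ⟨z, hz⟩ := hR.rect (c x).1 ((c x).1 + 2) (c x).2 ((c x).2 + 2)
        ((c x).1 + (i : ℕ)) ((c x).2 + (j : ℕ)) h1 h2 (by omega) (by omega) (by omega) (by omega)
      refine ⟨⟨z, ?_, ?_⟩, hz⟩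
      · rw [← hle, hz, Prod.le_def]
        constructor
        · change (c x).1 ≤ (c x).1 + (i : ℕ)
          omega
        · change (c x).2 ≤ (c x).2 + (j : ℕ)
          omega
      · rw [← hle, hz, Prod.le_def]
        constructor
        · change (c x).1 + (i : ℕ) ≤ (c y).1
          omega
        · change (c x).2 + (j : ℕ) ≤ (c y).2
          omega
    choose f hf using hex
    have hfle : ∀ p q : Fin 3 × Fin 3, f p ≤ f q ↔ p ≤ q := by
      intro p q
      have : f p ≤ f q ↔ ((f p : L) ≤ (f q : L)) := Iff.rfl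
      rw [this, ← hle, hf, hf, Prod.le_def, Prod.le_def, Fin.le_def, Fin.le_def]
      simp only
      omega
    have hfinj : Function.Injective f := by
      intro p q h
      apply le_antisymm
      · rw [← hfle, h]
      · rw [← hfle, h]
    have hfsurj : Function.Surjective f := by
      rintro ⟨z, hz⟩
      have g1 : c x ≤ c z := (hle _ _).2 hz.1
      have g2 : c z ≤ c y := (hle _ _).2 hz.2
      rw [Prod.le_def] at g1 g2
      refine ⟨(⟨((c z).1 - (c x).1).toNat, by omega⟩, ⟨((c z).2 - (c x).2).toNat, by omega⟩), ?_⟩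
      apply Subtype.ext
      apply hc
      rw [hf]
      refine Prod.ext ?_ ?_
      · simp only
        omega
      · simp only
        omega
    exact ⟨(RelIso.ofSurjective (⟨⟨f, hfinj⟩, by
      intro p q
      exact hfle p q⟩ : Fin 3 × Fin 3 ↪o Set.Icc x y) hfsurj).symm⟩

theorem grid_iff (L : Type*) [DistribLattice L] [BoundedOrder L] [Finite L] (c : L → Pt)
    (hc : Function.Injective c) (hsup : ∀ a b, c (a ⊔ b) = c a ⊔ c b)
    (_hinf : ∀ a b, c (a ⊓ b) = c a ⊓ c b) (hR : Reg (Set.range c) (c ⊥) (c ⊤)) :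
    (gridIntervals L).Subsingleton ↔
      ∀ u v, Blk (Set.range c) u → Blk (Set.range c) v → u = v := by
  have key := grid_mem_iff hc hsup hR
  constructor
  · intro hs u v hu hv
    have hmem : ∀ w : Pt, Blk (Set.range c) w → ∃ p ∈ gridIntervals L, c p.1 = w := by
      intro w hw
      obtain ⟨x, hx⟩ := hR.rect w.1 (w.1 + 2) w.2 (w.2 + 2) w.1 w.2 hw.1 hw.2 le_rfl (by omega)
        le_rfl (by omega)
      obtain ⟨y, hy⟩ := hR.rect w.1 (w.1 + 2) w.2 (w.2 + 2) (w.1 + 2) (w.2 + 2) hw.1 hw.2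
        (by omega) le_rfl (by omega) le_rfl
      refine ⟨(x, y), (key x y).2 ⟨?_, ?_⟩, hx⟩
      · rw [hx]
        exact hw
      · rw [hx, hy]
        rfl
    obtain ⟨p, hp, hpu⟩ := hmem u hu
    obtain ⟨q, hq, hqv⟩ := hmem v hv
    rw [← hpu, ← hqv, hs hp hq]
  · intro h
    rintro ⟨x, y⟩ hp ⟨x', y'⟩ hq
    rw [key] at hp hq
    have h1 : c x = c x' := h _ _ hp.1 hq.1
    have h2 : c y = c y' := by rw [hp.2, hq.2, h1]
    rw [hc h1, hc h2]

end Pool.Agent.Helper84.JMGrid
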