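import Mathlib

set_option autoImplicit false

/-!
MP_120218_co: mutual information of `x + α y` and `y` (unnormalised), for a map `α : ι → G` into
an abelian group, `x ∈ X`, `y ∈ D`.
-/

open Finset

namespace Pool.Agent.Helper84.SP

variable {ι G : Type*} [AddCommGroup G] [DecidableEq G]

/-- number of representations `s = x + α y` with `x ∈ X`, `y ∈ D` -/
def rep (α : ι → G) (X : Finset G) (D : Finset ι) (s : G) : ℕ :=
  (D.filter (fun y => s - α y ∈ X)).card

theorem rep_pos {α : ι → G} {X : Finset G} {D : Finset ι} {x : G} {y : ι} (hx : x ∈ X)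
    (hy : y ∈ D) : 0 < rep α X D (x + α y) := by
  unfold rep
  apply card_pos.2
  refine ⟨y, mem_filter.2 ⟨hy, ?_⟩⟩
  rwa [add_sub_cancel_right]

theorem rep_le (α : ι → G) (X : Finset G) (D : Finset ι) (s : G) : rep α X D s ≤ D.card :=
  card_le_card (filter_subset _ _)

/-- the set of sums -/
def sset (α : ι → G) (X : Finset G) (D : Finset ι) : Finset G :=
  (X ×ˢ D).image (fun z => z.1 + α z.2)

theorem mem_sset {α : ι → G} {X : Finset G} {D : Finset ι} {x : G} {y : ι} (hx : x ∈ X)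
    (hy : y ∈ D) : x + α y ∈ sset α X D :=
  mem_image_of_mem (fun z : G × ι => z.1 + α z.2) (mem_product.2 ⟨hx, hy⟩ : (x, y) ∈ X ×ˢ D)

theorem sum_pairs (α : ι → G) (X : Finset G) (D : Finset ι) (f : G → ℝ) {S : Finset G}
    (hS : ∀ x ∈ X, ∀ y ∈ D, x + α y ∈ S) :
    ∑ x ∈ X, ∑ y ∈ D, f (x + α y) = ∑ s ∈ S, (rep α X D s : ℝ) * f s := by
  have h1 : ∀ s ∈ S, (rep α X D s : ℝ) * f s = ∑ y ∈ D, if s - α y ∈ X then f s else 0 := by
    intro s _
    unfold rep
    rw [← sum_filter, sum_const, nsmul_eq_mul]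
  rw [sum_congr rfl h1, sum_comm, sum_comm (s := S)]
  apply sum_congr rfl
  intro y hy
  rw [← sum_filter]
  apply sum_bij (fun x _ => x + α y)
  · intro x hx
    rw [mem_filter]
    refine ⟨hS x hx y hy, ?_⟩
    rwa [add_sub_cancel_right]
  · intro a _ b _ h
    exact add_right_cancel h
  · intro s hs
    rw [mem_filter] at hs
    exact ⟨s - α y, hs.2, by rw [sub_add_cancel]⟩
  · intro x _
    rfl

/-- the unnormalised mutual information of `x + α y` and `y` -/
noncomputable def J (α : ι → G) (X : Finset G) (D : Finset ι) : ℝ :=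
  ∑ x ∈ X, ∑ y ∈ D, Real.log ((D.card : ℝ) / (rep α X D (x + α y) : ℝ))

theorem J_nonneg (α : ι → G) (X : Finset G) (D : Finset ι) : 0 ≤ J α X D := by
  unfold J
  apply sum_nonneg
  intro x hx
  apply sum_nonneg
  intro y hy
  apply Real.log_nonneg
  rw [le_div_iff₀ (by exact_mod_cast rep_pos hx hy), one_mul]
  exact_mod_cast rep_le α X D (x + α y)

theorem J_le {α : ι → G} {X : Finset G} {D : Finset ι} (hX : X.Nonempty) (hD : D.Nonempty) :
    J α X D ≤ X.card * D.card * (Real.log (sset α X D).card - Real.log X.card) := by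
  have hXp : (0 : ℝ) < X.card := by exact_mod_cast card_pos.2 hX
  have hDp : (0 : ℝ) < D.card := by exact_mod_cast card_pos.2 hD
  have hSne : (sset α X D).Nonempty := by
    obtain ⟨x, hx⟩ := hX
    obtain ⟨y, hy⟩ := hD
    exact ⟨_, mem_sset hx hy⟩
  have hSp : (0 : ℝ) < (sset α X D).card := by exact_mod_cast card_pos.2 hSne
  set s₀ : ℝ := ((sset α X D).card : ℝ) with hs₀
  have h1 : ∀ x ∈ X, ∀ y ∈ D, Real.log ((D.card : ℝ) / (rep α X D (x + α y) : ℝ)) ≤
      (Real.log s₀ - Real.log X.card - 1) +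
        (D.card * X.card / s₀) * (1 / (rep α X D (x + α y) : ℝ)) := by
    intro x hx y hy
    have hr : (0 : ℝ) < (rep α X D (x + α y) : ℝ) := by exact_mod_cast rep_pos hx hy
    have h2 := Real.log_le_sub_one_of_pos
      (show 0 < (D.card * X.card / s₀) * (1 / (rep α X D (x + α y) : ℝ)) by positivity)
    have h3 : Real.log ((D.card * X.card / s₀) * (1 / (rep α X D (x + α y) : ℝ))) =
        Real.log ((D.card : ℝ) / (rep α X D (x + α y) : ℝ)) + Real.log X.card - Real.log s₀ := by
      rw [Real.log_mul (by positivity) (by positivity), Real.log_div (by positivity) hSp.ne',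
        Real.log_mul hDp.ne' hXp.ne', Real.log_div hDp.ne' hr.ne', one_div, Real.log_inv]
      ring
    linarith
  unfold J
  calc ∑ x ∈ X, ∑ y ∈ D, Real.log ((D.card : ℝ) / (rep α X D (x + α y) : ℝ))
      ≤ ∑ x ∈ X, ∑ y ∈ D, ((Real.log s₀ - Real.log X.card - 1) +
        (D.card * X.card / s₀) * (1 / (rep α X D (x + α y) : ℝ))) := by
        apply sum_le_sum
        intro x hx
        apply sum_le_sum
        intro y hy
        exact h1 x hx y hy
    _ = X.card * D.card * (Real.log s₀ - Real.log X.card - 1) +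
        (D.card * X.card / s₀) * ∑ x ∈ X, ∑ y ∈ D, (1 / (rep α X D (x + α y) : ℝ)) := by
        simp_rw [sum_add_distrib, ← mul_sum, sum_const, nsmul_eq_mul]
        ring
    _ ≤ X.card * D.card * (Real.log s₀ - Real.log X.card - 1) +
        (D.card * X.card / s₀) * s₀ := by
        apply add_le_add le_rfl
        apply mul_le_mul_of_nonneg_left _ (by positivity)
        rw [sum_pairs α X D (fun s => 1 / (rep α X D s : ℝ)) (S := sset α X D)
          (fun x hx y hy => mem_sset hx hy)]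
        calc ∑ s ∈ sset α X D, (rep α X D s : ℝ) * (1 / (rep α X D s : ℝ))
            ≤ ∑ s ∈ sset α X D, (1 : ℝ) := by
              apply sum_le_sum
              intro s _
              rcases eq_or_ne ((rep α X D s : ℝ)) 0 with h | h
              · rw [h]; norm_num
              · rw [mul_one_div_cancel h]
          _ = s₀ := by rw [sum_const, nsmul_eq_mul, mul_one]
    _ = _ := by
        field_simp
        ring

theorem sum_rep (α : ι → G) (X : Finset G) (D : Finset ι) {S : Finset G}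
    (hS : ∀ x ∈ X, ∀ y ∈ D, x + α y ∈ S) :
    ∑ s ∈ S, (rep α X D s : ℝ) = X.card * D.card := by
  have h := sum_pairs α X D (fun _ => 1) hS
  simp only [mul_one, sum_const, nsmul_eq_mul] at h
  linarith

/-- Splitting `D` into two parts `D₁`, `D₀`, with an arbitrary guess (sub-probability `Q₁, Q₀`,
depending on the sum) for the part to which `y` belongs. -/
theorem J_split [DecidableEq ι] {α : ι → G} {X : Finset G} {D D₁ D₀ : Finset ι}
    (hdis : Disjoint D₁ D₀)
    (hD : D = D₁ ∪ D₀) (h₁ : D₁.Nonempty) (h₀ : D₀.Nonempty) (Q₁ Q₀ : G → ℝ)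
    (hQ1 : ∀ s, 0 < Q₁ s) (hQ0 : ∀ s, 0 < Q₀ s) (hQ : ∀ s, Q₁ s + Q₀ s ≤ 1) :
    J α X D₁ + J α X D₀ +
      (∑ x ∈ X, ∑ y ∈ D₁, Real.log (D.card / D₁.card * Q₁ (x + α y)) +
        ∑ x ∈ X, ∑ y ∈ D₀, Real.log (D.card / D₀.card * Q₀ (x + α y))) ≤ J α X D := by
  have hp1 : (0 : ℝ) < D₁.card := by exact_mod_cast card_pos.2 h₁
  have hp0 : (0 : ℝ) < D₀.card := by exact_mod_cast card_pos.2 h₀
  have hsum : (D.card : ℝ) = D₁.card + D₀.card := by
    rw [hD, card_union_of_disjoint hdis]
    push_cast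
    ring
  have hpD : (0 : ℝ) < D.card := by linarith
  have hsub1 : D₁ ⊆ D := by rw [hD]; exact subset_union_left
  have hsub0 : D₀ ⊆ D := by rw [hD]; exact subset_union_right
  have hrep : ∀ s, (rep α X D s : ℝ) = rep α X D₁ s + rep α X D₀ s := by
    intro s
    unfold rep
    rw [hD, filter_union, card_union_of_disjoint (disjoint_filter_filter hdis)]
    push_cast
    ring
  set S := sset α X D with hS
  have hSD : ∀ x ∈ X, ∀ y ∈ D, x + α y ∈ S := fun x hx y hy => mem_sset hx hy
  have hS1 : ∀ x ∈ X, ∀ y ∈ D₁, x + α y ∈ S := fun x hx y hy => mem_sset hx (hsub1 hy)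
  have hS0 : ∀ x ∈ X, ∀ y ∈ D₀, x + α y ∈ S := fun x hx y hy => mem_sset hx (hsub0 hy)
  -- one part
  have part : ∀ D' : Finset ι, D' ⊆ D → (0 : ℝ) < D'.card → ∀ Q' : G → ℝ, (∀ s, 0 < Q' s) →
      ∑ x ∈ X, ∑ y ∈ D', Real.log ((D'.card : ℝ) / (rep α X D' (x + α y) : ℝ)) +
        ∑ x ∈ X, ∑ y ∈ D', Real.log (D.card / D'.card * Q' (x + α y)) -
        (∑ s ∈ S, Q' s * (rep α X D s : ℝ) - X.card * D'.card) ≤
      ∑ x ∈ X, ∑ y ∈ D', Real.log ((D.card : ℝ) / (rep α X D (x + α y) : ℝ)) := by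
    intro D' hsub hp Q' hQ'
    have hcorr : ∑ x ∈ X, ∑ y ∈ D',
        (Q' (x + α y) * (rep α X D (x + α y) : ℝ) / (rep α X D' (x + α y) : ℝ) - 1) ≤
        ∑ s ∈ S, Q' s * (rep α X D s : ℝ) - X.card * D'.card := by
      simp_rw [sum_sub_distrib]
      rw [sum_pairs α X D' (fun s => Q' s * (rep α X D s : ℝ) / (rep α X D' s : ℝ))
        (fun x hx y hy => mem_sset hx (hsub hy) : ∀ x ∈ X, ∀ y ∈ D', x + α y ∈ S)]
      have h3 : ∑ _x ∈ X, ∑ _y ∈ D', (1 : ℝ) = X.card * D'.card := by simp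
      rw [h3]
      apply sub_le_sub_right
      apply sum_le_sum
      intro s _
      rcases Nat.eq_zero_or_pos (rep α X D' s) with h | h
      · rw [h]
        simp only [Nat.cast_zero, zero_mul]
        exact mul_nonneg (hQ' s).le (by positivity)
      · have h' : (0 : ℝ) < rep α X D' s := by exact_mod_cast h
        rw [mul_div_cancel₀ _ h'.ne']
    have hterm : ∑ x ∈ X, ∑ y ∈ D',
        (Real.log ((D'.card : ℝ) / (rep α X D' (x + α y) : ℝ)) +
          Real.log (D.card / D'.card * Q' (x + α y)) -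
          (Q' (x + α y) * (rep α X D (x + α y) : ℝ) / (rep α X D' (x + α y) : ℝ) - 1)) ≤
        ∑ x ∈ X, ∑ y ∈ D', Real.log ((D.card : ℝ) / (rep α X D (x + α y) : ℝ)) := by
      apply sum_le_sum
      intro x hx
      apply sum_le_sum
      intro y hy
      have h1 : (0 : ℝ) < rep α X D' (x + α y) := by exact_mod_cast rep_pos hx hy
      have h2 : (0 : ℝ) < rep α X D (x + α y) := by exact_mod_cast rep_pos hx (hsub hy)
      have h5 := hQ' (x + α y)
      have h6 := Real.log_le_sub_one_of_pos (show 0 <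
        Q' (x + α y) * (rep α X D (x + α y) : ℝ) / (rep α X D' (x + α y) : ℝ) by positivity)
      rw [Real.log_div (by positivity) h1.ne', Real.log_mul h5.ne' h2.ne'] at h6
      rw [Real.log_div hpD.ne' h2.ne', Real.log_div hp.ne' h1.ne',
        Real.log_mul (by positivity) h5.ne', Real.log_div hpD.ne' hp.ne']
      linarith
    simp_rw [sum_sub_distrib, sum_add_distrib] at hterm hcorr
    linarith
  have hJ : J α X D = ∑ x ∈ X, ∑ y ∈ D₁, Real.log ((D.card : ℝ) / (rep α X D (x + α y) : ℝ)) +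
      ∑ x ∈ X, ∑ y ∈ D₀, Real.log ((D.card : ℝ) / (rep α X D (x + α y) : ℝ)) := by
    unfold J
    rw [← sum_add_distrib]
    apply sum_congr rfl
    intro x _
    rw [← sum_union hdis, ← hD]
  have q1 := part D₁ hsub1 hp1 Q₁ hQ1
  have q0 := part D₀ hsub0 hp0 Q₀ hQ0
  have hfin : ∑ s ∈ S, Q₁ s * (rep α X D s : ℝ) + ∑ s ∈ S, Q₀ s * (rep α X D s : ℝ) ≤
      X.card * D₁.card + X.card * D₀.card := by
    rw [← sum_add_distrib]
    calc ∑ s ∈ S, (Q₁ s * (rep α X D s : ℝ) + Q₀ s * (rep α X D s : ℝ))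
        ≤ ∑ s ∈ S, (rep α X D s : ℝ) := by
          apply sum_le_sum
          intro s _
          rw [← add_mul]
          exact mul_le_of_le_one_left (by positivity) (hQ s)
      _ = X.card * D.card := sum_rep α X D hSD
      _ = _ := by rw [hsum]; ring
  rw [hJ]
  unfold J
  linarith

end Pool.Agent.Helper84.SP
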