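import Pool.Agent.Helper84.SPSide

set_option autoImplicit false

/-!
MP_120218_co: the main induction, over the prime valuations, using sums and products at the same
time.
-/

open Finset

namespace Pool.Agent.Helper84.SP

/-- positive integers inside the additive group `ℤ` -/
def al (y : ℕ) : ℤ := (y : ℤ)

/-- positive integers inside the group of exponent vectors -/
noncomputable def be (y : ℕ) : ℕ →₀ ℤ := y.factorization.mapRange (fun n : ℕ => (n : ℤ)) rfl

/-- reduction modulo `q ^ (l + 1)` -/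
def piA (q l : ℕ) : ℤ →+ ZMod (q ^ (l + 1)) := Int.castAddHom _

/-- the `q`-coordinate -/
def piB (q : ℕ) : (ℕ →₀ ℤ) →+ ℤ := Finsupp.applyAddHom q

theorem piB_be (q y : ℕ) : piB q (be y) = (y.factorization q : ℤ) := by
  unfold piB be
  simp

theorem piA_al (q l y : ℕ) : piA q l (al y) = ((y : ℕ) : ZMod (q ^ (l + 1))) := by
  unfold piA al
  simp

/-- the number of small primes whose valuation is not constant on `D` -/
def ns (K : ℕ) (D : Finset ℕ) : ℕ :=
  ((range (2 * K + 1)).filter (fun q => q.Prime ∧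
    ∃ y ∈ D, ∃ y' ∈ D, y.factorization q ≠ y'.factorization q)).card

theorem ns_mono {K : ℕ} {D D' : Finset ℕ} (h : D' ⊆ D) : ns K D' ≤ ns K D := by
  unfold ns
  apply card_le_card
  apply monotone_filter_right
  rintro q _ ⟨hq, y, hy, y', hy', hne⟩
  exact ⟨hq, y, h hy, y', h hy', hne⟩

theorem ns_lt {K : ℕ} {D D' : Finset ℕ} (h : D' ⊆ D) {q : ℕ} (hq : q.Prime) (hqK : q ≤ 2 * K)
    (h1 : ∃ y ∈ D, ∃ y' ∈ D, y.factorization q ≠ y'.factorization q) {l : ℕ}
    (h2 : ∀ y ∈ D', y.factorization q = l) : ns K D' + 1 ≤ ns K D := by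
  unfold ns
  apply Nat.succ_le_of_lt
  apply card_lt_card
  refine ⟨?_, ?_⟩
  · apply monotone_filter_right
    rintro q _ ⟨hq, y, hy, y', hy', hne⟩
    exact ⟨hq, y, h hy, y', h hy', hne⟩
  · intro hsub
    have h3 : q ∈ (range (2 * K + 1)).filter (fun q => q.Prime ∧
        ∃ y ∈ D, ∃ y' ∈ D, y.factorization q ≠ y'.factorization q) :=
      mem_filter.2 ⟨mem_range.2 (by omega), hq, h1⟩
    obtain ⟨_, _, y, hy, y', hy', hne⟩ := mem_filter.1 (hsub h3)
    exact hne ((h2 y hy).trans (h2 y' hy').symm)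

/-- passing to classes, normalised -/
theorem classes_I {ι G Q : Type*} [AddCommGroup G] [DecidableEq G] [AddCommGroup Q]
    [DecidableEq Q] {α : ι → G} (π : G →+ Q) {X : Finset G} (hX : X.Nonempty) {D : Finset ι}
    (hDne : D.Nonempty) {a : Q} (hD : ∀ y ∈ D, π (α y) = a) {w lam : ℝ}
    (h : ∀ X' : Finset G, X' ⊆ X → X'.Nonempty → w - lam * Real.log X'.card ≤ I α X' D) :
    w - lam * Real.log X.card + lam * (Ent π X / X.card) ≤ I α X D := by
  have hXp : (0 : ℝ) < X.card := by exact_mod_cast card_pos.2 hX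
  have hDp : (0 : ℝ) < D.card := by exact_mod_cast card_pos.2 hDne
  have h1 := classes_lower (α := α) π (X := X) (D := D) hD (u := D.card * w) (μ := D.card * lam)
    (by
      intro X' hX' hne
      have hXp' : (0 : ℝ) < X'.card := by exact_mod_cast card_pos.2 hne
      have h2 := h X' hX' hne
      unfold I at h2
      rw [le_div_iff₀ (by positivity)] at h2
      refine le_trans (le_of_eq ?_) h2
      ring)
  unfold I
  rw [le_div_iff₀ (by positivity)]
  refine le_trans (le_of_eq ?_) h1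
  field_simp

/-- the real-number part of the induction step -/
theorem combine {η₁ η₀ A₁ A₀ B₁ B₀ A B x z l l₁ l₀ g lx lz G s s₁ s₀ e₁ e₀ h : ℝ}
    (hη : η₁ + η₀ = 1) (hη1 : 0 ≤ η₁) (hη0 : 0 ≤ η₀)
    (h1 : g * l₁ - lx * x - lz * z - G * s₁ + lx * e₁ ≤ A₁ + B₁)
    (h0 : g * l₀ - lx * x - lz * z - G * s₀ + lz * e₀ ≤ A₀ + B₀)
    (hl : l = η₁ * l₁ + η₀ * l₀ + h)
    (hmain : η₁ * A₁ + η₀ * A₀ + (η₀ * B₀ + η₁ * B₁) + g * h ≤
      A + B + lx * η₁ * e₁ + lz * η₀ * e₀ + G * (s - η₁ * s₁ - η₀ * s₀)) :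
    g * l - lx * x - lz * z - G * s ≤ A + B := by
  have m1 := mul_le_mul_of_nonneg_left h1 hη1
  have m0 := mul_le_mul_of_nonneg_left h0 hη0
  rw [hl]
  have e1 : η₁ * (lx * x + lz * z) + η₀ * (lx * x + lz * z) = lx * x + lz * z := by
    rw [← add_mul, hη, one_mul]
  nlinarith

theorem hh_tenth {η θ : ℝ} (hη : 0 < η) (hθ : 0 < θ) (h : η + θ = 1) (h10 : θ ≤ 1 / 10) :
    hh η θ ≤ 2 / 5 := by
  have h3 : -(η * Real.log η) ≤ θ := by
    have h4 := Real.one_sub_inv_le_log_of_pos hη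
    have h5 : η * (1 - η⁻¹) ≤ η * Real.log η := mul_le_mul_of_nonneg_left h4 hη.le
    have h6 : η * (1 - η⁻¹) = η - 1 := by field_simp
    linarith
  have h4 : -(θ * Real.log θ) ≤ 1 / 10 + 2 * θ := by
    have h5 := Real.log_le_sub_one_of_pos (show 0 < 1 / 10 / θ by positivity)
    rw [Real.log_div (by norm_num) hθ.ne'] at h5
    have h6 := mul_le_mul_of_nonneg_left h5 hθ.le
    have h7 : θ * (1 / 10 / θ - 1) = 1 / 10 - θ := by field_simp
    have h8 : -3 ≤ Real.log (1 / 10) := by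
      rw [Real.le_log_iff_exp_le (by norm_num)]
      have h9 : Real.exp (-3) = (Real.exp 1)⁻¹ ^ 3 := by
        rw [← Real.exp_neg, ← Real.exp_nat_mul]
        norm_num
      rw [h9]
      have h10 : (Real.exp 1)⁻¹ ≤ (27 / 10 : ℝ)⁻¹ := by
        apply inv_anti₀ (by norm_num)
        have := Real.exp_one_gt_d9
        linarith
      have h11 : (Real.exp 1)⁻¹ ^ 3 ≤ (27 / 10 : ℝ)⁻¹ ^ 3 :=
        pow_le_pow_left₀ (inv_nonneg.2 (Real.exp_pos 1).le) h10 3
      refine h11.trans ?_
      norm_num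
    have h9 := mul_le_mul_of_nonneg_left h8 hθ.le
    rw [h7] at h6
    nlinarith
  unfold hh
  linarith

/-- The parameters of one side (sums or products): `R` is the ratio gain/loss, `K ≥ 2 ^ R`,
`lam = g / R`, and `w` is the weight of the mutual information. -/
structure Side (g R lam w : ℝ) (K : ℕ) : Prop where
  hR : 1 ≤ R
  hK : 1 ≤ K
  hRK : R * Real.log 2 ≤ Real.log K
  hlam : 0 < lam
  hg : lam * R = g
  hw : g * (4096 * (K : ℝ) ^ 4) * (576 * R ^ 2) ≤ w

theorem Side.g_pos {g R lam w : ℝ} {K : ℕ} (S : Side g R lam w K) : 0 < g := by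
  rw [← S.hg]
  have := S.hR
  have := S.hlam
  positivity

theorem Side.w_ge {g R lam w : ℝ} {K : ℕ} (S : Side g R lam w K) : 6 * g ≤ w := by
  have h1 : (1 : ℝ) ≤ (K : ℝ) ^ 4 := one_le_pow₀ (by exact_mod_cast S.hK)
  have h2 : (1 : ℝ) ≤ R ^ 2 := one_le_pow₀ S.hR
  have hg := S.g_pos
  refine le_trans ?_ S.hw
  have h3 : (6 : ℝ) ≤ (4096 * (K : ℝ) ^ 4) * (576 * R ^ 2) := by nlinarith
  have h4 := mul_le_mul_of_nonneg_left h3 hg.le
  linarith

theorem Side.w_pos {g R lam w : ℝ} {K : ℕ} (S : Side g R lam w K) : 0 < w := by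
  have := S.w_ge
  have := S.g_pos
  linarith

/-- a rare splitting, weighted -/
theorem Side.rare {g R lam w : ℝ} {K : ℕ} (S : Side g R lam w K) {ι G Q : Type*}
    [AddCommGroup G] [DecidableEq G] [AddCommGroup Q] [DecidableEq Q] [DecidableEq ι]
    (π : G →+ Q) {α : ι → G} {X : Finset G} {D D₁ D₀ : Finset ι} (hX : X.Nonempty)
    (hdis : Disjoint D₁ D₀) (hD : D = D₁ ∪ D₀) (h₁ : D₁.Nonempty) (h₀ : D₀.Nonempty) {a : Q}
    (ha1 : ∀ y ∈ D₁, π (α y) = a) (ha0 : ∀ y ∈ D₀, π (α y) ≠ a)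
    (hθ : (D₀.card / D.card : ℝ) ≤ 1 / (576 * R ^ 2)) :
    (D₁.card / D.card : ℝ) * (w * I α X D₁) + (D₀.card / D.card : ℝ) * (w * I α X D₀) +
      g * hh (D₁.card / D.card) (D₀.card / D.card) ≤
      w * I α X D + lam * (D₁.card / D.card) * (Ent π X / X.card) := by
  have hw := S.w_pos
  have h := side_rare π (α := α) (lam := lam / w) hX hdis hD h₁ h₀ ha1 ha0 S.hR
    (div_pos S.hlam hw) (by
      rw [div_mul_eq_mul_div, S.hg, div_le_iff₀ hw]
      have := S.w_ge
      linarith) hθ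
  have h2 := mul_le_mul_of_nonneg_left h hw.le
  have e1 : w * (lam / w * R * hh (D₁.card / D.card) (D₀.card / D.card)) =
      g * hh (D₁.card / D.card) (D₀.card / D.card) := by
    rw [← S.hg]
    field_simp
  have e2 : w * (lam / w * (D₁.card / D.card) * (Ent π X / X.card)) =
      lam * (D₁.card / D.card) * (Ent π X / X.card) := by
    field_simp
  rw [mul_add, mul_add, mul_add, e1, e2] at h2
  linarith

/-- a splitting with small class entropy, weighted -/
theorem Side.mid {g R lam w : ℝ} {K : ℕ} (S : Side g R lam w K) {ι G Q : Type*}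
    [AddCommGroup G] [DecidableEq G] [AddCommGroup Q] [DecidableEq Q] [DecidableEq ι]
    (π : G →+ Q) {α : ι → G} {X : Finset G} {D D₁ D₀ : Finset ι} (hX : X.Nonempty)
    (hdis : Disjoint D₁ D₀) (hD : D = D₁ ∪ D₀) (h₁ : D₁.Nonempty) (h₀ : D₀.Nonempty) {a : Q}
    (ha1 : ∀ y ∈ D₁, π (α y) = a)
    (ha0 : ∀ y ∈ D₀, ∀ j : ℕ, 1 ≤ j → j ≤ 2 * K → j • (π (α y) - a) ≠ 0)
    (hE : Ent π X / X.card ≤ Real.log K)
    (hθ : 1 / (576 * R ^ 2) / 2 ≤ (D₁.card / D.card : ℝ) * (D₀.card / D.card : ℝ)) :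
    (D₁.card / D.card : ℝ) * (w * I α X D₁) + (D₀.card / D.card : ℝ) * (w * I α X D₀) + g ≤
      w * I α X D := by
  have hw := S.w_pos
  have hR := S.hR
  have hKp : (0 : ℝ) < K := by exact_mod_cast S.hK
  have h := side_mid π (α := α) hX hdis hD h₁ h₀ ha1 S.hK ha0 hE
  have h2 := mul_le_mul_of_nonneg_left h hw.le
  have h3 : g ≤ w * ((D₁.card / D.card : ℝ) * (D₀.card / D.card : ℝ) / (2048 * (K : ℝ) ^ 4)) := by
    have h4 : g ≤ w * (1 / (576 * R ^ 2) / 2 / (2048 * (K : ℝ) ^ 4)) := by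
      have h5 : w * (1 / (576 * R ^ 2) / 2 / (2048 * (K : ℝ) ^ 4)) =
          w / ((4096 * (K : ℝ) ^ 4) * (576 * R ^ 2)) := by
        field_simp
        norm_num
      rw [h5, le_div_iff₀ (by positivity)]
      have := S.hw
      linarith
    refine h4.trans ?_
    apply mul_le_mul_of_nonneg_left _ hw.le
    exact div_le_div_of_nonneg_right hθ (by positivity)
  rw [mul_add, mul_add] at h2
  linarith

theorem main {g R₁ lam₁ w₁ R₂ lam₂ w₂ : ℝ} {K₁ K₂ : ℕ} (S₁ : Side g R₁ lam₁ w₁ K₁)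
    (S₂ : Side g R₂ lam₂ w₂ K₂) :
    ∀ n : ℕ, ∀ D : Finset ℕ, D.card = n → D.Nonempty → (∀ y ∈ D, 0 < y) →
      ∀ X : Finset ℤ, X.Nonempty → ∀ Z : Finset (ℕ →₀ ℤ), Z.Nonempty →
        g * Real.log D.card - lam₁ * Real.log X.card - lam₂ * Real.log Z.card -
          g * (576 * R₁ ^ 2) * ns K₁ D ≤ w₁ * I al X D + w₂ * I be Z D := by
  classical
  intro n
  induction n using Nat.strong_induction_on with
  | _ n ih =>
  intro D hcard hDne hpos X hX Z hZ
  have hR1 := S₁.hR
  have hR2 := S₂.hR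
  have hR10 : 0 < R₁ := by linarith
  have hR20 : 0 < R₂ := by linarith
  have hg0 := S₁.g_pos
  have hw1 := S₁.w_pos
  have hw2 := S₂.w_pos
  have hlam1 := S₁.hlam
  have hlam2 := S₂.hlam
  have hX1 : (1 : ℝ) ≤ X.card := by exact_mod_cast card_pos.2 hX
  have hZ1 : (1 : ℝ) ≤ Z.card := by exact_mod_cast card_pos.2 hZ
  have hlX : 0 ≤ Real.log X.card := Real.log_nonneg hX1
  have hlZ : 0 ≤ Real.log Z.card := Real.log_nonneg hZ1
  by_cases h1 : D.card = 1
  · -- base
    rw [h1]
    have h2 := mul_nonneg hw1.le (I_nonneg al X D)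
    have h3 := mul_nonneg hw2.le (I_nonneg be Z D)
    have h4 : 0 ≤ lam₁ * Real.log X.card := mul_nonneg hlam1.le hlX
    have h4' : 0 ≤ lam₂ * Real.log Z.card := mul_nonneg hlam2.le hlZ
    have h5 : 0 ≤ g * (576 * R₁ ^ 2) * (ns K₁ D : ℝ) := by positivity
    simp only [Nat.cast_one, Real.log_one, mul_zero]
    linarith
  · have h2 : 1 < D.card := by
      have := card_pos.2 hDne
      omega
    -- a prime whose valuation is not constant
    obtain ⟨y₁, hy₁, y₂, hy₂, hne⟩ := one_lt_card.1 h2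
    obtain ⟨q, hq⟩ : ∃ q, y₁.factorization q ≠ y₂.factorization q := by
      by_contra hcon
      push Not at hcon
      exact hne (Nat.eq_of_factorization_eq (hpos _ hy₁).ne' (hpos _ hy₂).ne' hcon)
    have hqp : q.Prime := by
      by_contra hqp
      rw [Nat.factorization_eq_zero_of_not_prime _ hqp,
        Nat.factorization_eq_zero_of_not_prime _ hqp] at hq
      exact hq rfl
    obtain ⟨ym, hym, hmin⟩ := exists_min_image D (fun y => y.factorization q) hDne
    set l := ym.factorization q with hl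
    set D₀ := D.filter (fun y => y.factorization q = l) with hD₀
    set D₁ := D.filter (fun y => ¬ y.factorization q = l) with hD₁
    have hdis : Disjoint D₁ D₀ := (disjoint_filter_filter_not D D _).symm
    have hun : D = D₁ ∪ D₀ := by
      rw [union_comm]; exact (filter_union_filter_not_eq _ D).symm
    have hun' : D = D₀ ∪ D₁ := (filter_union_filter_not_eq _ D).symm
    have h₀ : D₀.Nonempty := ⟨ym, mem_filter.2 ⟨hym, rfl⟩⟩
    have h₁ : D₁.Nonempty := by
      by_contra hcon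
      rw [not_nonempty_iff_eq_empty] at hcon
      have hall : ∀ y ∈ D, y.factorization q = l := by
        intro y hy
        by_contra hy'
        have : y ∈ D₁ := mem_filter.2 ⟨hy, hy'⟩
        rw [hcon] at this
        exact notMem_empty _ this
      exact hq ((hall y₁ hy₁).trans (hall y₂ hy₂).symm)
    have hD₀v : ∀ y ∈ D₀, y.factorization q = l := fun y hy => (mem_filter.1 hy).2
    have hD₁v : ∀ y ∈ D₁, l < y.factorization q := fun y hy =>
      lt_of_le_of_ne (hmin y (mem_filter.1 hy).1) (Ne.symm (mem_filter.1 hy).2)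
    have hsub0 : D₀ ⊆ D := filter_subset _ _
    have hsub1 : D₁ ⊆ D := filter_subset _ _
    have hp1 : (0 : ℝ) < D₁.card := by exact_mod_cast card_pos.2 h₁
    have hp0 : (0 : ℝ) < D₀.card := by exact_mod_cast card_pos.2 h₀
    have hsumN : D.card = D₁.card + D₀.card := by
      rw [hun, card_union_of_disjoint hdis]
    have hsum : (D.card : ℝ) = D₁.card + D₀.card := by exact_mod_cast hsumN
    have hpD : (0 : ℝ) < D.card := by linarith
    have hlt1 : D₁.card < n := by
      have := card_pos.2 h₀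
      omega
    have hlt0 : D₀.card < n := by
      have := card_pos.2 h₁
      omega
    -- arithmetic of the two homomorphisms
    have hA1 : ∀ y ∈ D₁, piA q l (al y) = 0 := by
      intro y hy
      rw [piA_al, ZMod.natCast_eq_zero_iff]
      exact (hqp.pow_dvd_iff_le_factorization (hpos y (hsub1 hy)).ne').2 (hD₁v y hy)
    have hA0 : ∀ y ∈ D₀, ∀ j : ℕ, 1 ≤ j → (j < q) → j • (piA q l (al y) - 0) ≠ 0 := by
      intro y hy j hj1 hj2 h
      rw [sub_zero, piA_al, nsmul_eq_mul, ← Nat.cast_mul, ZMod.natCast_eq_zero_iff] at h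
      have hy0 : y ≠ 0 := (hpos y (hsub0 hy)).ne'
      have h3 := (hqp.pow_dvd_iff_le_factorization (mul_ne_zero (by omega) hy0)).1 h
      rw [Nat.factorization_mul (by omega) hy0] at h3
      simp only [Finsupp.coe_add, Pi.add_apply] at h3
      rw [hD₀v y hy, Nat.factorization_eq_zero_of_not_dvd (n := j) (p := q) (by
        intro hd
        exact absurd (Nat.le_of_dvd (by omega) hd) (by omega))] at h3
      omega
    have hA0' : ∀ y ∈ D₀, piA q l (al y) ≠ 0 := by
      intro y hy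
      have := hA0 y hy 1 le_rfl hqp.one_lt
      rwa [one_smul, sub_zero] at this
    have hB0 : ∀ y ∈ D₀, piB q (be y) = (l : ℤ) := by
      intro y hy
      rw [piB_be, hD₀v y hy]
    have hB1 : ∀ y ∈ D₁, ∀ j : ℕ, 1 ≤ j → j ≤ 2 * K₂ → j • (piB q (be y) - (l : ℤ)) ≠ 0 := by
      intro y hy j hj1 _ h
      rw [piB_be, nsmul_eq_mul, mul_eq_zero] at h
      have := hD₁v y hy
      rcases h with h | h
      · have : j = 0 := by exact_mod_cast h
        omega
      · omega
    have hB1' : ∀ y ∈ D₁, piB q (be y) ≠ (l : ℤ) := by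
      intro y hy
      rw [piB_be]
      have := hD₁v y hy
      omega
    -- induction hypotheses
    have ih1 : g * Real.log D₁.card - lam₁ * Real.log X.card - lam₂ * Real.log Z.card -
          g * (576 * R₁ ^ 2) * ns K₁ D₁ + lam₁ * (Ent (piA q l) X / X.card) ≤
        w₁ * I al X D₁ + w₂ * I be Z D₁ := by
      have h3 := classes_I (α := al) (piA q l) hX h₁ hA1
        (w := (g * Real.log D₁.card - lam₂ * Real.log Z.card -
          g * (576 * R₁ ^ 2) * ns K₁ D₁ - w₂ * I be Z D₁) / w₁) (lam := lam₁ / w₁) (by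
          intro X' _ hne
          have h4 := ih D₁.card hlt1 D₁ rfl h₁ (fun y hy => hpos y (hsub1 hy)) X' hne Z hZ
          rw [div_mul_eq_mul_div, ← sub_div, div_le_iff₀ hw1]
          linarith)
      rw [div_mul_eq_mul_div, div_mul_eq_mul_div, ← sub_div, ← add_div, div_le_iff₀ hw1] at h3
      linarith
    have ih0 : g * Real.log D₀.card - lam₁ * Real.log X.card - lam₂ * Real.log Z.card -
          g * (576 * R₁ ^ 2) * ns K₁ D₀ + lam₂ * (Ent (piB q) Z / Z.card) ≤
        w₁ * I al X D₀ + w₂ * I be Z D₀ := by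
      have h3 := classes_I (α := be) (piB q) hZ h₀ hB0
        (w := (g * Real.log D₀.card - lam₁ * Real.log X.card -
          g * (576 * R₁ ^ 2) * ns K₁ D₀ - w₁ * I al X D₀) / w₂) (lam := lam₂ / w₂) (by
          intro Z' _ hne
          have h4 := ih D₀.card hlt0 D₀ rfl h₀ (fun y hy => hpos y (hsub0 hy)) X hX Z' hne
          rw [div_mul_eq_mul_div, ← sub_div, div_le_iff₀ hw2]
          linarith)
      rw [div_mul_eq_mul_div, div_mul_eq_mul_div, ← sub_div, ← add_div, div_le_iff₀ hw2] at h3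
      linarith
    obtain ⟨η₁, hη₁⟩ : ∃ η : ℝ, η = D₁.card / D.card := ⟨_, rfl⟩
    obtain ⟨η₀, hη₀⟩ : ∃ η : ℝ, η = D₀.card / D.card := ⟨_, rfl⟩
    have hη1p : 0 < η₁ := by rw [hη₁]; exact div_pos hp1 hpD
    have hη0p : 0 < η₀ := by rw [hη₀]; exact div_pos hp0 hpD
    have hηs : η₁ + η₀ = 1 := by
      rw [hη₁, hη₀, ← add_div, ← hsum, div_self hpD.ne']
    have hlog : Real.log D.card = η₁ * Real.log D₁.card + η₀ * Real.log D₀.card + hh η₁ η₀ := by
      have e1 : Real.log η₁ = Real.log D₁.card - Real.log D.card := by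
        rw [hη₁, Real.log_div hp1.ne' hpD.ne']
      have e0 : Real.log η₀ = Real.log D₀.card - Real.log D.card := by
        rw [hη₀, Real.log_div hp0.ne' hpD.ne']
      unfold hh
      rw [e1, e0]
      have : η₁ = 1 - η₀ := by linarith
      rw [this]
      ring
    have he1 : 0 ≤ Ent (piA q l) X / X.card := div_nonneg (Ent_nonneg _ _) (Nat.cast_nonneg _)
    have he0 : 0 ≤ Ent (piB q) Z / Z.card := div_nonneg (Ent_nonneg _ _) (Nat.cast_nonneg _)
    have hns1 : (ns K₁ D₁ : ℝ) ≤ ns K₁ D := by exact_mod_cast ns_mono hsub1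
    have hns0 : (ns K₁ D₀ : ℝ) ≤ ns K₁ D := by exact_mod_cast ns_mono hsub0
    have hκ1 : 1 / (576 * R₁ ^ 2) ≤ (1 : ℝ) / 20 := by
      apply one_div_le_one_div_of_le (by norm_num)
      nlinarith
    have hκ2 : 1 / (576 * R₂ ^ 2) ≤ (1 : ℝ) / 20 := by
      apply one_div_le_one_div_of_le (by norm_num)
      nlinarith
    have hG0 : 0 ≤ g * (576 * R₁ ^ 2) := by positivity
    have hGs : 0 ≤ g * (576 * R₁ ^ 2) * (ns K₁ D - η₁ * ns K₁ D₁ - η₀ * ns K₁ D₀) := by
      apply mul_nonneg hG0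
      have m1 := mul_le_mul_of_nonneg_left hns1 hη1p.le
      have m0 := mul_le_mul_of_nonneg_left hns0 hη0p.le
      have : η₁ * (ns K₁ D : ℝ) + η₀ * ns K₁ D = ns K₁ D := by rw [← add_mul, hηs, one_mul]
      linarith
    have hsupA : η₁ * (w₁ * I al X D₁) + η₀ * (w₁ * I al X D₀) ≤ w₁ * I al X D := by
      have h3 := I_super (α := al) hX hdis hun h₁ h₀
      rw [← hη₁, ← hη₀] at h3
      have h4 := mul_le_mul_of_nonneg_left h3 hw1.le
      linarith
    have hsupB : η₀ * (w₂ * I be Z D₀) + η₁ * (w₂ * I be Z D₁) ≤ w₂ * I be Z D := by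
      have h3 := I_super (α := be) hZ hdis.symm hun' h₀ h₁
      rw [← hη₁, ← hη₀] at h3
      have h4 := mul_le_mul_of_nonneg_left h3 hw2.le
      linarith
    have hcA : 0 ≤ lam₁ * η₁ * (Ent (piA q l) X / X.card) := by positivity
    have hcB : 0 ≤ lam₂ * η₀ * (Ent (piB q) Z / Z.card) := by positivity
    apply combine hηs hη1p.le hη0p.le ih1 ih0 hlog
    by_cases hc0 : η₀ ≤ 1 / (576 * R₁ ^ 2)
    · -- D₀ is rare: sums
      have h3 := S₁.rare (piA q l) (α := al) hX hdis hun h₁ h₀ hA1 hA0' (by rw [← hη₀]; exact hc0)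
      rw [← hη₁, ← hη₀] at h3
      linarith
    by_cases hc1 : η₁ ≤ 1 / (576 * R₂ ^ 2)
    · -- D₁ is rare: products
      have h3 := S₂.rare (piB q) (α := be) hZ hdis.symm hun' h₀ h₁ hB0 hB1'
        (by rw [← hη₁]; exact hc1)
      rw [← hη₁, ← hη₀, hh_symm] at h3
      linarith
    push Not at hc0 hc1
    have hl2 : hh η₁ η₀ ≤ Real.log 2 := hh_le hηs
    have hlog2 : Real.log 2 ≤ 1 := by
      have := Real.log_two_lt_d9
      linarith
    have hlog2' : 2 / 3 ≤ Real.log 2 := by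
      have := Real.log_two_gt_d9
      linarith
    have hgh : g * hh η₁ η₀ ≤ g := by
      calc g * hh η₁ η₀ ≤ g * 1 :=
            mul_le_mul_of_nonneg_left (hl2.trans hlog2) hg0.le
        _ = _ := mul_one _
    have hgl2 : g * hh η₁ η₀ ≤ g * Real.log 2 := mul_le_mul_of_nonneg_left hl2 hg0.le
    have hlK1 : g * Real.log 2 ≤ lam₁ * Real.log K₁ := by
      have := mul_le_mul_of_nonneg_left S₁.hRK hlam1.le
      rw [← mul_assoc, S₁.hg] at this
      exact this
    have hlK2 : g * Real.log 2 ≤ lam₂ * Real.log K₂ := by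
      have := mul_le_mul_of_nonneg_left S₂.hRK hlam2.le
      rw [← mul_assoc, S₂.hg] at this
      exact this
    by_cases hc1' : η₁ ≤ 1 / 10
    · -- D₁ is small: products
      have hη0' : 9 / 10 ≤ η₀ := by linarith
      by_cases heB : Ent (piB q) Z / Z.card ≤ Real.log K₂
      · have h3 := S₂.mid (piB q) (α := be) hZ hdis.symm hun' h₀ h₁ hB0 hB1 heB (by
          rw [← hη₁, ← hη₀]
          nlinarith)
        rw [← hη₁, ← hη₀] at h3
        linarith
      · push Not at heB
        have h3 : hh η₁ η₀ ≤ 2 / 5 := by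
          rw [hh_symm]
          exact hh_tenth hη0p hη1p (by linarith) hc1'
        have h4 : lam₂ * η₀ * Real.log K₂ ≤ lam₂ * η₀ * (Ent (piB q) Z / Z.card) :=
          mul_le_mul_of_nonneg_left heB.le (by positivity)
        have h5 : g * (2 / 5) ≤ lam₂ * η₀ * Real.log K₂ := by
          have h6 := mul_le_mul_of_nonneg_left hlK2 hη0p.le
          have h7 : g * (2 / 5) ≤ η₀ * (g * Real.log 2) := by
            have h8 : 2 / 5 ≤ η₀ * Real.log 2 := by nlinarith
            have h9 := mul_le_mul_of_nonneg_left h8 hg0.le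
            linarith
          linarith
        have h6 := mul_le_mul_of_nonneg_left h3 hg0.le
        linarith
    push Not at hc1'
    by_cases hqK : q ≤ 2 * K₁
    · -- small prime
      have hlt : (ns K₁ D₀ : ℝ) + 1 ≤ ns K₁ D := by
        exact_mod_cast ns_lt hsub0 hqp hqK ⟨y₁, hy₁, y₂, hy₂, hq⟩ hD₀v
      have h3 : g ≤ g * (576 * R₁ ^ 2) * (ns K₁ D - η₁ * ns K₁ D₁ - η₀ * ns K₁ D₀) := by
        have m1 := mul_le_mul_of_nonneg_left hns1 hη1p.le
        have m0 := mul_le_mul_of_nonneg_left hlt hη0p.le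
        have e1 : η₁ * (ns K₁ D : ℝ) + η₀ * ns K₁ D = ns K₁ D := by rw [← add_mul, hηs, one_mul]
        have h4 : η₀ ≤ ns K₁ D - η₁ * ns K₁ D₁ - η₀ * ns K₁ D₀ := by linarith
        have h5 : 1 ≤ 576 * R₁ ^ 2 * (ns K₁ D - η₁ * ns K₁ D₁ - η₀ * ns K₁ D₀) := by
          have h6 : 1 / (576 * R₁ ^ 2) ≤ ns K₁ D - η₁ * ns K₁ D₁ - η₀ * ns K₁ D₀ := by linarith
          rw [div_le_iff₀ (by positivity)] at h6
          linarith
        have h7 := mul_le_mul_of_nonneg_left h5 hg0.le
        linarith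
      linarith
    push Not at hqK
    by_cases heA : Ent (piA q l) X / X.card ≤ Real.log K₁
    · have h3 := S₁.mid (piA q l) (α := al) hX hdis hun h₁ h₀ hA1
        (fun y hy j hj1 hj2 => hA0 y hy j hj1 (by omega)) heA (by
          rw [← hη₁, ← hη₀]
          rcases le_total η₁ η₀ with h | h
          · have h4 : 1 / 2 ≤ η₀ := by linarith
            nlinarith
          · have h4 : 1 / 2 ≤ η₁ := by linarith
            nlinarith)
      rw [← hη₁, ← hη₀] at h3
      linarith
    push Not at heA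
    have h4 : lam₁ * η₁ * Real.log K₁ ≤ lam₁ * η₁ * (Ent (piA q l) X / X.card) :=
      mul_le_mul_of_nonneg_left heA.le (by positivity)
    by_cases hc0' : η₀ ≤ 1 / 10
    · -- D₀ is small: sums
      have hη1' : 9 / 10 ≤ η₁ := by linarith
      have h3 : hh η₁ η₀ ≤ 2 / 5 := hh_tenth hη1p hη0p hηs hc0'
      have h5 : g * (2 / 5) ≤ lam₁ * η₁ * Real.log K₁ := by
        have h6 := mul_le_mul_of_nonneg_left hlK1 hη1p.le
        have h7 : g * (2 / 5) ≤ η₁ * (g * Real.log 2) := by
          have h8 : 2 / 5 ≤ η₁ * Real.log 2 := by nlinarith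
          have h9 := mul_le_mul_of_nonneg_left h8 hg0.le
          linarith
        linarith
      have h6 := mul_le_mul_of_nonneg_left h3 hg0.le
      linarith
    push Not at hc0'
    by_cases heB : Ent (piB q) Z / Z.card ≤ Real.log K₂
    · have h3 := S₂.mid (piB q) (α := be) hZ hdis.symm hun' h₀ h₁ hB0 hB1 heB (by
          rw [← hη₁, ← hη₀]
          nlinarith)
      rw [← hη₁, ← hη₀] at h3
      linarith
    push Not at heB
    -- both entropies are large
    have h5 : lam₂ * η₀ * Real.log K₂ ≤ lam₂ * η₀ * (Ent (piB q) Z / Z.card) :=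
      mul_le_mul_of_nonneg_left heB.le (by positivity)
    have h6 := mul_le_mul_of_nonneg_left hlK1 hη1p.le
    have h7 := mul_le_mul_of_nonneg_left hlK2 hη0p.le
    have h8 : η₁ * (g * Real.log 2) + η₀ * (g * Real.log 2) = g * Real.log 2 := by
      rw [← add_mul, hηs, one_mul]
    linarith

end Pool.Agent.Helper84.SP
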