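import Pool.Agent.Helper84.SPBase

set_option autoImplicit false

/-!
MP_120218_co: classes of `X` modulo a homomorphism, and the two node lemmas.
-/

open Finset

namespace Pool.Agent.Helper84.SP

variable {ι G Q : Type*} [AddCommGroup G] [DecidableEq G] [AddCommGroup Q] [DecidableEq Q]

/-- the class of `c` -/
def cl (π : G →+ Q) (X : Finset G) (c : Q) : Finset G := X.filter (fun x => π x = c)

omit [DecidableEq G] in
theorem mem_cl {π : G →+ Q} {X : Finset G} {c : Q} {x : G} : x ∈ cl π X c ↔ x ∈ X ∧ π x = c := by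
  unfold cl; rw [mem_filter]

omit [DecidableEq G] in
theorem cl_subset (π : G →+ Q) (X : Finset G) (c : Q) : cl π X c ⊆ X := filter_subset _ _

/-- the unnormalised entropy of the class of a point of `X` -/
noncomputable def Ent (π : G →+ Q) (X : Finset G) : ℝ :=
  ∑ x ∈ X, Real.log ((X.card : ℝ) / ((cl π X (π x)).card : ℝ))

theorem cl_pos {π : G →+ Q} {X : Finset G} {x : G} (hx : x ∈ X) :
    (0 : ℝ) < ((cl π X (π x)).card : ℝ) := by
  have h : 0 < (cl π X (π x)).card := card_pos.2 ⟨x, mem_cl.2 ⟨hx, rfl⟩⟩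
  exact_mod_cast h

theorem Ent_nonneg (π : G →+ Q) (X : Finset G) : 0 ≤ Ent π X := by
  unfold Ent
  apply sum_nonneg
  intro x hx
  apply Real.log_nonneg
  rw [le_div_iff₀ (cl_pos hx), one_mul]
  exact_mod_cast card_le_card (cl_subset π X _)

/-- a lower bound for the entropy by the size of the largest class -/
theorem Ent_ge {π : G →+ Q} {X : Finset G} (hX : X.Nonempty) {z : Q}
    (hz : ∀ c, (cl π X c).card ≤ (cl π X z).card) :
    X.card * Real.log ((X.card : ℝ) / ((cl π X z).card : ℝ)) ≤ Ent π X := by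
  have hXp : (0 : ℝ) < X.card := by exact_mod_cast card_pos.2 hX
  unfold Ent
  rw [← nsmul_eq_mul, ← sum_const]
  apply sum_le_sum
  intro x hx
  have h1 := cl_pos (π := π) hx
  have h2 : ((cl π X (π x)).card : ℝ) ≤ ((cl π X z).card : ℝ) := by exact_mod_cast hz _
  apply Real.log_le_log
  · exact div_pos hXp (lt_of_lt_of_le h1 h2)
  · exact div_le_div_of_nonneg_left hXp.le h1 h2

theorem exists_max (π : G →+ Q) {X : Finset G} (hX : X.Nonempty) :
    ∃ z, (∀ c, (cl π X c).card ≤ (cl π X z).card) ∧ 0 < (cl π X z).card := by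
  obtain ⟨x, hx, hmax⟩ := exists_max_image X (fun x => (cl π X (π x)).card) hX
  refine ⟨π x, ?_, card_pos.2 ⟨x, mem_cl.2 ⟨hx, rfl⟩⟩⟩
  intro c
  rcases (cl π X c).eq_empty_or_nonempty with h | ⟨x', hx'⟩
  · rw [h]; exact Nat.zero_le _
  · rw [mem_cl] at hx'
    have := hmax x' hx'.1
    rwa [hx'.2] at this

theorem J_classes {α : ι → G} (π : G →+ Q) (X : Finset G) {D : Finset ι} {a : Q}
    (hD : ∀ y ∈ D, π (α y) = a) :
    J α X D = ∑ c ∈ X.image π, J α (cl π X c) D := by
  unfold J
  rw [← sum_fiberwise_of_maps_to (s := X) (t := X.image π) (g := π)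
    (fun x hx => mem_image_of_mem _ hx)]
  apply sum_congr rfl
  intro c _
  have h1 : X.filter (fun x => π x = c) = cl π X c := rfl
  rw [h1]
  apply sum_congr rfl
  intro x hx
  apply sum_congr rfl
  intro y hy
  congr 3
  unfold rep
  congr 1
  apply filter_congr
  intro y' hy'
  rw [mem_cl]
  constructor
  · intro h
    refine ⟨h, ?_⟩
    rw [map_sub, map_add, hD y hy, hD y' hy', add_sub_cancel_right]
    exact (mem_cl.1 hx).2
  · intro h
    exact h.1

/-- passing to classes -/
theorem classes_lower {α : ι → G} (π : G →+ Q) {X : Finset G} {D : Finset ι} {a : Q}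
    (hD : ∀ y ∈ D, π (α y) = a) {u μ : ℝ}
    (h : ∀ X' : Finset G, X' ⊆ X → X'.Nonempty →
      X'.card * (u - μ * Real.log X'.card) ≤ J α X' D) :
    X.card * (u - μ * Real.log X.card) + μ * Ent π X ≤ J α X D := by
  rw [J_classes π X hD]
  have h1 : ∀ c ∈ X.image π, (cl π X c).card * (u - μ * Real.log (cl π X c).card) ≤
      J α (cl π X c) D := by
    intro c hc
    obtain ⟨x, hx, rfl⟩ := mem_image.1 hc
    exact h _ (cl_subset _ _ _) ⟨x, mem_cl.2 ⟨hx, rfl⟩⟩
  refine le_trans (le_of_eq ?_) (sum_le_sum h1)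
  have h2 : ∀ f : Q → ℝ, ∑ x ∈ X, f (π x) = ∑ c ∈ X.image π, (cl π X c).card * f c := by
    intro f
    rw [← sum_fiberwise_of_maps_to (s := X) (t := X.image π) (g := π)
      (fun x hx => mem_image_of_mem _ hx)]
    apply sum_congr rfl
    intro c _
    have h3 : X.filter (fun x => π x = c) = cl π X c := rfl
    rw [h3]
    have h4 : ∀ x ∈ cl π X c, f (π x) = f c := fun x hx => by rw [(mem_cl.1 hx).2]
    rw [sum_congr rfl h4, sum_const, nsmul_eq_mul]
  have h5 : ∑ c ∈ X.image π, (cl π X c).card * (u - μ * Real.log (cl π X c).card) =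
      ∑ x ∈ X, (u - μ * Real.log (cl π X (π x)).card) :=
    (h2 (fun c => u - μ * Real.log (cl π X c).card)).symm
  have h6 : Ent π X = ∑ x ∈ X, (Real.log X.card - Real.log (cl π X (π x)).card) := by
    unfold Ent
    apply sum_congr rfl
    intro x hx
    have hXp : (0 : ℝ) < X.card := by exact_mod_cast card_pos.2 ⟨x, hx⟩
    rw [Real.log_div hXp.ne' (cl_pos hx).ne']
  rw [h5, h6, sum_sub_distrib, sum_sub_distrib, sum_const, sum_const, nsmul_eq_mul,
    nsmul_eq_mul, ← mul_sum]
  ring

/-! ### The non-invariance lemma -/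

/-- If `F` has total mass at most `N ≤ K F(z)`, `z` a maximum, and `a` has no small order, then
`F` is far from invariant under translation by `a`. -/
theorem noninv (F : Q → ℝ) {N : ℝ} (hFN : ∀ T : Finset Q, ∑ c ∈ T, F c ≤ N)
    {z : Q} {K : ℕ} (hK : 1 ≤ K) (hz : N ≤ K * F z) (hz0 : 0 < F z)
    {a : Q} (ha : ∀ j : ℕ, 1 ≤ j → j ≤ 2 * K → j • a ≠ 0) (S : Finset Q)
    (hS : ∀ c, F c ≠ 0 → c ∈ S) :
    F z ^ 2 / (16 * K) ≤ ∑ c ∈ S, F c ^ 2 - ∑ c ∈ S, F c * F (c + a) := by
  have hKp : (0 : ℝ) < K := by exact_mod_cast hK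
  -- a point where `F` has dropped
  obtain ⟨j, hj1, hj2, hj3⟩ : ∃ j : ℕ, 1 ≤ j ∧ j ≤ 2 * K ∧ F (z + j • a) ≤ F z / 2 := by
    by_contra hcon
    push Not at hcon
    have hinj : Set.InjOn (fun i : ℕ => z + i • a) (range (2 * K + 1) : Finset ℕ) := by
      have key : ∀ i j : ℕ, i < j → j ≤ 2 * K → z + i • a ≠ z + j • a := by
        intro i j hij hj h
        have h1 : i • a = j • a := add_left_cancel h
        have h2 : (j - i) • a = 0 := by
          have h3 : j • a = i • a + (j - i) • a := by
            rw [← add_smul]; congr 1; omega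
          rw [h3] at h1
          exact left_eq_add.1 h1
        exact ha (j - i) (by omega) (by omega) h2
      intro i hi j hj h
      rw [mem_coe, mem_range] at hi hj
      rcases lt_trichotomy i j with h1 | h1 | h1
      · exact absurd h (key i j h1 (by omega))
      · exact h1
      · exact absurd h.symm (key j i h1 (by omega))
    have h1 := hFN ((range (2 * K + 1)).image (fun i : ℕ => z + i • a))
    rw [sum_image hinj] at h1
    have h2 : ∑ _i ∈ range (2 * K + 1), F z / 2 ≤ ∑ i ∈ range (2 * K + 1), F (z + i • a) := by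
      apply sum_le_sum
      intro i hi
      rw [mem_range] at hi
      rcases Nat.eq_zero_or_pos i with h0 | h0
      · rw [h0, zero_smul, add_zero]
        linarith
      · exact (hcon i h0 (by omega)).le
    rw [sum_const, card_range, nsmul_eq_mul] at h2
    push_cast at h2
    nlinarith
  -- Cauchy-Schwarz along the chain
  set g : ℕ → ℝ := fun i => F (z + i • a) - F (z + (i + 1) • a) with hg
  have htel : ∑ i ∈ range j, g i = F z - F (z + j • a) := by
    have : ∀ n : ℕ, ∑ i ∈ range n, g i = F z - F (z + n • a) := by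
      intro n
      induction n with
      | zero => simp
      | succ n ih =>
        rw [sum_range_succ, ih, hg]
        simp only
        ring
    exact this j
  have hcs : (∑ i ∈ range j, g i) ^ 2 ≤ j * ∑ i ∈ range j, g i ^ 2 := by
    have := sq_sum_le_card_mul_sum_sq (s := range j) (f := g)
    rwa [card_range] at this
  have h1 : F z / 2 ≤ ∑ i ∈ range j, g i := by rw [htel]; linarith
  have h2 : (F z / 2) ^ 2 ≤ (2 * K : ℝ) * ∑ i ∈ range j, g i ^ 2 := by
    have h3 : (0 : ℝ) ≤ ∑ i ∈ range j, g i ^ 2 := sum_nonneg (fun i _ => sq_nonneg _)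
    have h4 : (j : ℝ) ≤ 2 * K := by exact_mod_cast hj2
    have h5 : (F z / 2) ^ 2 ≤ (∑ i ∈ range j, g i) ^ 2 := by
      apply pow_le_pow_left₀ (by positivity) h1
    nlinarith
  -- the chain sum is part of the full sum
  classical
  set T : Finset Q := (S ∪ S.image (fun c => c - a)) ∪ (range j).image (fun i : ℕ => z + i • a)
    with hT
  have h3 : ∑ i ∈ range j, g i ^ 2 ≤ ∑ c ∈ T, (F c - F (c + a)) ^ 2 := by
    have hinj : Set.InjOn (fun i : ℕ => z + i • a) (range j : Finset ℕ) := by
      have key : ∀ i k : ℕ, i < k → k ≤ 2 * K → z + i • a ≠ z + k • a := by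
        intro i k hij hj h
        have h1 : i • a = k • a := add_left_cancel h
        have h2 : (k - i) • a = 0 := by
          have h3 : k • a = i • a + (k - i) • a := by
            rw [← add_smul]; congr 1; omega
          rw [h3] at h1
          exact left_eq_add.1 h1
        exact ha (k - i) (by omega) (by omega) h2
      intro i hi k hk h
      rw [mem_coe, mem_range] at hi hk
      rcases lt_trichotomy i k with h1 | h1 | h1
      · exact absurd h (key i k h1 (by omega))
      · exact h1
      · exact absurd h.symm (key k i h1 (by omega))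
    calc ∑ i ∈ range j, g i ^ 2 = ∑ i ∈ range j, (fun c => (F c - F (c + a)) ^ 2) (z + i • a) := by
          apply sum_congr rfl
          intro i _
          rw [hg]
          simp only
          rw [add_assoc, ← succ_nsmul]
      _ = ∑ c ∈ (range j).image (fun i : ℕ => z + i • a), (F c - F (c + a)) ^ 2 := by
          rw [sum_image hinj]
      _ ≤ _ := by
          apply sum_le_sum_of_subset_of_nonneg
          · exact subset_union_right
          · intro _ _ _
            exact sq_nonneg _
  -- expand the square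
  have hST : S ⊆ T := fun c hc => mem_union_left _ (mem_union_left _ hc)
  have e1 : ∑ c ∈ T, F c ^ 2 = ∑ c ∈ S, F c ^ 2 := by
    symm
    apply sum_subset hST
    intro c _ hc
    have : F c = 0 := by
      by_contra h
      exact hc (hS c h)
    rw [this]; norm_num
  have e2 : ∑ c ∈ T, F (c + a) ^ 2 = ∑ c ∈ S, F c ^ 2 := by
    calc ∑ c ∈ T, F (c + a) ^ 2 = ∑ c ∈ T.image (fun c => c + a), F c ^ 2 := by
          rw [sum_image (fun x _ y _ h => add_right_cancel h)]
      _ = _ := by
          symm
          apply sum_subset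
          · intro c hc
            refine mem_image.2 ⟨c - a, ?_, by abel⟩
            exact mem_union_left _ (mem_union_right _ (mem_image_of_mem _ hc))
          · intro c _ hc
            have : F c = 0 := by
              by_contra h
              exact hc (hS c h)
            rw [this]; norm_num
  have e3 : ∑ c ∈ T, F c * F (c + a) = ∑ c ∈ S, F c * F (c + a) := by
    symm
    apply sum_subset hST
    intro c _ hc
    have : F c = 0 := by
      by_contra h
      exact hc (hS c h)
    rw [this, zero_mul]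
  have e4 : ∑ c ∈ T, (F c - F (c + a)) ^ 2 =
      2 * (∑ c ∈ S, F c ^ 2 - ∑ c ∈ S, F c * F (c + a)) := by
    have : ∀ c ∈ T, (F c - F (c + a)) ^ 2 =
        F c ^ 2 + F (c + a) ^ 2 - 2 * (F c * F (c + a)) := fun c _ => by ring
    rw [sum_congr rfl this, sum_sub_distrib, sum_add_distrib, ← mul_sum, e1, e2, e3]
    ring
  rw [e4] at h3
  rw [div_le_iff₀ (by positivity)]
  nlinarith

end Pool.Agent.Helper84.SP
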