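import Pool.Agent.Helper84.SPNode

set_option autoImplicit false

/-!
MP_120218_co: the two node lemmas.
-/

open Finset

namespace Pool.Agent.Helper84.SP

variable {ι G Q : Type*} [AddCommGroup G] [DecidableEq G] [AddCommGroup Q] [DecidableEq Q]

omit [DecidableEq G] in
theorem sum_cl (π : G →+ Q) (X : Finset G) (f : Q → ℝ) :
    ∑ x ∈ X, f (π x) = ∑ c ∈ X.image π, ((cl π X c).card : ℝ) * f c := by
  rw [← sum_fiberwise_of_maps_to (s := X) (t := X.image π) (g := π)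
    (fun x hx => mem_image_of_mem _ hx)]
  apply sum_congr rfl
  intro c _
  have h3 : X.filter (fun x => π x = c) = cl π X c := rfl
  rw [h3]
  have h4 : ∀ x ∈ cl π X c, f (π x) = f c := fun x hx => by rw [(mem_cl.1 hx).2]
  rw [sum_congr rfl h4, sum_const, nsmul_eq_mul]

omit [DecidableEq G] in
theorem sum_cl_le (π : G →+ Q) (X : Finset G) (T : Finset Q) :
    ∑ c ∈ T, ((cl π X c).card : ℝ) ≤ X.card := by
  have h : ∑ c ∈ T, (cl π X c).card ≤ X.card := by
    have h1 : ∑ c ∈ T, (cl π X c).card = (X.filter (fun x => π x ∈ T)).card := by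
      rw [card_eq_sum_card_fiberwise (f := π) (t := T)
        (by intro x hx; exact (mem_filter.1 (mem_coe.1 hx)).2)]
      apply sum_congr rfl
      intro c hc
      congr 1
      ext x
      rw [mem_cl, mem_filter, mem_filter]
      constructor
      · rintro ⟨h1, h2⟩
        exact ⟨⟨h1, h2 ▸ hc⟩, h2⟩
      · rintro ⟨⟨h1, _⟩, h2⟩
        exact ⟨h1, h2⟩
    rw [h1]
    exact card_filter_le _ _
  exact_mod_cast h

theorem log_one_add_ge {u : ℝ} (hu : 0 ≤ u) : u - u ^ 2 ≤ Real.log (1 + u) := by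
  have h1 := Real.one_sub_inv_le_log_of_pos (show 0 < 1 + u by linarith)
  refine le_trans ?_ h1
  have h2 : 1 - (1 + u)⁻¹ = u / (1 + u) := by field_simp; ring
  rw [h2, le_div_iff₀ (by linarith)]
  nlinarith [pow_nonneg hu 3]

theorem log_one_sub_ge {v : ℝ} (hv : v ≤ 1 / 2) :
    -v - 2 * v ^ 2 ≤ Real.log (1 - v) := by
  have h1 := Real.one_sub_inv_le_log_of_pos (show 0 < 1 - v by linarith)
  refine le_trans ?_ h1
  have h2 : 1 - (1 - v)⁻¹ = -v / (1 - v) := by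
    have : (1 - v) ≠ 0 := by linarith
    field_simp
    ring
  rw [h2, le_div_iff₀ (by linarith)]
  nlinarith [mul_nonneg (sq_nonneg v) (sub_nonneg.2 hv)]

/-- the algebra in `node_mid` -/
theorem node_alg {d x η₁ η₀ t M E K : ℝ} (hη : η₁ + η₀ = 1) (hη1 : 0 < η₁) (hη0 : 0 < η₀)
    (hd : 0 < d) (hM : 0 < M) (hK : 0 < K) (hx : 0 ≤ x) (hz : x ≤ K * M)
    (ht : t = 1 / (64 * K ^ 2)) :
    x * d * (η₁ * η₀ / (2048 * K ^ 4)) ≤
      (η₁ * d) * (η₀ * t * (E / M) - x * (η₀ * t) ^ 2) +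
      (-(η₁ * t * ((η₀ * d) * ((E - M ^ 2 / (16 * K)) / M))) -
        2 * ((η₀ * d) * x) * (η₁ * t) ^ 2) := by
  have ht0 : 0 < t := by rw [ht]; positivity
  have key : (η₁ * d) * (η₀ * t * (E / M) - x * (η₀ * t) ^ 2) +
      (-(η₁ * t * ((η₀ * d) * ((E - M ^ 2 / (16 * K)) / M))) -
        2 * ((η₀ * d) * x) * (η₁ * t) ^ 2) =
      d * (η₁ * η₀) * (t * (M / (16 * K)) - x * t ^ 2 * (η₀ + 2 * η₁)) := by
    field_simp
    ring
  rw [key]
  have hMX : x / (16 * K ^ 2) ≤ M / (16 * K) := by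
    rw [div_le_div_iff₀ (by positivity) (by positivity)]
    nlinarith
  have h5 : d * (η₁ * η₀) * (x / (2048 * K ^ 4)) ≤
      d * (η₁ * η₀) * (t * (M / (16 * K)) - x * t ^ 2 * (η₀ + 2 * η₁)) := by
    apply mul_le_mul_of_nonneg_left _ (by positivity)
    have h6 : t * (x / (16 * K ^ 2)) ≤ t * (M / (16 * K)) :=
      mul_le_mul_of_nonneg_left hMX ht0.le
    have h7 : x * t ^ 2 * (η₀ + 2 * η₁) ≤ x * t ^ 2 * 2 := by
      apply mul_le_mul_of_nonneg_left _ (by positivity)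
      linarith
    have h8 : t * (x / (16 * K ^ 2)) - x * t ^ 2 * 2 = x / (2048 * K ^ 4) := by
      rw [ht]
      field_simp
      ring
    linarith
  refine le_trans (le_of_eq ?_) h5
  ring

theorem node_mid [DecidableEq ι] (π : G →+ Q) {α : ι → G} {X : Finset G} {D D₁ D₀ : Finset ι}
    (hdis : Disjoint D₁ D₀) (hD : D = D₁ ∪ D₀) (h₁ : D₁.Nonempty) (h₀ : D₀.Nonempty) {a : Q}
    (ha1 : ∀ y ∈ D₁, π (α y) = a) {K : ℕ} (hK : 1 ≤ K)
    (ha0 : ∀ y ∈ D₀, ∀ j : ℕ, 1 ≤ j → j ≤ 2 * K → j • (π (α y) - a) ≠ 0) {z : Q}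
    (hmax : ∀ c, (cl π X c).card ≤ (cl π X z).card)
    (hz : (X.card : ℝ) ≤ K * ((cl π X z).card : ℝ)) (hz0 : 0 < (cl π X z).card) :
    J α X D₁ + J α X D₀ + X.card * D.card *
      ((D₁.card / D.card : ℝ) * (D₀.card / D.card : ℝ) / (2048 * (K : ℝ) ^ 4)) ≤ J α X D := by
  have hp1 : (0 : ℝ) < D₁.card := by exact_mod_cast card_pos.2 h₁
  have hp0 : (0 : ℝ) < D₀.card := by exact_mod_cast card_pos.2 h₀
  have hsum : (D.card : ℝ) = D₁.card + D₀.card := by
    rw [hD, card_union_of_disjoint hdis]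
    push_cast
    ring
  have hpD : (0 : ℝ) < D.card := by linarith
  have hKp : (0 : ℝ) < K := by exact_mod_cast hK
  have hK1 : (1 : ℝ) ≤ K := by exact_mod_cast hK
  obtain ⟨F, hF⟩ : ∃ F : Q → ℝ, ∀ c, F c = ((cl π X c).card : ℝ) := ⟨_, fun _ => rfl⟩
  obtain ⟨M, hM⟩ : ∃ M : ℝ, M = F z := ⟨_, rfl⟩
  have hMp : 0 < M := by rw [hM, hF]; exact_mod_cast hz0
  have hF0 : ∀ c, 0 ≤ F c := fun c => by rw [hF]; positivity
  have hFM : ∀ c, F c ≤ M := fun c => by rw [hM, hF, hF]; exact_mod_cast hmax c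
  obtain ⟨η₁, hη₁⟩ : ∃ η : ℝ, η = D₁.card / D.card := ⟨_, rfl⟩
  obtain ⟨η₀, hη₀⟩ : ∃ η : ℝ, η = D₀.card / D.card := ⟨_, rfl⟩
  have hη1p : 0 < η₁ := by rw [hη₁]; positivity
  have hη0p : 0 < η₀ := by rw [hη₀]; positivity
  have hηs : η₁ + η₀ = 1 := by
    rw [hη₁, hη₀, ← add_div, ← hsum, div_self hpD.ne']
  have hq1 : (D.card : ℝ) / D₁.card * η₁ = 1 := by
    rw [hη₁, div_mul_div_comm, mul_comm, div_self (by positivity)]
  have hq0 : (D.card : ℝ) / D₀.card * η₀ = 1 := by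
    rw [hη₀, div_mul_div_comm, mul_comm, div_self (by positivity)]
  obtain ⟨t, ht⟩ : ∃ t : ℝ, t = 1 / (64 * (K : ℝ) ^ 2) := ⟨_, rfl⟩
  have ht0 : 0 < t := by rw [ht]; positivity
  have hK2 : (1 : ℝ) ≤ (K : ℝ) ^ 2 := one_le_pow₀ hK1
  have ht1 : t ≤ 1 / 64 := by
    rw [ht]
    apply one_div_le_one_div_of_le (by norm_num)
    linarith
  obtain ⟨f, hf⟩ : ∃ f : G → ℝ, ∀ s, f s = F (π s - a) / M := ⟨_, fun _ => rfl⟩
  have hf0 : ∀ s, 0 ≤ f s := fun s => by rw [hf]; exact div_nonneg (hF0 _) hMp.le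
  have hf1 : ∀ s, f s ≤ 1 := fun s => by rw [hf]; exact (div_le_one hMp).2 (hFM _)
  have hsplit := J_split (α := α) (X := X) hdis hD h₁ h₀
    (fun s => η₁ * (1 + η₀ * t * f s)) (fun s => η₀ * (1 - η₁ * t * f s))
    (fun s => by have := hf0 s; positivity)
    (fun s => by
      have h1 : η₁ * t * f s ≤ 1 * (1 / 64) * 1 := by
        apply mul_le_mul _ (hf1 s) (hf0 s) (by norm_num)
        apply mul_le_mul (by linarith) ht1 ht0.le (by norm_num)
      apply mul_pos hη0p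
      linarith)
    (fun s => by
      have : η₁ * (1 + η₀ * t * f s) + η₀ * (1 - η₁ * t * f s) = η₁ + η₀ := by ring
      rw [this, hηs])
  refine le_trans ?_ hsplit
  apply add_le_add le_rfl
  obtain ⟨E, hE⟩ : ∃ E : ℝ, E = ∑ x ∈ X, F (π x) := ⟨_, rfl⟩
  -- the part D₁
  have hs1 : (D₁.card : ℝ) * (η₀ * t * (E / M) - X.card * (η₀ * t) ^ 2) ≤
      ∑ x ∈ X, ∑ y ∈ D₁, Real.log ((D.card : ℝ) / D₁.card * (η₁ * (1 + η₀ * t * f (x + α y)))) := by
    have h1 : ∀ x ∈ X, ∀ y ∈ D₁, η₀ * t * (F (π x) / M) - (η₀ * t) ^ 2 ≤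
        Real.log ((D.card : ℝ) / D₁.card * (η₁ * (1 + η₀ * t * f (x + α y)))) := by
      intro x _ y hy
      have e1 : (D.card : ℝ) / D₁.card * (η₁ * (1 + η₀ * t * f (x + α y))) =
          1 + η₀ * t * f (x + α y) := by
        rw [← mul_assoc, hq1, one_mul]
      have e2 : f (x + α y) = F (π x) / M := by
        rw [hf, map_add, ha1 y hy, add_sub_cancel_right]
      rw [e1]
      have h2 : 0 ≤ η₀ * t * f (x + α y) := mul_nonneg (by positivity) (hf0 _)
      have h3 := log_one_add_ge h2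
      have h4 : (η₀ * t * f (x + α y)) ^ 2 ≤ (η₀ * t) ^ 2 := by
        apply pow_le_pow_left₀ h2
        exact mul_le_of_le_one_right (by positivity) (hf1 _)
      rw [← e2]
      linarith
    calc (D₁.card : ℝ) * (η₀ * t * (E / M) - X.card * (η₀ * t) ^ 2)
        = ∑ x ∈ X, ∑ y ∈ D₁, (η₀ * t * (F (π x) / M) - (η₀ * t) ^ 2) := by
          simp_rw [sum_const, nsmul_eq_mul]
          rw [← mul_sum, sum_sub_distrib, sum_const, nsmul_eq_mul, ← mul_sum, ← sum_div, hE]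
      _ ≤ _ := sum_le_sum (fun x hx => sum_le_sum (fun y hy => h1 x hx y hy))
  -- the part D₀
  have hs0 : -(η₁ * t * ((D₀.card : ℝ) * ((E - M ^ 2 / (16 * K)) / M))) -
      2 * ((D₀.card : ℝ) * X.card) * (η₁ * t) ^ 2 ≤
      ∑ x ∈ X, ∑ y ∈ D₀, Real.log ((D.card : ℝ) / D₀.card * (η₀ * (1 - η₁ * t * f (x + α y)))) := by
    have h1 : ∀ x ∈ X, ∀ y ∈ D₀, -(η₁ * t * (F (π x + (π (α y) - a)) / M)) - 2 * (η₁ * t) ^ 2 ≤
        Real.log ((D.card : ℝ) / D₀.card * (η₀ * (1 - η₁ * t * f (x + α y)))) := by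
      intro x _ y hy
      have e1 : (D.card : ℝ) / D₀.card * (η₀ * (1 - η₁ * t * f (x + α y))) =
          1 - η₁ * t * f (x + α y) := by
        rw [← mul_assoc, hq0, one_mul]
      have e2 : f (x + α y) = F (π x + (π (α y) - a)) / M := by
        rw [hf, map_add, add_sub_assoc]
      rw [e1]
      have h2 : 0 ≤ η₁ * t * f (x + α y) := mul_nonneg (by positivity) (hf0 _)
      have h5 : η₁ * t * f (x + α y) ≤ η₁ * t := mul_le_of_le_one_right (by positivity) (hf1 _)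
      have h6 : η₁ * t ≤ 1 * (1 / 64) := mul_le_mul (by linarith) ht1 ht0.le (by norm_num)
      have h3 := log_one_sub_ge (show η₁ * t * f (x + α y) ≤ 1 / 2 by linarith)
      have h4 : (η₁ * t * f (x + α y)) ^ 2 ≤ (η₁ * t) ^ 2 := pow_le_pow_left₀ h2 h5 2
      rw [← e2]
      linarith
    -- non-invariance
    have hni : ∀ y ∈ D₀, ∑ x ∈ X, F (π x + (π (α y) - a)) ≤ E - M ^ 2 / (16 * K) := by
      intro y hy
      have h2 := noninv F (N := X.card) (fun T => by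
          simp_rw [hF]; exact sum_cl_le π X T) (z := z) hK (by rw [hF]; exact hz)
        (by rw [← hM]; exact hMp)
        (a := π (α y) - a) (ha0 y hy) (X.image π) (by
          intro c hc
          rw [hF, ne_eq, Nat.cast_eq_zero, card_eq_zero] at hc
          obtain ⟨x, hx⟩ := nonempty_iff_ne_empty.2 hc
          rw [mem_cl] at hx
          exact mem_image.2 ⟨x, hx.1, hx.2⟩)
      have e1 : E = ∑ c ∈ X.image π, F c ^ 2 := by
        rw [hE, sum_cl π X F]
        apply sum_congr rfl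
        intro c _
        rw [pow_two, hF c]
      have e2 : ∑ x ∈ X, F (π x + (π (α y) - a)) =
          ∑ c ∈ X.image π, F c * F (c + (π (α y) - a)) := by
        rw [sum_cl π X (fun c => F (c + (π (α y) - a)))]
        apply sum_congr rfl
        intro c _
        rw [hF c]
      rw [e1, e2, hM]
      linarith
    calc -(η₁ * t * ((D₀.card : ℝ) * ((E - M ^ 2 / (16 * K)) / M))) -
          2 * ((D₀.card : ℝ) * X.card) * (η₁ * t) ^ 2
        ≤ ∑ x ∈ X, ∑ y ∈ D₀, (-(η₁ * t * (F (π x + (π (α y) - a)) / M)) - 2 * (η₁ * t) ^ 2) := by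
          simp_rw [sum_sub_distrib, sum_neg_distrib, sum_const, nsmul_eq_mul, ← mul_sum]
          rw [sum_comm]
          have h2 : ∑ y ∈ D₀, ∑ x ∈ X, F (π x + (π (α y) - a)) / M ≤
              (D₀.card : ℝ) * ((E - M ^ 2 / (16 * K)) / M) := by
            rw [← nsmul_eq_mul, ← sum_const]
            apply sum_le_sum
            intro y hy
            rw [← sum_div]
            exact div_le_div_of_nonneg_right (hni y hy) hMp.le
          have h3 := mul_le_mul_of_nonneg_left h2 (show 0 ≤ η₁ * t by positivity)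
          have h4 : (X.card : ℝ) * ((D₀.card : ℝ) * (2 * (η₁ * t) ^ 2)) =
            2 * ((D₀.card : ℝ) * X.card) * (η₁ * t) ^ 2 := by ring
          linarith
      _ ≤ _ := sum_le_sum (fun x hx => sum_le_sum (fun y hy => h1 x hx y hy))
  refine le_trans ?_ (add_le_add hs1 hs0)
  have hXp : (0 : ℝ) ≤ X.card := by positivity
  have hD1 : (D₁.card : ℝ) = η₁ * D.card := by rw [hη₁, div_mul_cancel₀ _ hpD.ne']
  have hD0 : (D₀.card : ℝ) = η₀ * D.card := by rw [hη₀, div_mul_cancel₀ _ hpD.ne']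
  rw [← hη₁, ← hη₀]
  have := node_alg (E := E) hηs hη1p hη0p hpD hMp hKp hXp (by rw [hM, hF]; exact hz) ht
  rwa [← hD1, ← hD0] at this

end Pool.Agent.Helper84.SP
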