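import Pool.Agent.Helper84.SPNode2

set_option autoImplicit false

/-!
MP_120218_co: the node lemma for a very unequal splitting.
-/

open Finset

namespace Pool.Agent.Helper84.SP

variable {ι G Q : Type*} [AddCommGroup G] [DecidableEq G] [AddCommGroup Q] [DecidableEq Q]

theorem node_rare [DecidableEq ι] (π : G →+ Q) {α : ι → G} {X : Finset G} {D D₁ D₀ : Finset ι}
    (hdis : Disjoint D₁ D₀) (hD : D = D₁ ∪ D₀) (h₁ : D₁.Nonempty) (h₀ : D₀.Nonempty) {a : Q}
    (ha1 : ∀ y ∈ D₁, π (α y) = a) (ha0 : ∀ y ∈ D₀, π (α y) ≠ a) (z : Q) {s : ℝ} (hs0 : 0 < s)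
    (hs1 : s < 1) (hs : s ^ 2 * D.card = D₀.card) :
    J α X D₁ + J α X D₀ + D.card *
      (s ^ 2 * (-Real.log s) * (cl π X z).card - s * (X.card - (cl π X z).card)) ≤ J α X D := by
  have hp1 : (0 : ℝ) < D₁.card := by exact_mod_cast card_pos.2 h₁
  have hp0 : (0 : ℝ) < D₀.card := by exact_mod_cast card_pos.2 h₀
  have hsum : (D.card : ℝ) = D₁.card + D₀.card := by
    rw [hD, card_union_of_disjoint hdis]
    push_cast
    ring
  have hpD : (0 : ℝ) < D.card := by linarith
  have hlog : 0 < -Real.log s := by
    have := Real.log_neg hs0 hs1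
    linarith
  have hs2 : 0 < 1 - s ^ 2 := by nlinarith
  have hd1 : (1 - s ^ 2) * D.card = D₁.card := by linarith
  have hq1 : (D.card : ℝ) / D₁.card * (1 - s ^ 2) = 1 := by
    rw [← hd1, div_mul_eq_mul_div, mul_comm, div_self (by positivity)]
  have hq0 : (D.card : ℝ) / D₀.card * s ^ 2 = 1 := by
    rw [← hs, div_mul_eq_mul_div, mul_comm, div_self (by positivity)]
  have hsplit := J_split (α := α) (X := X) hdis hD h₁ h₀
    (fun x => if π x - a = z then 1 - s ^ 2 else 1 - s)
    (fun x => if π x - a = z then s ^ 2 else s)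
    (fun x => by
      split_ifs
      · exact hs2
      · linarith)
    (fun x => by
      split_ifs
      · positivity
      · exact hs0)
    (fun x => by
      split_ifs
      · linarith
      · linarith)
  refine le_trans ?_ hsplit
  apply add_le_add le_rfl
  have hcl : ∀ c : Q, ((X.filter (fun x => ¬ π x = c)).card : ℝ) =
      X.card - (cl π X c).card := by
    intro c
    have h := card_filter_add_card_filter_not (s := X) (fun x => π x = c)
    have h' : ((X.filter (fun x => π x = c)).card : ℝ) + (X.filter (fun x => ¬ π x = c)).card =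
        X.card := by exact_mod_cast h
    unfold cl
    linarith
  -- D₁
  have e1 : -((D₁.card : ℝ) * (s * (X.card - (cl π X z).card))) ≤
      ∑ x ∈ X, ∑ y ∈ D₁, Real.log ((D.card : ℝ) / D₁.card *
        (if π (x + α y) - a = z then 1 - s ^ 2 else 1 - s)) := by
    have h1 : ∀ x ∈ X, ∀ y ∈ D₁, (if ¬ π x = z then -s else 0) ≤
        Real.log ((D.card : ℝ) / D₁.card *
          (if π (x + α y) - a = z then 1 - s ^ 2 else 1 - s)) := by
      intro x _ y hy
      have e2 : π (x + α y) - a = π x := by rw [map_add, ha1 y hy, add_sub_cancel_right]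
      rw [e2]
      by_cases h : π x = z
      · rw [if_neg (not_not.2 h), if_pos h, hq1, Real.log_one]
      · rw [if_pos h, if_neg h]
        have h2 : (D.card : ℝ) / D₁.card * (1 - s) = (1 + s)⁻¹ := by
          rw [← hd1]
          have h3 : (1 - s ^ 2) = (1 - s) * (1 + s) := by ring
          have h4 : (1 - s) ≠ 0 := by linarith
          have h5 : (1 + s) ≠ 0 := by linarith
          rw [h3]
          field_simp
        rw [h2, Real.log_inv]
        have h6 := Real.log_le_sub_one_of_pos (show 0 < 1 + s by linarith)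
        linarith
    calc -((D₁.card : ℝ) * (s * (X.card - (cl π X z).card)))
        = ∑ x ∈ X, ∑ y ∈ D₁, (if ¬ π x = z then -s else 0) := by
          simp_rw [sum_const, nsmul_eq_mul]
          rw [← mul_sum, ← sum_filter, sum_const, nsmul_eq_mul, hcl z]
          ring
      _ ≤ _ := sum_le_sum (fun x hx => sum_le_sum (fun y hy => h1 x hx y hy))
  -- D₀
  have e0 : (D₀.card : ℝ) * ((-Real.log s) * (cl π X z).card) ≤
      ∑ x ∈ X, ∑ y ∈ D₀, Real.log ((D.card : ℝ) / D₀.card *
        (if π (x + α y) - a = z then s ^ 2 else s)) := by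
    have h1 : ∀ x ∈ X, ∀ y ∈ D₀, (if ¬ π x = z - (π (α y) - a) then -Real.log s else 0) ≤
        Real.log ((D.card : ℝ) / D₀.card *
          (if π (x + α y) - a = z then s ^ 2 else s)) := by
      intro x _ y hy
      have e2 : π (x + α y) - a = z ↔ π x = z - (π (α y) - a) := by
        rw [map_add, eq_sub_iff_add_eq, add_sub_assoc]
      by_cases h : π x = z - (π (α y) - a)
      · rw [if_neg (not_not.2 h), if_pos (e2.2 h), hq0, Real.log_one]
      · rw [if_pos h, if_neg (fun h' => h (e2.1 h'))]
        have h2 : (D.card : ℝ) / D₀.card * s = s⁻¹ := by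
          rw [← hs]
          field_simp
        rw [h2, Real.log_inv]
    calc (D₀.card : ℝ) * ((-Real.log s) * (cl π X z).card)
        = ∑ y ∈ D₀, (-Real.log s) * (cl π X z).card := by
          rw [sum_const, nsmul_eq_mul]
      _ ≤ ∑ y ∈ D₀, ∑ x ∈ X, (if ¬ π x = z - (π (α y) - a) then -Real.log s else 0) := by
          apply sum_le_sum
          intro y hy
          rw [← sum_filter, sum_const, nsmul_eq_mul, hcl, mul_comm]
          apply mul_le_mul_of_nonneg_right _ hlog.le
          have h2 : z - (π (α y) - a) ≠ z := by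
            intro h
            have : π (α y) - a = 0 := by
              have := congrArg (fun w => z - w) h
              simpa using this
            exact ha0 y hy (sub_eq_zero.1 this)
          have h3 := sum_cl_le π X {z, z - (π (α y) - a)}
          rw [sum_pair h2.symm] at h3
          linarith
      _ = ∑ x ∈ X, ∑ y ∈ D₀, (if ¬ π x = z - (π (α y) - a) then -Real.log s else 0) := sum_comm
      _ ≤ _ := sum_le_sum (fun x hx => sum_le_sum (fun y hy => h1 x hx y hy))
  refine le_trans ?_ (add_le_add e1 e0)
  have hXz : ((cl π X z).card : ℝ) ≤ X.card := by exact_mod_cast card_le_card (cl_subset π X z)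
  have h5 : (D₁.card : ℝ) * (s * (X.card - (cl π X z).card)) ≤
      D.card * (s * (X.card - (cl π X z).card)) := by
    apply mul_le_mul_of_nonneg_right _ (mul_nonneg hs0.le (by linarith))
    linarith
  rw [← hs]
  nlinarith

end Pool.Agent.Helper84.SP
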