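import Pool.Agent.Helper84.SPRare

set_option autoImplicit false

/-!
MP_120218_co: normalised form of the node lemmas, and the numerical inequalities.
-/

open Finset

namespace Pool.Agent.Helper84.SP

variable {ι G Q : Type*} [AddCommGroup G] [DecidableEq G] [AddCommGroup Q] [DecidableEq Q]

/-- the mutual information -/
noncomputable def I (α : ι → G) (X : Finset G) (D : Finset ι) : ℝ :=
  J α X D / (X.card * D.card)

theorem I_nonneg (α : ι → G) (X : Finset G) (D : Finset ι) : 0 ≤ I α X D :=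
  div_nonneg (J_nonneg _ _ _) (by positivity)

/-- the binary entropy -/
noncomputable def hh (η θ : ℝ) : ℝ := -(η * Real.log η) - θ * Real.log θ

theorem hh_symm (η θ : ℝ) : hh η θ = hh θ η := by unfold hh; ring

theorem hh_le {η θ : ℝ} (h : η + θ = 1) : hh η θ ≤ Real.log 2 := by
  have h1 : hh η θ = Real.binEntropy θ := by
    rw [Real.binEntropy_eq_negMulLog_add_negMulLog_one_sub]
    unfold hh Real.negMulLog
    have : 1 - θ = η := by linarith
    rw [this]
    ring
  rw [h1]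
  exact Real.binEntropy_le_log_two

theorem hh_small {η s : ℝ} (hs0 : 0 < s) (hs1 : s ≤ 1 / 24) (h : η + s ^ 2 = 1) :
    hh η (s ^ 2) ≤ 3 * (s ^ 2 * (-Real.log s)) := by
  have hs2 : s ^ 2 ≤ 1 / 24 := by nlinarith
  have hη : 0 < η := by linarith
  have h1 : 1 ≤ -Real.log s := by
    have h2 : Real.log s ≤ Real.log (1 / 24) := Real.log_le_log hs0 hs1
    have h3 : Real.log (1 / 24 : ℝ) ≤ -1 := by
      rw [Real.log_le_iff_le_exp (by norm_num)]
      have h4 := Real.exp_neg 1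
      have h5 : Real.exp 1 < 3 := lt_trans Real.exp_one_lt_d9 (by norm_num)
      rw [h4]
      have h6 : (3 : ℝ)⁻¹ ≤ (Real.exp 1)⁻¹ := by
        apply inv_anti₀ (Real.exp_pos 1) h5.le
      refine le_trans ?_ h6
      norm_num
    linarith
  have h2 : Real.log (s ^ 2) = 2 * Real.log s := by
    rw [Real.log_pow]; norm_num
  have h3 : -(η * Real.log η) ≤ s ^ 2 := by
    have h4 := Real.one_sub_inv_le_log_of_pos hη
    have h5 : η * (1 - η⁻¹) ≤ η * Real.log η := mul_le_mul_of_nonneg_left h4 hη.le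
    have h6 : η * (1 - η⁻¹) = η - 1 := by field_simp
    linarith
  unfold hh
  rw [h2]
  nlinarith [sq_nonneg s]

/-- the extra information gained by a splitting -/
theorem I_split {α : ι → G} {X : Finset G} {D D₁ D₀ : Finset ι} {t : ℝ}
    (hX : X.Nonempty) (hp1 : (0 : ℝ) < D₁.card) (hp0 : (0 : ℝ) < D₀.card)
    (hpD : (0 : ℝ) < D.card) (h : J α X D₁ + J α X D₀ + X.card * D.card * t ≤ J α X D) :
    (D₁.card / D.card : ℝ) * I α X D₁ + (D₀.card / D.card : ℝ) * I α X D₀ + t ≤ I α X D := by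
  have hXp : (0 : ℝ) < X.card := by exact_mod_cast card_pos.2 hX
  unfold I
  have e1 : (D₁.card / D.card : ℝ) * (J α X D₁ / (X.card * D₁.card)) =
      J α X D₁ / (X.card * D.card) := by field_simp
  have e0 : (D₀.card / D.card : ℝ) * (J α X D₀ / (X.card * D₀.card)) =
      J α X D₀ / (X.card * D.card) := by field_simp
  rw [e1, e0, ← add_div, le_div_iff₀ (by positivity), add_mul,
    div_mul_cancel₀ _ (by positivity)]
  linarith

theorem I_super [DecidableEq ι] {α : ι → G} {X : Finset G} {D D₁ D₀ : Finset ι}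
    (hX : X.Nonempty) (hdis : Disjoint D₁ D₀) (hD : D = D₁ ∪ D₀) (h₁ : D₁.Nonempty)
    (h₀ : D₀.Nonempty) :
    (D₁.card / D.card : ℝ) * I α X D₁ + (D₀.card / D.card : ℝ) * I α X D₀ ≤ I α X D := by
  have hp1 : (0 : ℝ) < D₁.card := by exact_mod_cast card_pos.2 h₁
  have hp0 : (0 : ℝ) < D₀.card := by exact_mod_cast card_pos.2 h₀
  have hsum : (D.card : ℝ) = D₁.card + D₀.card := by
    rw [hD, card_union_of_disjoint hdis]
    push_cast
    ring
  have hpD : (0 : ℝ) < D.card := by linarith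
  have h := J_split (α := α) (X := X) hdis hD h₁ h₀ (fun _ => (D₁.card / D.card : ℝ))
    (fun _ => (D₀.card / D.card : ℝ)) (fun _ => by positivity) (fun _ => by positivity)
    (fun _ => by rw [← add_div, ← hsum, div_self hpD.ne'])
  have e1 : (D.card : ℝ) / D₁.card * (D₁.card / D.card) = 1 := by field_simp
  have e0 : (D.card : ℝ) / D₀.card * (D₀.card / D.card) = 1 := by field_simp
  simp only [e1, e0, Real.log_one, sum_const_zero, add_zero] at h
  have := I_split (t := 0) hX hp1 hp0 hpD (by rw [mul_zero, add_zero]; exact h)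
  linarith

/-- rare splittings: either the class entropy is large or the gain is large -/
theorem side_rare [DecidableEq ι] (π : G →+ Q) {α : ι → G} {X : Finset G} {D D₁ D₀ : Finset ι}
    (hX : X.Nonempty)
    (hdis : Disjoint D₁ D₀) (hD : D = D₁ ∪ D₀) (h₁ : D₁.Nonempty) (h₀ : D₀.Nonempty) {a : Q}
    (ha1 : ∀ y ∈ D₁, π (α y) = a) (ha0 : ∀ y ∈ D₀, π (α y) ≠ a) {R lam : ℝ} (hR : 1 ≤ R)
    (hlam : 0 < lam) (hlamR : lam * R ≤ 1 / 6)
    (hθ : (D₀.card / D.card : ℝ) ≤ 1 / (576 * R ^ 2)) :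
    (D₁.card / D.card : ℝ) * I α X D₁ + (D₀.card / D.card : ℝ) * I α X D₀ +
      lam * R * hh (D₁.card / D.card) (D₀.card / D.card) ≤
      I α X D + lam * (D₁.card / D.card) * (Ent π X / X.card) := by
  have hp1 : (0 : ℝ) < D₁.card := by exact_mod_cast card_pos.2 h₁
  have hp0 : (0 : ℝ) < D₀.card := by exact_mod_cast card_pos.2 h₀
  have hXp : (0 : ℝ) < X.card := by exact_mod_cast card_pos.2 hX
  have hsum : (D.card : ℝ) = D₁.card + D₀.card := by
    rw [hD, card_union_of_disjoint hdis]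
    push_cast
    ring
  have hpD : (0 : ℝ) < D.card := by linarith
  have hR0 : 0 < R := by linarith
  obtain ⟨s, hs0, hsθ⟩ : ∃ s : ℝ, 0 < s ∧ s ^ 2 = D₀.card / D.card :=
    ⟨Real.sqrt (D₀.card / D.card), Real.sqrt_pos.2 (by positivity),
      Real.sq_sqrt (by positivity)⟩
  have hsR : s ≤ 1 / (24 * R) := by
    apply le_of_sq_le_sq _ (by positivity)
    rw [hsθ]
    refine hθ.trans (le_of_eq ?_)
    field_simp
    norm_num
  have hs24 : s ≤ 1 / 24 := by
    refine hsR.trans ?_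
    apply one_div_le_one_div_of_le (by norm_num)
    linarith
  have hs1 : s < 1 := by linarith
  have hsR' : s * R ≤ 1 / 24 := by
    have := mul_le_mul_of_nonneg_right hsR hR0.le
    refine this.trans (le_of_eq ?_)
    field_simp
  have hη : (D₁.card / D.card : ℝ) + s ^ 2 = 1 := by
    rw [hsθ, ← add_div, ← hsum, div_self hpD.ne']
  have hη12 : 1 / 2 ≤ (D₁.card / D.card : ℝ) := by nlinarith
  have hhs := hh_small hs0 hs24 hη
  rw [← hsθ]
  set η : ℝ := D₁.card / D.card with hηdef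
  obtain ⟨z, hmax, hz0⟩ := exists_max π hX
  have hzp : (0 : ℝ) < (cl π X z).card := by exact_mod_cast hz0
  have hzX : ((cl π X z).card : ℝ) ≤ X.card := by exact_mod_cast card_le_card (cl_subset π X z)
  have hnode := node_rare π (α := α) (X := X) hdis hD h₁ h₀ ha1 ha0 z hs0 hs1
    (by rw [hsθ, div_mul_cancel₀ _ hpD.ne'])
  obtain ⟨φ, hφ⟩ : ∃ φ : ℝ, φ = (cl π X z).card / X.card := ⟨_, rfl⟩
  have hφ0 : 0 < φ := by rw [hφ]; positivity
  have hφ1 : φ ≤ 1 := by rw [hφ]; exact (div_le_one hXp).2 hzX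
  have hφX : ((cl π X z).card : ℝ) = φ * X.card := by rw [hφ, div_mul_cancel₀ _ hXp.ne']
  have hI := I_split (α := α) (X := X) (D := D) (D₁ := D₁) (D₀ := D₀)
    (t := s ^ 2 * (-Real.log s) * φ - s * (1 - φ)) hX hp1 hp0 hpD (by
      refine le_trans (le_of_eq ?_) hnode
      rw [hφX]
      ring)
  rw [← hηdef, ← hsθ] at hI
  have hEnt := Ent_ge hX hmax
  have hEnt' : 1 - φ ≤ Ent π X / X.card := by
    rw [le_div_iff₀ hXp]
    refine le_trans ?_ hEnt
    rw [mul_comm]
    apply mul_le_mul_of_nonneg_left _ hXp.le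
    have h1 := Real.one_sub_inv_le_log_of_pos (div_pos hXp hzp)
    refine le_trans (le_of_eq ?_) h1
    rw [inv_div, hφ]
  have hE0 : 0 ≤ Ent π X / X.card := div_nonneg (Ent_nonneg _ _) hXp.le
  obtain ⟨e, he⟩ : ∃ e : ℝ, e = Ent π X / X.card := ⟨_, rfl⟩
  rw [← he] at hEnt' hE0 ⊢
  have hL : 0 < -Real.log s := by
    have := Real.log_neg hs0 hs1
    linarith
  obtain ⟨L, hLd⟩ : ∃ L : ℝ, L = -Real.log s := ⟨_, rfl⟩
  rw [← hLd] at hL hhs hI
  have hsL : s * L ≤ 1 := by
    have h1 := Real.one_sub_inv_le_log_of_pos hs0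
    have h2 : L ≤ s⁻¹ := by rw [hLd]; linarith
    have h3 := mul_le_mul_of_nonneg_left h2 hs0.le
    rwa [mul_inv_cancel₀ hs0.ne'] at h3
  by_cases hcase : lam * R * hh η (s ^ 2) ≤ lam * η * e
  · have hsup := I_super (α := α) hX hdis hD h₁ h₀
    rw [← hηdef, ← hsθ] at hsup
    linarith
  · push Not at hcase
    have hη0 : 0 ≤ η := by linarith
    have h1 : η * e < R * hh η (s ^ 2) := by
      have h2 : lam * (η * e) < lam * (R * hh η (s ^ 2)) := by nlinarith
      exact lt_of_mul_lt_mul_left h2 hlam.le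
    have h2 : e ≤ 6 * R * (s ^ 2 * L) := by
      have h3 : (1 / 2) * e ≤ η * e := mul_le_mul_of_nonneg_right hη12 hE0
      have h4 : R * hh η (s ^ 2) ≤ R * (3 * (s ^ 2 * L)) := mul_le_mul_of_nonneg_left hhs hR0.le
      linarith
    -- gain
    have h3 : 1 - φ ≤ 6 * R * (s ^ 2 * L) := by linarith
    have h4 : 6 * R * (s ^ 2 * L) ≤ 1 / 4 := by
      have : 6 * R * (s ^ 2 * L) = 6 * (s * R) * (s * L) := by ring
      rw [this]
      have h5 : 0 ≤ s * R := by positivity
      nlinarith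
    have h5 : s * (1 - φ) ≤ s ^ 2 * L * (1 / 4) := by
      have h6 := mul_le_mul_of_nonneg_left h3 hs0.le
      have h7 : s * (6 * R * (s ^ 2 * L)) = s ^ 2 * L * (6 * (s * R)) := by ring
      have h8 : s ^ 2 * L * (6 * (s * R)) ≤ s ^ 2 * L * (1 / 4) := by
        apply mul_le_mul_of_nonneg_left _ (by positivity)
        linarith
      linarith
    have h6 : s ^ 2 * L * (3 / 4) ≤ s ^ 2 * L * φ := by
      apply mul_le_mul_of_nonneg_left _ (by positivity)
      linarith
    have h7 : lam * R * hh η (s ^ 2) ≤ 1 / 6 * (3 * (s ^ 2 * L)) := by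
      have h8 : lam * R * hh η (s ^ 2) ≤ lam * R * (3 * (s ^ 2 * L)) :=
        mul_le_mul_of_nonneg_left hhs (by positivity)
      have h9 : lam * R * (3 * (s ^ 2 * L)) ≤ 1 / 6 * (3 * (s ^ 2 * L)) :=
        mul_le_mul_of_nonneg_right hlamR (by positivity)
      linarith
    have h8 : 0 ≤ lam * η * e := mul_nonneg (mul_nonneg hlam.le hη0) hE0
    linarith

/-- balanced splittings: gain if the class entropy is at most `log K` -/
theorem side_mid [DecidableEq ι] (π : G →+ Q) {α : ι → G} {X : Finset G} {D D₁ D₀ : Finset ι}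
    (hX : X.Nonempty)
    (hdis : Disjoint D₁ D₀) (hD : D = D₁ ∪ D₀) (h₁ : D₁.Nonempty) (h₀ : D₀.Nonempty) {a : Q}
    (ha1 : ∀ y ∈ D₁, π (α y) = a) {K : ℕ} (hK : 1 ≤ K)
    (ha0 : ∀ y ∈ D₀, ∀ j : ℕ, 1 ≤ j → j ≤ 2 * K → j • (π (α y) - a) ≠ 0)
    (hE : Ent π X / X.card ≤ Real.log K) :
    (D₁.card / D.card : ℝ) * I α X D₁ + (D₀.card / D.card : ℝ) * I α X D₀ +
      (D₁.card / D.card : ℝ) * (D₀.card / D.card : ℝ) / (2048 * (K : ℝ) ^ 4) ≤ I α X D := by
  have hp1 : (0 : ℝ) < D₁.card := by exact_mod_cast card_pos.2 h₁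
  have hp0 : (0 : ℝ) < D₀.card := by exact_mod_cast card_pos.2 h₀
  have hXp : (0 : ℝ) < X.card := by exact_mod_cast card_pos.2 hX
  have hKp : (0 : ℝ) < K := by exact_mod_cast hK
  have hsum : (D.card : ℝ) = D₁.card + D₀.card := by
    rw [hD, card_union_of_disjoint hdis]
    push_cast
    ring
  have hpD : (0 : ℝ) < D.card := by linarith
  obtain ⟨z, hmax, hz0⟩ := exists_max π hX
  have hzp : (0 : ℝ) < (cl π X z).card := by exact_mod_cast hz0
  apply I_split hX hp1 hp0 hpD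
  apply node_mid π hdis hD h₁ h₀ ha1 hK ha0 hmax _ hz0
  have h1 := Ent_ge hX hmax
  have h2 : Ent π X ≤ X.card * Real.log K := by
    rw [div_le_iff₀ hXp] at hE
    linarith
  have h3 : Real.log ((X.card : ℝ) / (cl π X z).card) ≤ Real.log K :=
    le_of_mul_le_mul_left (h1.trans h2) hXp
  have h4 := (Real.log_le_log_iff (by positivity) hKp).1 h3
  rwa [div_le_iff₀ hzp] at h4

end Pool.Agent.Helper84.SP
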