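import Mathlib

set_option autoImplicit false

open Set Filter Topology

namespace Pool.Agent.Helper84.SlowWild

/-! ### iterated square roots -/

/-- iterated square root -/
noncomputable def sq (k : ℕ) (s : ℝ) : ℝ := Real.sqrt^[k] s

lemma sq_zero (s : ℝ) : sq 0 s = s := rfl

lemma sq_succ (k : ℕ) (s : ℝ) : sq (k + 1) s = Real.sqrt (sq k s) := by
  simp only [sq, Function.iterate_succ', Function.comp]

lemma sq_succ' (k : ℕ) (s : ℝ) : sq (k + 1) s = sq k (Real.sqrt s) := by
  simp only [sq, Function.iterate_succ, Function.comp]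

lemma one_le_sq (k : ℕ) {s : ℝ} (hs : 1 ≤ s) : 1 ≤ sq k s := by
  induction k with
  | zero => exact hs
  | succ k ih => rw [sq_succ]; exact Real.one_le_sqrt.mpr ih

lemma abs_sqrt_sub_le {a b : ℝ} (ha : 1 ≤ a) (hb : 1 ≤ b) :
    |Real.sqrt a - Real.sqrt b| ≤ |a - b| / 2 := by
  have h1 : a - b = (Real.sqrt a - Real.sqrt b) * (Real.sqrt a + Real.sqrt b) := by
    have := Real.mul_self_sqrt (show 0 ≤ a by linarith)
    have := Real.mul_self_sqrt (show 0 ≤ b by linarith)
    nlinarith
  have h2 : 2 ≤ Real.sqrt a + Real.sqrt b := by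
    have := Real.one_le_sqrt.mpr ha
    have := Real.one_le_sqrt.mpr hb
    linarith
  rw [h1, abs_mul, abs_of_pos (show 0 < Real.sqrt a + Real.sqrt b by linarith), le_div_iff₀ (by norm_num)]
  exact mul_le_mul_of_nonneg_left h2 (abs_nonneg _)

lemma abs_sq_sub_le (k : ℕ) {a b : ℝ} (ha : 1 ≤ a) (hb : 1 ≤ b) :
    |sq k a - sq k b| ≤ |a - b| := by
  induction k with
  | zero => exact le_rfl
  | succ k ih =>
    rw [sq_succ, sq_succ]
    refine (abs_sqrt_sub_le (one_le_sq k ha) (one_le_sq k hb)).trans ?_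
    have := abs_nonneg (sq k a - sq k b)
    linarith

lemma continuous_sq (k : ℕ) : Continuous (sq k) := by
  unfold sq
  exact Real.continuous_sqrt.iterate k

lemma exists_sin {s a : ℝ} (ha : |a| ≤ 1) : ∃ s', s ≤ s' ∧ s' ≤ s + 2 * Real.pi ∧ Real.sin s' = a := by
  obtain ⟨k, hk⟩ : ∃ k : ℤ, s ≤ Real.arcsin a + k * (2 * Real.pi) ∧
      Real.arcsin a + k * (2 * Real.pi) ≤ s + 2 * Real.pi := by
    refine ⟨⌈(s - Real.arcsin a) / (2 * Real.pi)⌉, ?_, ?_⟩
    · have := Int.le_ceil ((s - Real.arcsin a) / (2 * Real.pi))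
      rw [div_le_iff₀ (by positivity)] at this
      linarith
    · have := (Int.ceil_lt_add_one ((s - Real.arcsin a) / (2 * Real.pi))).le
      have h2 : ((⌈(s - Real.arcsin a) / (2 * Real.pi)⌉ : ℤ) : ℝ) * (2 * Real.pi) ≤
          ((s - Real.arcsin a) / (2 * Real.pi) + 1) * (2 * Real.pi) :=
        mul_le_mul_of_nonneg_right this (by positivity)
      rw [add_mul, div_mul_cancel₀ _ (by positivity)] at h2
      linarith
  refine ⟨_, hk.1, hk.2, ?_⟩
  rw [Real.sin_add_int_mul_two_pi]
  exact Real.sin_arcsin (abs_le.mp ha).1 (abs_le.mp ha).2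

/-- The slow curve passes near every target. -/
lemma dense_aux (n : ℕ) : ∀ (a : ℕ → ℝ), (∀ i, |a i| ≤ 1) → ∀ ε : ℝ, 0 < ε → ∀ R : ℝ,
    ∃ s : ℝ, R ≤ s ∧ 1 ≤ s ∧ ∀ i < n, |Real.sin (sq (i + 1) s) - a i| < ε := by
  induction n with
  | zero =>
    intro a _ ε _ R
    exact ⟨max R 1, le_max_left _ _, le_max_right _ _, fun i hi => absurd hi (Nat.not_lt_zero i)⟩
  | succ n ih =>
    intro a ha ε hε R
    obtain ⟨s', hs'R, hs'1, hs'⟩ := ih (fun i => a (i + 1)) (fun i => ha (i + 1)) (ε / 2)
      (by linarith) (max (max R 1) ((2 * Real.pi / ε + 1) ^ 2))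
    have hR1 : R ≤ s' := le_trans (le_trans (le_max_left _ _) (le_max_left _ _)) hs'R
    have hbig : (2 * Real.pi / ε + 1) ^ 2 ≤ s' := le_trans (le_max_right _ _) hs'R
    obtain ⟨s'', h1, h2, h3⟩ := exists_sin (s := s') (ha 0)
    have hs''1 : 1 ≤ s'' := hs'1.trans h1
    refine ⟨s'' ^ 2, ?_, ?_, ?_⟩
    · nlinarith
    · nlinarith
    · intro i hi
      have hsqrt : Real.sqrt (s'' ^ 2) = s'' := Real.sqrt_sq (by linarith)
      rw [sq_succ', hsqrt]
      rcases Nat.eq_zero_or_pos i with rfl | hpos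
      · rw [sq_zero, h3]; simpa using hε
      · obtain ⟨j, rfl⟩ : ∃ j, i = j + 1 := ⟨i - 1, by omega⟩
        have hj : j < n := by omega
        have h4 := hs' j hj
        have h5 : |Real.sin (sq (j + 1) s'') - Real.sin (sq (j + 1) s')| ≤ ε / 2 := by
          refine (Real.abs_sin_sub_sin_le _ _).trans ?_
          rw [sq_succ', sq_succ']
          refine (abs_sq_sub_le j (Real.one_le_sqrt.mpr hs''1) (Real.one_le_sqrt.mpr hs'1)).trans ?_
          have e1 : s'' - s' = (Real.sqrt s'' - Real.sqrt s') * (Real.sqrt s'' + Real.sqrt s') := by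
            have := Real.mul_self_sqrt (show 0 ≤ s'' by linarith)
            have := Real.mul_self_sqrt (show 0 ≤ s' by linarith)
            nlinarith
          have e2 : Real.sqrt s' ≤ Real.sqrt s'' := Real.sqrt_le_sqrt h1
          have e3 : 2 * Real.pi / ε + 1 ≤ Real.sqrt s' := Real.le_sqrt_of_sq_le hbig
          have e4 : 0 < 2 * Real.pi / ε := by positivity
          rw [abs_of_nonneg (by linarith)]
          have e5 : (Real.sqrt s'' - Real.sqrt s') * (2 * (2 * Real.pi / ε)) ≤ 2 * Real.pi := by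
            calc (Real.sqrt s'' - Real.sqrt s') * (2 * (2 * Real.pi / ε))
                ≤ (Real.sqrt s'' - Real.sqrt s') * (Real.sqrt s'' + Real.sqrt s') := by
                  apply mul_le_mul_of_nonneg_left _ (by linarith)
                  linarith
              _ = s'' - s' := e1.symm
              _ ≤ 2 * Real.pi := by linarith
          have e6 : (Real.sqrt s'' - Real.sqrt s') * (2 * (2 * Real.pi / ε))
              = ((Real.sqrt s'' - Real.sqrt s') * 2 / ε) * (2 * Real.pi) := by ring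
          rw [e6] at e5
          have e7 : (Real.sqrt s'' - Real.sqrt s') * 2 / ε ≤ 1 := by
            by_contra hcon
            push Not at hcon
            have := mul_lt_mul_of_pos_right hcon (show 0 < 2 * Real.pi by positivity)
            linarith
          rw [div_le_one hε] at e7
          linarith
        calc |Real.sin (sq (j + 1) s'') - a (j + 1)|
            ≤ |Real.sin (sq (j + 1) s'') - Real.sin (sq (j + 1) s')|
              + |Real.sin (sq (j + 1) s') - a (j + 1)| := abs_sub_le _ _ _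
          _ < ε := by linarith

/-! ### the wild curve in the parameter `y` -/

/-- i-th coordinate of the wild curve -/
noncomputable def Om (i : ℕ) (y : ℝ) : ℝ :=
  Real.cos (Real.pi * y) * Real.sin (sq (i + 1) (1 + y))

lemma continuous_Om (i : ℕ) : Continuous (Om i) := by
  unfold Om
  exact (Real.continuous_cos.comp (continuous_const.mul continuous_id)).mul
    (Real.continuous_sin.comp ((continuous_sq _).comp (continuous_const.add continuous_id)))

lemma Om_lip (i : ℕ) {y z : ℝ} (hy : 0 ≤ y) (hz : 0 ≤ z) :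
    |Om i y - Om i z| ≤ (Real.pi + 1) * |y - z| := by
  unfold Om
  set A := Real.cos (Real.pi * y)
  set B := Real.cos (Real.pi * z)
  set C := Real.sin (sq (i + 1) (1 + y))
  set D := Real.sin (sq (i + 1) (1 + z))
  have h1 : |A - B| ≤ Real.pi * |y - z| := by
    refine (Real.abs_cos_sub_cos_le _ _).trans ?_
    rw [← mul_sub, abs_mul, abs_of_pos Real.pi_pos]
  have h2 : |C - D| ≤ |y - z| := by
    refine (Real.abs_sin_sub_sin_le _ _).trans ?_
    refine (abs_sq_sub_le (i + 1) (by linarith) (by linarith)).trans ?_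
    simp
  have hC : |C| ≤ 1 := Real.abs_sin_le_one _
  have hB : |B| ≤ 1 := Real.abs_cos_le_one _
  have h3 : A * C - B * D = (A - B) * C + B * (C - D) := by ring
  rw [h3]
  calc |(A - B) * C + B * (C - D)| ≤ |(A - B) * C| + |B * (C - D)| := abs_add_le _ _
    _ = |A - B| * |C| + |B| * |C - D| := by rw [abs_mul, abs_mul]
    _ ≤ (Real.pi * |y - z|) * 1 + 1 * |y - z| := by
      gcongr
    _ = (Real.pi + 1) * |y - z| := by ring

lemma sqrt_diff_tendsto (c : ℝ) (hc : 0 ≤ c) :
    Tendsto (fun y : ℝ => Real.sqrt (1 + (y + c)) - Real.sqrt (1 + y)) atTop (𝓝 0) := by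
  have h1 : Tendsto (fun y : ℝ => c / (Real.sqrt (1 + y))) atTop (𝓝 0) := by
    apply Tendsto.div_atTop tendsto_const_nhds
    exact Real.tendsto_sqrt_atTop.comp (tendsto_atTop_add_const_left _ _ tendsto_id)
  refine squeeze_zero' ?_ ?_ h1
  · filter_upwards with y
    have : Real.sqrt (1 + y) ≤ Real.sqrt (1 + (y + c)) := Real.sqrt_le_sqrt (by linarith)
    linarith
  · filter_upwards [eventually_ge_atTop 0] with y hy
    have hpos : 0 < Real.sqrt (1 + y) := Real.sqrt_pos.mpr (by linarith)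
    rw [le_div_iff₀ hpos]
    have e1 := Real.mul_self_sqrt (show 0 ≤ 1 + (y + c) by linarith)
    have e2 := Real.mul_self_sqrt (show 0 ≤ 1 + y by linarith)
    have e3 : Real.sqrt (1 + y) ≤ Real.sqrt (1 + (y + c)) := Real.sqrt_le_sqrt (by linarith)
    nlinarith

lemma sin_sq_shift (i : ℕ) {y y' : ℝ} (hy : 0 ≤ y) (hy' : 0 ≤ y') :
    |Real.sin (sq (i + 1) (1 + y')) - Real.sin (sq (i + 1) (1 + y))|
      ≤ |Real.sqrt (1 + y') - Real.sqrt (1 + y)| := by
  refine (Real.abs_sin_sub_sin_le _ _).trans ?_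
  rw [sq_succ', sq_succ']
  exact abs_sq_sub_le i (Real.one_le_sqrt.mpr (by linarith)) (Real.one_le_sqrt.mpr (by linarith))

lemma Om_anti (i : ℕ) : Tendsto (fun y : ℝ => Om i (y + 1) + Om i y) atTop (𝓝 0) := by
  have h := sqrt_diff_tendsto 1 zero_le_one
  refine squeeze_zero_norm' ?_ h
  filter_upwards [eventually_ge_atTop 0] with y hy
  unfold Om
  have h1 : Real.cos (Real.pi * (y + 1)) = - Real.cos (Real.pi * y) := by
    rw [mul_add, mul_one, Real.cos_add_pi]
  rw [h1]
  have h2 : -Real.cos (Real.pi * y) * Real.sin (sq (i + 1) (1 + (y + 1)))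
      + Real.cos (Real.pi * y) * Real.sin (sq (i + 1) (1 + y))
      = - (Real.cos (Real.pi * y) * (Real.sin (sq (i + 1) (1 + (y + 1)))
        - Real.sin (sq (i + 1) (1 + y)))) := by ring
  rw [h2, norm_neg, Real.norm_eq_abs, abs_mul]
  have h3 : Real.sqrt (1 + y) ≤ Real.sqrt (1 + (y + 1)) := Real.sqrt_le_sqrt (by linarith)
  calc |Real.cos (Real.pi * y)| * _ ≤ 1 * |Real.sqrt (1 + (y + 1)) - Real.sqrt (1 + y)| := by
        apply mul_le_mul (Real.abs_cos_le_one _) (sin_sq_shift i hy (by linarith)) (abs_nonneg _)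
          zero_le_one
    _ = _ := by rw [one_mul, abs_of_nonneg (by linarith)]

/-- the wild curve comes near every target at arbitrarily large parameters -/
lemma Om_dense (n : ℕ) (a : ℕ → ℝ) (ha : ∀ i, |a i| ≤ 1) (ε : ℝ) (hε : 0 < ε) (R : ℝ) :
    ∃ y : ℝ, R ≤ y ∧ 0 ≤ y ∧ ∀ i < n, |Om i y - a i| < ε := by
  have h := sqrt_diff_tendsto 2 zero_le_two
  obtain ⟨R', hR'⟩ := (h.eventually (gt_mem_nhds (show (0 : ℝ) < ε / 2 by linarith))).exists_forall_of_atTop
  obtain ⟨s, hsR, hs1, hs⟩ := dense_aux n a ha (ε / 2) (by linarith) (max (R + 1) (R' + 1))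
  have h1 : R + 1 ≤ s := (le_max_left _ _).trans hsR
  have h2 : R' + 1 ≤ s := (le_max_right _ _).trans hsR
  set y := s - 1 with hy
  have hy0 : 0 ≤ y := by linarith
  set z : ℝ := (⌈y / 2⌉ : ℤ) * 2 with hz
  have hyz : y ≤ z := by
    have := Int.le_ceil (y / 2)
    rw [div_le_iff₀ (by norm_num)] at this
    exact this
  have hzy : z ≤ y + 2 := by
    have := (Int.ceil_lt_add_one (y / 2)).le
    have : ((⌈y / 2⌉ : ℤ) : ℝ) * 2 ≤ (y / 2 + 1) * 2 := mul_le_mul_of_nonneg_right this (by norm_num)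
    linarith
  refine ⟨z, by linarith, by linarith, ?_⟩
  intro i hi
  have hcos : Real.cos (Real.pi * z) = 1 := by
    have : Real.pi * z = (⌈y / 2⌉ : ℤ) * (2 * Real.pi) := by rw [hz]; ring
    rw [this, Real.cos_int_mul_two_pi]
  unfold Om
  rw [hcos, one_mul]
  have h3 := sin_sq_shift i hy0 (show 0 ≤ z by linarith)
  have h4 : |Real.sqrt (1 + z) - Real.sqrt (1 + y)| ≤ Real.sqrt (1 + (y + 2)) - Real.sqrt (1 + y) := by
    have e1 : Real.sqrt (1 + y) ≤ Real.sqrt (1 + z) := Real.sqrt_le_sqrt (by linarith)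
    have e2 : Real.sqrt (1 + z) ≤ Real.sqrt (1 + (y + 2)) := Real.sqrt_le_sqrt (by linarith)
    rw [abs_of_nonneg (by linarith)]
    linarith
  have h5 := hR' y (by linarith)
  have h6 := hs i hi
  have h7 : (1 : ℝ) + y = s := by rw [hy]; ring
  rw [h7] at h3 h4 h5
  calc |Real.sin (sq (i + 1) (1 + z)) - a i|
      ≤ |Real.sin (sq (i + 1) (1 + z)) - Real.sin (sq (i + 1) s)|
        + |Real.sin (sq (i + 1) s) - a i| := abs_sub_le _ _ _
    _ < ε := by linarith

/-! ### the double logarithmic scale -/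

/-- `L r = log (1 + 1 / r)`. -/
noncomputable def L (r : ℝ) : ℝ := Real.log (1 + r) - Real.log r

/-- `theta r` is the base two logarithm of `1 + log (1 + 1/r)`. -/
noncomputable def theta (r : ℝ) : ℝ := Real.log (1 + L r) / Real.log 2

lemma L_pos {r : ℝ} (hr : 0 < r) : 0 < L r := by
  unfold L
  have := Real.log_lt_log hr (show r < 1 + r by linarith)
  linarith

lemma log2_pos : 0 < Real.log 2 := Real.log_pos (by norm_num)

lemma theta_nonneg {r : ℝ} (hr : 0 < r) : 0 ≤ theta r := by
  unfold theta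
  apply div_nonneg _ log2_pos.le
  exact Real.log_nonneg (by linarith [L_pos hr])

lemma tendsto_L {α : Type*} {l : Filter α} {r : α → ℝ} (hr : ∀ᶠ a in l, 0 < r a)
    (h0 : Tendsto r l (𝓝 0)) : Tendsto (fun a => L (r a)) l atTop := by
  have h1 : Tendsto (fun a => Real.log (r a)) l atBot := by
    have : Tendsto r l (𝓝[>] 0) := tendsto_nhdsWithin_iff.mpr ⟨h0, hr⟩
    exact Real.tendsto_log_nhdsGT_zero.comp this
  have h2 : Tendsto (fun a => - Real.log (r a)) l atTop := tendsto_neg_atBot_atTop.comp h1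
  refine tendsto_atTop_mono' l ?_ h2
  filter_upwards [hr] with a ha
  unfold L
  have : 0 ≤ Real.log (1 + r a) := Real.log_nonneg (by linarith)
  linarith

lemma tendsto_theta {α : Type*} {l : Filter α} {r : α → ℝ} (hr : ∀ᶠ a in l, 0 < r a)
    (h0 : Tendsto r l (𝓝 0)) : Tendsto (fun a => theta (r a)) l atTop := by
  unfold theta
  apply Tendsto.atTop_div_const log2_pos
  exact Real.tendsto_log_atTop.comp (tendsto_atTop_add_const_left _ _ (tendsto_L hr h0))

lemma continuousAt_theta {r : ℝ} (hr : 0 < r) : ContinuousAt theta r := by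
  unfold theta L
  have h1 : ContinuousAt (fun r : ℝ => Real.log (1 + r) - Real.log r) r := by
    apply ContinuousAt.sub
    · exact ContinuousAt.log (by fun_prop) (by linarith)
    · exact Real.continuousAt_log hr.ne'
  apply ContinuousAt.div_const
  apply ContinuousAt.log (by fun_prop)
  have := L_pos hr
  unfold L at this
  linarith

/-- If `A → ∞` and `B - c A` converges (with `c > 0`) then `log B - log A → log c`. -/
lemma log_diff {α : Type*} {l : Filter α} {A B : α → ℝ} {c d : ℝ} (hc : 0 < c)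
    (hA : Tendsto A l atTop) (hAB : Tendsto (fun a => B a - c * A a) l (𝓝 d)) :
    Tendsto (fun a => Real.log (B a) - Real.log (A a)) l (𝓝 (Real.log c)) := by
  have h1 : Tendsto (fun a => (B a - c * A a) / A a + c) l (𝓝 (0 + c)) :=
    (hAB.div_atTop hA).add_const c
  rw [zero_add] at h1
  have h2 : Tendsto (fun a => Real.log ((B a - c * A a) / A a + c)) l (𝓝 (Real.log c)) :=
    (Real.continuousAt_log hc.ne').tendsto.comp h1
  refine h2.congr' ?_
  have h3 : ∀ᶠ a in l, 0 < (B a - c * A a) / A a + c := h1.eventually (lt_mem_nhds hc)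
  filter_upwards [h3, hA.eventually_gt_atTop 0] with a ha1 ha2
  have h4 : (B a - c * A a) / A a + c = B a / A a := by
    field_simp
    ring
  rw [h4] at ha1 ⊢
  have hB : 0 < B a := by
    have := mul_pos ha1 ha2
    rwa [div_mul_cancel₀ _ ha2.ne'] at this
  rw [Real.log_div hB.ne' ha2.ne']

lemma theta_scale {α : Type*} {l : Filter α} {r r' : α → ℝ} {lam : ℝ} (hlam : 0 < lam)
    (hr : ∀ᶠ a in l, 0 < r a) (h0 : Tendsto r l (𝓝 0))
    (hq : Tendsto (fun a => r' a / r a) l (𝓝 lam)) :
    Tendsto (fun a => theta (r' a) - theta (r a)) l (𝓝 0) := by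
  have hq' : ∀ᶠ a in l, 0 < r' a / r a := hq.eventually (lt_mem_nhds hlam)
  have hr' : ∀ᶠ a in l, 0 < r' a := by
    filter_upwards [hr, hq'] with a h1 h2
    have := mul_pos h2 h1
    rwa [div_mul_cancel₀ _ h1.ne'] at this
  have h0' : Tendsto r' l (𝓝 0) := by
    have : Tendsto (fun a => r' a / r a * r a) l (𝓝 (lam * 0)) := hq.mul h0
    rw [mul_zero] at this
    refine this.congr' ?_
    filter_upwards [hr] with a ha
    rw [div_mul_cancel₀ _ ha.ne']
  have hlog : ∀ {q : α → ℝ}, Tendsto q l (𝓝 0) → Tendsto (fun a => Real.log (1 + q a)) l (𝓝 0) := by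
    intro q hqq
    have h := (Real.continuousAt_log (show (1 : ℝ) ≠ 0 by norm_num)).tendsto
    rw [Real.log_one] at h
    refine h.comp ?_
    have := hqq.const_add 1
    rwa [add_zero] at this
  have hd : Tendsto (fun a => L (r' a) - L (r a)) l (𝓝 (0 - 0 - Real.log lam)) := by
    have h1 := ((hlog h0').sub (hlog h0)).sub
      ((Real.continuousAt_log hlam.ne').tendsto.comp hq)
    refine h1.congr' ?_
    filter_upwards [hr, hr'] with a ha ha'
    simp only [Function.comp, L]
    rw [Real.log_div ha'.ne' ha.ne']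
    ring
  have hA : Tendsto (fun a => 1 + L (r a)) l atTop :=
    tendsto_atTop_add_const_left _ _ (tendsto_L hr h0)
  have h2 := log_diff (B := fun a => 1 + L (r' a)) (c := 1) one_pos hA
    (d := 0 - 0 - Real.log lam) (by
      refine hd.congr ?_
      intro a; ring)
  rw [Real.log_one] at h2
  have h3 := h2.div_const (Real.log 2)
  rw [zero_div] at h3
  refine h3.congr ?_
  intro a
  unfold theta
  ring

lemma theta_square {α : Type*} {l : Filter α} {r : α → ℝ}
    (hr : ∀ᶠ a in l, 0 < r a) (h0 : Tendsto r l (𝓝 0)) :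
    Tendsto (fun a => theta (r a ^ 2) - (theta (r a) + 1)) l (𝓝 0) := by
  have hlog : ∀ {q : α → ℝ}, Tendsto q l (𝓝 0) → Tendsto (fun a => Real.log (1 + q a)) l (𝓝 0) := by
    intro q hqq
    have h := (Real.continuousAt_log (show (1 : ℝ) ≠ 0 by norm_num)).tendsto
    rw [Real.log_one] at h
    refine h.comp ?_
    have := hqq.const_add 1
    rwa [add_zero] at this
  have h0' : Tendsto (fun a => r a ^ 2) l (𝓝 0) := by
    have := h0.pow 2
    simpa using this
  have hd : Tendsto (fun a => L (r a ^ 2) - 2 * L (r a)) l (𝓝 (0 - 2 * 0)) := by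
    have h1 := (hlog h0').sub ((hlog h0).const_mul 2)
    refine h1.congr' ?_
    filter_upwards [hr] with a ha
    simp only [L]
    rw [Real.log_pow]
    push_cast
    ring
  have hA : Tendsto (fun a => 1 + L (r a)) l atTop :=
    tendsto_atTop_add_const_left _ _ (tendsto_L hr h0)
  have h2 := log_diff (B := fun a => 1 + L (r a ^ 2)) (c := 2) two_pos hA
    (d := (0 - 2 * 0) - 1) (by
      refine (hd.sub_const 1).congr ?_
      intro a; ring)
  have h3 := (h2.div_const (Real.log 2)).sub_const 1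
  rw [div_self log2_pos.ne', sub_self] at h3
  refine h3.congr ?_
  intro a
  unfold theta
  ring

/-- every large value is taken by `theta` at a small positive argument -/
lemma exists_theta (δ : ℝ) (hδ : 0 < δ) :
    ∃ R : ℝ, ∀ y, R ≤ y → ∃ r, 0 < r ∧ r < δ ∧ theta r = y := by
  refine ⟨1 / (δ * Real.log 2) + 1, ?_⟩
  intro y hy
  have hl := log2_pos
  have hy1 : 1 / δ < y * Real.log 2 := by
    have h1 : 1 / (δ * Real.log 2) < y := by linarith
    rw [div_lt_iff₀ (by positivity)] at h1
    rw [div_lt_iff₀ hδ]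
    linarith
  set E := Real.exp (y * Real.log 2) - 1 with hE
  have hE1 : y * Real.log 2 ≤ E := by
    have := Real.add_one_le_exp (y * Real.log 2)
    linarith
  set G := Real.exp E - 1 with hG
  have hG1 : E ≤ G := by
    have := Real.add_one_le_exp E
    linarith
  have hδ1 : 0 < 1 / δ := by positivity
  have hGpos : 0 < G := by linarith
  refine ⟨1 / G, by positivity, ?_, ?_⟩
  · rw [div_lt_iff₀ hGpos]
    have : 1 / δ < G := by linarith
    rw [div_lt_iff₀ hδ] at this
    linarith
  · have h1 : L (1 / G) = E := by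
      unfold L
      rw [← Real.log_div (by positivity) (by positivity)]
      have : (1 + 1 / G) / (1 / G) = Real.exp E := by
        field_simp
        rw [hG]; ring
      rw [this, Real.log_exp]
    unfold theta
    rw [h1]
    have : 1 + E = Real.exp (y * Real.log 2) := by rw [hE]; ring
    rw [this, Real.log_exp, mul_div_cancel_right₀ _ hl.ne']

/-! ### the wild function into the torus -/

/-- The torus. -/
abbrev T (n : ℕ) : Type := Fin n → AddCircle (1 : ℝ)

/-- The wild function. -/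
noncomputable def w (n : ℕ) (r : ℝ) : T n :=
  if r ≤ 0 then 0 else fun i : Fin n => ((Om i.val (theta r) : ℝ) : AddCircle (1 : ℝ))

lemma w_of_nonpos (n : ℕ) {r : ℝ} (hr : r ≤ 0) : w n r = 0 := if_pos hr

lemma w_of_pos (n : ℕ) {r : ℝ} (hr : 0 < r) :
    w n r = fun i : Fin n => ((Om i.val (theta r) : ℝ) : AddCircle (1 : ℝ)) := if_neg (not_le.mpr hr)

lemma continuousAt_w (n : ℕ) {r : ℝ} (hr : 0 < r) : ContinuousAt (w n) r := by
  have h : ContinuousAt (fun r => (fun i : Fin n => ((Om i.val (theta r) : ℝ) : AddCircle (1 : ℝ)) : T n)) r := by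
    rw [continuousAt_pi]
    intro i
    exact (AddCircle.continuous_mk' 1).continuousAt.comp
      ((continuous_Om i).continuousAt.comp (continuousAt_theta hr))
  refine h.congr ?_
  filter_upwards [lt_mem_nhds hr] with s hs
  rw [w_of_pos n hs]

/-- general criterion for convergence of differences -/
lemma tendsto_w_sub (n : ℕ) {α : Type*} {l : Filter α} {r r' : α → ℝ}
    (hr : ∀ᶠ a in l, 0 < r a) (hr' : ∀ᶠ a in l, 0 < r' a)
    (h : Tendsto (fun a => theta (r' a) - theta (r a)) l (𝓝 0)) :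
    Tendsto (fun a => w n (r' a) - w n (r a)) l (𝓝 0) := by
  rw [tendsto_pi_nhds]
  intro i
  have h1 : Tendsto (fun a => Om i (theta (r' a)) - Om i (theta (r a))) l (𝓝 0) := by
    have h2 : Tendsto (fun a => (Real.pi + 1) * |theta (r' a) - theta (r a)|) l (𝓝 0) := by
      have := (h.abs).const_mul (Real.pi + 1)
      simpa using this
    refine squeeze_zero_norm' ?_ h2
    filter_upwards [hr, hr'] with a ha ha'
    exact Om_lip i (theta_nonneg ha') (theta_nonneg ha)
  have h3 : Tendsto (fun a => ((Om i (theta (r' a)) - Om i (theta (r a)) : ℝ) : AddCircle (1 : ℝ))) l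
      (𝓝 ((0 : ℝ) : AddCircle (1 : ℝ))) := ((AddCircle.continuous_mk' 1).tendsto 0).comp h1
  refine h3.congr' ?_
  filter_upwards [hr, hr'] with a ha ha'
  rw [w_of_pos n ha, w_of_pos n ha']
  rfl

lemma w_scale (n : ℕ) {α : Type*} {l : Filter α} {r r' : α → ℝ} {lam : ℝ} (hlam : 0 < lam)
    (hr : ∀ᶠ a in l, 0 < r a) (h0 : Tendsto r l (𝓝 0))
    (hq : Tendsto (fun a => r' a / r a) l (𝓝 lam)) :
    Tendsto (fun a => w n (r' a) - w n (r a)) l (𝓝 0) := by
  have hq' : ∀ᶠ a in l, 0 < r' a / r a := hq.eventually (lt_mem_nhds hlam)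
  have hr' : ∀ᶠ a in l, 0 < r' a := by
    filter_upwards [hr, hq'] with a h1 h2
    have := mul_pos h2 h1
    rwa [div_mul_cancel₀ _ h1.ne'] at this
  exact tendsto_w_sub n hr hr' (theta_scale hlam hr h0 hq)

lemma w_square (n : ℕ) {α : Type*} {l : Filter α} {r : α → ℝ}
    (hr : ∀ᶠ a in l, 0 < r a) (h0 : Tendsto r l (𝓝 0)) :
    Tendsto (fun a => w n (r a ^ 2) + w n (r a)) l (𝓝 0) := by
  rw [tendsto_pi_nhds]
  intro i
  have hth := tendsto_theta hr h0
  have h1 : Tendsto (fun a => Om i (theta (r a ^ 2)) - Om i (theta (r a) + 1)) l (𝓝 0) := by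
    have h2 : Tendsto (fun a => (Real.pi + 1) * |theta (r a ^ 2) - (theta (r a) + 1)|) l (𝓝 0) := by
      have := ((theta_square hr h0).abs).const_mul (Real.pi + 1)
      simpa using this
    refine squeeze_zero_norm' ?_ h2
    filter_upwards [hr] with a ha
    exact Om_lip i (theta_nonneg (by positivity)) (by linarith [theta_nonneg ha])
  have h2 : Tendsto (fun a => Om i (theta (r a) + 1) + Om i (theta (r a))) l (𝓝 0) :=
    (Om_anti i).comp hth
  have h3 : Tendsto (fun a => Om i (theta (r a ^ 2)) + Om i (theta (r a))) l (𝓝 0) := by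
    have := h1.add h2
    rw [add_zero] at this
    refine this.congr ?_
    intro a; ring
  have h4 : Tendsto (fun a => ((Om i (theta (r a ^ 2)) + Om i (theta (r a)) : ℝ) : AddCircle (1 : ℝ))) l
      (𝓝 ((0 : ℝ) : AddCircle (1 : ℝ))) := ((AddCircle.continuous_mk' 1).tendsto 0).comp h3
  refine h4.congr' ?_
  filter_upwards [hr] with a ha
  rw [w_of_pos n ha, w_of_pos n (show 0 < r a ^ 2 by positivity)]
  rfl

/-- wildness: `w` comes near every point at arbitrarily small positive arguments -/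
lemma w_dense (n : ℕ) (t : T n) (U : Set (T n)) (hU : U ∈ 𝓝 t) (δ : ℝ) (hδ : 0 < δ) :
    ∃ r, 0 < r ∧ r < δ ∧ w n r ∈ U := by
  -- a lift of the target into `[0,1]`
  have hlift : ∀ i : Fin n, ∃ a : ℝ, |a| ≤ 1 ∧ (a : AddCircle (1 : ℝ)) = t i := by
    intro i
    obtain ⟨b, hb⟩ := QuotientAddGroup.mk_surjective (t i)
    refine ⟨Int.fract b, ?_, ?_⟩
    · rw [abs_of_nonneg (Int.fract_nonneg b)]
      exact (Int.fract_lt_one b).le
    · rw [AddCircle.coe_fract]
      exact hb
  choose a ha1 ha2 using hlift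
  have hcont : Continuous (fun b : Fin n → ℝ => (fun i => (b i : AddCircle (1 : ℝ)) : T n)) := by
    refine continuous_pi fun i => ?_
    exact (AddCircle.continuous_mk' 1).comp (continuous_apply i)
  have hUa : (fun b : Fin n → ℝ => (fun i => (b i : AddCircle (1 : ℝ)) : T n)) ⁻¹' U ∈ 𝓝 a := by
    apply hcont.continuousAt.preimage_mem_nhds
    have : (fun i => (a i : AddCircle (1 : ℝ)) : T n) = t := funext ha2
    simpa only [this] using hU
  obtain ⟨ε, hε, hball⟩ := Metric.mem_nhds_iff.mp hUa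
  obtain ⟨R, hR⟩ := exists_theta δ hδ
  obtain ⟨y, hy1, _, hy3⟩ := Om_dense n (fun i => if h : i < n then a ⟨i, h⟩ else 0) (by
    intro i
    by_cases h : i < n
    · simp only [h, dite_true]; exact ha1 _
    · simp [h]) (ε / 2) (by linarith) R
  obtain ⟨r, hr1, hr2, hr3⟩ := hR y hy1
  refine ⟨r, hr1, hr2, ?_⟩
  rw [w_of_pos n hr1, hr3]
  have hmem : (fun i : Fin n => Om i.val y) ∈ Metric.ball a ε := by
    rw [Metric.mem_ball]
    refine lt_of_le_of_lt ((dist_pi_le_iff (by linarith)).mpr (fun i => ?_))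
      (show ε / 2 < ε by linarith)
    have := hy3 i.val i.2
    simp only [i.2, dite_true] at this
    rw [Real.dist_eq]
    exact this.le
  exact hball hmem

end Pool.Agent.Helper84.SlowWild
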