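import Pool.Agent.Helper84.Glue
import Pool.Agent.Helper84.SlowWild

set_option autoImplicit false

open Set Filter Topology

namespace Pool.Agent.Helper84.TorusMfd

open SlowWild Glue

/-- the cocycle -/
noncomputable def c (n : ℕ) (D : Finset ℝ) (s : ℝ) : T n := ∑ u ∈ D, w n (u - s)

/-- the underlying set of the manifold -/
def M (n : ℕ) : Type := {m : ℝ × Finset ℝ × T n // ∀ u ∈ m.2.1, u ≤ m.1}

/-- the charts -/
noncomputable def φ (n : ℕ) (D : Finset ℝ) (p : ℝ × T n) : M n :=
  ⟨(p.1, D.filter (fun u => u ≤ p.1), p.2 - c n D p.1), fun _ hu => (Finset.mem_filter.mp hu).2⟩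

lemma φ_eq_iff {n : ℕ} {D E : Finset ℝ} {p q : ℝ × T n} : φ n D p = φ n E q ↔
    p.1 = q.1 ∧ D.filter (fun u => u ≤ p.1) = E.filter (fun u => u ≤ q.1) ∧
      p.2 - c n D p.1 = q.2 - c n E q.1 := by
  have h : φ n D p = φ n E q ↔ (φ n D p).1 = (φ n E q).1 := Subtype.ext_iff
  rw [h]
  show (p.1, D.filter (fun u => u ≤ p.1), p.2 - c n D p.1) =
    (q.1, E.filter (fun u => u ≤ q.1), q.2 - c n E q.1) ↔ _
  rw [Prod.mk.injEq, Prod.mk.injEq]

lemma c_eq_zero {n : ℕ} {D : Finset ℝ} {s : ℝ} (h : ∀ u ∈ D, u ≤ s) : c n D s = 0 := by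
  unfold c
  apply Finset.sum_eq_zero
  intro u hu
  exact w_of_nonpos n (by linarith [h u hu])

lemma φ_mk {n : ℕ} (m : M n) : φ n m.1.2.1 (m.1.1, m.1.2.2) = m := by
  obtain ⟨⟨s, D, x⟩, h⟩ := m
  unfold φ
  apply Subtype.ext
  simp only at h ⊢
  rw [c_eq_zero h, sub_zero, Finset.filter_true_of_mem h]

lemma continuousAt_diff (n : ℕ) {D E : Finset ℝ} {s : ℝ}
    (h : D.filter (fun u => u ≤ s) = E.filter (fun u => u ≤ s)) :
    ContinuousAt (fun t => c n E t - c n D t) s := by
  have h1 : ∀ D : Finset ℝ, ContinuousAt (fun t => ∑ u ∈ D.filter (fun u => ¬ u ≤ s), w n (u - t)) s := by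
    intro D
    apply tendsto_finsetSum
    intro u hu
    have hu' : s < u := not_le.mp (Finset.mem_filter.mp hu).2
    have : ContinuousAt (fun t => w n (u - t)) s :=
      ContinuousAt.comp (f := fun t => u - t) (g := w n) (continuousAt_w n (by linarith))
        (by fun_prop)
    exact this
  have h2 : ∀ (D : Finset ℝ) (t : ℝ), c n D t = ∑ u ∈ D.filter (fun u => u ≤ s), w n (u - t)
      + ∑ u ∈ D.filter (fun u => ¬ u ≤ s), w n (u - t) := by
    intro D t
    unfold c
    rw [Finset.sum_filter_add_sum_filter_not]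
  have h3 : (fun t => c n E t - c n D t) = fun t =>
      ∑ u ∈ E.filter (fun u => ¬ u ≤ s), w n (u - t) - ∑ u ∈ D.filter (fun u => ¬ u ≤ s), w n (u - t) := by
    funext t
    rw [h2 E, h2 D, h]
    abel
  rw [h3]
  exact (h1 E).sub (h1 D)

lemma eventually_filter {D E : Finset ℝ} {s : ℝ}
    (h : D.filter (fun u => u ≤ s) = E.filter (fun u => u ≤ s)) :
    ∀ᶠ t in 𝓝 s, D.filter (fun u => u ≤ t) = E.filter (fun u => u ≤ t) := by
  have h1 : ∀ᶠ t in 𝓝 s, ∀ u ∈ D ∪ E, s < u → t < u := by
    rw [Filter.eventually_all_finset]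
    intro u _
    by_cases hsu : s < u
    · filter_upwards [gt_mem_nhds hsu] with t ht _ using ht
    · exact Filter.Eventually.of_forall fun t h => absurd h hsu
  filter_upwards [h1] with t ht
  ext u
  simp only [Finset.mem_filter]
  have h2 : u ≤ s → (u ∈ D ↔ u ∈ E) := by
    intro hu
    have := congrArg (fun S => u ∈ S) h
    simp only [Finset.mem_filter, hu, and_true] at this
    exact Iff.of_eq this
  constructor
  · rintro ⟨hu, hut⟩
    refine ⟨?_, hut⟩
    apply (h2 ?_).mp hu
    by_contra hcon
    push Not at hcon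
    have := ht u (Finset.mem_union_left _ hu) hcon
    linarith
  · rintro ⟨hu, hut⟩
    refine ⟨?_, hut⟩
    apply (h2 ?_).mpr hu
    by_contra hcon
    push Not at hcon
    have := ht u (Finset.mem_union_right _ hu) hcon
    linarith

lemma isAtlas (n : ℕ) : IsAtlas (φ n) where
  inj := by
    intro D p q h
    rw [φ_eq_iff] at h
    obtain ⟨h1, _, h3⟩ := h
    rw [h1] at h3
    exact Prod.ext h1 (sub_left_injective h3)
  surj := fun m => ⟨m.1.2.1, (m.1.1, m.1.2.2), φ_mk m⟩
  glue := by
    rintro D E ⟨s, x⟩ ⟨s', x'⟩ h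
    rw [φ_eq_iff] at h
    obtain ⟨h1, h2, h3⟩ := h
    simp only at h1 h2 h3
    subst h1
    refine ⟨fun p => (p.1, p.2 + (c n E p.1 - c n D p.1)), ?_, ?_, ?_⟩
    · apply ContinuousAt.prodMk continuousAt_fst
      apply continuousAt_snd.add
      exact ContinuousAt.comp (f := fun p : ℝ × T n => p.1) (g := fun t => c n E t - c n D t)
        (continuousAt_diff n h2) continuousAt_fst
    · simp only
      refine Prod.ext rfl ?_
      simp only
      have : x' = (x - c n D s) + c n E s := by rw [h3]; abel
      rw [this]; abel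
    · have h4 : ∀ᶠ u : ℝ × T n in 𝓝 (s, x),
          D.filter (fun v => v ≤ u.1) = E.filter (fun v => v ≤ u.1) :=
        (continuousAt_fst (p := ((s, x) : ℝ × T n))).eventually (eventually_filter h2)
      filter_upwards [h4] with u hu
      rw [φ_eq_iff]
      refine ⟨rfl, hu, ?_⟩
      simp only
      abel

/-! ### the homeomorphism of the line -/

/-- the squaring homeomorphism -/
noncomputable def f (s : ℝ) : ℝ := max s (-s ^ 2)

lemma f_of_nonneg {s : ℝ} (hs : 0 ≤ s) : f s = s := by
  unfold f
  apply max_eq_left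
  nlinarith [sq_nonneg s]

lemma f_of_le_neg_one {s : ℝ} (hs : s ≤ -1) : f s = s := by
  unfold f
  apply max_eq_left
  nlinarith

lemma f_mid {s : ℝ} (h1 : -1 ≤ s) (h2 : s ≤ 0) : f s = -s ^ 2 := by
  unfold f
  apply max_eq_right
  nlinarith

lemma f_zero : f 0 = 0 := f_of_nonneg le_rfl

lemma continuous_f : Continuous f := by
  unfold f
  fun_prop

lemma strictMono_f : StrictMono f := by
  intro a b hab
  rcases le_or_gt 0 b with hb | hb
  · rw [f_of_nonneg hb]
    unfold f
    apply max_lt hab
    rcases eq_or_ne a 0 with rfl | ha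
    · simpa using hab
    · have : 0 < a ^ 2 := by positivity
      linarith
  · unfold f
    apply max_lt_max hab
    nlinarith

lemma surjective_f : Function.Surjective f := by
  apply continuous_f.surjective
  · exact tendsto_atTop_mono (fun s => le_max_left s _) tendsto_id
  · refine Tendsto.congr' ?_ tendsto_id
    filter_upwards [eventually_le_atBot (-1 : ℝ)] with s hs
    exact (f_of_le_neg_one hs).symm

/-- as a homeomorphism -/
noncomputable def F : ℝ ≃ₜ ℝ := (strictMono_f.orderIsoOfSurjective f surjective_f).toHomeomorph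

lemma F_apply (s : ℝ) : F s = f s := rfl

lemma slope_f {u : ℝ} (hu : u ≠ 0) : ∃ lam : ℝ, 0 < lam ∧
    Tendsto (fun s => (f u - f s) / (u - s)) (𝓝[<] u) (𝓝 lam) := by
  have hone : (∀ᶠ s in 𝓝[<] u, f u - f s = u - s) → ∃ lam : ℝ, 0 < lam ∧
    Tendsto (fun s => (f u - f s) / (u - s)) (𝓝[<] u) (𝓝 lam) := by
    intro h
    refine ⟨1, one_pos, ?_⟩
    refine Tendsto.congr' ?_ tendsto_const_nhds
    filter_upwards [h, self_mem_nhdsWithin] with s hs hs'
    rw [hs, div_self]
    have : s < u := hs'
    linarith
  rcases lt_or_gt_of_ne hu with hneg | hpos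
  · rcases le_or_gt u (-1) with h1 | h1
    · apply hone
      filter_upwards [self_mem_nhdsWithin] with s hs
      have : s < u := hs
      rw [f_of_le_neg_one h1, f_of_le_neg_one (by linarith)]
    · refine ⟨-(u + u), by linarith, ?_⟩
      have h2 : Tendsto (fun s => -(s + u)) (𝓝[<] u) (𝓝 (-(u + u))) := by
        have : Continuous (fun s : ℝ => -(s + u)) := by fun_prop
        exact (this.tendsto u).mono_left nhdsWithin_le_nhds
      refine h2.congr' ?_
      filter_upwards [self_mem_nhdsWithin, nhdsWithin_le_nhds (lt_mem_nhds h1)] with s hs hs'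
      have hs1 : s < u := hs
      rw [f_mid h1.le hneg.le, f_mid (le_of_lt hs') (by linarith)]
      have : u - s ≠ 0 := by linarith
      field_simp
      ring
  · apply hone
    filter_upwards [nhdsWithin_le_nhds (lt_mem_nhds hpos)] with s hs
    rw [f_of_nonneg hpos.le, f_of_nonneg (le_of_lt hs)]

lemma tendsto_sub_left (u : ℝ) : Tendsto (fun s => u - s) (𝓝[<] u) (𝓝 0) := by
  have : Continuous (fun s : ℝ => u - s) := by fun_prop
  have h := (this.tendsto u).mono_left (nhdsWithin_le_nhds (s := Iio u))
  simpa using h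

lemma continuous_T (n : ℕ) {u : ℝ} (hu : u ≠ 0) :
    Continuous (fun s => w n (f u - f s) - w n (u - s)) := by
  rw [continuous_iff_continuousAt]
  intro s
  rcases lt_trichotomy s u with h | h | h
  · apply ContinuousAt.sub
    · have h1 : 0 < f u - f s := by linarith [strictMono_f h]
      exact ContinuousAt.comp (f := fun s => f u - f s) (g := w n) (continuousAt_w n h1)
        (continuousAt_const.sub continuous_f.continuousAt)
    · exact ContinuousAt.comp (f := fun s => u - s) (g := w n) (continuousAt_w n (by linarith))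
        (by fun_prop)
  · subst h
    have hval : w n (f s - f s) - w n (s - s) = 0 := by
      rw [sub_self, sub_self, sub_self]
    show Tendsto (fun t => w n (f s - f t) - w n (s - t)) (𝓝 s) (𝓝 (w n (f s - f s) - w n (s - s)))
    rw [hval, ← nhdsLT_sup_nhdsGE, tendsto_sup]
    constructor
    · obtain ⟨lam, hlam, hq⟩ := slope_f hu
      apply w_scale n hlam _ (tendsto_sub_left s) hq
      filter_upwards [self_mem_nhdsWithin] with t ht
      have : t < s := ht
      linarith
    · refine Tendsto.congr' ?_ tendsto_const_nhds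
      filter_upwards [self_mem_nhdsWithin] with t ht
      have ht' : s ≤ t := ht
      rw [w_of_nonpos n (by linarith [strictMono_f.monotone ht']), w_of_nonpos n (by linarith),
        sub_self]
  · have : (fun s => w n (f u - f s) - w n (u - s)) =ᶠ[𝓝 s] fun _ => 0 := by
      filter_upwards [lt_mem_nhds h] with t ht
      rw [w_of_nonpos n (by linarith [strictMono_f ht]), w_of_nonpos n (by linarith), sub_self]
    exact (continuousAt_const).congr this.symm

lemma continuous_T0 (n : ℕ) : Continuous (fun s => w n (-f s) + w n (-s)) := by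
  rw [continuous_iff_continuousAt]
  intro s
  rcases lt_trichotomy s 0 with h | h | h
  · apply ContinuousAt.add
    · have h1 : 0 < -f s := by
        have := strictMono_f h
        rw [f_zero] at this
        linarith
      exact ContinuousAt.comp (f := fun s => -f s) (g := w n) (continuousAt_w n h1)
        continuous_f.continuousAt.neg
    · exact ContinuousAt.comp (f := fun s => -s) (g := w n) (continuousAt_w n (by linarith))
        (by fun_prop)
  · subst h
    have hval : w n (-f 0) + w n (-0) = 0 := by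
      rw [f_zero, neg_zero, w_of_nonpos n le_rfl, add_zero]
    show Tendsto (fun t => w n (-f t) + w n (-t)) (𝓝 0) (𝓝 (w n (-f 0) + w n (-0)))
    rw [hval, ← nhdsLT_sup_nhdsGE, tendsto_sup]
    constructor
    · have h1 : Tendsto (fun s : ℝ => -s) (𝓝[<] 0) (𝓝 0) := by
        have := tendsto_sub_left 0
        simpa using this
      have h2 := w_square n (l := 𝓝[<] (0 : ℝ)) (r := fun s => -s) (by
        filter_upwards [self_mem_nhdsWithin] with t ht
        have : t < 0 := ht
        linarith) h1
      refine h2.congr' ?_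
      filter_upwards [self_mem_nhdsWithin, nhdsWithin_le_nhds (lt_mem_nhds (show (-1 : ℝ) < 0 by norm_num))]
        with t ht ht'
      have ht1 : t < 0 := ht
      rw [f_mid (le_of_lt ht') ht1.le]
      congr 2
      ring
    · refine Tendsto.congr' ?_ tendsto_const_nhds
      filter_upwards [self_mem_nhdsWithin] with t ht
      have ht' : 0 ≤ t := ht
      rw [w_of_nonpos n (by rw [f_of_nonneg ht']; linarith), w_of_nonpos n (by linarith), add_zero]
  · have : (fun s => w n (-f s) + w n (-s)) =ᶠ[𝓝 s] fun _ => 0 := by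
      filter_upwards [lt_mem_nhds h] with t ht
      rw [w_of_nonpos n (by rw [f_of_nonneg (le_of_lt ht)]; linarith), w_of_nonpos n (by linarith),
        add_zero]
    exact (continuousAt_const).congr this.symm

/-! ### homeomorphisms -/

/-- the reachability relation -/
def R (n : ℕ) (m m' : M n) : Prop :=
  ∃ h : @Homeomorph (M n) (M n) (topo (φ n)) (topo (φ n)), h m = m'

lemma R.symm {n : ℕ} {m m' : M n} (h : R n m m') : R n m' m := by
  let _ := topo (φ n)
  obtain ⟨h, rfl⟩ := h
  exact ⟨h.symm, h.symm_apply_apply m⟩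

lemma R.trans {n : ℕ} {m m' m'' : M n} (h : R n m m') (h' : R n m' m'') : R n m m'' := by
  let _ := topo (φ n)
  obtain ⟨h, rfl⟩ := h
  obtain ⟨h', rfl⟩ := h'
  exact ⟨h.trans h', rfl⟩

/-- translation in the fibre -/
lemma R_fibre (n : ℕ) (t : T n) (D : Finset ℝ) (p : ℝ × T n) :
    R n (φ n D p) (φ n D (p.1, p.2 + t)) := by
  obtain ⟨H, hH⟩ := exists_homeo (isAtlas n) (Equiv.refl _)
    (fun _ => (Homeomorph.refl ℝ).prodCongr (Homeomorph.addRight t)) (by
      intro D E p q
      rw [φ_eq_iff, φ_eq_iff]
      show p.1 = q.1 ∧ _ ∧ p.2 - c n D p.1 = q.2 - c n E q.1 ↔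
        p.1 = q.1 ∧ _ ∧ (p.2 + t) - c n D p.1 = (q.2 + t) - c n E q.1
      have : p.2 - c n D p.1 = q.2 - c n E q.1 ↔
          (p.2 + t) - c n D p.1 = (q.2 + t) - c n E q.1 := by
        rw [add_sub_right_comm, add_sub_right_comm, add_left_inj]
      rw [← this]
      rfl)
  exact ⟨H, hH D p⟩

lemma image_filter_add (a s : ℝ) (D : Finset ℝ) :
    (D.image (fun u => u + a)).filter (fun u => u ≤ s + a) =
      (D.filter (fun u => u ≤ s)).image (fun u => u + a) := by
  ext v
  simp only [Finset.mem_filter, Finset.mem_image]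
  constructor
  · rintro ⟨⟨u, hu, rfl⟩, h⟩
    exact ⟨u, ⟨hu, by linarith⟩, rfl⟩
  · rintro ⟨u, ⟨hu, h⟩, rfl⟩
    exact ⟨⟨u, hu, rfl⟩, by linarith⟩

/-- translation of finite sets -/
noncomputable def transl (a : ℝ) : Equiv.Perm (Finset ℝ) where
  toFun D := D.image (fun u => u + a)
  invFun D := D.image (fun u => u + -a)
  left_inv D := by
    show (D.image (fun u => u + a)).image (fun u => u + -a) = D
    rw [Finset.image_image]
    ext v
    simp
  right_inv D := by
    show (D.image (fun u => u + -a)).image (fun u => u + a) = D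
    rw [Finset.image_image]
    ext v
    simp

/-- translation in the base -/
lemma R_base (n : ℕ) (a : ℝ) (D : Finset ℝ) (p : ℝ × T n) :
    R n (φ n D p) (φ n (D.image (fun u => u + a)) (p.1 + a, p.2)) := by
  obtain ⟨H, hH⟩ := exists_homeo (isAtlas n) (transl a)
    (fun _ => (Homeomorph.addRight a).prodCongr (Homeomorph.refl (T n))) (by
      intro D E p q
      rw [φ_eq_iff, φ_eq_iff]
      show p.1 = q.1 ∧ _ ∧ p.2 - c n D p.1 = q.2 - c n E q.1 ↔
        p.1 + a = q.1 + a ∧
          (D.image (fun u => u + a)).filter (fun u => u ≤ p.1 + a) =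
          (E.image (fun u => u + a)).filter (fun u => u ≤ q.1 + a) ∧
          p.2 - c n (D.image (fun u => u + a)) (p.1 + a) =
          q.2 - c n (E.image (fun u => u + a)) (q.1 + a)
      have hc : ∀ (D : Finset ℝ) (s : ℝ), c n (D.image (fun u => u + a)) (s + a) = c n D s := by
        intro D s
        unfold c
        rw [Finset.sum_image (fun x _ y _ h => by simpa using h)]
        apply Finset.sum_congr rfl
        intro u _
        congr 1
        ring
      rw [hc, hc, image_filter_add, image_filter_add, add_left_inj,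
        (Finset.image_injective (add_left_injective a)).eq_iff])
  exact ⟨H, hH D p⟩

/-- the map on finite sets underlying the swap -/
noncomputable def swapPerm : Equiv.Perm (Finset ℝ) where
  toFun D := symmDiff (D.image F) {0}
  invFun D := (symmDiff D {0}).image F.symm
  left_inv D := by
    show (symmDiff (symmDiff (D.image F) {0}) {0}).image F.symm = D
    rw [symmDiff_symmDiff_cancel_right, Finset.image_image]
    ext v
    simp
  right_inv D := by
    show symmDiff (((symmDiff D {0}).image F.symm).image F) {0} = D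
    rw [Finset.image_image]
    have : F ∘ F.symm = id := by funext u; simp
    rw [this, Finset.image_id, symmDiff_symmDiff_cancel_right]

lemma mem_swapPerm {D : Finset ℝ} {v : ℝ} : v ∈ swapPerm D ↔
    ((F.symm v ∈ D ∧ v ≠ 0) ∨ (v = 0 ∧ F.symm v ∉ D)) := by
  show v ∈ symmDiff (D.image F) {0} ↔ _
  rw [Finset.mem_symmDiff]
  have : v ∈ D.image F ↔ F.symm v ∈ D := by
    rw [Finset.mem_image]
    constructor
    · rintro ⟨u, hu, rfl⟩
      simpa using hu
    · intro h
      exact ⟨_, h, by simp⟩
  rw [this, Finset.mem_singleton]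

lemma F_symm_le {v s : ℝ} : v ≤ F s ↔ F.symm v ≤ s := by
  conv_lhs => rw [← F.apply_symm_apply v]
  exact strictMono_f.le_iff_le

lemma F_symm_zero : F.symm 0 = 0 := by
  rw [Homeomorph.symm_apply_eq, F_apply, f_zero]

lemma swap_filter (D E : Finset ℝ) (s : ℝ) :
    (swapPerm D).filter (fun u => u ≤ F s) = (swapPerm E).filter (fun u => u ≤ F s) ↔
      D.filter (fun u => u ≤ s) = E.filter (fun u => u ≤ s) := by
  constructor
  · intro h
    ext u
    have h1 := congrArg (fun S => F u ∈ S) h
    simp only [Finset.mem_filter, mem_swapPerm, F_symm_le, Homeomorph.symm_apply_apply] at h1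
    have h2 := Iff.of_eq h1
    simp only [Finset.mem_filter]
    by_cases hus : u ≤ s
    · simp only [hus, and_true] at h2 ⊢
      by_cases h0 : F u = 0
      · simp only [h0, ne_eq, not_true, and_false, true_and, false_or] at h2
        tauto
      · simp only [h0, ne_eq, not_false_eq_true, and_true, false_and, or_false] at h2
        exact h2
    · simp [hus]
  · intro h
    ext v
    simp only [Finset.mem_filter, mem_swapPerm, F_symm_le]
    have h1 := congrArg (fun S => F.symm v ∈ S) h
    simp only [Finset.mem_filter] at h1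
    have h2 := Iff.of_eq h1
    by_cases hus : F.symm v ≤ s
    · simp only [hus, and_true] at h2 ⊢
      rw [h2]
    · simp [hus]

/-- the fibre correction -/
noncomputable def e (n : ℕ) (D : Finset ℝ) (s : ℝ) : T n :=
  c n (swapPerm D) (F s) - c n D s - w n (- f s)

lemma c_image_F (n : ℕ) (D : Finset ℝ) (s : ℝ) :
    c n (D.image F) (F s) = ∑ u ∈ D, w n (f u - f s) := by
  unfold c
  rw [Finset.sum_image (fun x _ y _ h => F.injective h)]
  rfl

lemma continuous_e (n : ℕ) (D : Finset ℝ) : Continuous (e n D) := by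
  by_cases h0 : (0 : ℝ) ∈ D
  · have hD : D = insert 0 (D.erase 0) := (Finset.insert_erase h0).symm
    have h1 : swapPerm D = (D.erase 0).image F := by
      ext v
      rw [mem_swapPerm, Finset.mem_image]
      constructor
      · rintro (⟨h1, h2⟩ | ⟨h1, h2⟩)
        · refine ⟨F.symm v, ?_, by simp⟩
          rw [Finset.mem_erase]
          refine ⟨?_, h1⟩
          intro h
          apply h2
          have := congrArg F h
          rwa [F.apply_symm_apply, F_apply, f_zero] at this
        · rw [h1, F_symm_zero] at h2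
          exact absurd h0 h2
      · rintro ⟨u, hu, rfl⟩
        rw [Finset.mem_erase] at hu
        left
        rw [F.symm_apply_apply]
        refine ⟨hu.2, ?_⟩
        intro h
        apply hu.1
        have : F u = F 0 := by rw [h, F_apply, f_zero]
        exact F.injective this
    have h2 : e n D = fun s => (∑ u ∈ D.erase 0, (w n (f u - f s) - w n (u - s)))
        - (w n (-f s) + w n (-s)) := by
      funext s
      unfold e
      rw [h1, c_image_F]
      have h3 : c n D s = w n (-s) + ∑ u ∈ D.erase 0, w n (u - s) := by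
        unfold c
        conv_lhs => rw [hD]
        rw [Finset.sum_insert (Finset.notMem_erase 0 D), zero_sub]
      rw [h3, Finset.sum_sub_distrib]
      abel
    rw [h2]
    apply Continuous.sub _ (continuous_T0 n)
    apply continuous_finsetSum
    intro u hu
    exact continuous_T n (Finset.mem_erase.mp hu).1
  · have h1 : swapPerm D = insert 0 (D.image F) := by
      ext v
      rw [mem_swapPerm, Finset.mem_insert, Finset.mem_image]
      constructor
      · rintro (⟨h1, h2⟩ | ⟨h1, h2⟩)
        · exact Or.inr ⟨F.symm v, h1, by simp⟩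
        · exact Or.inl h1
      · rintro (rfl | ⟨u, hu, rfl⟩)
        · right
          rw [F_symm_zero]
          exact ⟨rfl, h0⟩
        · left
          rw [F.symm_apply_apply]
          refine ⟨hu, ?_⟩
          intro h
          apply h0
          have : F u = F 0 := by rw [h, F_apply, f_zero]
          rwa [← F.injective this]
    have h1' : (0 : ℝ) ∉ D.image F := by
      rw [Finset.mem_image]
      rintro ⟨u, hu, h⟩
      apply h0
      have : F u = F 0 := by rw [h, F_apply, f_zero]
      rwa [← F.injective this]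
    have h2 : e n D = fun s => (∑ u ∈ D, (w n (f u - f s) - w n (u - s))) := by
      funext s
      unfold e
      rw [h1]
      have h3 : c n (insert 0 (D.image F)) (F s) = w n (-f s) + c n (D.image F) (F s) := by
        unfold c
        rw [Finset.sum_insert h1', zero_sub]
        rfl
      rw [h3, c_image_F, Finset.sum_sub_distrib]
      unfold c
      abel
    rw [h2]
    apply continuous_finsetSum
    intro u hu
    exact continuous_T n (fun h => h0 (h ▸ hu))

/-- the fibrewise translation by a continuous function, together with a homeomorphism of the base -/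
noncomputable def skew (n : ℕ) (G : ℝ ≃ₜ ℝ) (k : ℝ → T n) (hk : Continuous k) :
    (ℝ × T n) ≃ₜ (ℝ × T n) where
  toFun p := (G p.1, p.2 + k p.1)
  invFun p := (G.symm p.1, p.2 - k (G.symm p.1))
  left_inv p := by simp
  right_inv p := by simp
  continuous_toFun := by fun_prop
  continuous_invFun := by fun_prop

/-- the swap -/
lemma R_swap (n : ℕ) (D : Finset ℝ) (p : ℝ × T n) :
    R n (φ n D p) (φ n (swapPerm D) (F p.1, p.2 + e n D p.1)) := by
  obtain ⟨H, hH⟩ := exists_homeo (isAtlas n) swapPerm
    (fun D => skew n F (e n D) (continuous_e n D)) (by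
      intro D E p q
      rw [φ_eq_iff, φ_eq_iff]
      show p.1 = q.1 ∧ _ ∧ p.2 - c n D p.1 = q.2 - c n E q.1 ↔
        F p.1 = F q.1 ∧
          (swapPerm D).filter (fun u => u ≤ F p.1) =
          (swapPerm E).filter (fun u => u ≤ F q.1) ∧
          p.2 + e n D p.1 - c n (swapPerm D) (F p.1) =
          q.2 + e n E q.1 - c n (swapPerm E) (F q.1)
      have hc : ∀ (D : Finset ℝ) (s : ℝ) (x : T n),
          x + e n D s - c n (swapPerm D) (F s) = (x - c n D s) - w n (- f s) := by
        intro D s x
        unfold e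
        abel
      rw [hc, hc, F.injective.eq_iff]
      constructor
      · rintro ⟨h1, h2, h3⟩
        rw [h1] at h2 h3 ⊢
        exact ⟨rfl, (swap_filter D E _).mpr h2, by rw [h3]⟩
      · rintro ⟨h1, h2, h3⟩
        rw [h1] at h2 h3 ⊢
        exact ⟨rfl, (swap_filter D E _).mp h2, sub_left_injective h3⟩)
  exact ⟨H, hH D p⟩

lemma R_all (n : ℕ) : ∀ (k : ℕ) (D : Finset ℝ) (_ : D.card = k) (p : ℝ × T n),
    R n (φ n D p) (φ n ∅ (0, 0)) := by
  intro k
  induction k with
  | zero =>
    intro D hD p
    rw [Finset.card_eq_zero] at hD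
    subst hD
    have h1 := R_base n (-p.1) ∅ p
    have h2 := R_fibre n (-p.2) (Finset.image (fun u => u + -p.1) ∅) (p.1 + -p.1, p.2)
    have h3 := h1.trans h2
    simpa using h3
  | succ k ih =>
    intro D hD p
    obtain ⟨u, hu⟩ : D.Nonempty := by
      rw [← Finset.card_pos]; omega
    have h1 := R_base n (-u) D p
    set D' := D.image (fun v => v + -u) with hD'
    have h0 : (0 : ℝ) ∈ D' := by
      rw [hD', Finset.mem_image]
      exact ⟨u, hu, by simp⟩
    have hcard : D'.card = k + 1 := by
      rw [hD', Finset.card_image_of_injective _ (add_left_injective _), hD]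
    have h2 := R_swap n D' (p.1 + -u, p.2)
    have hcard' : (swapPerm D').card = k := by
      have : swapPerm D' = (D'.image F).erase 0 := by
        ext v
        rw [mem_swapPerm, Finset.mem_erase, Finset.mem_image (f := F) (s := D')]
        constructor
        · rintro (⟨h1, h2⟩ | ⟨h1, h2⟩)
          · exact ⟨h2, ⟨F.symm v, h1, by simp⟩⟩
          · rw [h1, F_symm_zero] at h2
            exact absurd h0 h2
        · rintro ⟨h1, ⟨u, hu, rfl⟩⟩
          left
          rw [F.symm_apply_apply]
          exact ⟨hu, h1⟩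
      rw [this, Finset.card_erase_of_mem, Finset.card_image_of_injective _ F.injective, hcard]
      · rfl
      · rw [Finset.mem_image]
        exact ⟨0, h0, by rw [F_apply, f_zero]⟩
    exact (h1.trans h2).trans (ih _ hcard' _)

lemma homogeneous (n : ℕ) (m m' : M n) : R n m m' := by
  have h1 := R_all n _ m.1.2.1 rfl (m.1.1, m.1.2.2)
  have h2 := R_all n _ m'.1.2.1 rfl (m'.1.1, m'.1.2.2)
  rw [φ_mk] at h1 h2
  exact h1.trans h2.symm

/-! ### connectedness and local structure -/

instance connectedT (n : ℕ) : ConnectedSpace (T n) := inferInstance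

lemma connected (n : ℕ) : @ConnectedSpace (M n) (topo (φ n)) := by
  let _ := topo (φ n)
  have hne : Nonempty (M n) := ⟨φ n ∅ (0, 0)⟩
  have : PreconnectedSpace (M n) := by
    apply preconnectedSpace_of_forall_constant
    intro g hg
    have h1 : ∀ D p q, g (φ n D p) = g (φ n D q) := by
      intro D p q
      exact PreconnectedSpace.constant inferInstance (hg.comp (continuous_chart (φ := φ n) D))
    have h2 : ∀ D p, g (φ n D p) = g (φ n ∅ (0, 0)) := by
      intro D p
      obtain ⟨s, hs⟩ : ∃ s : ℝ, ∀ u ∈ D, s < u := by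
        obtain ⟨b, hb⟩ := D.bddBelow
        exact ⟨b - 1, fun u hu => by linarith [hb hu]⟩
      have h3 : φ n D (s, c n D s) = φ n ∅ (s, 0) := by
        rw [φ_eq_iff]
        refine ⟨rfl, ?_, ?_⟩
        · rw [Finset.filter_empty, Finset.filter_eq_empty_iff]
          intro u hu
          exact not_le.mpr (hs u hu)
        · simp [c]
      rw [h1 D p (s, c n D s), h3]
      exact h1 _ _ _
    intro x y
    obtain ⟨D, p, rfl⟩ := (isAtlas n).surj x
    obtain ⟨E, q, rfl⟩ := (isAtlas n).surj y
    rw [h2 D p, h2 E q]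
  exact { toPreconnectedSpace := this, toNonempty := hne }

lemma locally_euclidean (n : ℕ) (z : M n) : ∃ U : Set (M n), IsOpen[topo (φ n)] U ∧ z ∈ U ∧
    Nonempty (@Homeomorph U (EuclideanSpace ℝ (Fin (n + 1)))
      (@instTopologicalSpaceSubtype _ _ (topo (φ n))) _) := by
  let _ := topo (φ n)
  obtain ⟨D, ⟨s, x⟩, rfl⟩ := (isAtlas n).surj z
  have hloc : IsLocalHomeomorph (fun (v : Fin n → ℝ) (j : Fin n) => ((v j : ℝ) : AddCircle (1 : ℝ))) :=
    isLocalHomeomorph_piMap (fun _ => AddCircle.isLocalHomeomorph_coe 1)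
  have h1 : IsLocalHomeomorph (Prod.map (id : ℝ → ℝ)
      (fun (v : Fin n → ℝ) (j : Fin n) => ((v j : ℝ) : AddCircle (1 : ℝ)))) :=
    isLocalHomeomorph_prodMap (Homeomorph.refl ℝ).isLocalHomeomorph hloc
  have h2 : IsLocalHomeomorph ((φ n D) ∘ (Prod.map (id : ℝ → ℝ)
      (fun (v : Fin n → ℝ) (j : Fin n) => ((v j : ℝ) : AddCircle (1 : ℝ))))) :=
    (isOpenEmbedding_chart (isAtlas n) D).isLocalHomeomorph.comp h1
  choose v hv using fun j => QuotientAddGroup.mk_surjective (x j)
  obtain ⟨U, hU1, hU2, ⟨hU3⟩⟩ := exists_open_homeo h2 (s, v)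
  have h3 : φ n D (s, x) ∈ U := by
    have : (s, x) = Prod.map (id : ℝ → ℝ)
      (fun (v : Fin n → ℝ) (j : Fin n) => ((v j : ℝ) : AddCircle (1 : ℝ))) (s, v) := by
      refine Prod.ext rfl ?_
      funext j
      exact (hv j).symm
    rw [this]
    exact hU2
  have hfr : Module.finrank ℝ (ℝ × (Fin n → ℝ)) = Module.finrank ℝ (EuclideanSpace ℝ (Fin (n + 1))) := by
    simp [add_comm]
  exact ⟨U, hU1, h3, ⟨hU3.trans (ContinuousLinearEquiv.ofFinrankEq hfr).toHomeomorph⟩⟩

/-! ### non-separated points -/

/-- the points that cannot be separated from `z` -/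
def NH (n : ℕ) (z : M n) : Set (M n) :=
  {y | y ≠ z ∧ ∀ U V : Set (M n), IsOpen[topo (φ n)] U → IsOpen[topo (φ n)] V → y ∈ U → z ∈ V →
    (U ∩ V).Nonempty}

lemma continuous_time (n : ℕ) : @Continuous (M n) ℝ (topo (φ n)) _ (fun m => m.1.1) := by
  let _ := topo (φ n)
  exact continuous_dom (φ := φ n) (fun D => continuous_fst)

lemma c_insert (n : ℕ) {D : Finset ℝ} {s r : ℝ} (hs : s ∉ D) :
    c n (insert s D) r = w n (s - r) + c n D r := by
  unfold c
  rw [Finset.sum_insert hs]

/-- the two fibres over a pair of non-separated base points are not separated -/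
lemma meet (n : ℕ) {D : Finset ℝ} {s : ℝ} (hs : s ∉ D) (x y : T n) {U V : Set (M n)}
    (hU : IsOpen[topo (φ n)] U) (hV : IsOpen[topo (φ n)] V)
    (hxU : φ n D (s, x) ∈ U) (hyV : φ n (insert s D) (s, y) ∈ V) : (U ∩ V).Nonempty := by
  let _ := topo (φ n)
  have h1 : ∀ᶠ p : ℝ × T n in 𝓝 (s, x), φ n D p ∈ U :=
    (continuous_chart (φ := φ n) D).continuousAt.eventually (hU.mem_nhds hxU)
  have h2 : ∀ᶠ p : ℝ × T n in 𝓝 (s, y), φ n (insert s D) p ∈ V :=
    (continuous_chart (φ := φ n) (insert s D)).continuousAt.eventually (hV.mem_nhds hyV)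
  rw [nhds_prod_eq] at h1 h2
  obtain ⟨P, hP, Q, hQ, hPQ⟩ := Filter.eventually_prod_iff.mp h1
  obtain ⟨P', hP', Q', hQ', hPQ'⟩ := Filter.eventually_prod_iff.mp h2
  obtain ⟨δ, hδ, hball⟩ := Metric.eventually_nhds_iff.mp (hP.and hP')
  have h3 : ∀ᶠ t in 𝓝 (y - x), Q' (x + t) := by
    have h4 : Tendsto (fun t => x + t) (𝓝 (y - x)) (𝓝 y) := by
      have : Continuous (fun t : T n => x + t) := by fun_prop
      have h5 := this.tendsto (y - x)
      simpa using h5
    exact h4.eventually hQ'
  obtain ⟨r, hr0, hrδ, hr⟩ := w_dense n (y - x) {t | Q' (x + t)} h3 δ hδ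
  have hr' : Q' (x + w n r) := hr
  have hd : dist (s - r) s < δ := by
    rw [Real.dist_eq]
    simpa [abs_of_pos hr0] using hrδ
  refine ⟨φ n D (s - r, x), hPQ (hball hd).1 hQ.self_of_nhds, ?_⟩
  have h6 : φ n D (s - r, x) = φ n (insert s D) (s - r, x + w n r) := by
    rw [φ_eq_iff]
    refine ⟨rfl, ?_, ?_⟩
    · simp only
      rw [Finset.filter_insert, if_neg (by linarith)]
    · simp only
      rw [c_insert n hs]
      have : s - (s - r) = r := by ring
      rw [this]
      abel
  rw [h6]
  exact hPQ' (hball hd).2 hr'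

lemma NH_eq (n : ℕ) (z : M n) :
    NH n z = range (fun t : T n => φ n (symmDiff z.1.2.1 {z.1.1}) (z.1.1, t)) := by
  let _ := topo (φ n)
  obtain ⟨⟨s, D, x⟩, hz⟩ := z
  simp only at hz ⊢
  have hzφ : (⟨(s, D, x), hz⟩ : M n) = φ n D (s, x) := (φ_mk (n := n) ⟨(s, D, x), hz⟩).symm
  ext y
  constructor
  · rintro ⟨hne, hy⟩
    obtain ⟨⟨s', D', x'⟩, hz'⟩ := y
    simp only at hz'
    have hyφ : (⟨(s', D', x'), hz'⟩ : M n) = φ n D' (s', x') := (φ_mk (n := n) ⟨(s', D', x'), hz'⟩).symm
    -- equal times
    have hs : s' = s := by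
      by_contra hss
      obtain ⟨A, B, hA, hB, h1, h2, h3⟩ := t2_separation hss
      obtain ⟨m, hm1, hm2⟩ := hy _ _ (hA.preimage (continuous_time n)) (hB.preimage (continuous_time n))
        h1 h2
      exact (Set.disjoint_left.mp h3) hm1 hm2
    subst hs
    -- different sets
    have hDne : D' ≠ D := by
      intro hDD
      subst hDD
      have hxx : x' ≠ x := by
        intro h
        apply hne
        subst h
        rfl
      obtain ⟨A, B, hA, hB, h1, h2, h3⟩ := t2_separation hxx
      obtain ⟨m, hm1, hm2⟩ := hy (φ n D' '' (univ ×ˢ A)) (φ n D' '' (univ ×ˢ B))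
        (isOpenMap_chart (isAtlas n) D' _ (isOpen_univ.prod hA))
        (isOpenMap_chart (isAtlas n) D' _ (isOpen_univ.prod hB))
        ⟨(s', x'), ⟨trivial, h1⟩, hyφ.symm⟩ ⟨(s', x), ⟨trivial, h2⟩, hzφ.symm⟩
      obtain ⟨p, hp, rfl⟩ := hm1
      obtain ⟨q, hq, hpq⟩ := hm2
      have := (isAtlas n).inj D' hpq
      subst this
      exact (Set.disjoint_left.mp h3) hp.2 hq.2
    -- agreement below
    have hagree : ∀ v, v < s' → (v ∈ D' ↔ v ∈ D) := by
      intro v hv
      obtain ⟨m, hm1, hm2⟩ := hy (φ n D' '' (Ioi v ×ˢ univ)) (φ n D '' (Ioi v ×ˢ univ))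
        (isOpenMap_chart (isAtlas n) D' _ (isOpen_Ioi.prod isOpen_univ))
        (isOpenMap_chart (isAtlas n) D _ (isOpen_Ioi.prod isOpen_univ))
        ⟨(s', x'), ⟨hv, trivial⟩, hyφ.symm⟩ ⟨(s', x), ⟨hv, trivial⟩, hzφ.symm⟩
      obtain ⟨p, hp, rfl⟩ := hm1
      obtain ⟨q, hq, hpq⟩ := hm2
      rw [φ_eq_iff] at hpq
      obtain ⟨h1, h2, _⟩ := hpq
      have h3 := congrArg (fun S => v ∈ S) h2
      have hp1 : v < p.1 := hp.1
      have hq1 : v < q.1 := hq.1
      simp only [Finset.mem_filter, hp1.le, hq1.le, and_true] at h3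
      rw [h3]
    have hD' : D' = symmDiff D {s'} := by
      have hkey : ¬ (s' ∈ D' ↔ s' ∈ D) := by
        intro hk
        apply hDne
        ext v
        rcases lt_trichotomy v s' with h | h | h
        · exact hagree v h
        · rw [h]; exact hk
        · constructor
          · intro hv
            have := hz' v hv
            linarith
          · intro hv
            have := hz v hv
            linarith
      ext v
      rw [Finset.mem_symmDiff, Finset.mem_singleton]
      rcases lt_trichotomy v s' with h | h | h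
      · rw [hagree v h]
        have : v ≠ s' := h.ne
        tauto
      · rw [h]
        tauto
      · have h1 : v ∉ D' := fun hv => by
          have := hz' v hv
          linarith
        have h2 : v ∉ D := fun hv => by
          have := hz v hv
          linarith
        have : v ≠ s' := h.ne'
        tauto
    refine ⟨x', ?_⟩
    simp only
    rw [← hD']
    exact hyφ.symm
  · rintro ⟨t, rfl⟩
    simp only
    by_cases hs : s ∈ D
    · have hD : D = insert s (symmDiff D {s}) := by
        ext v
        rw [Finset.mem_insert, Finset.mem_symmDiff, Finset.mem_singleton]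
        by_cases hv : v = s
        · subst hv; simp [hs]
        · simp [hv]
      have hns : s ∉ symmDiff D {s} := by
        rw [Finset.mem_symmDiff, Finset.mem_singleton]
        simp [hs]
      refine ⟨?_, ?_⟩
      · intro h
        have h1 := congrArg (fun m : M n => s ∈ m.1.2.1) h
        simp only [φ, Finset.mem_filter, le_refl, and_true] at h1
        rw [h1] at hns
        exact hns hs
      · intro U V hU hV hyU hzV
        rw [hzφ] at hzV
        rw [hD] at hzV
        exact meet n hns t x hU hV hyU hzV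
    · have hD : symmDiff D {s} = insert s D := by
        ext v
        rw [Finset.mem_insert, Finset.mem_symmDiff, Finset.mem_singleton]
        by_cases hv : v = s
        · subst hv; simp [hs]
        · simp [hv]
      refine ⟨?_, ?_⟩
      · intro h
        have h1 := congrArg (fun m : M n => s ∈ m.1.2.1) h
        rw [hD] at h1
        simp only [φ, Finset.mem_filter, le_refl, and_true, Finset.mem_insert, true_or] at h1
        rw [← h1] at hs
        exact hs trivial
      · intro U V hU hV hyU hzV
        rw [hzφ] at hzV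
        rw [hD] at hyU
        rw [inter_comm]
        exact meet n hs x t hV hU hzV hyU

lemma NH_homeo (n : ℕ) (z : M n) :
    Nonempty (@Homeomorph (NH n z) (T n) (@instTopologicalSpaceSubtype _ _ (topo (φ n))) _) := by
  let _ := topo (φ n)
  have h1 : IsEmbedding (fun t : T n => φ n (symmDiff z.1.2.1 {z.1.1}) (z.1.1, t)) :=
    (isOpenEmbedding_chart (isAtlas n) _).isEmbedding.comp (isEmbedding_prodMkRight _)
  exact ⟨(h1.toHomeomorph.trans (Homeomorph.setCongr (NH_eq n z).symm)).symm⟩

end Pool.Agent.Helper84.TorusMfd
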